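import Pool.Agent.VCC.Targets

/-!
# VCC-C2A: chain 2, shift `e_j - 2 e_i`, 3-blocks
-/

set_option autoImplicit false

namespace Pool.Agent.VCC

namespace C2A_

variable {k : Type*} [Field k]

theorem f3cases (a d : Fin 3) : d = a ∨ d = a + 1 ∨ d = a + 2 := by revert a d; decide

theorem n1 (l : Fin 3) : l + 1 ≠ l := by revert l; decide
theorem n2 (l : Fin 3) : l + 2 ≠ l := by revert l; decide
theorem n3 (l : Fin 3) : l ≠ l + 2 := by revert l; decide
theorem n4 (l : Fin 3) : l + 1 ≠ l + 2 := by revert l; decide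
theorem n5 (l : Fin 3) : l ≠ l + 1 := by revert l; decide
theorem n6 (l : Fin 3) : l + 2 ≠ l + 1 := by revert l; decide

/-- pure algebra, `i < j` -/
theorem algA {β : k} (hβ : β ≠ 0) (Φ : Fin 3 → Fin 3 → Fin 3 → k)
    (hs : ∀ a b d, Φ a b d = Φ b a d)
    (h : ∀ l a b c, (if a = l then β * Φ b c l else 0) - (if a = l + 2 then Φ b c (l + 1) else 0) =
      (if b = l then β * Φ a c l else 0) - (if b = l + 2 then Φ a c (l + 1) else 0)) :
    ∀ a b d, Φ a b d = 0 := by
  have h1 : ∀ l c, Φ (l + 1) c l = 0 := by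
    intro l c
    have := h l l (l + 1) c
    simp only [if_true, n1, n3, n4, if_false, sub_zero, mul_eq_zero, hβ, false_or] at this
    exact this
  have h2 : ∀ l c, Φ (l + 1) c (l + 1) = 0 := by
    intro l c
    have := h l (l + 1) (l + 2) c
    simp only [if_true, n1, n2, n4, if_false, sub_zero, zero_sub] at this
    exact neg_eq_zero.1 this.symm
  have h2' : ∀ a c, Φ a c a = 0 := by
    intro a c
    have := h2 (a + 2) c
    rwa [f3b] at this
  have h3 : ∀ l, Φ l l (l + 1) = 0 := by
    intro l
    have := h l l (l + 2) l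
    simp only [if_true, n2, n3, if_false, sub_zero, zero_sub] at this
    rw [hs (l + 2) l l, h2' l (l + 2), mul_zero] at this
    exact neg_eq_zero.1 this.symm
  intro a b d
  rcases f3cases a d with rfl | rfl | rfl
  · exact h2' _ _
  · rcases f3cases a b with rfl | rfl | rfl
    · exact h3 _
    · rw [hs]; exact h2' _ _
    · rw [hs]
      have := h1 (a + 1) a
      rwa [f3d] at this
  · have := h1 (a + 2) b
    rwa [f3b] at this

/-- pure algebra, `j < i` -/
theorem algB {β : k} (hβ : β ≠ 0) (Φ : Fin 3 → Fin 3 → Fin 3 → k)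
    (hs : ∀ a b d, Φ a b d = Φ b a d)
    (h : ∀ l a b c, (if a = l then β * Φ b c l else 0) - (if a = l + 1 then Φ b c (l + 2) else 0) =
      (if b = l then β * Φ a c l else 0) - (if b = l + 1 then Φ a c (l + 2) else 0)) :
    ∀ a b d, Φ a b d = 0 := by
  have h1 : ∀ l c, Φ (l + 2) c l = 0 := by
    intro l c
    have := h l l (l + 2) c
    simp only [if_true, n2, n5, n6, if_false, sub_zero, mul_eq_zero, hβ, false_or] at this
    exact this
  have h2 : ∀ l c, Φ (l + 2) c (l + 2) = 0 := by
    intro l c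
    have := h l (l + 1) (l + 2) c
    simp only [if_true, n1, n2, n6, if_false, sub_zero, zero_sub] at this
    exact neg_eq_zero.1 this
  have h2' : ∀ a c, Φ a c a = 0 := by
    intro a c
    have := h2 (a + 1) c
    rwa [f3c] at this
  have h3 : ∀ l, Φ l l (l + 2) = 0 := by
    intro l
    have := h l l (l + 1) l
    simp only [if_true, n1, n5, if_false, sub_zero, zero_sub] at this
    rw [hs (l + 1) l l, h2' l (l + 1), mul_zero] at this
    exact neg_eq_zero.1 this.symm
  intro a b d
  rcases f3cases a d with rfl | rfl | rfl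
  · exact h2' _ _
  · have := h1 (a + 1) b
    rwa [f3c] at this
  · rcases f3cases a b with rfl | rfl | rfl
    · exact h3 _
    · rw [hs]
      have := h1 (a + 2) a
      rwa [f3a] at this
    · rw [hs]; exact h2' _ _

end C2A_

open C2A_ in
theorem p_C2A (k : Type*) [Field k] [CharZero k] : T_C2A k := by
  intro m t φ hE hN i j hij
  rcases lt_or_gt_of_ne hij with h | h
  · refine algA (be_ne (k := k) j) (fun a b d => φ.s2 i a b (xx j d)) (fun a b d => ?_) ?_
    · show φ.s2 i a b (xx j d) = φ.s2 i b a (xx j d)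
      rw [hN.ss]
    · intro l a b c
      have h1 := (hE _ (pfN_min2 (t := t) h l)).E1 i a b c
      rw [ff_pf_row h.ne, ff_pf_row h.ne, mN_row, mN_row] at h1
      exact h1
  · refine algB (be_ne (k := k) i) (fun a b d => φ.s2 i a b (xx j d)) (fun a b d => ?_) ?_
    · show φ.s2 i a b (xx j d) = φ.s2 i b a (xx j d)
      rw [hN.ss]
    · intro l a b c
      have h1 := (hE _ (pfN_min2 (t := t) h l)).E1 i a b c
      rw [ff_pf_col h.ne, ff_pf_col h.ne, mN_col, mN_col] at h1
      exact h1

end Pool.Agent.VCC
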