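import Pool.Agent.VCC.Targets

/-!
# C2B: chain 2, shift `- e_i`, 3-blocks
-/

set_option autoImplicit false
set_option linter.unusedSimpArgs false

namespace Pool.Agent.VCC

namespace C2B_

variable {k : Type*} [Field k]

theorem g1 (l : Fin 3) : (l = l + 1) = False := by revert l; decide
theorem g2 (l : Fin 3) : (l = l + 2) = False := by revert l; decide
theorem g3 (l : Fin 3) : (l + 1 = l) = False := by revert l; decide
theorem g4 (l : Fin 3) : (l + 2 = l) = False := by revert l; decide
theorem g5 (l : Fin 3) : (l + 1 = l + 2) = False := by revert l; decide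
theorem g6 (l : Fin 3) : (l + 2 = l + 1) = False := by revert l; decide

theorem core1 {β : k} (hβ : β ≠ 0) (hβ3 : β ^ 3 ≠ 1) (Φ : Fin 3 → Fin 3 → Fin 3 → k)
    (P : Fin 3 → Fin 3 → k) (hs : ∀ a b c, Φ a b c = Φ b a c)
    (hv : ∀ a, Φ a (a + 1) (a + 1) = 0) (hw : ∀ a, Φ a (a + 2) (a + 2) = 0)
    (h : ∀ l e c, ((if c = l then β * Φ e c l else 0) -
        (if c = l + 1 then Φ e c (l + 2) else 0)) +
      β * ((if c + 1 = l then β * Φ e (c + 2) l else 0) -
        (if c + 1 = l + 1 then Φ e (c + 2) (l + 2) else 0)) =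
      (if e = l then β * P c l else 0) - (if e = l + 2 then P c (l + 1) else 0)) :
    (∀ a b c, Φ a b c = 0) ∧ ∀ c d, P c d = 0 := by
  have a2 : ∀ a, Φ a a (a + 1) = 0 := by
    intro a
    have := h (a + 2) a a
    simp only [g1, g2, g3, g4, g5, g6, f3a, f3b, f3c, f3d, if_false, if_true] at this
    linear_combination -this
  have a3 : ∀ a, Φ a a (a + 2) = 0 := by
    intro a
    have := h (a + 2) a (a + 1)
    simp only [g1, g2, g3, g4, g5, g6, f3a, f3b, f3c, f3d, if_false, if_true] at this
    have h2 : β ^ 2 * Φ a a (a + 2) = 0 := by linear_combination this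
    exact (mul_eq_zero.1 h2).resolve_left (pow_ne_zero _ hβ)
  have b4 : ∀ l, P l l = Φ l l l := by
    intro l
    have := h l l l
    simp only [g1, g2, g3, g4, g5, g6, f3a, f3b, f3c, f3d, if_false, if_true] at this
    have e1 : Φ l (l + 2) (l + 2) = 0 := hw l
    have h2 : β * (P l l - Φ l l l) = 0 := by linear_combination -this - β * e1
    exact sub_eq_zero.1 ((mul_eq_zero.1 h2).resolve_left hβ)
  have b5 : ∀ l, β * P (l + 1) l = - Φ l (l + 1) (l + 2) := by
    intro l
    have := h l l (l + 1)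
    simp only [g1, g2, g3, g4, g5, g6, f3a, f3b, f3c, f3d, if_false, if_true] at this
    linear_combination -this
  have b6 : ∀ l, P (l + 2) l = 0 := by
    intro l
    have := h l l (l + 2)
    simp only [g1, g2, g3, g4, g5, g6, f3a, f3b, f3c, f3d, if_false, if_true] at this
    have e1 : Φ l (l + 1) l = 0 := by
      rw [hs]
      have := hw (l + 1)
      simpa only [f3a, f3b, f3c, f3d] using this
    have h2 : β * P (l + 2) l = 0 := by linear_combination -this + β ^ 2 * e1
    exact (mul_eq_zero.1 h2).resolve_left hβ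
  have b8 : ∀ l, P l l = 0 := by
    intro l
    have := h (l + 2) (l + 1) l
    simp only [g1, g2, g3, g4, g5, g6, f3a, f3b, f3c, f3d, if_false, if_true] at this
    have e1 : Φ (l + 1) l (l + 1) = 0 := by
      rw [hs]
      exact hv l
    linear_combination this + e1
  have b7 : ∀ l, P l (l + 1) = 0 := by
    intro l
    have := h l (l + 2) l
    simp only [g1, g2, g3, g4, g5, g6, f3a, f3b, f3c, f3d, if_false, if_true] at this
    have e1 : Φ (l + 2) l l = 0 := by
      have := hv (l + 2)
      simpa only [f3a, f3b, f3c, f3d] using this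
    have e2 : Φ (l + 2) (l + 2) (l + 2) = 0 := by rw [← b4, b8]
    linear_combination this - β * e1 + β * e2
  have b9 : ∀ l, β ^ 2 * Φ (l + 2) (l + 1) l = - P (l + 2) (l + 1) := by
    intro l
    have := h l (l + 2) (l + 2)
    simp only [g1, g2, g3, g4, g5, g6, f3a, f3b, f3c, f3d, if_false, if_true] at this
    linear_combination this
  have c1 : ∀ l, Φ (l + 1) (l + 2) l = 0 := by
    intro l
    have e1 := b5 (l + 1)
    simp only [f3a, f3b, f3c, f3d] at e1
    have e2 := b9 l
    rw [hs (l + 2) (l + 1) l] at e2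
    have h2 : (β ^ 3 - 1) * Φ (l + 1) (l + 2) l = 0 := by linear_combination β * e2 - e1
    exact (mul_eq_zero.1 h2).resolve_left (sub_ne_zero.2 hβ3)
  have c2 : ∀ l, P (l + 2) (l + 1) = 0 := by
    intro l
    have e2 := b9 l
    rw [hs (l + 2) (l + 1) l, c1, mul_zero] at e2
    linear_combination e2
  have c3 : ∀ l, Φ l l l = 0 := fun l => by rw [← b4, b8]
  have tri : ∀ a b : Fin 3, b = a ∨ b = a + 1 ∨ b = a + 2 := by decide
  have d1 : ∀ a c, Φ a (a + 1) c = 0 := by
    intro a c
    rcases tri a c with rfl | rfl | rfl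
    · rw [hs]
      have := hw (c + 1)
      simpa only [f3a, f3b, f3c, f3d] using this
    · exact hv a
    · have := c1 (a + 2)
      simp only [f3a, f3b, f3c, f3d] at this
      exact this
  constructor
  · intro a b c
    rcases tri a b with rfl | rfl | rfl
    · rcases tri b c with rfl | rfl | rfl
      · exact c3 _
      · exact a2 _
      · exact a3 _
    · exact d1 a c
    · rw [hs]
      have := d1 (a + 2) c
      simpa only [f3a, f3b, f3c, f3d] using this
  · intro c d
    rcases tri c d with rfl | rfl | rfl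
    · exact b8 _
    · exact b7 _
    · have := c2 (c + 1)
      simpa only [f3a, f3b, f3c, f3d] using this

theorem core2 {β : k} (hβ : β ≠ 0) (hβ3 : β ^ 3 ≠ 1) (Φ : Fin 3 → Fin 3 → Fin 3 → k)
    (P : Fin 3 → Fin 3 → k) (hs : ∀ a b c, Φ a b c = Φ b a c)
    (hv : ∀ a, Φ a (a + 1) (a + 1) = 0) (hw : ∀ a, Φ a (a + 2) (a + 2) = 0)
    (h : ∀ l e c, ((if c = l then β * Φ e c l else 0) -
        (if c = l + 2 then Φ e c (l + 1) else 0)) +
      β * ((if c + 2 = l then β * Φ e (c + 1) l else 0) -
        (if c + 2 = l + 2 then Φ e (c + 1) (l + 1) else 0)) =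
      (if e = l then β * P c l else 0) - (if e = l + 1 then P c (l + 2) else 0)) :
    (∀ a b c, Φ a b c = 0) ∧ ∀ c d, P c d = 0 := by
  have a2 : ∀ a, Φ a a (a + 2) = 0 := by
    intro a
    have := h (a + 1) a a
    simp only [g1, g2, g3, g4, g5, g6, f3a, f3b, f3c, f3d, if_false, if_true] at this
    linear_combination -this
  have a3 : ∀ a, Φ a a (a + 1) = 0 := by
    intro a
    have := h (a + 1) a (a + 2)
    simp only [g1, g2, g3, g4, g5, g6, f3a, f3b, f3c, f3d, if_false, if_true] at this
    have h2 : β ^ 2 * Φ a a (a + 1) = 0 := by linear_combination this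
    exact (mul_eq_zero.1 h2).resolve_left (pow_ne_zero _ hβ)
  have b4 : ∀ l, P l l = Φ l l l := by
    intro l
    have := h l l l
    simp only [g1, g2, g3, g4, g5, g6, f3a, f3b, f3c, f3d, if_false, if_true] at this
    have e1 : Φ l (l + 1) (l + 1) = 0 := hv l
    have h2 : β * (P l l - Φ l l l) = 0 := by linear_combination -this - β * e1
    exact sub_eq_zero.1 ((mul_eq_zero.1 h2).resolve_left hβ)
  have b5 : ∀ l, β * P (l + 2) l = - Φ l (l + 2) (l + 1) := by
    intro l
    have := h l l (l + 2)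
    simp only [g1, g2, g3, g4, g5, g6, f3a, f3b, f3c, f3d, if_false, if_true] at this
    linear_combination -this
  have b6 : ∀ l, P (l + 1) l = 0 := by
    intro l
    have := h l l (l + 1)
    simp only [g1, g2, g3, g4, g5, g6, f3a, f3b, f3c, f3d, if_false, if_true] at this
    have e1 : Φ l (l + 2) l = 0 := by
      rw [hs]
      have := hv (l + 2)
      simpa only [f3a, f3b, f3c, f3d] using this
    have h2 : β * P (l + 1) l = 0 := by linear_combination -this + β ^ 2 * e1
    exact (mul_eq_zero.1 h2).resolve_left hβ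
  have b8 : ∀ l, P l l = 0 := by
    intro l
    have := h (l + 1) (l + 2) l
    simp only [g1, g2, g3, g4, g5, g6, f3a, f3b, f3c, f3d, if_false, if_true] at this
    have e1 : Φ (l + 2) l (l + 2) = 0 := by
      rw [hs]
      exact hw l
    linear_combination this + e1
  have b7 : ∀ l, P l (l + 2) = 0 := by
    intro l
    have := h l (l + 1) l
    simp only [g1, g2, g3, g4, g5, g6, f3a, f3b, f3c, f3d, if_false, if_true] at this
    have e1 : Φ (l + 1) l l = 0 := by
      have := hw (l + 1)
      simpa only [f3a, f3b, f3c, f3d] using this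
    have e2 : Φ (l + 1) (l + 1) (l + 1) = 0 := by rw [← b4, b8]
    linear_combination this - β * e1 + β * e2
  have b9 : ∀ l, β ^ 2 * Φ (l + 1) (l + 2) l = - P (l + 1) (l + 2) := by
    intro l
    have := h l (l + 1) (l + 1)
    simp only [g1, g2, g3, g4, g5, g6, f3a, f3b, f3c, f3d, if_false, if_true] at this
    linear_combination this
  have c1 : ∀ l, Φ (l + 2) (l + 1) l = 0 := by
    intro l
    have e1 := b5 (l + 2)
    simp only [f3a, f3b, f3c, f3d] at e1
    have e2 := b9 l
    rw [hs (l + 1) (l + 2) l] at e2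
    have h2 : (β ^ 3 - 1) * Φ (l + 2) (l + 1) l = 0 := by linear_combination β * e2 - e1
    exact (mul_eq_zero.1 h2).resolve_left (sub_ne_zero.2 hβ3)
  have c2 : ∀ l, P (l + 1) (l + 2) = 0 := by
    intro l
    have e2 := b9 l
    rw [hs (l + 1) (l + 2) l, c1, mul_zero] at e2
    linear_combination e2
  have c3 : ∀ l, Φ l l l = 0 := fun l => by rw [← b4, b8]
  have tri : ∀ a b : Fin 3, b = a ∨ b = a + 1 ∨ b = a + 2 := by decide
  have d1 : ∀ a c, Φ a (a + 2) c = 0 := by
    intro a c
    rcases tri a c with rfl | rfl | rfl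
    · rw [hs]
      have := hv (c + 2)
      simpa only [f3a, f3b, f3c, f3d] using this
    · have := c1 (a + 1)
      simp only [f3a, f3b, f3c, f3d] at this
      exact this
    · exact hw a
  constructor
  · intro a b c
    rcases tri a b with rfl | rfl | rfl
    · rcases tri b c with rfl | rfl | rfl
      · exact c3 _
      · exact a3 _
      · exact a2 _
    · rw [hs]
      have := d1 (a + 1) c
      simpa only [f3a, f3b, f3c, f3d] using this
    · exact d1 a c
  · intro c d
    rcases tri c d with rfl | rfl | rfl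
    · exact b8 _
    · have := c2 (c + 2)
      simpa only [f3a, f3b, f3c, f3d] using this
    · exact b7 _

theorem be_cube_ne_one [CharZero k] {m : ℕ} (j : Fin m) : be k j ^ 3 ≠ 1 := by
  unfold be
  have : (((j : ℕ) : k) + 2) ^ 3 = ((((j : ℕ) + 2) ^ 3 : ℕ) : k) := by push_cast; ring
  rw [this]
  have h8 : 8 ≤ ((j : ℕ) + 2) ^ 3 := by
    calc 8 = 2 ^ 3 := by norm_num
      _ ≤ ((j : ℕ) + 2) ^ 3 := Nat.pow_le_pow_left (by omega) 3
  exact_mod_cast (by omega : ((j : ℕ) + 2) ^ 3 ≠ 1)

variable {m t : ℕ}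

theorem lt_case [CharZero k] {φ : Dat2 m t k} (hE : HypE2 φ) (hN : Nrm2 φ) {i j : Fin m}
    (hij : i < j) : (∀ a b c, φ.s2 i a b (xx i c) = 0) ∧ ∀ c a, φ.p i j c (xx j a) = 0 := by
  have hne := hij.ne
  have h : ∀ l e c : Fin 3, ((if c = l then be k j * φ.s2 i e c (xx i l) else 0) -
        (if c = l + 1 then φ.s2 i e c (xx i (l + 2)) else 0)) +
      be k j * ((if c + 1 = l then be k j * φ.s2 i e (c + 2) (xx i l) else 0) -
        (if c + 1 = l + 1 then φ.s2 i e (c + 2) (xx i (l + 2)) else 0)) =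
      (if e = l then be k j * φ.p i j c (xx j l) else 0) -
        (if e = l + 2 then φ.p i j c (xx j (l + 1)) else 0) := by
    intro l e c
    have h1 := (hE (pf i j (mN (be k j) l)) (pfN_min2 hij l)).E2 i j hij e c
    rw [ff_pf_col hne, ff_pf_col hne, ff_pf_row hne] at h1
    rw [mN_col (be k j) l c (fun a => φ.s2 i e c (xx i a)),
      mN_col (be k j) l (c + 1) (fun a => φ.s2 i e (c + 2) (xx i a)),
      mN_row (be k j) l e (fun b => φ.p i j c (xx j b))] at h1
    exact h1
  have hw : ∀ a, φ.s2 i a (a + 2) (xx i (a + 2)) = 0 := by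
    intro a
    have h1 := h (a + 2) a (a + 2)
    simp only [g1, g2, g3, g4, g5, g6, f3a, f3b, f3c, f3d, if_false, if_true] at h1
    have h2 := hN.n1 i a
    have h3 : be k j * φ.s2 i a (a + 2) (xx i (a + 2)) = 0 := by
      linear_combination h1 + be k j * h2
    exact (mul_eq_zero.1 h3).resolve_left (be_ne j)
  obtain ⟨h1, h2⟩ := core1 (be_ne j) (be_cube_ne_one j) (fun a b c => φ.s2 i a b (xx i c))
    (fun c d => φ.p i j c (xx j d)) (fun a b c => by
      show φ.s2 i a b (xx i c) = φ.s2 i b a (xx i c)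
      rw [hN.ss]) (fun a => hN.n1 i a) hw h
  exact ⟨h1, fun c a => h2 c a⟩

theorem gt_case [CharZero k] {φ : Dat2 m t k} (hE : HypE2 φ) (hN : Nrm2 φ) {i j : Fin m}
    (hij : i < j) : (∀ a b c, φ.s2 j a b (xx j c) = 0) ∧ ∀ c a, φ.p i j c (xx i a) = 0 := by
  have hne := hij.ne
  have h : ∀ l e c : Fin 3, ((if c = l then be k j * φ.s2 j e c (xx j l) else 0) -
        (if c = l + 2 then φ.s2 j e c (xx j (l + 1)) else 0)) +
      be k j * ((if c + 2 = l then be k j * φ.s2 j e (c + 1) (xx j l) else 0) -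
        (if c + 2 = l + 2 then φ.s2 j e (c + 1) (xx j (l + 1)) else 0)) =
      (if e = l then be k j * φ.p i j c (xx i l) else 0) -
        (if e = l + 1 then φ.p i j c (xx i (l + 2)) else 0) := by
    intro l e c
    have h1 := (hE (pf i j (mN (be k j) l)) (pfN_min2 hij l)).E2' i j hij e c
    rw [ff_pf_row hne, ff_pf_row hne, ff_pf_col hne] at h1
    rw [mN_row (be k j) l c (fun a => φ.s2 j e c (xx j a)),
      mN_row (be k j) l (c + 2) (fun a => φ.s2 j e (c + 1) (xx j a)),
      mN_col (be k j) l e (fun b => φ.p i j c (xx i b))] at h1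
    exact h1
  have hw : ∀ a, φ.s2 j a (a + 2) (xx j (a + 2)) = 0 := by
    intro a
    have h1 := h (a + 1) a (a + 1)
    simp only [g1, g2, g3, g4, g5, g6, f3a, f3b, f3c, f3d, if_false, if_true] at h1
    have h2 := hN.n1 j a
    have h3 : be k j * φ.s2 j a (a + 2) (xx j (a + 2)) = 0 := by
      linear_combination -h1 + be k j * h2
    exact (mul_eq_zero.1 h3).resolve_left (be_ne j)
  obtain ⟨h1, h2⟩ := core2 (be_ne j) (be_cube_ne_one j) (fun a b c => φ.s2 j a b (xx j c))
    (fun c d => φ.p i j c (xx i d)) (fun a b c => by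
      show φ.s2 j a b (xx j c) = φ.s2 j b a (xx j c)
      rw [hN.ss]) (fun a => hN.n1 j a) hw h
  exact ⟨h1, fun c a => h2 c a⟩

end C2B_

open C2B_ in
theorem p_C2B (k : Type*) [Field k] [CharZero k] : T_C2B k := by
  intro m t φ hm hE hN
  refine ⟨fun i a b c => ?_, fun i j hij c a => ⟨(gt_case hE hN hij).2 c a,
    (lt_case hE hN hij).2 c a⟩⟩
  by_cases hi : (i : ℕ) = 0
  · have h1 : i < (⟨1, by omega⟩ : Fin m) := by
      rw [Fin.lt_def, hi]
      exact Nat.zero_lt_one
    exact (lt_case hE hN h1).1 a b c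
  · have h1 : (⟨0, by omega⟩ : Fin m) < i := by
      rw [Fin.lt_def]
      exact Nat.pos_of_ne_zero hi
    exact (gt_case hE hN h1).1 a b c

end Pool.Agent.VCC
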