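import Pool.Agent.VCC.Targets

/-!
# C2C: chain 2, the other components of `p`, `q`, `e`
-/

set_option autoImplicit false

namespace Pool.Agent.VCC

namespace C2C_

variable {m t : ℕ} {k : Type*} [Field k] [CharZero k]

/-- The functionals between the blocks `i` and `l` detect the components at `l`. -/
theorem sep1 {i l : Fin m} (hil : i ≠ l) (u : Ix m t → k)
    (h : ∀ F : Ix m t → Ix m t → k, InMin2 F → (∀ j, j ≠ i → j ≠ l → ∀ c v, ff F (xx j c) v = 0) →
      (∀ s b v, ff F (zz s b) v = 0) → ∀ d, ff F (xx i d) u = 0) (a : Fin 3) :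
    u (xx l a) = 0 := by
  rcases lt_or_gt_of_ne hil with h1 | h1
  · have h2 := h (pf i l (mN (be k l) a)) (pfN_min2 h1 a)
      (fun j h3 h4 c v => ff_pf_other h3 h4 _ c v) (fun s b v => ff_pf_z _ s b v) a
    rw [ff_pf_row hil, mN_row (be k l) a a fun b => u (xx l b), if_pos rfl,
      if_neg (by fin_cases a <;> decide), sub_zero] at h2
    exact (mul_eq_zero.1 h2).resolve_left (be_ne l)
  · have h2 := h (pf l i (mN (be k i) a)) (pfN_min2 h1 a)
      (fun j h3 h4 c v => ff_pf_other h4 h3 _ c v) (fun s b v => ff_pf_z _ s b v) a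
    rw [ff_pf_col hil.symm, mN_col (be k i) a a fun b => u (xx l b), if_pos rfl,
      if_neg (by fin_cases a <;> decide), sub_zero] at h2
    exact (mul_eq_zero.1 h2).resolve_left (be_ne i)

omit [CharZero k] in
/-- The functionals between the block `i` and the 2-block `s` detect the components at `s`. -/
theorem sep2 (i : Fin m) (s : Fin t) (u : Ix m t → k)
    (h : ∀ F : Ix m t → Ix m t → k, InMin2 F → (∀ j, j ≠ i → ∀ c v, ff F (xx j c) v = 0) →
      (∀ s', s' ≠ s → ∀ b v, ff F (zz s' b) v = 0) → ∀ d, ff F (xx i d) u = 0) (b : Fin 2) :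
    u (zz s b) = 0 := by
  have h0 : ∀ M : Fin 3 → Fin 2 → k, InMin2 (pz i s M : Ix m t → Ix m t → k) → ∀ d,
      ff (pz i s M) (xx i d) u = 0 := fun M hM =>
    h (pz i s M) hM (fun j hj c v => ff_pz_other hj s _ c v)
      (fun s' hs' b v => ff_pz_other' i hs' _ b v)
  by_cases hi : (i : ℕ) = 0
  · have h1 := h0 mA1 (pzA_min2 i hi s).1
    have h2 := h1 0
    have h3 := h1 1
    rw [ff_pz_row, Fin.sum_univ_two] at h2 h3
    simp only [mA1, two] at h2 h3
    fin_cases b
    · simpa using h2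
    · simpa using h3
  · have h1 := h0 mB1 (pzB_min2 i hi s).1
    have h2 := h1 0
    have h3 := h1 1
    rw [ff_pz_row, Fin.sum_univ_two] at h2 h3
    simp only [mB1, mA1, two, Pi.sub_apply] at h2 h3
    fin_cases b
    · simpa using h2
    · simpa using h3

/-- The functionals between the block `a` and the 2-block `s` detect the components at `a`. -/
theorem sep3 (i : Fin m) (s : Fin t) (u : Ix m t → k)
    (h : ∀ F : Ix m t → Ix m t → k, InMin2 F →
      (∀ s', s' ≠ s → ∀ b v, ff F (zz s' b) v = 0) → ∀ d, ff F (zz s d) u = 0) (a : Fin 3) :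
    u (xx i a) = 0 := by
  have h0 : ∀ M : Fin 3 → Fin 2 → k, InMin2 (pz i s M : Ix m t → Ix m t → k) → ∀ d,
      ff (pz i s M) (zz s d) u = 0 := fun M hM =>
    h (pz i s M) hM (fun s' hs' b v => ff_pz_other' i hs' _ b v)
  by_cases hi : (i : ℕ) = 0
  · have h1 := h0 mA1 (pzA_min2 i hi s).1
    have h2 := h0 mA2 (pzA_min2 i hi s).2
    have e1 := h1 0
    have e2 := h2 0
    have e3 := h2 1
    rw [ff_pz_col, Fin.sum_univ_three] at e1 e2 e3
    simp only [mA1, mA2, two] at e1 e2 e3
    fin_cases a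
    · simpa using e1
    · simpa using e2
    · simpa using e3
  · have h1 := h0 mB1 (pzB_min2 i hi s).1
    have h2 := h0 mB2 (pzB_min2 i hi s).2
    have e1 := h1 0
    have e2 := h2 0
    have e3 := h2 1
    rw [ff_pz_col, Fin.sum_univ_three] at e1 e2 e3
    simp only [mB1, mB2, mA1, mA2, two, Pi.sub_apply] at e1 e2 e3
    simp at e1 e2 e3
    have e4 : 2 * u (xx i 0) = 0 := by linear_combination e1 - e3
    have e5 : u (xx i 0) = 0 := (mul_eq_zero.1 e4).resolve_left two_ne_zero
    fin_cases a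
    · exact e5
    · exact e2
    · show u (xx i 2) = 0
      linear_combination e5 - e1

end C2C_

theorem p_C2C (k : Type*) [Field k] [CharZero k] : T_C2C k := by
  intro m t φ hE
  refine ⟨?_, ?_, ?_, ?_, ?_⟩
  · intro i j l hij hli hlj c a
    refine C2C_.sep1 hli.symm _ (fun F hF h1 _ d => ?_) a
    have h3 := (hE F hF).E2 i j hij d c
    rw [h1 j hij.ne' hlj.symm, h1 j hij.ne' hlj.symm, mul_zero, add_zero] at h3
    exact h3.symm
  · intro i j s hij c b
    refine C2C_.sep2 i s _ (fun F hF h1 _ d => ?_) b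
    have h3 := (hE F hF).E2 i j hij d c
    rw [h1 j hij.ne', h1 j hij.ne', mul_zero, add_zero] at h3
    exact h3.symm
  · intro i j s hij d a
    refine C2C_.sep1 hij _ (fun F hF _ h2 c => ?_) a
    have h3 := (hE F hF).E3 i s c
    have h4 := (hE F hF).E4 i s c
    rw [h2, h2, add_zero] at h3 h4
    fin_cases d
    · exact h3.symm
    · exact h4.symm
  · intro i s s' hs d b
    refine C2C_.sep2 i s' _ (fun F hF _ h2 c => ?_) b
    have h3 := (hE F hF).E3 i s c
    have h4 := (hE F hF).E4 i s c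
    rw [h2 s hs, h2 s hs, add_zero] at h3 h4
    fin_cases d
    · exact h3.symm
    · exact h4.symm
  · intro a s s' hs b c
    refine C2C_.sep3 a s _ (fun F hF h1 d => ?_) c
    rw [(hE F hF).E7 s s' hs d b, h1 s' hs.symm]

end Pool.Agent.VCC
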