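import Pool.Agent.VCC.Targets

/-!
# VCC-C2D: chain 2, shifts `e_Z - 2 e_i`, `e_i - 2 e_Z`, `e_Z' - 2 e_Z`
-/

set_option autoImplicit false

namespace Pool.Agent.VCC

namespace C2D_

variable {k : Type*} [Field k] {m t : ℕ}

/-! ### rows of the patterns -/

theorem rA1 (u : Fin 2 → k) : (∑ b, mA1 0 b * u b = u 0) ∧ (∑ b, mA1 1 b * u b = - u 1) ∧
    (∑ b, mA1 2 b * u b = 0) := by
  simp [mA1, two]

theorem rA2 (u : Fin 2 → k) : (∑ b, mA2 0 b * u b = 0) ∧ (∑ b, mA2 1 b * u b = u 0) ∧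
    (∑ b, mA2 2 b * u b = - u 1) := by
  simp [mA2, two]

theorem rB1 (u : Fin 2 → k) : (∑ b, mB1 0 b * u b = u 0) ∧ (∑ b, mB1 1 b * u b = - u 1) ∧
    (∑ b, mB1 2 b * u b = - u 0) := by
  simp [mB1, mA1, two]

theorem rB2 (u : Fin 2 → k) : (∑ b, mB2 0 b * u b = - u 1) ∧ (∑ b, mB2 1 b * u b = u 0) ∧
    (∑ b, mB2 2 b * u b = - u 1) := by
  simp [mB2, mA2, two]

/-! ### the first claim -/

theorem part1A {φ : Dat2 m t k} (hE : HypE2 φ) (hN : Nrm2 φ) (i : Fin m) (hi : (i : ℕ) = 0)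
    (s : Fin t) (a b : Fin 3) (d : Fin 2) : φ.s2 i a b (zz s d) = 0 := by
  have hF1 : ∀ a b c, ∑ d, mA1 a d * φ.s2 i b c (zz s d) = ∑ d, mA1 b d * φ.s2 i a c (zz s d) := by
    intro a b c
    have h1 := (hE _ (pzA_min2 i hi s).1).E1 i a b c
    rwa [ff_pz_row, ff_pz_row] at h1
  have hF2 : ∀ a b c, ∑ d, mA2 a d * φ.s2 i b c (zz s d) = ∑ d, mA2 b d * φ.s2 i a c (zz s d) := by
    intro a b c
    have h1 := (hE _ (pzA_min2 i hi s).2).E1 i a b c
    rwa [ff_pz_row, ff_pz_row] at h1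
  have h20 : ∀ c, φ.s2 i 2 c (zz s 0) = 0 := by
    intro c
    have h := hF1 0 2 c
    rw [(rA1 _).1, (rA1 _).2.2] at h
    exact h
  have h21 : ∀ c, φ.s2 i 2 c (zz s 1) = 0 := by
    intro c
    have h := hF1 1 2 c
    rw [(rA1 _).2.1, (rA1 _).2.2] at h
    exact neg_eq_zero.1 h
  have h00 : ∀ c, φ.s2 i 0 c (zz s 0) = 0 := by
    intro c
    have h := hF2 0 1 c
    rw [(rA2 _).1, (rA2 _).2.1] at h
    exact h.symm
  have h01 : ∀ c, φ.s2 i 0 c (zz s 1) = 0 := by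
    intro c
    have h := hF2 0 2 c
    rw [(rA2 _).1, (rA2 _).2.2] at h
    exact neg_eq_zero.1 h.symm
  have h110 : φ.s2 i 1 1 (zz s 0) = 0 := by
    have h := hF1 0 1 1
    rw [(rA1 _).1, (rA1 _).2.1, h01, neg_zero] at h
    exact h
  have h111 : φ.s2 i 1 1 (zz s 1) = 0 := by
    have h := hF2 1 2 1
    rw [(rA2 _).2.1, (rA2 _).2.2, h20] at h
    exact neg_eq_zero.1 h.symm
  have h0 : ∀ c d, φ.s2 i 0 c (zz s d) = 0 := by
    intro c d
    fin_cases d
    · exact h00 c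
    · exact h01 c
  have h2 : ∀ c d, φ.s2 i 2 c (zz s d) = 0 := by
    intro c d
    fin_cases d
    · exact h20 c
    · exact h21 c
  have h11 : ∀ d, φ.s2 i 1 1 (zz s d) = 0 := by
    intro d
    fin_cases d
    · exact h110
    · exact h111
  fin_cases a
  · exact h0 b d
  · fin_cases b
    · show φ.s2 i 1 0 (zz s d) = 0
      rw [hN.ss]; exact h0 1 d
    · exact h11 d
    · show φ.s2 i 1 2 (zz s d) = 0
      rw [hN.ss]; exact h2 1 d
  · exact h2 b d

theorem part1B [CharZero k] {φ : Dat2 m t k} (hE : HypE2 φ) (i : Fin m) (hi : (i : ℕ) ≠ 0)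
    (s : Fin t) (a b : Fin 3) (d : Fin 2) : φ.s2 i a b (zz s d) = 0 := by
  have hF1 : ∀ a b c, ∑ d, mB1 a d * φ.s2 i b c (zz s d) = ∑ d, mB1 b d * φ.s2 i a c (zz s d) := by
    intro a b c
    have h1 := (hE _ (pzB_min2 i hi s).1).E1 i a b c
    rwa [ff_pz_row, ff_pz_row] at h1
  have hF2 : ∀ a b c, ∑ d, mB2 a d * φ.s2 i b c (zz s d) = ∑ d, mB2 b d * φ.s2 i a c (zz s d) := by
    intro a b c
    have h1 := (hE _ (pzB_min2 i hi s).2).E1 i a b c
    rwa [ff_pz_row, ff_pz_row] at h1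
  have key : ∀ c, φ.s2 i 0 c (zz s 0) = 0 ∧ φ.s2 i 0 c (zz s 1) = 0 ∧ φ.s2 i 1 c (zz s 0) = 0 ∧
      φ.s2 i 1 c (zz s 1) = 0 ∧ φ.s2 i 2 c (zz s 0) = 0 ∧ φ.s2 i 2 c (zz s 1) = 0 := by
    intro c
    have a1 := hF1 0 1 c
    have a2 := hF1 0 2 c
    have a3 := hF1 1 2 c
    have b1 := hF2 0 1 c
    have b2 := hF2 0 2 c
    have b3 := hF2 1 2 c
    rw [(rB1 _).1, (rB1 _).2.1] at a1
    rw [(rB1 _).1, (rB1 _).2.2] at a2
    rw [(rB1 _).2.1, (rB1 _).2.2] at a3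
    rw [(rB2 _).1, (rB2 _).2.1] at b1
    rw [(rB2 _).1, (rB2 _).2.2] at b2
    rw [(rB2 _).2.1, (rB2 _).2.2] at b3
    have two0 : (2 : k) ≠ 0 := two_ne_zero
    have e0 : φ.s2 i 0 c (zz s 0) = 0 := by
      have : 2 * φ.s2 i 0 c (zz s 0) = 0 := by linear_combination a2 - b3 - b1
      exact (mul_eq_zero.1 this).resolve_left two0
    have e1 : φ.s2 i 0 c (zz s 1) = 0 := by
      have : 2 * φ.s2 i 0 c (zz s 1) = 0 := by linear_combination a1 - a3 + b2
      exact (mul_eq_zero.1 this).resolve_left two0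
    refine ⟨e0, e1, ?_, ?_, ?_, ?_⟩
    · rw [a1, e1, neg_zero]
    · linear_combination -b1 - e0
    · rw [a2, e0, neg_zero]
    · linear_combination -b2 + e1
  obtain ⟨k1, k2, k3, k4, k5, k6⟩ := key b
  fin_cases a <;> fin_cases d
  exacts [k1, k2, k3, k4, k5, k6]

/-! ### the second claim -/

theorem part2 [CharZero k] {φ : Dat2 m t k} (hE : HypE2 φ) (i b : Fin m) (hib : b ≠ i)
    (s : Fin t) (d : Fin 2) : ∀ d' a, φ.z2 s d d' (xx i a) = 0 := by
  rcases lt_or_gt_of_ne hib with h | h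
  · have hβ := be_ne (k := k) i
    have h5 : ∀ l, (if (0 : Fin 3) = l then be k i * φ.z2 s d 0 (xx i l) else 0) -
        (if (0 : Fin 3) = l + 2 then φ.z2 s d 0 (xx i (l + 1)) else 0) +
        ((if (1 : Fin 3) = l then be k i * φ.z2 s d 1 (xx i l) else 0) -
        (if (1 : Fin 3) = l + 2 then φ.z2 s d 1 (xx i (l + 1)) else 0)) = 0 := by
      intro l
      have h1 := (hE _ (pfN_min2 (t := t) h l)).E5 b s d
      rw [ff_pf_row h.ne, ff_pf_row h.ne, mN_row, mN_row, ff_pf_z] at h1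
      exact h1
    have h6 : ∀ l, (if (1 : Fin 3) = l then be k i * φ.z2 s d 0 (xx i l) else 0) -
        (if (1 : Fin 3) = l + 2 then φ.z2 s d 0 (xx i (l + 1)) else 0) +
        ((if (2 : Fin 3) = l then be k i * φ.z2 s d 1 (xx i l) else 0) -
        (if (2 : Fin 3) = l + 2 then φ.z2 s d 1 (xx i (l + 1)) else 0)) = 0 := by
      intro l
      have h1 := (hE _ (pfN_min2 (t := t) h l)).E6 b s d
      rw [ff_pf_row h.ne, ff_pf_row h.ne, mN_row, mN_row, ff_pf_z] at h1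
      exact h1
    have c50 := h5 0
    have c51 := h5 1
    have c52 := h5 2
    have c60 := h6 0
    have c61 := h6 1
    have c62 := h6 2
    simp [hβ] at c50 c51 c52 c60 c61 c62
    have B0 : φ.z2 s d 1 (xx i 0) = 0 := by simpa using c52
    have B1 : φ.z2 s d 1 (xx i 1) = 0 := by simpa using c60
    have A0 : φ.z2 s d 0 (xx i 0) = 0 := by simpa using c50
    have A1 : φ.z2 s d 0 (xx i 1) = 0 := by simpa using c61
    have A2 : φ.z2 s d 0 (xx i 2) = 0 := by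
      have : -φ.z2 s d 0 (xx i 2) + be k i * φ.z2 s d 1 (xx i 1) = 0 := by simpa using c51
      rw [B1] at this
      linear_combination -this
    have B2 : φ.z2 s d 1 (xx i 2) = 0 := by
      have : -φ.z2 s d 0 (xx i 0) + be k i * φ.z2 s d 1 (xx i 2) = 0 := by simpa using c62
      rw [A0, neg_zero, zero_add] at this
      exact (mul_eq_zero.1 this).resolve_left hβ
    intro d' a
    fin_cases d' <;> fin_cases a
    exacts [A0, A1, A2, B0, B1, B2]
  · have hβ := be_ne (k := k) b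
    have h5 : ∀ l, (if (0 : Fin 3) = l then be k b * φ.z2 s d 0 (xx i l) else 0) -
        (if (0 : Fin 3) = l + 1 then φ.z2 s d 0 (xx i (l + 2)) else 0) +
        ((if (1 : Fin 3) = l then be k b * φ.z2 s d 1 (xx i l) else 0) -
        (if (1 : Fin 3) = l + 1 then φ.z2 s d 1 (xx i (l + 2)) else 0)) = 0 := by
      intro l
      have h1 := (hE _ (pfN_min2 (t := t) h l)).E5 b s d
      rw [ff_pf_col h.ne, ff_pf_col h.ne, mN_col, mN_col, ff_pf_z] at h1
      exact h1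
    have h6 : ∀ l, (if (1 : Fin 3) = l then be k b * φ.z2 s d 0 (xx i l) else 0) -
        (if (1 : Fin 3) = l + 1 then φ.z2 s d 0 (xx i (l + 2)) else 0) +
        ((if (2 : Fin 3) = l then be k b * φ.z2 s d 1 (xx i l) else 0) -
        (if (2 : Fin 3) = l + 1 then φ.z2 s d 1 (xx i (l + 2)) else 0)) = 0 := by
      intro l
      have h1 := (hE _ (pfN_min2 (t := t) h l)).E6 b s d
      rw [ff_pf_col h.ne, ff_pf_col h.ne, mN_col, mN_col, ff_pf_z] at h1
      exact h1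
    have c50 := h5 0
    have c51 := h5 1
    have c52 := h5 2
    have c60 := h6 0
    have c61 := h6 1
    have c62 := h6 2
    simp [hβ] at c50 c51 c52 c60 c61 c62
    have A1 : φ.z2 s d 0 (xx i 1) = 0 := by simpa using c52
    have A2 : φ.z2 s d 0 (xx i 2) = 0 := by simpa using c60
    have B1 : φ.z2 s d 1 (xx i 1) = 0 := by simpa using c51
    have B2 : φ.z2 s d 1 (xx i 2) = 0 := by simpa using c62
    have A0 : φ.z2 s d 0 (xx i 0) = 0 := by
      have : be k b * φ.z2 s d 0 (xx i 0) + -φ.z2 s d 1 (xx i 2) = 0 := by simpa using c50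
      rw [B2, neg_zero, add_zero] at this
      exact (mul_eq_zero.1 this).resolve_left hβ
    have B0 : φ.z2 s d 1 (xx i 0) = 0 := by
      have : be k b * φ.z2 s d 0 (xx i 1) + -φ.z2 s d 1 (xx i 0) = 0 := by simpa using c61
      rw [A1, mul_zero, zero_add] at this
      exact neg_eq_zero.1 this
    intro d' a
    fin_cases d' <;> fin_cases a
    exacts [A0, A1, A2, B0, B1, B2]

/-! ### the third claim -/

theorem part3 {φ : Dat2 m t k} (hE : HypE2 φ) (hN : Nrm2 φ) (i : Fin m) (hi : (i : ℕ) = 0)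
    (s s' : Fin t) (hs : s ≠ s') : ∀ d d' b, φ.z2 s d d' (zz s' b) = 0 := by
  have key : ∀ d, φ.z2 s d 0 (zz s' 1) = 0 ∧ φ.z2 s d 1 (zz s' 0) = 0 ∧
      φ.z2 s d 0 (zz s' 0) = φ.z2 s d 1 (zz s' 1) := by
    intro d
    have a1 := (hE _ (pzA_min2 i hi s').1).E5 i s d
    have a2 := (hE _ (pzA_min2 i hi s').1).E6 i s d
    have a3 := (hE _ (pzA_min2 i hi s').2).E5 i s d
    rw [ff_pz_row, ff_pz_row, ff_pz_other' i hs, (rA1 _).1, (rA1 _).2.1] at a1
    rw [ff_pz_row, ff_pz_row, ff_pz_other' i hs, (rA1 _).2.1, (rA1 _).2.2, add_zero] at a2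
    rw [ff_pz_row, ff_pz_row, ff_pz_other' i hs, (rA2 _).1, (rA2 _).2.1, zero_add] at a3
    refine ⟨neg_eq_zero.1 a2, a3, ?_⟩
    linear_combination a1
  obtain ⟨a1, a2, a3⟩ := key 0
  obtain ⟨b1, b2, b3⟩ := key 1
  have hsym : φ.z2 s 0 1 = φ.z2 s 1 0 := hN.zs s 0 1
  have c1 : φ.z2 s 1 0 (zz s' 0) = 0 := by rw [← hsym]; exact a2
  have c2 : φ.z2 s 0 1 (zz s' 1) = 0 := by rw [hsym]; exact b1
  have c3 : φ.z2 s 0 0 (zz s' 0) = 0 := by rw [a3, c2]
  have c4 : φ.z2 s 1 1 (zz s' 1) = 0 := by rw [← b3, c1]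
  intro d d' b
  fin_cases d <;> fin_cases d' <;> fin_cases b
  exacts [c3, a1, a2, c2, c1, b1, b2, c4]

end C2D_

open C2D_ in
theorem p_C2D (k : Type*) [Field k] [CharZero k] : T_C2D k := by
  intro m t φ hm hE hN
  refine ⟨?_, ?_, ?_⟩
  · intro i s a b d
    by_cases hi : (i : ℕ) = 0
    · exact part1A hE hN i hi s a b d
    · exact part1B hE i hi s a b d
  · intro i s d d' a
    obtain ⟨b, hb⟩ : ∃ b : Fin m, b ≠ i := by
      have : Nontrivial (Fin m) := Fin.nontrivial_iff_two_le.2 hm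
      exact exists_ne i
    exact part2 hE i b hb s d d' a
  · intro s s' hs
    exact part3 hE hN ⟨0, by omega⟩ rfl s s' hs

end Pool.Agent.VCC
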