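import Pool.Agent.VCC.Targets

/-!
# C2E: shift `- e_Z`
-/

set_option autoImplicit false

namespace Pool.Agent.VCC

namespace C2E_

variable {m t : ℕ} {k : Type*} [Field k]

lemma e2 (f : Fin 2 → k) (h0 : f 0 = 0) (h1 : f 1 = 0) : ∀ b, f b = 0 := by
  intro b; fin_cases b
  · exact h0
  · exact h1

lemma e3 (f : Fin 3 → k) (h0 : f 0 = 0) (h1 : f 1 = 0) (h2 : f 2 = 0) : ∀ b, f b = 0 := by
  intro b; fin_cases b
  · exact h0
  · exact h1
  · exact h2

end C2E_

open C2E_ in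
theorem p_C2E (k : Type*) [Field k] [CharZero k] (_hB : T_C2B k) : T_C2E k := by
  intro m t φ hm hE hN
  have two_ne : (2 : k) ≠ 0 := two_ne_zero
  have main : ∀ s : Fin t, (∀ d d' b, φ.z2 s d d' (zz s b) = 0) ∧
      ∀ (i : Fin m) d a, φ.q i s d (xx i a) = 0 := by
    intro s
    have hn2 := hN.n2 s
    have hn3 := hN.n3 s
    have hz : φ.z2 s 1 0 = φ.z2 s 0 1 := hN.zs s 1 0
    -- block 0
    obtain ⟨i0, hi0⟩ : ∃ i0 : Fin m, (i0 : ℕ) = 0 := ⟨⟨0, by omega⟩, rfl⟩
    obtain ⟨i1, hi1⟩ : ∃ i1 : Fin m, (i1 : ℕ) ≠ 0 := ⟨⟨1, by omega⟩, by simp⟩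
    have A1 := hE _ (pzA_min2 i0 hi0 s).1
    have A2 := hE _ (pzA_min2 i0 hi0 s).2
    have a50 := A1.E5 i0 s 0
    have a51 := A1.E5 i0 s 1
    have a60 := A1.E6 i0 s 0
    have a61 := A1.E6 i0 s 1
    have b50 := A2.E5 i0 s 0
    have b51 := A2.E5 i0 s 1
    have b60 := A2.E6 i0 s 0
    have b61 := A2.E6 i0 s 1
    simp only [ff_pz_row, ff_pz_col, Fin.sum_univ_two, Fin.sum_univ_three] at a50 a51 a60 a61 b50 b51 b60 b61
    simp [mA1, mA2, two, hz, hn2, hn3] at a50 a51 a60 a61 b50 b51 b60 b61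
    have B : ∀ i : Fin m, (i : ℕ) ≠ 0 → φ.z2 s 0 0 (zz s 1) = 0 ∧ φ.z2 s 1 1 (zz s 0) = 0 ∧
        ∀ d a, φ.q i s d (xx i a) = 0 := by
      intro i hi
      have B1 := hE _ (pzB_min2 i hi s).1
      have B2 := hE _ (pzB_min2 i hi s).2
      have c50 := B1.E5 i s 0
      have c51 := B1.E5 i s 1
      have c60 := B1.E6 i s 0
      have c61 := B1.E6 i s 1
      have d50 := B2.E5 i s 0
      have d51 := B2.E5 i s 1
      have d60 := B2.E6 i s 0
      have d61 := B2.E6 i s 1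
      simp only [ff_pz_row, ff_pz_col, Fin.sum_univ_two, Fin.sum_univ_three] at c50 c51 c60 c61 d50 d51 d60 d61
      simp [mA1, mA2, mB1, mB2, two, hz, hn2, hn3] at c50 c51 c60 c61 d50 d51 d60 d61
      have f1 : φ.z2 s 0 0 (zz s 0) = 0 := by rw [b60, a61]
      have f2 : φ.z2 s 1 1 (zz s 1) = 0 := by rw [a51, ← b50]
      have g1 : φ.q i s 0 (xx i 1) = 0 := by rw [← c51, f2]
      have g2 : φ.q i s 1 (xx i 1) = 0 := by rw [← d60, f1]
      have f3 : φ.z2 s 0 0 (zz s 1) = 0 := by linear_combination -d50 - g1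
      have f4 : φ.z2 s 1 1 (zz s 0) = 0 := by rw [c61, g2]
      have g3 : 2 * φ.q i s 0 (xx i 0) = 0 := by linear_combination -c50 + d51 + f1 - f4
      have g4 : φ.q i s 0 (xx i 0) = 0 := (mul_eq_zero.1 g3).resolve_left two_ne
      have g5 : φ.q i s 0 (xx i 2) = 0 := by linear_combination c50 + g4 - f1
      have g6 : 2 * φ.q i s 1 (xx i 0) = 0 := by linear_combination -c60 + d61 - f3 + f2
      have g7 : φ.q i s 1 (xx i 0) = 0 := (mul_eq_zero.1 g6).resolve_left two_ne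
      have g8 : φ.q i s 1 (xx i 2) = 0 := by linear_combination c60 + g7 + f3
      refine ⟨f3, f4, fun d => ?_⟩
      fin_cases d
      · exact e3 _ g4 g1 g5
      · exact e3 _ g7 g2 g8
    obtain ⟨f3, f4, -⟩ := B i1 hi1
    have f1 : φ.z2 s 0 0 (zz s 0) = 0 := by rw [b60, a61]
    have f2 : φ.z2 s 1 1 (zz s 1) = 0 := by rw [a51, ← b50]
    constructor
    · intro d d'
      fin_cases d <;> fin_cases d'
      · exact e2 _ f1 f3
      · exact e2 _ hn3 hn2
      · show ∀ b, φ.z2 s 1 0 (zz s b) = 0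
        rw [hz]
        exact e2 _ hn3 hn2
      · exact e2 _ f4 f2
    · intro i
      by_cases hi : (i : ℕ) = 0
      · have hii : i = i0 := Fin.ext (by rw [hi, hi0])
        rw [hii]
        intro d
        fin_cases d
        · refine e3 _ ?_ ?_ ?_
          · exact (a50.symm.trans f1)
          · exact b50.symm
          · show φ.q i0 s 0 (xx i0 2) = 0
            linear_combination b51 - f4
        · refine e3 _ ?_ ?_ ?_
          · show φ.q i0 s 1 (xx i0 0) = 0
            linear_combination -a60 - f3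
          · exact a61
          · exact (b61.symm.trans f2)
      · exact (B i hi).2.2
  have he : ∀ s s' : Fin t, s ≠ s' → ∀ b a, φ.e s s' b (zz s' a) = 0 := by
    intro s s' hs b
    have key : ∀ M : Fin 2 → Fin 2 → k, AdY M → ∀ d, ∑ b', M d b' * φ.e s s' b (zz s' b') = 0 := by
      intro M hM d
      have h1 := (hE _ (pzz_min2 hs hM)).E7 s s' hs d b
      rw [ff_pzz_row hs, ff_pzz_col hs] at h1
      rw [h1]
      exact Finset.sum_eq_zero fun a _ => by rw [(main s).1 d b a, mul_zero]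
    have k1 := key (two 0 1 1 0 1 0) (by constructor <;> simp [two]) 0
    have k2 := key (two 1 0 1 1 0 0) (by constructor <;> simp [two]) 1
    simp [two, Fin.sum_univ_two] at k1 k2
    exact e2 _ k2 k1
  refine ⟨fun s => (main s).1, fun i s => (main s).2 i, fun s s' hs b a => ⟨he s s' hs b a, ?_⟩⟩
  rw [hN.es]
  exact he s' s hs.symm b a

end Pool.Agent.VCC
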