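import Pool.Agent.VCC.Targets

/-!
# The chain lemma
-/

set_option autoImplicit false

namespace Pool.Agent.VCC

namespace CHAIN_

variable {k : Type*} [Field k] {ι : Type} [Fintype ι] [DecidableEq ι]

/-- `u ↦ ∑ t, u t • L t` -/
def comb (L : ι → ι → ι → k) : (ι → k) →ₗ[k] (ι → ι → k) where
  toFun u := ∑ t, u t • L t
  map_add' u v := by
    simp only [Pi.add_apply, add_smul, Finset.sum_add_distrib]
  map_smul' c u := by
    simp only [Pi.smul_apply, smul_eq_mul, mul_smul, Finset.smul_sum, RingHom.id_apply]

theorem sum_transl (f v : ι → k) (y z : ι) :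
    ∑ t, f t * transl v t y z = v y * f z + v z * f y := by
  unfold transl
  simp only [mul_add, Finset.sum_add_distrib]
  congr 1
  · rw [Finset.sum_eq_single z]
    · simp only [if_true]; ring
    · intro t _ ht
      rw [if_neg (fun h => ht h.symm)]; ring
    · intro h; exact absurd (Finset.mem_univ _) h
  · rw [Finset.sum_eq_single y]
    · simp only [if_true]; ring
    · intro t _ ht
      rw [if_neg (fun h => ht h.symm)]; ring
    · intro h; exact absurd (Finset.mem_univ _) h

end CHAIN_

open CHAIN_

theorem p_CHAIN (k : Type*) [Field k] [CharZero k] : T_CHAIN k := by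
  intro ι _ _ 𝓕min 𝓕 𝓕max h1 h2 hsym hNC hT1 hRS
  refine ⟨fun T hT hTx => hNC T hT fun x => h2 (hTx x), ?_⟩
  intro lam hlam hF
  obtain ⟨v, hv⟩ := hT1 lam hlam (fun F hFm => by
    obtain ⟨G, hG, hG2⟩ := hF F (h1 hFm)
    exact ⟨G, fun x => h2 (hG x), hG2⟩)
  refine ⟨v, ?_⟩
  set L : ι → ι → ι → k := fun t y z => lam t y z - transl v t y z with hL
  have hLmax : ∀ t, L t ∈ 𝓕max := hv
  have key : (𝓕.comap (comb L)) = ⊤ := by
    apply hRS
    intro F hFm x
    obtain ⟨G, hG, hG2⟩ := hF F (h1 hFm)
    have hFs := hsym F (h2 (h1 hFm))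
    set G' : ι → ι → ι → k := fun x => G x - v x • F with hG'
    have hG'F : ∀ x, G' x ∈ 𝓕 := fun x =>
      𝓕.sub_mem (hG x) (𝓕.smul_mem _ (h1 hFm))
    have hcomb : ∀ x, comb L (F x) ∈ 𝓕max := fun x =>
      𝓕max.sum_mem fun t _ => 𝓕max.smul_mem _ (hLmax t)
    have hT' : ∀ x y z, (comb L (F x) + G' x) y z =
        ((∑ t, F x t * lam t y z) + G x y z) - (v y * F x z + v z * F x y + v x * F y z) := by
      intro x y z
      have e1 : comb L (F x) y z = ∑ t, F x t * (lam t y z - transl v t y z) := by
        show (∑ t, F x t • L t) y z = _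
        rw [Finset.sum_apply, Finset.sum_apply]
        rfl
      have e2 : (comb L (F x) + G' x) y z = comb L (F x) y z + (G x y z - v x * F y z) := rfl
      rw [e2, e1]
      simp only [mul_sub, Finset.sum_sub_distrib]
      rw [sum_transl]
      ring
    have hz := hNC (fun x => comb L (F x) + G' x)
      ⟨fun x y z => by
        simp only
        rw [hT', hT']
        have e3 := hG2.1 x y z
        simp only at e3
        rw [e3, hFs x y]; ring, fun x y z => by
        simp only
        rw [hT', hT']
        have e3 := hG2.2 x y z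
        simp only at e3
        rw [e3, hFs y z]; ring⟩
      (fun x => 𝓕max.add_mem (hcomb x) (h2 (hG'F x)))
    have hz2 : comb L (F x) = - G' x := by
      funext y z
      have h3 := hz x y z
      have h4 : comb L (F x) y z + G' x y z = 0 := h3
      show comb L (F x) y z = - G' x y z
      linear_combination h4
    show comb L (F x) ∈ 𝓕
    rw [hz2]
    exact 𝓕.neg_mem (hG'F x)
  intro t
  have h5 : (Pi.single t 1 : ι → k) ∈ 𝓕.comap (comb L) := by
    rw [key]; exact Submodule.mem_top
  have h6 : comb L (Pi.single t 1) = L t := by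
    show ∑ s, (Pi.single t 1 : ι → k) s • L s = L t
    rw [Finset.sum_eq_single t]
    · rw [Pi.single_eq_same, one_smul]
    · intro s _ hs
      rw [Pi.single_eq_of_ne hs, zero_smul]
    · intro h; exact absurd (Finset.mem_univ _) h
  rw [Submodule.mem_comap, h6] at h5
  exact h5

end Pool.Agent.VCC
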