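import Pool.Agent.VCC.Targets

set_option autoImplicit false

namespace Pool.Agent.VCC

open MvPolynomial Pool.Agent.HilbPts

namespace CHART_

variable {n r : ℕ} {k : Type*} [Field k]

/-- the basis of the presentation, indexed by the monomials -/
noncomputable def B0 (e : Fin (1 + n + r) ≃ Unit ⊕ Fin n ⊕ Fin r)
    (P : Pres n (1 + n + r) k) :
    Module.Basis (Unit ⊕ Fin n ⊕ Fin r) k (MvPolynomial (Fin n) k ⧸ P.ideal) :=
  (Module.Basis.ofEquivFun P.basis).reindex e

theorem B0_repr (e : Fin (1 + n + r) ≃ Unit ⊕ Fin n ⊕ Fin r)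
    (P : Pres n (1 + n + r) k) (x : MvPolynomial (Fin n) k ⧸ P.ideal) (a : Unit ⊕ Fin n ⊕ Fin r) :
    (B0 e P).repr x a = P.basis x (e.symm a) := by
  rw [B0, Module.Basis.repr_reindex_apply, Module.Basis.ofEquivFun_repr_apply]

theorem delta_eq (e : Fin (1 + n + r) ≃ Unit ⊕ Fin n ⊕ Fin r)
    (P : Pres n (1 + n + r) k) (b : Fin r → Fin n × Fin n) :
    delta e P b = (B0 e P).det (fun c => Ideal.Quotient.mk P.ideal (mon b c)) := by
  rw [delta, Module.Basis.det_apply]
  have h : (B0 e P).toMatrix (fun c => Ideal.Quotient.mk P.ideal (mon b c)) =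
      Matrix.of fun a c : Unit ⊕ Fin n ⊕ Fin r =>
        P.basis (Ideal.Quotient.mk _ (mon b c)) (e.symm a) := by
    ext a c
    rw [Matrix.of_apply, Module.Basis.toMatrix_apply, B0_repr]
  rw [h]

theorem mon_update (b : Fin r → Fin n × Fin n) (i j : Fin n) (s : Fin r) (I : Ideal (MvPolynomial (Fin n) k)) :
    (fun c => Ideal.Quotient.mk I (mon (Function.update b s (i, j)) c)) =
      Function.update (fun c => Ideal.Quotient.mk I (mon b c)) (Sum.inr (Sum.inr s))
        (Ideal.Quotient.mk I (X i * X j)) := by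
  funext c
  rcases c with u | i' | t
  · rw [Function.update_of_ne (by simp)]
    rfl
  · rw [Function.update_of_ne (by simp)]
    rfl
  · by_cases hts : t = s
    · subst hts
      rw [Function.update_self]
      simp [mon]
    · rw [Function.update_of_ne (by simpa using hts)]
      simp [mon, Function.update_of_ne hts]

end CHART_

open CHART_ in
theorem p_CHART (k : Type*) [Field k] [CharZero k] : T_CHART k := by
  classical
  intro n r e P b hδ
  rw [delta_eq] at hδ
  obtain ⟨hli, hsp⟩ := ((B0 e P).is_basis_iff_det).2 (isUnit_iff_ne_zero.2 hδ)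
  refine ⟨Module.Basis.mk hli hsp.ge, fun c => Module.Basis.mk_apply _ _ c, fun i j s => ?_⟩
  set B := Module.Basis.mk hli hsp.ge with hB
  have hBc : ∀ c, B c = Ideal.Quotient.mk P.ideal (mon b c) := fun c => Module.Basis.mk_apply _ _ c
  rw [delta_eq, delta_eq, mon_update]
  set y := Ideal.Quotient.mk P.ideal (X i * X j) with hy
  have h1 : y = ∑ c, B.repr y c • Ideal.Quotient.mk P.ideal (mon b c) := by
    conv_lhs => rw [← B.sum_repr y]
    exact Finset.sum_congr rfl fun c _ => by rw [hBc]
  conv_rhs => rw [h1]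
  rw [AlternatingMap.map_update_sum]
  rw [Finset.sum_eq_single (Sum.inr (Sum.inr s))]
  · rw [AlternatingMap.map_update_smul, Function.update_eq_self, smul_eq_mul]
  · intro c _ hc
    rw [AlternatingMap.map_update_smul, AlternatingMap.map_update_self _ _ (Ne.symm hc), smul_zero]
  · intro h
    exact absurd (Finset.mem_univ _) h

end Pool.Agent.VCC
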