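import Pool.Agent.VCC.Targets

/-!
# Lower bound for the dimension of `𝓕_max1`
-/

set_option autoImplicit false

namespace Pool.Agent.VCC

namespace D1_

/-- The set of the conditions. -/
abbrev Jx (m t : ℕ) : Type := Ix m t ⊕ (({p : Fin m × Fin m // p.1 < p.2} × Fin 3) ⊕
  ((Fin m × Fin t × Fin 2) ⊕ (({p : Fin t × Fin t // p.1 < p.2} × Fin 2) ⊕ (Unit ⊕ Unit))))

variable {m t : ℕ} {k : Type*} [Field k]

/-- The values of the conditions. -/
def val (g : Sym2 (Ix m t) → k) : Jx m t → k
  | Sum.inl x => g s(x, x)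
  | Sum.inr (Sum.inl (p, c)) => g s(xx p.1.1 c, xx p.1.2 c) +
      be k p.1.2 * g s(xx p.1.1 (c + 2), xx p.1.2 (c + 1))
  | Sum.inr (Sum.inr (Sum.inl (i, s, d))) =>
      if d = 0 then g s(xx i 0, zz s 0) + g s(xx i 1, zz s 1)
      else g s(xx i 1, zz s 0) + g s(xx i 2, zz s 1)
  | Sum.inr (Sum.inr (Sum.inr (Sum.inl (p, b)))) => g s(zz p.1.1 b, zz p.1.2 b)
  | Sum.inr (Sum.inr (Sum.inr (Sum.inr (Sum.inl _)))) => ∑ i, g s(xx i 1, xx i 2)
  | Sum.inr (Sum.inr (Sum.inr (Sum.inr (Sum.inr _)))) =>
      ∑ i, g s(xx i 2, xx i 0) + ∑ s, g s(zz s 0, zz s 1)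

/-- The linear map of the conditions. -/
def L : (Sym2 (Ix m t) → k) →ₗ[k] (Jx m t → k) where
  toFun := val
  map_add' g h := by
    funext j
    rcases j with x | ⟨p, c⟩ | ⟨i, s, d⟩ | ⟨p, b⟩ | _ | _
    · rfl
    · simp only [val, Pi.add_apply]; ring
    · simp only [val, Pi.add_apply]
      split_ifs <;> ring
    · rfl
    · simp only [val, Pi.add_apply, Finset.sum_add_distrib]
    · simp only [val, Pi.add_apply, Finset.sum_add_distrib]; ring
  map_smul' a g := by
    funext j
    rcases j with x | ⟨p, c⟩ | ⟨i, s, d⟩ | ⟨p, b⟩ | _ | _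
    · rfl
    · simp only [val, Pi.smul_apply, smul_eq_mul, RingHom.id_apply]; ring
    · simp only [val, Pi.smul_apply, smul_eq_mul, RingHom.id_apply]
      split_ifs <;> ring
    · rfl
    · simp only [val, Pi.smul_apply, smul_eq_mul, RingHom.id_apply, Finset.mul_sum]
    · simp only [val, Pi.smul_apply, smul_eq_mul, RingHom.id_apply, mul_add, Finset.mul_sum]

/-- From functions on unordered pairs to symmetric matrices. -/
def mat : (Sym2 (Ix m t) → k) →ₗ[k] (Ix m t → Ix m t → k) where
  toFun g x y := g s(x, y)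
  map_add' _ _ := rfl
  map_smul' _ _ := rfl

theorem mat_mem (g : Sym2 (Ix m t) → k) (hg : L g = 0) : mat g ∈ Fmax1 m t k := by
  have h : ∀ j, val g j = 0 := fun j => congrFun hg j
  rw [mem_Fmax1]
  have hs : ∀ x y, mat g x y = mat g y x := fun x y => by
    show g s(x, y) = g s(y, x)
    rw [Sym2.eq_swap]
  exact
    { symm := hs
      w := fun i j hij c => h (Sum.inr (Sum.inl (⟨(i, j), hij⟩, c)))
      q0 := fun i s => h (Sum.inr (Sum.inr (Sum.inl (i, s, 0))))
      q1 := fun i s => h (Sum.inr (Sum.inr (Sum.inl (i, s, 1))))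
      e := fun s s' hss b => by
        rcases lt_or_gt_of_ne hss with h1 | h1
        · exact h (Sum.inr (Sum.inr (Sum.inr (Sum.inl (⟨(s, s'), h1⟩, b)))))
        · rw [hs]
          exact h (Sum.inr (Sum.inr (Sum.inr (Sum.inl (⟨(s', s), h1⟩, b)))))
      sq := fun x => h (Sum.inl x)
      h0 := h (Sum.inr (Sum.inr (Sum.inr (Sum.inr (Sum.inl ())))))
      h1 := h (Sum.inr (Sum.inr (Sum.inr (Sum.inr (Sum.inr ()))))) }

theorem card_lt (n : ℕ) : Fintype.card {p : Fin n × Fin n // p.1 < p.2} = n.choose 2 := by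
  classical
  have h1 := HilbPts.card_pairs n
  have h2 : Fintype.card {p : Fin n × Fin n // p.1 ≤ p.2} =
      Fintype.card {p : Fin n × Fin n // p.1 < p.2} + n := by
    have e : {p : Fin n × Fin n // p.1 ≤ p.2} ≃ {p : Fin n × Fin n // p.1 < p.2} ⊕ Fin n :=
      { toFun := fun p => if h : p.1.1 < p.1.2 then Sum.inl ⟨p.1, h⟩ else Sum.inr p.1.1
        invFun := fun q => match q with
          | Sum.inl p => ⟨p.1, p.2.le⟩
          | Sum.inr i => ⟨(i, i), le_rfl⟩
        left_inv := fun p => by
          by_cases h : p.1.1 < p.1.2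
          · simp [h]
          · have h3 : p.1.1 = p.1.2 := le_antisymm p.2 (not_lt.mp h)
            simp only [h, dite_false]
            ext
            · rfl
            · simp [h3]
        right_inv := fun q => by
          rcases q with p | i
          · simp [p.2]
          · simp }
    rw [Fintype.card_congr e, Fintype.card_sum, Fintype.card_fin]
  rw [h2, Nat.choose_succ_succ' n 1, Nat.choose_one_right] at h1
  simp only [Nat.reduceAdd] at h1
  omega

end D1_

open D1_ in
theorem p_D1 (k : Type*) [Field k] [CharZero k] : T_D1 k := by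
  intro m t ht
  have h1 := LinearMap.finrank_range_add_finrank_ker (L (m := m) (t := t) (k := k))
  have h2 : Module.finrank k (Sym2 (Ix m t) → k) = (3 * m + 2 * t + 1).choose 2 := by
    rw [Module.finrank_fintype_fun_eq_card, Sym2.card]
    congr 2
    simp only [Fintype.card_sum, Fintype.card_prod, Fintype.card_fin]
    ring
  have h3 : Module.finrank k (LinearMap.range (L (m := m) (t := t) (k := k))) ≤
      (3 * m + 2 * t) + 3 * m.choose 2 + 2 * t * m + (if t = 2 then 2 else 0) + 2 := by
    refine (Submodule.finrank_le _).trans (le_of_eq ?_)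
    rw [Module.finrank_fintype_fun_eq_card]
    simp only [Fintype.card_sum, Fintype.card_prod, Fintype.card_fin, card_lt, Fintype.card_unit]
    have h4 : t.choose 2 * 2 = if t = 2 then 2 else 0 := by
      interval_cases t <;> rfl
    rw [h4]
    ring
  have h5 : Module.finrank k (LinearMap.ker (L (m := m) (t := t) (k := k))) ≤
      Module.finrank k (Fmax1 m t k) := by
    let f : LinearMap.ker (L (m := m) (t := t) (k := k)) →ₗ[k] Fmax1 m t k :=
      (mat.comp (LinearMap.ker (L (m := m) (t := t) (k := k))).subtype).codRestrict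
        (Fmax1 m t k) fun g => mat_mem g.1 g.2
    refine LinearMap.finrank_le_finrank_of_injective (f := f) ?_
    intro g h hgh
    have h6 : mat g.1 = mat h.1 := congrArg Subtype.val hgh
    ext z
    induction z with
    | _ x y => exact congrFun (congrFun h6 x) y
  omega

end Pool.Agent.VCC
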