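import Pool.Agent.VCC.Targets

/-!
# Upper bound for the dimension of `𝓕_min2`
-/

set_option autoImplicit false

namespace Pool.Agent.VCC

namespace D2_

/-- pairs `i < j` -/
abbrev Pr (n : ℕ) := {p : Fin n × Fin n // p.1 < p.2}

lemma card_pr (n : ℕ) : Fintype.card (Pr n) = n.choose 2 := by
  have e : Pr n ≃ (Σ j : Fin n, Fin j.1) :=
    { toFun := fun p => ⟨p.1.2, ⟨p.1.1.1, p.2⟩⟩
      invFun := fun q => ⟨(⟨q.2.1, q.2.2.trans q.1.2⟩, q.1), q.2.2⟩
      left_inv := fun p => rfl
      right_inv := fun q => rfl }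
  rw [Fintype.card_congr e, Fintype.card_sigma]
  simp only [Fintype.card_fin]
  rw [Fin.sum_univ_eq_sum_range (fun i => i) n, Finset.sum_range_id, Nat.choose_two_right]

/-- the free entries -/
abbrev J (m t : ℕ) := (Pr m × Fin 3) ⊕ ((Fin m × Fin t × Fin 2) ⊕ (Pr t × Fin 2))

/-- the positions of the free entries -/
def ps (m t : ℕ) : J m t → Ix m t × Ix m t
  | Sum.inl (p, c) => (xx p.1.1 (c + 2), xx p.1.2 (c + 1))
  | Sum.inr (Sum.inl (i, s, b)) => (xx i (if b = 0 then 0 else 1), zz s 0)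
  | Sum.inr (Sum.inr (p, b)) => (zz p.1.1 b, zz p.1.2 (b + 1))

/-- evaluation -/
def ev (m t : ℕ) (k : Type*) [Field k] : Fmin2 m t k →ₗ[k] (J m t → k) where
  toFun F j := F.1 (ps m t j).1 (ps m t j).2
  map_add' _ _ := rfl
  map_smul' _ _ := rfl

lemma be_ne {k : Type*} [Field k] [CharZero k] {m : ℕ} (j : Fin m) : be k j ≠ 0 := by
  unfold be
  have : ((j : ℕ) : k) + 2 = (((j : ℕ) + 2 : ℕ) : k) := by push_cast; rfl
  rw [this, Nat.cast_ne_zero]
  omega

lemma zero_of {k : Type*} [Field k] [CharZero k] {m t : ℕ} {F : Ix m t → Ix m t → k}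
    (hF : InMin2 F) (h : ∀ j : J m t, F (ps m t j).1 (ps m t j).2 = 0) : F = 0 := by
  -- blocks `i < j`
  have h1 : ∀ i j : Fin m, i < j → ∀ a b : Fin 3, F (xx i a) (xx j b) = 0 := by
    intro i j hij
    have g1 : ∀ c : Fin 3, F (xx i (c + 2)) (xx j (c + 1)) = 0 := fun c =>
      h (Sum.inl (⟨(i, j), hij⟩, c))
    have g2 : ∀ c : Fin 3, F (xx i c) (xx j c) = 0 := by
      intro c
      have := hF.w i j hij c
      rw [g1 c, mul_zero, add_zero] at this
      exact this
    have g3 := hF.w' i j hij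
    intro a b
    have a0 := g1 0; have a1 := g1 1; have a2 := g1 2
    have b0 := g2 0; have b1 := g2 1; have b2 := g2 2
    have c0 := g3 0; have c1 := g3 1; have c2 := g3 2
    fin_cases a <;> fin_cases b <;> assumption
  have h2 : ∀ (i : Fin m) (s : Fin t) (a : Fin 3) (b : Fin 2), F (xx i a) (zz s b) = 0 := by
    intro i s
    have g1 : F (xx i 0) (zz s 0) = 0 := h (Sum.inr (Sum.inl (i, s, 0)))
    have g2 : F (xx i 1) (zz s 0) = 0 := h (Sum.inr (Sum.inl (i, s, 1)))
    have g3 : F (xx i 1) (zz s 1) = 0 := by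
      have := hF.q0 i s
      rw [g1, zero_add] at this; exact this
    have g4 : F (xx i 2) (zz s 1) = 0 := by
      have := hF.q1 i s
      rw [g2, zero_add] at this; exact this
    have g5 : F (xx i 2) (zz s 0) = 0 ∧ F (xx i 0) (zz s 1) = 0 := by
      by_cases hi : (i : ℕ) = 0
      · exact hF.qa i s hi
      · have := hF.qb i s hi
        rw [g1, g2, neg_zero] at this
        exact this
    obtain ⟨g5, g6⟩ := g5
    intro a b
    fin_cases a <;> fin_cases b <;> assumption
  have h3 : ∀ s s' : Fin t, s < s' → ∀ a b : Fin 2, F (zz s a) (zz s' b) = 0 := by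
    intro s s' hs
    have g1 : ∀ b : Fin 2, F (zz s b) (zz s' (b + 1)) = 0 := fun b =>
      h (Sum.inr (Sum.inr (⟨(s, s'), hs⟩, b)))
    have g2 := hF.e s s' (ne_of_lt hs)
    intro a b
    have a0 := g1 0; have a1 := g1 1
    have b0 := g2 0; have b1 := g2 1
    fin_cases a <;> fin_cases b <;> assumption
  funext x y
  show F x y = 0
  rcases x with ⟨i, a⟩ | ⟨s, a⟩ <;> rcases y with ⟨j, b⟩ | ⟨s', b⟩
  · rcases lt_trichotomy i j with hij | hij | hij
    · exact h1 i j hij a b
    · subst hij; exact hF.dx i a b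
    · rw [hF.symm]; exact h1 j i hij b a
  · exact h2 i s' a b
  · rw [hF.symm]; exact h2 j s b a
  · rcases lt_trichotomy s s' with hij | hij | hij
    · exact h3 s s' hij a b
    · subst hij; exact hF.dz s a b
    · rw [hF.symm]; exact h3 s' s hij b a

lemma ev_inj (m t : ℕ) (k : Type*) [Field k] [CharZero k] : Function.Injective (ev m t k) := by
  rw [injective_iff_map_eq_zero]
  intro F hF
  apply Subtype.ext
  exact zero_of F.2 fun j => congrFun hF j

end D2_

open D2_ in
theorem p_D2 (k : Type*) [Field k] [CharZero k] : T_D2 k := by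
  intro m t ht
  have h1 := LinearMap.finrank_le_finrank_of_injective (ev_inj m t k)
  rw [Module.finrank_fintype_fun_eq_card] at h1
  refine h1.trans (le_of_eq ?_)
  simp only [Fintype.card_sum, Fintype.card_prod, Fintype.card_fin, card_pr]
  interval_cases t
  · simp; ring
  · simp; ring
  · simp; ring

end Pool.Agent.VCC
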