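import Pool.Agent.VCC.Targets

/-!
# The five matrix equations for `c < j`
-/

set_option autoImplicit false

namespace Pool.Agent.VCC

namespace EQG_

variable {m t : ℕ} {k : Type*} [Field k]

theorem ind_sum (c j : Fin m) (hcj : c < j) (x : k) :
    ∑ i : Fin m, (if i < j then (if i = c then x else 0) else 0) = x := by
  rw [Finset.sum_eq_single c]
  · rw [if_pos hcj, if_pos rfl]
  · intro i _ hi
    rw [if_neg hi]
    split_ifs <;> rfl
  · simp

theorem ff_col (c j i : Fin m) (hcj : c < j) (hi : i < j) (M : Fin 3 → Fin 3 → k) (b : Fin 3)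
    (u : Fin m → Ix m t → k) :
    ff (pf j c M) (xx i b) (u i) = if i = c then ∑ a, M a b * u c (xx j a) else 0 := by
  by_cases h : i = c
  · rw [if_pos h, h, ff_pf_col hcj.ne']
  · rw [if_neg h, ff_pf_other hi.ne h]

theorem sumLo (j : Fin m) (M : Fin 3 → Fin 3 → k) (S : Fin m → Fin 3 → Fin 3 → k)
    (r l : Fin 3) :
    ∑ i : Fin m, (if i < j then ∑ b, M r b * S i l b else 0) = ∑ b, M r b * sLo j S l b := by
  unfold sLo
  simp only [Finset.mul_sum]
  rw [Finset.sum_comm]
  refine Finset.sum_congr rfl fun i _ => ?_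
  split_ifs with h
  · rfl
  · simp

theorem sumHi (j : Fin m) (w : Fin m → k) (M : Fin 3 → Fin 3 → k)
    (S : Fin m → Fin 3 → Fin 3 → k) (r l : Fin 3) :
    ∑ i : Fin m, (if j < i then w i * ∑ b, M r b * S i l b else 0) =
      ∑ b, M r b * sHi j w S l b := by
  unfold sHi
  simp only [Finset.mul_sum]
  rw [Finset.sum_comm]
  refine Finset.sum_congr rfl fun i _ => ?_
  split_ifs with h
  · exact Finset.sum_congr rfl fun b _ => by ring
  · simp

theorem sum_tauP (φ : Dat m t k) (c j : Fin m) (hcj : c < j) (M : Fin 3 → Fin 3 → k)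
    (l : Fin 3) : ∑ i, tauP φ (pf j c M) j l i =
      ∑ a, M a (l + 2) * φ.p c j l (xx j a) -
        be k j * ∑ b, M (l + 1) b * sLo j (Sc φ c) (l + 2) b := by
  rw [← sumLo j M (Sc φ c) (l + 1) (l + 2), Finset.mul_sum,
    ← ind_sum c j hcj (∑ a, M a (l + 2) * φ.p c j l (xx j a)), ← Finset.sum_sub_distrib]
  refine Finset.sum_congr rfl fun i _ => ?_
  unfold tauP
  by_cases h1 : i < j
  · rw [if_pos h1, if_pos h1, if_pos h1, ff_col c j i hcj h1 M (l + 2) (fun i => φ.p i j l),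
      ff_pf_row hcj.ne']
    rfl
  · rw [if_neg h1, if_neg h1, if_neg h1]
    by_cases h2 : j < i
    · rw [if_pos h2, ff_pf_other h2.ne' (hcj.trans h2).ne', ff_pf_other h2.ne' (hcj.trans h2).ne',
        ff_pf_other h2.ne' (hcj.trans h2).ne']
      ring
    · rw [if_neg h2]
      ring

theorem sum_tauM (φ : Dat m t k) (c j : Fin m) (hcj : c < j) (M : Fin 3 → Fin 3 → k)
    (l : Fin 3) : ∑ i, tauM φ (pf j c M) j l i =
      (1 + be k j ^ 3)⁻¹ * (∑ a, M a (l + 1) * φ.p c j l (xx j a) -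
        be k j * ∑ a, M a (l + 2) * φ.p c j (l + 1) (xx j a) +
        be k j ^ 2 * ∑ a, M a l * φ.p c j (l + 2) (xx j a)) -
        ∑ b, M (l + 2) b * sHi j (be k) (Sc φ c) (l + 1) b := by
  rw [← sumHi j (be k) M (Sc φ c) (l + 2) (l + 1),
    ← ind_sum c j hcj (∑ a, M a (l + 1) * φ.p c j l (xx j a)),
    ← ind_sum c j hcj (∑ a, M a (l + 2) * φ.p c j (l + 1) (xx j a)),
    ← ind_sum c j hcj (∑ a, M a l * φ.p c j (l + 2) (xx j a)), Finset.mul_sum _ _ (be k j),
    Finset.mul_sum _ _ (be k j ^ 2), ← Finset.sum_sub_distrib, ← Finset.sum_add_distrib,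
    Finset.mul_sum, ← Finset.sum_sub_distrib]
  refine Finset.sum_congr rfl fun i _ => ?_
  unfold tauM
  by_cases h1 : i < j
  · rw [if_pos h1, if_pos h1, if_pos h1, if_pos h1, if_neg (not_lt.2 h1.le),
      ff_col c j i hcj h1 M (l + 1) (fun i => φ.p i j l),
      ff_col c j i hcj h1 M (l + 2) (fun i => φ.p i j (l + 1)),
      ff_col c j i hcj h1 M l (fun i => φ.p i j (l + 2))]
    ring
  · rw [if_neg h1, if_neg h1, if_neg h1, if_neg h1]
    by_cases h2 : j < i
    · rw [if_pos h2, if_pos h2, ff_pf_other h2.ne' (hcj.trans h2).ne', ff_pf_row hcj.ne']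
      simp only [Sc]
      ring
    · rw [if_neg h2, if_neg h2]
      ring

theorem sum_tauD (φ : Dat m t k) (c j : Fin m) (hcj : c < j) (M : Fin 3 → Fin 3 → k)
    (l : Fin 3) : ∑ i, tauD φ (pf j c M) j l i =
      (be k j)⁻¹ * (∑ a, M a (l + 2) * φ.p c j (l + 2) (xx j a) -
        ∑ b, M (l + 2) b * sLo j (Sc φ c) (l + 2) b) -
        ∑ b, M (l + 1) b * sHi j (fun i => (be k i)⁻¹) (Sc φ c) (l + 1) b := by
  rw [← sumHi j (fun i => (be k i)⁻¹) M (Sc φ c) (l + 1) (l + 1),
    ← sumLo j M (Sc φ c) (l + 2) (l + 2),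
    ← ind_sum c j hcj (∑ a, M a (l + 2) * φ.p c j (l + 2) (xx j a)),
    ← Finset.sum_sub_distrib, Finset.mul_sum, ← Finset.sum_sub_distrib]
  refine Finset.sum_congr rfl fun i _ => ?_
  unfold tauD
  by_cases h1 : i < j
  · rw [if_pos h1, if_pos h1, if_pos h1, if_neg (not_lt.2 h1.le),
      ff_col c j i hcj h1 M (l + 2) (fun i => φ.p i j (l + 2)), ff_pf_row hcj.ne']
    simp only [Sc]
    ring
  · rw [if_neg h1, if_neg h1, if_neg h1]
    by_cases h2 : j < i
    · rw [if_pos h2, if_pos h2, ff_pf_other h2.ne' (hcj.trans h2).ne', ff_pf_row hcj.ne']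
      simp only [Sc]
      ring
    · rw [if_neg h2, if_neg h2]
      ring

end EQG_

open EQG_

theorem p_EQG (k : Type*) [Field k] [CharZero k] : T_EQG k := by
  intro m t φ hE c hz j hcj
  have hne : j ≠ c := hcj.ne'
  have hrow : ∀ (M : Fin 3 → Fin 3 → k) (a : Fin 3) (s : Fin t) (b : Fin 2),
      ff (pf j c M) (xx j a) (φ.s (zz s b)) = 0 := by
    intro M a s b
    rw [ff_pf_row hne]
    exact Finset.sum_eq_zero fun x _ => by rw [hz, mul_zero]
  refine ⟨WG_of fun M hM => ?_, WG_of fun M hM => ?_, WG_of fun M hM => ?_, WG_of fun M hM => ?_,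
    WG_of fun M hM => ?_⟩
  · have h := (hE _ (pf_min1_gt hcj hM)).A0 j
    rw [sum_tauP φ c j hcj, ff_pf_row hne, ff_pf_row hne] at h
    simp only [pr, XA0, Fin.sum_univ_three, Sc] at h ⊢
    simp at h ⊢
    linear_combination h
  · have h := (hE _ (pf_min1_gt hcj hM)).A1 j
    simp only [hrow, ff_pf_z, sub_zero, Finset.sum_const_zero, add_zero] at h
    rw [sum_tauP φ c j hcj, ff_pf_row hne, ff_pf_row hne] at h
    simp only [pr, XA1, Fin.sum_univ_three, Sc] at h ⊢
    simp at h ⊢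
    linear_combination h
  · have h := (hE _ (pf_min1_gt hcj hM)).B0 j
    rw [sum_tauM φ c j hcj, ff_pf_row hne, ff_pf_row hne] at h
    simp only [pr, XB0, Fin.sum_univ_three, Sc] at h ⊢
    simp at h ⊢
    linear_combination h
  · have h := (hE _ (pf_min1_gt hcj hM)).B1 j
    simp only [hrow, ff_pf_z, sub_zero, Finset.sum_const_zero, add_zero] at h
    rw [sum_tauM φ c j hcj, ff_pf_row hne, ff_pf_row hne] at h
    simp only [pr, XB1, Fin.sum_univ_three, Sc] at h ⊢
    simp at h ⊢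
    linear_combination h
  · have h := (hE _ (pf_min1_gt hcj hM)).C j
    simp only [hrow, ff_pf_z, sub_zero, Finset.sum_const_zero] at h
    rw [Finset.sum_sub_distrib, sum_tauD φ c j hcj, sum_tauD φ c j hcj, ff_pf_row hne,
      ff_pf_row hne] at h
    simp only [pr, XC, Fin.sum_univ_three] at h ⊢
    simp at h ⊢
    linear_combination h

end Pool.Agent.VCC
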