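import Pool.Agent.VCC.Targets

set_option autoImplicit false

/-!
# VCC, job EQL: the five matrix equations for `j < c`
-/

namespace Pool.Agent.VCC

namespace EQL_

variable {m t : ℕ} {k : Type*} [Field k] {φ : Dat m t k} {j c : Fin m}

theorem sLo_row (M : Fin 3 → Fin 3 → k) (S : Fin m → Fin 3 → Fin 3 → k) (a l : Fin 3) :
    ∑ b, M a b * sLo j S l b = ∑ i, if i < j then ∑ b, M a b * S i l b else 0 := by
  simp only [sLo, Finset.mul_sum]
  rw [Finset.sum_comm]
  refine Finset.sum_congr rfl fun i _ => ?_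
  split_ifs <;> simp

theorem sHi_row (M : Fin 3 → Fin 3 → k) (w : Fin m → k) (S : Fin m → Fin 3 → Fin 3 → k)
    (a l : Fin 3) :
    ∑ b, M a b * sHi j w S l b = ∑ i, if j < i then w i * ∑ b, M a b * S i l b else 0 := by
  simp only [sHi, Finset.mul_sum]
  rw [Finset.sum_comm]
  refine Finset.sum_congr rfl fun i _ => ?_
  split_ifs
  · exact Finset.sum_congr rfl fun b _ => by ring
  · simp

theorem sum_split (hjc : j < c) (f g : Fin m → k) (h : k)
    (hlt : ∀ i, i < j → f i = g i) (hself : f j = 0) (hc : f c = g c + h)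
    (hgt : ∀ i, j < i → i ≠ c → f i = g i) :
    ∑ i, f i = ∑ i, (if i = j then 0 else g i) + h := by
  have e1 : ∀ i, f i = (if i = j then 0 else g i) + (if i = c then h else 0) := by
    intro i
    by_cases h1 : i = j
    · subst h1
      rw [if_pos rfl, if_neg hjc.ne, hself]; ring
    · by_cases h2 : i = c
      · subst h2
        rw [if_neg h1, if_pos rfl, hc]
      · rw [if_neg h1, if_neg h2, add_zero]
        rcases lt_or_gt_of_ne h1 with h3 | h3
        · exact hlt i h3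
        · exact hgt i h3 h2
  rw [Finset.sum_congr rfl fun i _ => e1 i, Finset.sum_add_distrib, Finset.sum_ite_eq',
    if_pos (Finset.mem_univ c)]

theorem sumP (hjc : j < c) (M : Fin 3 → Fin 3 → k) (l : Fin 3) :
    ∑ i, tauP φ (pf j c M : Ix m t → Ix m t → k) j l i =
      -(be k j * ∑ b, M (l + 1) b * sLo j (Sc φ c) (l + 2) b) +
      (1 + be k c ^ 3)⁻¹ * (∑ a, M a (l + 2) * φ.p j c l (xx j a) -
        be k c * ∑ a, M a (l + 1) * φ.p j c (l + 2) (xx j a) +
        be k c ^ 2 * ∑ a, M a l * φ.p j c (l + 1) (xx j a)) := by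
  rw [sum_split hjc _ (fun i => if i < j then
      -(be k j * ∑ b, M (l + 1) b * Sc φ c i (l + 2) b) else 0)
    ((1 + be k c ^ 3)⁻¹ * (∑ a, M a (l + 2) * φ.p j c l (xx j a) -
        be k c * ∑ a, M a (l + 1) * φ.p j c (l + 2) (xx j a) +
        be k c ^ 2 * ∑ a, M a l * φ.p j c (l + 1) (xx j a)))]
  · congr 1
    rw [sLo_row, Finset.mul_sum, ← Finset.sum_neg_distrib]
    refine Finset.sum_congr rfl fun i _ => ?_
    by_cases h1 : i = j
    · subst h1; simp
    · rw [if_neg h1]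
      split_ifs <;> simp
  · intro i hi
    rw [if_pos hi, tauP, if_pos hi, ff_pf_other hi.ne (hi.trans hjc).ne, ff_pf_row hjc.ne]
    simp only [Sc]
    ring
  · simp [tauP]
  · rw [if_neg (not_lt.2 hjc.le), tauP, if_neg (not_lt.2 hjc.le), if_pos hjc, ff_pf_col hjc.ne,
      ff_pf_col hjc.ne, ff_pf_col hjc.ne, zero_add]
  · intro i hi hic
    rw [if_neg (not_lt.2 hi.le), tauP, if_neg (not_lt.2 hi.le), if_pos hi,
      ff_pf_other hi.ne' hic, ff_pf_other hi.ne' hic, ff_pf_other hi.ne' hic]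
    ring

theorem sumM (hjc : j < c) (M : Fin 3 → Fin 3 → k) (l : Fin 3) :
    ∑ i, tauM φ (pf j c M : Ix m t → Ix m t → k) j l i =
      -(∑ b, M (l + 2) b * sHi j (be k) (Sc φ c) (l + 1) b) +
      ∑ a, M a (l + 1) * φ.p j c l (xx j a) := by
  rw [sum_split hjc _ (fun i => if j < i then
      -(be k i * ∑ b, M (l + 2) b * Sc φ c i (l + 1) b) else 0)
    (∑ a, M a (l + 1) * φ.p j c l (xx j a))]
  · congr 1
    rw [sHi_row, ← Finset.sum_neg_distrib]
    refine Finset.sum_congr rfl fun i _ => ?_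
    by_cases h1 : i = j
    · subst h1; simp
    · rw [if_neg h1]
      split_ifs <;> simp
  · intro i hi
    rw [if_neg (not_lt.2 hi.le), tauM, if_pos hi, ff_pf_other hi.ne (hi.trans hjc).ne,
      ff_pf_other hi.ne (hi.trans hjc).ne, ff_pf_other hi.ne (hi.trans hjc).ne]
    ring
  · simp [tauM]
  · rw [if_pos hjc, tauM, if_neg (not_lt.2 hjc.le), if_pos hjc, ff_pf_col hjc.ne,
      ff_pf_row hjc.ne]
    simp only [Sc]
    ring
  · intro i hi hic
    rw [if_pos hi, tauM, if_neg (not_lt.2 hi.le), if_pos hi,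
      ff_pf_other hi.ne' hic, ff_pf_row hjc.ne]
    simp only [Sc]
    ring

theorem sumD (hjc : j < c) (M : Fin 3 → Fin 3 → k) (l : Fin 3) :
    ∑ i, tauD φ (pf j c M : Ix m t → Ix m t → k) j l i =
      (-((be k j)⁻¹ * ∑ b, M (l + 2) b * sLo j (Sc φ c) (l + 2) b) -
        ∑ b, M (l + 1) b * sHi j (fun i => (be k i)⁻¹) (Sc φ c) (l + 1) b) +
      (be k c)⁻¹ * ∑ a, M a (l + 1) * φ.p j c (l + 1) (xx j a) := by
  rw [sum_split hjc _ (fun i => (if i < j then
      -((be k j)⁻¹ * ∑ b, M (l + 2) b * Sc φ c i (l + 2) b) else 0) +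
      (if j < i then -((be k i)⁻¹ * ∑ b, M (l + 1) b * Sc φ c i (l + 1) b) else 0))
    ((be k c)⁻¹ * ∑ a, M a (l + 1) * φ.p j c (l + 1) (xx j a))]
  · congr 1
    rw [sLo_row, sHi_row, Finset.mul_sum, ← Finset.sum_neg_distrib, ← Finset.sum_sub_distrib]
    refine Finset.sum_congr rfl fun i _ => ?_
    by_cases h1 : i = j
    · subst h1; simp
    · rw [if_neg h1]
      rcases lt_or_gt_of_ne h1 with h2 | h2
      · rw [if_pos h2, if_neg (not_lt.2 h2.le), if_pos h2, if_neg (not_lt.2 h2.le)]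
        ring
      · rw [if_pos h2, if_neg (not_lt.2 h2.le), if_pos h2, if_neg (not_lt.2 h2.le)]
        ring
  · intro i hi
    rw [if_pos hi, if_neg (not_lt.2 hi.le), tauD, if_pos hi,
      ff_pf_other hi.ne (hi.trans hjc).ne, ff_pf_row hjc.ne]
    simp only [Sc]
    ring
  · simp [tauD]
  · rw [if_neg (not_lt.2 hjc.le), if_pos hjc, tauD, if_neg (not_lt.2 hjc.le), if_pos hjc,
      ff_pf_col hjc.ne, ff_pf_row hjc.ne]
    simp only [Sc]
    ring
  · intro i hi hic
    rw [if_neg (not_lt.2 hi.le), if_pos hi, tauD, if_neg (not_lt.2 hi.le), if_pos hi,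
      ff_pf_other hi.ne' hic, ff_pf_row hjc.ne]
    simp only [Sc]
    ring

theorem zterm (hjc : j < c) (hz : ∀ s b a, φ.s (zz s b) (xx c a) = 0) (M : Fin 3 → Fin 3 → k)
    (s : Fin t) (b : Fin 2) (a : Fin 3) (b' : Fin 2) (u : Ix m t → k) :
    ff (pf j c M : Ix m t → Ix m t → k) (zz s b') u -
      ff (pf j c M : Ix m t → Ix m t → k) (xx j a) (φ.s (zz s b)) = 0 := by
  rw [ff_pf_z, ff_pf_row hjc.ne]
  simp [hz]

end EQL_

open EQL_ in
theorem p_EQL (k : Type*) [Field k] [CharZero k] : T_EQL k := by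
  intro m t φ hE c hz j hjc
  have key : ∀ M, AdL (be k c) M → Eqs φ (pf j c M : Ix m t → Ix m t → k) :=
    fun M hM => hE _ (pf_min1_lt hjc hM)
  refine ⟨WL_of fun M hM => ?_, WL_of fun M hM => ?_, WL_of fun M hM => ?_,
    WL_of fun M hM => ?_, WL_of fun M hM => ?_⟩
  · have h := (key M hM).A0 j
    rw [sumP hjc, ff_pf_row hjc.ne, ff_pf_row hjc.ne] at h
    simp only [pr, YA0, Fin.sum_univ_three, Sc] at h ⊢
    simp at h ⊢
    linear_combination h
  · have h := (key M hM).A1 j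
    rw [sumP hjc, ff_pf_row hjc.ne, ff_pf_row hjc.ne,
      Finset.sum_eq_zero fun s _ => zterm hjc hz M s 1 1 1 _] at h
    simp only [pr, YA1, Fin.sum_univ_three, Sc] at h ⊢
    simp at h ⊢
    linear_combination h
  · have h := (key M hM).B0 j
    rw [sumM hjc, ff_pf_row hjc.ne, ff_pf_row hjc.ne] at h
    simp only [pr, YB0, Fin.sum_univ_three, Sc] at h ⊢
    simp at h ⊢
    linear_combination h
  · have h := (key M hM).B1 j
    rw [sumM hjc, ff_pf_row hjc.ne, ff_pf_row hjc.ne,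
      Finset.sum_eq_zero fun s _ => zterm hjc hz M s 0 1 0 _] at h
    simp only [pr, YB1, Fin.sum_univ_three, Sc] at h ⊢
    simp at h ⊢
    linear_combination h
  · have h := (key M hM).C j
    rw [Finset.sum_sub_distrib, sumD hjc, sumD hjc, ff_pf_row hjc.ne, ff_pf_row hjc.ne,
      Finset.sum_eq_zero fun s _ => zterm hjc hz M s 0 0 0 _] at h
    simp only [pr, YC, Fin.sum_univ_three] at h ⊢
    simp at h ⊢
    linear_combination h

end Pool.Agent.VCC
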