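import Pool.Agent.VCC.Targets

set_option autoImplicit false
set_option linter.unusedSimpArgs false

namespace Pool.Agent.VCC

namespace EQZ_

variable {m t : ℕ} {k : Type*} [Field k] (φ : Dat m t k) (j : Fin m) (s : Fin t)
  (M : Fin 3 → Fin 2 → k)

private theorem sumP (l : Fin 3) : ∑ i, tauP φ (pz j s M) j l i =
    - be k j * ∑ b, M (l + 1) b * tLo j (Sz φ s) (l + 2) b := by
  unfold tLo Sz
  simp only [Finset.mul_sum]
  rw [Finset.sum_comm]
  refine Finset.sum_congr rfl fun i _ => ?_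
  unfold tauP
  rcases lt_trichotomy i j with h | h | h
  · simp only [if_pos h]
    rw [ff_pz_other h.ne, ff_pz_row]
    simp only [zero_sub, Finset.mul_sum, ← Finset.sum_neg_distrib]
    exact Finset.sum_congr rfl fun b _ => by ring
  · subst h
    simp
  · simp only [if_neg (not_lt.2 h.le), if_pos h]
    rw [ff_pz_other h.ne', ff_pz_other h.ne', ff_pz_other h.ne']
    simp

private theorem sumM (l : Fin 3) : ∑ i, tauM φ (pz j s M) j l i =
    - ∑ b, M (l + 2) b * tHi j (be k) (Sz φ s) (l + 1) b := by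
  unfold tHi Sz
  simp only [Finset.mul_sum, ← Finset.sum_neg_distrib]
  rw [Finset.sum_comm]
  refine Finset.sum_congr rfl fun i _ => ?_
  unfold tauM
  rcases lt_trichotomy i j with h | h | h
  · simp only [if_pos h, if_neg (not_lt.2 h.le)]
    rw [ff_pz_other h.ne, ff_pz_other h.ne, ff_pz_other h.ne]
    simp
  · subst h
    simp
  · simp only [if_neg (not_lt.2 h.le), if_pos h]
    rw [ff_pz_other h.ne', ff_pz_row]
    simp only [zero_sub, Finset.mul_sum, ← Finset.sum_neg_distrib]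
    exact Finset.sum_congr rfl fun b _ => by ring

private theorem sumD (l : Fin 3) : ∑ i, tauD φ (pz j s M) j l i =
    - (be k j)⁻¹ * ∑ b, M (l + 2) b * tLo j (Sz φ s) (l + 2) b
    - ∑ b, M (l + 1) b * tHi j (fun i => (be k i)⁻¹) (Sz φ s) (l + 1) b := by
  unfold tLo tHi Sz
  simp only [Finset.mul_sum, ← Finset.sum_neg_distrib]
  rw [Finset.sum_comm, Finset.sum_comm (s := (Finset.univ : Finset (Fin 2))),
    ← Finset.sum_sub_distrib]
  refine Finset.sum_congr rfl fun i _ => ?_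
  unfold tauD
  rcases lt_trichotomy i j with h | h | h
  · simp only [if_pos h, if_neg (not_lt.2 h.le)]
    rw [ff_pz_other h.ne, ff_pz_row]
    simp only [zero_sub, Finset.mul_sum, ← Finset.sum_neg_distrib, mul_zero,
      Finset.sum_const_zero, sub_zero]
    exact Finset.sum_congr rfl fun b _ => by ring
  · subst h
    simp
  · simp only [if_neg (not_lt.2 h.le), if_pos h]
    rw [ff_pz_other h.ne', ff_pz_row]
    simp only [zero_sub, Finset.mul_sum, ← Finset.sum_neg_distrib, mul_zero,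
      Finset.sum_const_zero]
    exact Finset.sum_congr rfl fun b _ => by ring

private theorem sumZ (h0 : ∀ s', s' ≠ s → ∀ d b, φ.s (zz s' d) (zz s b) = 0)
    (d e f : Fin 2) (a : Fin 3) :
    ∑ s', (ff (pz j s M) (zz s' d) (φ.q j s' e) - ff (pz j s M) (xx j a) (φ.s (zz s' f))) =
    ∑ a', M a' d * φ.q j s e (xx j a') - ∑ b, M a b * φ.s (zz s f) (zz s b) := by
  rw [Finset.sum_eq_single s, ff_pz_col, ff_pz_row]
  · intro s' _ hs
    rw [ff_pz_other' j hs, ff_pz_row]
    simp [h0 s' hs]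
  · simp

private theorem f11 : (1 : Fin 3) + 1 = 2 := rfl
private theorem f12 : (1 : Fin 3) + 2 = 0 := rfl
private theorem f21 : (2 : Fin 3) + 1 = 0 := rfl
private theorem f22 : (2 : Fin 3) + 2 = 1 := rfl

private theorem all (h : HypE φ) (h0 : ∀ s', s' ≠ s → ∀ d b, φ.s (zz s' d) (zz s b) = 0) :
  WZ (ZA0 (be k j) (fun b => φ.g0 (zz s b)) (Sz φ s j) (tLo j (Sz φ s))) ∧
  WZ (ZB0 (fun b => φ.g0 (zz s b)) (Sz φ s j) (tHi j (be k) (Sz φ s))) ∧
  WZ (ZA1 (be k j) (fun b => φ.g1 (zz s b)) (Sz φ s j) (tLo j (Sz φ s))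
    (fun d b => φ.s (zz s d) (zz s b)) fun d a => φ.q j s d (xx j a)) ∧
  WZ (ZB1 (fun b => φ.g1 (zz s b)) (Sz φ s j) (tHi j (be k) (Sz φ s))
    (fun d b => φ.s (zz s d) (zz s b)) fun d a => φ.q j s d (xx j a)) ∧
  WZ (ZC (be k j) (fun b => φ.g0 (zz s b)) (fun b => φ.g1 (zz s b)) (tLo j (Sz φ s))
    (tHi j (fun i => (be k i)⁻¹) (Sz φ s)) (fun d b => φ.s (zz s d) (zz s b))
    fun d a => φ.q j s d (xx j a)) ∧
  WZ (ZS (fun d b => φ.s (zz s d) (zz s b)) fun d a => φ.q j s d (xx j a)) := by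
  refine ⟨WZ_of fun M hM => ?_, WZ_of fun M hM => ?_, WZ_of fun M hM => ?_,
    WZ_of fun M hM => ?_, WZ_of fun M hM => ?_, WZ_of fun M hM => ?_⟩
  · have E := (h _ (pz_min1 j s hM)).A0 j
    rw [sumP, ff_pz_row, ff_pz_row] at E
    simp only [Fin.sum_univ_two, Fin.sum_univ_three, pr, ZA0, Sz, Matrix.cons_val_zero,
      Matrix.cons_val_one, Fin.isValue, f11, f12, f21, f22, zero_add,
      Matrix.cons_val] at E ⊢
    linear_combination E
  · have E := (h _ (pz_min1 j s hM)).B0 j
    rw [sumM, ff_pz_row, ff_pz_row] at E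
    simp only [Fin.sum_univ_two, Fin.sum_univ_three, pr, ZB0, Sz, Matrix.cons_val_zero,
      Matrix.cons_val_one, Fin.isValue, f11, f12, f21, f22, zero_add,
      Matrix.cons_val] at E ⊢
    linear_combination E
  · have E := (h _ (pz_min1 j s hM)).A1 j
    rw [sumP, ff_pz_row, ff_pz_row, sumZ _ _ _ _ h0] at E
    simp only [Fin.sum_univ_two, Fin.sum_univ_three, pr, ZA1, Sz, Matrix.cons_val_zero,
      Matrix.cons_val_one, Fin.isValue, f11, f12, f21, f22, zero_add,
      Matrix.cons_val] at E ⊢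
    linear_combination E
  · have E := (h _ (pz_min1 j s hM)).B1 j
    rw [sumM, ff_pz_row, ff_pz_row, sumZ _ _ _ _ h0] at E
    simp only [Fin.sum_univ_two, Fin.sum_univ_three, pr, ZB1, Sz, Matrix.cons_val_zero,
      Matrix.cons_val_one, Fin.isValue, f11, f12, f21, f22, zero_add,
      Matrix.cons_val] at E ⊢
    linear_combination E
  · have E := (h _ (pz_min1 j s hM)).C j
    rw [Finset.sum_sub_distrib, sumD, sumD, ff_pz_row, ff_pz_row, sumZ _ _ _ _ h0] at E
    simp only [Fin.sum_univ_two, Fin.sum_univ_three, pr, ZC, Sz, Matrix.cons_val_zero,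
      Matrix.cons_val_one, Fin.isValue, f11, f12, f21, f22, zero_add,
      Matrix.cons_val] at E ⊢
    linear_combination E
  · have E := (h _ (pz_min1 j s hM)).sg j s
    rw [ff_pz_row, ff_pz_row, ff_pz_col, ff_pz_col] at E
    simp only [Fin.sum_univ_two, Fin.sum_univ_three, pr, ZS, Sz, Matrix.cons_val_zero,
      Matrix.cons_val_one, Fin.isValue, f11, f12, f21, f22, zero_add,
      Matrix.cons_val] at E ⊢
    linear_combination E

end EQZ_

theorem p_EQZ (k : Type*) [Field k] [CharZero k] : T_EQZ k :=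
  fun _ _ φ h s h0 j => EQZ_.all φ j s h h0

end Pool.Agent.VCC
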