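import Pool.Agent.VCC.Targets

/-!
# FIB1: coordinates in which the multiplication has no linear part
-/

set_option autoImplicit false

namespace Pool.Agent.VCC

namespace FIB1_

universe u

variable {k : Type u} [Field k] {n r : ℕ} {A : Type u} [CommRing A] [Algebra k A]

/-- The expansion in the basis. -/
lemma expand (x : Fin n → A) (q : Fin r → A) (B : Module.Basis (Unit ⊕ Fin n ⊕ Fin r) k A)
    (h0 : B (Sum.inl ()) = 1) (h1 : ∀ i, B (Sum.inr (Sum.inl i)) = x i)
    (h2 : ∀ s, B (Sum.inr (Sum.inr s)) = q s) (a : A) :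
    a = algebraMap k A (B.repr a (Sum.inl ())) + ∑ t, B.repr a (Sum.inr (Sum.inl t)) • x t +
      ∑ s, B.repr a (Sum.inr (Sum.inr s)) • q s := by
  conv_lhs => rw [← B.sum_repr a]
  rw [Fintype.sum_sum_type, Fintype.sum_sum_type]
  simp only [Finset.univ_unique, Finset.sum_singleton, h1, h2]
  have : B (Sum.inl (default : Unit)) = 1 := h0
  rw [this, ← Algebra.algebraMap_eq_smul_one, add_assoc]

end FIB1_

universe u

open FIB1_ in
theorem p_FIB1 (k : Type u) [Field k] [CharZero k] : T_FIB1 k := by
  intro n r A _ _ x q B μ h0 h1 h2 hμ hG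
  have hexp := expand x q B h0 h1 h2
  -- coordinates
  have hx : ∀ i s, B.repr (x i) (Sum.inr (Sum.inr s)) = 0 := by
    intro i s
    rw [← h1, B.repr_self]
    simp
  have hone : ∀ s, B.repr 1 (Sum.inr (Sum.inr s)) = 0 := by
    intro s
    rw [← h0, B.repr_self]
    simp
  have hq : ∀ s s', B.repr (q s) (Sum.inr (Sum.inr s')) = if s = s' then 1 else 0 := by
    intro s s'
    rw [← h2, B.repr_self, Finsupp.single_apply]
    simp
  have hsol : Sol μ (fun i j t => B.repr (x i * x j) (Sum.inr (Sum.inl t)))
      (fun i s s' => B.repr (x i * q s') (Sum.inr (Sum.inr s))) := by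
    refine ⟨fun j l t => by beta_reduce; rw [mul_comm (x j) (x l)], ?_⟩
    have key : ∀ i j l s, B.repr (x i * (x j * x l)) (Sum.inr (Sum.inr s)) =
        (∑ t, B.repr (x j * x l) (Sum.inr (Sum.inl t)) * μ i t s) +
        ∑ s', B.repr (x i * q s') (Sum.inr (Sum.inr s)) * μ j l s' := by
      intro i j l s
      conv_lhs => rw [hexp (x j * x l)]
      rw [mul_add, mul_add, Finset.mul_sum, Finset.mul_sum]
      simp only [mul_smul_comm, map_add, map_sum, map_smul, Finsupp.add_apply,
        Finsupp.finsetSum_apply, Finsupp.smul_apply, smul_eq_mul, hμ]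
      rw [mul_comm (x i) (algebraMap k A _), ← Algebra.smul_def, map_smul, Finsupp.smul_apply, hx,
        smul_zero, zero_add]
      congr 1
      apply Finset.sum_congr rfl
      intro s' _
      ring
    intro i j l s
    rw [← key, ← key]
    congr 2
    ring
  obtain ⟨v, θ, t1, t2⟩ := hG _ _ hsol
  -- the change of basis
  set Φ : A →ₗ[k] A := B.constr k (fun c : Unit ⊕ Fin n ⊕ Fin r => match c with
    | Sum.inl _ => 1
    | Sum.inr (Sum.inl i) => x i - algebraMap k A (v i)
    | Sum.inr (Sum.inr s) => q s + ∑ t, θ s t • x t) with hΦ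
  set Ψ : A →ₗ[k] A := B.constr k (fun c : Unit ⊕ Fin n ⊕ Fin r => match c with
    | Sum.inl _ => 1
    | Sum.inr (Sum.inl i) => x i + algebraMap k A (v i)
    | Sum.inr (Sum.inr s) => q s - ∑ t, θ s t • (x t + algebraMap k A (v t))) with hΨ
  have f0 : Φ 1 = 1 := by rw [← h0, hΦ, B.constr_basis]; exact h0.symm
  have f1 : ∀ i, Φ (x i) = x i - algebraMap k A (v i) := fun i => by
    rw [← h1 i, hΦ, B.constr_basis, h1 i]
  have f2 : ∀ s, Φ (q s) = q s + ∑ t, θ s t • x t := fun s => by
    rw [← h2 s, hΦ, B.constr_basis, h2 s]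
  have g0 : Ψ 1 = 1 := by rw [← h0, hΨ, B.constr_basis]; exact h0.symm
  have g1 : ∀ i, Ψ (x i) = x i + algebraMap k A (v i) := fun i => by
    rw [← h1 i, hΨ, B.constr_basis, h1 i]
  have g2 : ∀ s, Ψ (q s) = q s - ∑ t, θ s t • (x t + algebraMap k A (v t)) := fun s => by
    rw [← h2 s, hΨ, B.constr_basis, h2 s]
  have f3 : ∀ c : k, Φ (algebraMap k A c) = algebraMap k A c := fun c => by
    rw [Algebra.algebraMap_eq_smul_one, map_smul, f0]
  have g3 : ∀ c : k, Ψ (algebraMap k A c) = algebraMap k A c := fun c => by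
    rw [Algebra.algebraMap_eq_smul_one, map_smul, g0]
  have e1 : Φ ∘ₗ Ψ = LinearMap.id := by
    apply B.ext
    rintro (c | i | s)
    · have : B (Sum.inl c) = 1 := h0
      rw [this, LinearMap.comp_apply, g0, f0, LinearMap.id_apply]
    · rw [h1, LinearMap.comp_apply, g1, map_add, f1, f3, LinearMap.id_apply]
      ring
    · rw [h2, LinearMap.comp_apply, g2, map_sub, f2, map_sum, LinearMap.id_apply]
      simp only [map_smul, map_add, f1, f3, sub_add_cancel]
      ring
  have e2 : Ψ ∘ₗ Φ = LinearMap.id := by
    apply B.ext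
    rintro (c | i | s)
    · have : B (Sum.inl c) = 1 := h0
      rw [this, LinearMap.comp_apply, f0, g0, LinearMap.id_apply]
    · rw [h1, LinearMap.comp_apply, f1, map_sub, g1, g3, LinearMap.id_apply]
      ring
    · rw [h2, LinearMap.comp_apply, f2, map_add, g2, map_sum, LinearMap.id_apply]
      simp only [map_smul, g1]
      ring
  have hcoord : ∀ s a, B.repr (Ψ a) (Sum.inr (Sum.inr s)) = B.repr a (Sum.inr (Sum.inr s)) := by
    intro s
    have : (B.coord (Sum.inr (Sum.inr s))) ∘ₗ Ψ = B.coord (Sum.inr (Sum.inr s)) := by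
      apply B.ext
      rintro (c | i | s')
      · have : B (Sum.inl c) = 1 := h0
        rw [this, LinearMap.comp_apply, g0]
      · rw [h1, LinearMap.comp_apply, g1, map_add, Algebra.algebraMap_eq_smul_one, map_smul]
        simp only [Module.Basis.coord_apply, hone, smul_zero, add_zero]
      · rw [h2, LinearMap.comp_apply, g2, map_sub, map_sum]
        simp only [map_smul, map_add, Algebra.algebraMap_eq_smul_one, Module.Basis.coord_apply,
          hone, hx, smul_zero, add_zero, Finset.sum_const_zero, sub_zero]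
    intro a
    have h3 := LinearMap.congr_fun this a
    simpa only [LinearMap.comp_apply, Module.Basis.coord_apply] using h3
  set B' := B.map (LinearEquiv.ofLinearMap Φ Ψ e1 e2) with hB'
  have hB's : ∀ a s, B'.repr a (Sum.inr (Sum.inr s)) = B.repr a (Sum.inr (Sum.inr s)) := by
    intro a s
    rw [hB', Module.Basis.map_repr, LinearEquiv.trans_apply]
    exact hcoord s a
  have hB'b : ∀ c, B' c = Φ (B c) := by
    intro c
    rw [hB', Module.Basis.map_apply]
    rfl
  refine ⟨v, fun s => q s + ∑ t, θ s t • x t, B',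
    fun i j => B.repr (x i * x j) (Sum.inl ()) + v i * v j, ?_, ?_, ?_, ?_, ?_⟩
  · rw [hB'b, h0, f0]
  · intro i
    rw [hB'b, h1, f1]
  · intro s
    rw [hB'b, h2, f2]
  · intro i j
    have h3 := hexp (x i * x j)
    have h4 : ∑ t, B.repr (x i * x j) (Sum.inr (Sum.inl t)) • x t =
        v i • x j + v j • x i + ∑ s, μ i j s • ∑ t, θ s t • x t := by
      have : ∀ t, B.repr (x i * x j) (Sum.inr (Sum.inl t)) • x t =
          (v i * (if j = t then 1 else 0)) • x t + (v j * (if i = t then 1 else 0)) • x t +
          ∑ s, (μ i j s * θ s t) • x t := by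
        intro t
        have h5 := t1 i j t
        simp only at h5
        rw [h5, add_smul, add_smul, Finset.sum_smul]
        congr 1
        apply Finset.sum_congr rfl
        intro s _
        rw [mul_comm]
      rw [Finset.sum_congr rfl (fun t _ => this t), Finset.sum_add_distrib,
        Finset.sum_add_distrib]
      congr 1
      · congr 1
        · simp
        · simp
      · rw [Finset.sum_comm]
        apply Finset.sum_congr rfl
        intro s _
        rw [Finset.smul_sum]
        apply Finset.sum_congr rfl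
        intro t _
        rw [smul_smul]
    simp only [hμ] at h3
    rw [h4] at h3
    simp only [smul_add, Finset.sum_add_distrib, map_add, map_mul]
    simp only [Algebra.smul_def] at h3 ⊢
    linear_combination h3
  · intro i s s'
    rw [hB's]
    have h3 := t2 i s' s
    simp only at h3
    rw [sub_mul, mul_add, mul_add, Finset.mul_sum, Finset.mul_sum]
    simp only [mul_smul_comm, ← Algebra.smul_def, map_add, map_sub, map_sum, map_smul,
      Finsupp.add_apply, Finsupp.sub_apply, Finsupp.finsetSum_apply, Finsupp.smul_apply,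
      smul_eq_mul, hμ, hx, hq, h3, mul_zero, Finset.sum_const_zero, add_zero, eq_comm (a := s')]
    ring

end Pool.Agent.VCC
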