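import Pool.Agent.VCC.Targets

/-!
# FIB2: the constants can be absorbed
-/

set_option autoImplicit false

namespace Pool.Agent.VCC

open MvPolynomial HilbPts

universe u

namespace FIB2_

/-- the sum of a function against `[i₀,j₀] - ∑ s, c s [b s]` -/
lemma sum_special {k : Type u} [Field k] {n r : ℕ} (b : Fin r → Fin n × Fin n) (c : Fin r → k)
    (i₀ j₀ : Fin n) (F : Fin n → Fin n → k) :
    ∑ j, ∑ l, ((if j = i₀ ∧ l = j₀ then (1 : k) else 0) -
      ∑ s, c s * (if j = (b s).1 ∧ l = (b s).2 then 1 else 0)) * F j l =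
      F i₀ j₀ - ∑ s, c s * F (b s).1 (b s).2 := by
  have key : ∀ (a b : Fin n), ∑ j, ∑ l, (if j = a ∧ l = b then (1 : k) else 0) * F j l = F a b := by
    intro a b
    rw [Finset.sum_eq_single a, Finset.sum_eq_single b]
    · simp
    · intro l _ hl; simp [hl]
    · simp
    · intro j _ hj; simp [hj]
    · simp
  simp only [sub_mul, Finset.sum_sub_distrib]
  rw [key]
  congr 1
  simp only [Finset.sum_mul]
  have : ∀ j : Fin n, ∑ l : Fin n, ∑ s : Fin r,
      c s * (if j = (b s).1 ∧ l = (b s).2 then (1 : k) else 0) * F j l =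
      ∑ s : Fin r, ∑ l : Fin n, c s * (if j = (b s).1 ∧ l = (b s).2 then (1 : k) else 0) * F j l :=
    fun j => Finset.sum_comm
  simp only [this]
  rw [Finset.sum_comm]
  refine Finset.sum_congr rfl fun s _ => ?_
  rw [← key (b s).1 (b s).2, Finset.mul_sum]
  refine Finset.sum_congr rfl fun j _ => ?_
  rw [Finset.mul_sum]
  refine Finset.sum_congr rfl fun l _ => ?_
  ring

/-- the linear algebra -/
lemma lin {k : Type u} [Field k] [CharZero k] {n r : ℕ} (hr : r + 2 ≤ (n + 1).choose 2)
    (μ : Fin n → Fin n → Fin r → k) (ψ : Fin n → Fin n → k)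
    (hψ : ∀ i j, ψ i j = ψ j i) (hμ : ∀ i j s, μ i j s = μ j i s)
    (v : Fin n → Fin n → k) (θ : Fin n → Fin r → Fin n → k)
    (hv : ∀ l₀ j l t, ψ j l * (if t = l₀ then 1 else 0) =
      v l₀ j * (if l = t then 1 else 0) + v l₀ l * (if j = t then 1 else 0) +
        ∑ s, θ l₀ s t * μ j l s)
    (M : Fin n → Fin n → k) (hM : ∀ s, ∑ j, ∑ l, M j l * μ j l s = 0) :
    ∑ j, ∑ l, M j l * ψ j l = 0 := by
  classical
  -- symmetric matrices
  have hsym : ∀ w : Fin n → Fin n → k, (∀ j l, w j l = w l j) →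
      (∀ s, ∑ j, ∑ l, w j l * μ j l s = 0) → ∀ l₀ t,
      (∑ j, ∑ l, w j l * ψ j l) * (if t = l₀ then 1 else 0) = 2 * ∑ j, w t j * v l₀ j := by
    intro w hw hwμ l₀ t
    have h1 : (∑ j, ∑ l, w j l * ψ j l) * (if t = l₀ then 1 else 0) =
        ∑ j, ∑ l, w j l * (v l₀ j * (if l = t then 1 else 0) + v l₀ l * (if j = t then 1 else 0) +
        ∑ s, θ l₀ s t * μ j l s) := by
      rw [Finset.sum_mul]
      refine Finset.sum_congr rfl fun j _ => ?_
      rw [Finset.sum_mul]
      refine Finset.sum_congr rfl fun l _ => ?_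
      rw [mul_assoc, hv]
    rw [h1]
    simp only [mul_add, Finset.sum_add_distrib]
    have e1 : ∑ j, ∑ l, w j l * (v l₀ j * (if l = t then 1 else 0)) = ∑ j, w t j * v l₀ j := by
      refine Finset.sum_congr rfl fun j _ => ?_
      rw [Finset.sum_eq_single t]
      · simp [hw j t]
      · intro l _ hl; simp [hl]
      · simp
    have e2 : ∑ j, ∑ l, w j l * (v l₀ l * (if j = t then 1 else 0)) = ∑ j, w t j * v l₀ j := by
      rw [Finset.sum_eq_single t]
      · simp
      · intro j _ hj; simp [hj]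
      · simp
    have e3 : ∑ j, ∑ l, w j l * ∑ s, θ l₀ s t * μ j l s = 0 := by
      have : ∀ j l, w j l * ∑ s, θ l₀ s t * μ j l s = ∑ s, θ l₀ s t * (w j l * μ j l s) := by
        intro j l
        rw [Finset.mul_sum]
        refine Finset.sum_congr rfl fun s _ => ?_
        ring
      simp only [this]
      have : ∀ j, ∑ l, ∑ s, θ l₀ s t * (w j l * μ j l s) =
          ∑ s, ∑ l, θ l₀ s t * (w j l * μ j l s) := fun j => Finset.sum_comm
      simp only [this]
      rw [Finset.sum_comm]
      refine Finset.sum_eq_zero fun s _ => ?_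
      simp only [← Finset.mul_sum]
      rw [hwμ s, mul_zero]
    rw [e1, e2, e3]
    ring
  -- there is a nonzero symmetric matrix killed by everything
  obtain ⟨u, hu0, hu1, hu2⟩ : ∃ u : Sym2 (Fin n) → k, u ≠ 0 ∧
      (∀ s, ∑ j, ∑ l, u s(j, l) * μ j l s = 0) ∧ ∑ j, ∑ l, u s(j, l) * ψ j l = 0 := by
    let L : (Sym2 (Fin n) → k) →ₗ[k] ((Fin r → k) × k) :=
      { toFun := fun u => (fun s => ∑ j, ∑ l, u s(j, l) * μ j l s, ∑ j, ∑ l, u s(j, l) * ψ j l)
        map_add' := by
          intro u u'
          ext1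
          · ext s
            simp [add_mul, Finset.sum_add_distrib]
          · simp [add_mul, Finset.sum_add_distrib]
        map_smul' := by
          intro c u
          ext1
          · ext s
            simp [Finset.mul_sum, mul_assoc]
          · simp [Finset.mul_sum, mul_assoc] }
    have hlt : Module.finrank k ((Fin r → k) × k) < Module.finrank k (Sym2 (Fin n) → k) := by
      rw [Module.finrank_prod, Module.finrank_fin_fun, Module.finrank_self,
        Module.finrank_fintype_fun_eq_card, Sym2.card, Fintype.card_fin]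
      omega
    have hker := LinearMap.ker_ne_bot_of_finrank_lt (f := L) hlt
    obtain ⟨u, hu, hu0⟩ := Submodule.exists_mem_ne_zero_of_ne_bot hker
    rw [LinearMap.mem_ker] at hu
    exact ⟨u, hu0, fun s => congrFun (congrArg Prod.fst hu) s, congrArg Prod.snd hu⟩
  have hclaim : ∀ w : Fin n → Fin n → k, (∀ j l, w j l = w l j) →
      (∀ s, ∑ j, ∑ l, w j l * μ j l s = 0) → ∑ j, ∑ l, w j l * ψ j l = 0 := by
    intro w hw hwμ
    by_contra hne
    obtain ⟨z, hz⟩ : ∃ z, z = ∑ j, ∑ l, w j l * ψ j l := ⟨_, rfl⟩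
    rw [← hz] at hne
    have h1 := hsym w hw hwμ
    rw [← hz] at h1
    have h2 := hsym (fun j l => u s(j, l)) (fun j l => by rw [Sym2.eq_swap]) hu1
    simp only [hu2, zero_mul] at h2
    -- matrices
    have m1 : ((2 / z) • Matrix.of w) * (Matrix.of fun j l₀ => v l₀ j) = 1 := by
      ext t l₀
      rw [Matrix.smul_mul, Matrix.smul_apply, Matrix.mul_apply, Matrix.one_apply, smul_eq_mul]
      have := h1 l₀ t
      simp only [Matrix.of_apply]
      have h3 : 2 / z * ∑ j, w t j * v l₀ j = (1 / z) * (2 * ∑ j, w t j * v l₀ j) := by ring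
      rw [h3, ← this]
      split_ifs <;> field_simp
    have m2 : (Matrix.of fun j l => u s(j, l)) * (Matrix.of fun j l₀ => v l₀ j) = 0 := by
      ext t l₀
      rw [Matrix.mul_apply, Matrix.zero_apply]
      have := h2 l₀ t
      simp only [Matrix.of_apply]
      have h2' : (2 : k) ≠ 0 := two_ne_zero
      rcases mul_eq_zero.1 this.symm with h | h
      · exact absurd h h2'
      · exact h
    have m3 := mul_eq_one_comm.1 m1
    have m4 : (Matrix.of fun j l : Fin n => u s(j, l)) = 0 := by
      calc (Matrix.of fun j l : Fin n => u s(j, l))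
          = (Matrix.of fun j l : Fin n => u s(j, l)) *
            ((Matrix.of fun j l₀ => v l₀ j) * ((2 / z) • Matrix.of w)) := by rw [m3, mul_one]
        _ = 0 := by rw [← mul_assoc, m2, zero_mul]
    apply hu0
    funext x
    induction x using Sym2.ind with
    | _ j l =>
      have := congrFun (congrFun m4 j) l
      exact this
  -- symmetrize
  have hMs := hclaim (fun j l => M j l + M l j) (fun j l => by ring) (by
    intro s
    simp only [add_mul, Finset.sum_add_distrib]
    rw [hM s, zero_add]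
    rw [Finset.sum_comm]
    have : ∀ j l, M j l * μ l j s = M j l * μ j l s := fun j l => by rw [hμ]
    simp only [this]
    exact hM s)
  simp only [add_mul, Finset.sum_add_distrib] at hMs
  have h4 : ∑ j, ∑ l, M l j * ψ j l = ∑ j, ∑ l, M j l * ψ j l := by
    rw [Finset.sum_comm]
    refine Finset.sum_congr rfl fun j _ => Finset.sum_congr rfl fun l _ => ?_
    rw [hψ]
  rw [h4, ← two_mul] at hMs
  rcases mul_eq_zero.1 hMs with h | h
  · exact absurd h two_ne_zero
  · exact h

end FIB2_

open FIB2_ in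
theorem p_FIB2 (k : Type u) [Field k] [CharZero k] : T_FIB2 k := by
  classical
  intro n r hn hr A _ _ y q B b μ ψ hB1 hBy hBq hb hmul hq hgood
  -- coordinates
  obtain ⟨cy, hcy⟩ : ∃ cy : Fin n → A →ₗ[k] k, ∀ t a, cy t a = B.repr a (Sum.inr (Sum.inl t)) :=
    ⟨fun t => B.coord (Sum.inr (Sum.inl t)), fun t a => rfl⟩
  obtain ⟨cq, hcq⟩ : ∃ cq : Fin r → A →ₗ[k] k, ∀ t a, cq t a = B.repr a (Sum.inr (Sum.inr t)) :=
    ⟨fun t => B.coord (Sum.inr (Sum.inr t)), fun t a => rfl⟩
  obtain ⟨c1, hc1⟩ : ∃ c1 : A →ₗ[k] k, ∀ a, c1 a = B.repr a (Sum.inl ()) :=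
    ⟨B.coord (Sum.inl ()), fun a => rfl⟩
  have halg : ∀ c : k, algebraMap k A c = c • B (Sum.inl ()) := by
    intro c; rw [hB1, Algebra.algebraMap_eq_smul_one]
  have cyy : ∀ t i, cy t (y i) = if t = i then 1 else 0 := by
    intro t i
    rw [hcy, ← hBy, B.repr_self, Finsupp.single_apply]
    simp only [Sum.inr.injEq, Sum.inl.injEq, eq_comm]
  have cyq : ∀ t s, cy t (q s) = 0 := by
    intro t s
    rw [hcy, ← hBq, B.repr_self, Finsupp.single_apply]
    simp
  have cya : ∀ t c, cy t (algebraMap k A c) = 0 := by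
    intro t c
    rw [halg, map_smul, hcy, B.repr_self, Finsupp.single_apply]
    simp
  have cqq : ∀ t s, cq t (q s) = if t = s then 1 else 0 := by
    intro t s
    rw [hcq, ← hBq, B.repr_self, Finsupp.single_apply]
    simp only [Sum.inr.injEq, eq_comm]
  have cqa : ∀ t c, cq t (algebraMap k A c) = 0 := by
    intro t c
    rw [halg, map_smul, hcq, B.repr_self, Finsupp.single_apply]
    simp
  have c1q : ∀ s, c1 (q s) = 0 := by
    intro s
    rw [hc1, ← hBq, B.repr_self, Finsupp.single_apply]
    simp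
  have c1a : ∀ c, c1 (algebraMap k A c) = c := by
    intro c
    rw [halg, map_smul, hc1, B.repr_self, Finsupp.single_apply]
    simp
  have cyyy : ∀ t i j, cy t (y i * y j) = 0 := by
    intro t i j
    rw [hmul, map_add, map_sum, cya]
    simp [cyq]
  have hμ : ∀ i j s, μ i j s = cq s (y i * y j) := by
    intro i j s
    rw [hmul, map_add, map_sum, cqa]
    simp [cqq]
  have hψ : ∀ i j, ψ i j = c1 (y i * y j) := by
    intro i j
    rw [hmul, map_add, map_sum, c1a]
    simp [c1q]
  have hμs : ∀ i j s, μ i j s = μ j i s := fun i j s => by rw [hμ, hμ, mul_comm]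
  have hψs : ∀ i j, ψ i j = ψ j i := fun i j => by rw [hψ, hψ, mul_comm]
  have hyq : ∀ i s, y i * q s = ∑ t, cy t (y i * q s) • y t +
      algebraMap k A (c1 (y i * q s)) := by
    intro i s
    conv_lhs => rw [← B.sum_repr (y i * q s)]
    rw [Fintype.sum_sum_type, Fintype.sum_sum_type]
    simp only [hBy, hBq, hq, zero_smul, Finset.sum_const_zero, add_zero, Finset.univ_unique,
      Finset.sum_singleton, hcy, halg, hc1]
    rw [add_comm]
  -- (i)
  have hB0 : ∀ i s, c1 (y i * q s) = 0 := by
    intro i s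
    obtain ⟨j, hj⟩ : ∃ j : Fin n, j ≠ i := by
      have : Nontrivial (Fin n) := Fin.nontrivial_iff_two_le.2 hn
      exact exists_ne i
    have e1 : cy j (y j * (y i * q s)) = c1 (y i * q s) := by
      conv_lhs => rw [hyq i s]
      rw [mul_add, map_add, Finset.mul_sum, map_sum, mul_comm (y j) (algebraMap k A _),
        ← Algebra.smul_def, map_smul, cyy]
      simp [cyyy]
    have e2 : cy j (y i * (y j * q s)) = 0 := by
      rw [hyq j s, mul_add, map_add, Finset.mul_sum, map_sum, mul_comm (y i) (algebraMap k A _),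
        ← Algebra.smul_def, map_smul, cyy]
      simp [cyyy, hj]
    rw [← e1, ← e2]
    congr 1
    ring
  refine ⟨fun i s => by rw [← hc1]; exact hB0 i s, fun s => ψ (b s).1 (b s).2, ?_⟩
  -- the triple products
  have htau : ∀ i j l t, cy t (y i * (y j * y l)) =
      ∑ s, μ j l s * cy t (y i * q s) + ψ j l * (if t = i then 1 else 0) := by
    intro i j l t
    rw [hmul, mul_add, map_add, Finset.mul_sum, map_sum, mul_comm (y i) (algebraMap k A _),
      ← Algebra.smul_def, map_smul, cyy, smul_eq_mul]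
    congr 1
    refine Finset.sum_congr rfl fun s _ => ?_
    rw [mul_smul_comm, map_smul, smul_eq_mul]
  -- the solutions
  have hsol : ∀ l₀ : Fin n, ∃ v θ, Triv μ (fun j l t => ψ j l * (if t = l₀ then 1 else 0))
      (fun i s s' => ∑ t, cy t (y i * q s') * μ l₀ t s) v θ := by
    intro l₀
    apply hgood
    refine ⟨fun j l t => by
      show ψ j l * _ = ψ l j * _
      rw [hψs], fun i j l s => ?_⟩
    have key : ∀ i j l, (∑ t, (ψ j l * (if t = l₀ then 1 else 0)) * μ i t s) +
        (∑ s', (∑ t, cy t (y i * q s') * μ l₀ t s) * μ j l s') =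
        ∑ t, cy t (y i * (y j * y l)) * μ l₀ t s := by
      intro i j l
      have e1 : ∑ t, (ψ j l * (if t = l₀ then 1 else 0)) * μ i t s = ψ j l * μ l₀ i s := by
        rw [Finset.sum_eq_single l₀]
        · simp [hμs i l₀]
        · intro t _ ht; simp [ht]
        · simp
      have e2 : ∑ s', (∑ t, cy t (y i * q s') * μ l₀ t s) * μ j l s' =
          ∑ t, (∑ s', μ j l s' * cy t (y i * q s')) * μ l₀ t s := by
        simp only [Finset.sum_mul]
        rw [Finset.sum_comm]
        refine Finset.sum_congr rfl fun t _ => Finset.sum_congr rfl fun s' _ => ?_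
        ring
      have e3 : ∑ t, cy t (y i * (y j * y l)) * μ l₀ t s =
          ∑ t, (∑ s', μ j l s' * cy t (y i * q s')) * μ l₀ t s + ψ j l * μ l₀ i s := by
        simp only [htau, add_mul, Finset.sum_add_distrib]
        congr 1
        rw [Finset.sum_eq_single i]
        · simp
        · intro t _ ht; simp [ht]
        · simp
      rw [e1, e2, e3]
      ring
    rw [key i j l, key j i l]
    refine Finset.sum_congr rfl fun t _ => ?_
    congr 2
    ring
  choose v θ hvθ using hsol
  have hlin := lin hr μ ψ hψs hμs v θ (fun l₀ j l t => (hvθ l₀).1 j l t)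
  intro i j
  have h1 := hlin (fun j' l' => (if j' = i ∧ l' = j then (1 : k) else 0) -
      ∑ s, μ i j s * (if j' = (b s).1 ∧ l' = (b s).2 then 1 else 0)) (by
    intro s
    rw [sum_special b (μ i j) i j (fun j' l' => μ j' l' s)]
    simp only [hb _ s]
    rw [Finset.sum_eq_single s]
    · simp
    · intro s' _ hs'; simp [hs']
    · simp)
  rw [sum_special b (μ i j) i j ψ] at h1
  exact sub_eq_zero.1 h1

end Pool.Agent.VCC
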