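import Pool.Agent.VCC.Targets

/-!
# FIB3: the cubes vanish.
-/

set_option autoImplicit false

namespace Pool.Agent.VCC

universe u

namespace FIB3_

variable {k : Type u} [Field k]

/-- The coordinates of `y_i (y_j y_l)`. -/
theorem cube {n r : ℕ} {A : Type u} [CommRing A] [Algebra k A]
    (y : Fin n → A) (q : Fin r → A) (B : Module.Basis (Unit ⊕ Fin n ⊕ Fin r) k A)
    (μ : Fin n → Fin n → Fin r → k) (ψ : Fin n → Fin n → k)
    (hy : ∀ i, B (Sum.inr (Sum.inl i)) = y i)
    (hmul : ∀ i j, y i * y j = ∑ s, μ i j s • q s + algebraMap k A (ψ i j))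
    (i j l : Fin n) (x : Unit ⊕ Fin n ⊕ Fin r) :
    B.repr (y i * y j * y l) x = ∑ s, μ j l s * B.repr (y i * q s) x +
      ψ j l * (if x = Sum.inr (Sum.inl i) then 1 else 0) := by
  have e1 : y i * y j * y l = ∑ s, μ j l s • (y i * q s) + ψ j l • y i := by
    rw [mul_assoc, hmul j l, mul_add, Finset.mul_sum]
    congr 1
    · exact Finset.sum_congr rfl fun s _ => mul_smul_comm _ _ _
    · rw [Algebra.smul_def, mul_comm]
  rw [e1, map_add, map_sum, map_smul, Finsupp.add_apply, Finsupp.finsetSum_apply,
    Finsupp.smul_apply, smul_eq_mul, ← hy i, Module.Basis.repr_self, Finsupp.single_apply]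
  congr 1
  · refine Finset.sum_congr rfl fun s _ => ?_
    rw [map_smul, Finsupp.smul_apply, smul_eq_mul]
  · by_cases h : x = Sum.inr (Sum.inl i)
    · subst h; simp
    · rw [if_neg h, if_neg (fun h' => h h'.symm)]

/-- The coordinates of `y_i y_j`. -/
theorem sq {n r : ℕ} {A : Type u} [CommRing A] [Algebra k A]
    (y : Fin n → A) (q : Fin r → A) (B : Module.Basis (Unit ⊕ Fin n ⊕ Fin r) k A)
    (μ : Fin n → Fin n → Fin r → k) (ψ : Fin n → Fin n → k)
    (h1 : B (Sum.inl ()) = 1) (hq : ∀ s, B (Sum.inr (Sum.inr s)) = q s)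
    (hmul : ∀ i j, y i * y j = ∑ s, μ i j s • q s + algebraMap k A (ψ i j))
    (i j : Fin n) :
    (∀ s, B.repr (y i * y j) (Sum.inr (Sum.inr s)) = μ i j s) ∧
    (B.repr (y i * y j) (Sum.inl ()) = ψ i j) ∧
    (∀ t, B.repr (y i * y j) (Sum.inr (Sum.inl t)) = 0) := by
  have e1 : B.repr (y i * y j) = ∑ s, μ i j s • Finsupp.single (Sum.inr (Sum.inr s)) (1 : k) +
      ψ i j • Finsupp.single (Sum.inl ()) (1 : k) := by
    rw [hmul i j, Algebra.algebraMap_eq_smul_one, map_add, map_sum, map_smul, ← h1,
      Module.Basis.repr_self]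
    congr 1
    refine Finset.sum_congr rfl fun s _ => ?_
    rw [map_smul, ← hq s, Module.Basis.repr_self]
  rw [e1]
  refine ⟨fun s => ?_, ?_, fun t => ?_⟩
  · rw [Finsupp.add_apply, Finsupp.finsetSum_apply, Finset.sum_eq_single s]
    · simp
    · intro s' _ hs'
      simp [hs']
    · intro h; exact absurd (Finset.mem_univ s) h
  · rw [Finsupp.add_apply, Finsupp.finsetSum_apply, Finset.sum_eq_zero]
    · simp
    · intro s' _
      simp
  · rw [Finsupp.add_apply, Finsupp.finsetSum_apply, Finset.sum_eq_zero]
    · simp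
    · intro s' _
      simp

end FIB3_

open FIB3_ in
theorem p_FIB3 (k : Type u) [Field k] [CharZero k] (hG : T_GNC k) : T_FIB3 k := by
  intro n r hn A _ _ y q B b μ ψ c h1 hy hq hN hS hmul hqq h1q hψ hgood
  refine ⟨?_, ?_⟩
  · -- every coordinate vanishes
    have hy0 : ∀ t i j l, B.repr (y i * y j * y l) (Sum.inr (Sum.inl t)) = 0 := by
      intro t
      refine hG n r hn b μ hS hN hgood
        (fun i j l => B.repr (y i * y j * y l) (Sum.inr (Sum.inl t)))
        (fun i s => B.repr (y i * q s) (Sum.inr (Sum.inl t)) +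
          c s * (if (Sum.inr (Sum.inl t) : Unit ⊕ Fin n ⊕ Fin r) = Sum.inr (Sum.inl i)
            then 1 else 0)) ⟨?_, ?_⟩ ?_
      · intro x z w
        show B.repr (y x * y z * y w) _ = B.repr (y z * y x * y w) _
        rw [mul_comm (y x) (y z)]
      · intro x z w
        show B.repr (y x * y z * y w) _ = B.repr (y x * y w * y z) _
        rw [mul_right_comm]
      · intro i j l
        show B.repr (y i * y j * y l) _ = _
        rw [cube y q B μ ψ hy hmul i j l, hψ j l, Finset.sum_mul, ← Finset.sum_add_distrib]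
        refine Finset.sum_congr rfl fun s _ => ?_
        ring
    intro i j l
    apply B.repr.injective
    rw [map_zero]
    ext x
    rw [Finsupp.zero_apply]
    rcases x with u | t | s
    · rw [cube y q B μ ψ hy hmul i j l, if_neg (by simp), mul_zero, add_zero]
      exact Finset.sum_eq_zero fun s _ => by rw [h1q i s, mul_zero]
    · exact hy0 t i j l
    · rw [cube y q B μ ψ hy hmul i j l, if_neg (by simp), mul_zero, add_zero]
      exact Finset.sum_eq_zero fun s' _ => by rw [hqq i s' s, mul_zero]
  · intro c₀ a M h0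
    have key : ∀ x, B.repr (algebraMap k A c₀ + ∑ i, a i • y i + ∑ i, ∑ j, M i j • (y i * y j)) x
        = 0 := by
      intro x; rw [h0, map_zero, Finsupp.zero_apply]
    have key2 : ∀ x, c₀ * (if Sum.inl () = x then 1 else 0) +
        ∑ i, a i * (if Sum.inr (Sum.inl i) = x then 1 else 0) +
        ∑ i, ∑ j, M i j * B.repr (y i * y j) x = 0 := by
      intro x
      have ea : B.repr (algebraMap k A c₀) x = c₀ * (if Sum.inl () = x then 1 else 0) := by
        rw [Algebra.algebraMap_eq_smul_one, ← h1, map_smul, Module.Basis.repr_self,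
          Finsupp.smul_apply, smul_eq_mul, Finsupp.single_apply]
      have eb : B.repr (∑ i, a i • y i) x =
          ∑ i, a i * (if Sum.inr (Sum.inl i) = x then 1 else 0) := by
        rw [map_sum, Finsupp.finsetSum_apply]
        refine Finset.sum_congr rfl fun i _ => ?_
        rw [map_smul, Finsupp.smul_apply, smul_eq_mul, ← hy i, Module.Basis.repr_self,
          Finsupp.single_apply]
      have ec : B.repr (∑ i, ∑ j, M i j • (y i * y j)) x =
          ∑ i, ∑ j, M i j * B.repr (y i * y j) x := by
        rw [map_sum, Finsupp.finsetSum_apply]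
        refine Finset.sum_congr rfl fun i _ => ?_
        rw [map_sum, Finsupp.finsetSum_apply]
        refine Finset.sum_congr rfl fun j _ => ?_
        rw [map_smul, Finsupp.smul_apply, smul_eq_mul]
      have hk := key x
      rw [map_add, map_add, Finsupp.add_apply, Finsupp.add_apply, ea, eb, ec] at hk
      exact hk
    have hsq := sq y q B μ ψ h1 hq hmul
    have hqz : ∀ s, ∑ i, ∑ j, M i j * μ i j s = 0 := by
      intro s
      have := key2 (Sum.inr (Sum.inr s))
      rw [if_neg (by simp), mul_zero, zero_add, Finset.sum_eq_zero (fun i _ => by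
        rw [if_neg (by simp), mul_zero]), zero_add] at this
      rw [← this]
      refine Finset.sum_congr rfl fun i _ => Finset.sum_congr rfl fun j _ => ?_
      rw [(hsq i j).1 s]
    have hψz : ∑ i, ∑ j, M i j * ψ i j = 0 := by
      have e : ∑ i, ∑ j, M i j * ψ i j = ∑ s, (∑ i, ∑ j, M i j * μ i j s) * c s := by
        simp only [hψ, Finset.mul_sum, Finset.sum_mul]
        rw [Finset.sum_comm' (t' := Finset.univ) (s' := fun _ => Finset.univ) (by simp)]
        rw [Finset.sum_comm]
        conv_rhs => rw [Finset.sum_comm]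
        refine Finset.sum_congr rfl fun i _ => ?_
        conv_rhs => rw [Finset.sum_comm]
        refine Finset.sum_congr rfl fun j _ => Finset.sum_congr rfl fun s _ => ?_
        ring
      rw [e]
      exact Finset.sum_eq_zero fun s _ => by rw [hqz s, zero_mul]
    refine ⟨?_, fun t => ?_⟩
    · have := key2 (Sum.inl ())
      rw [if_pos rfl, mul_one, Finset.sum_eq_zero (fun i _ => by
        rw [if_neg (by simp), mul_zero]), add_zero] at this
      have e : ∑ i, ∑ j, M i j * B.repr (y i * y j) (Sum.inl ()) = 0 := by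
        rw [← hψz]
        refine Finset.sum_congr rfl fun i _ => Finset.sum_congr rfl fun j _ => ?_
        rw [(hsq i j).2.1]
      rw [e, add_zero] at this
      exact this
    · have := key2 (Sum.inr (Sum.inl t))
      rw [if_neg (by simp), mul_zero, zero_add, Finset.sum_eq_single t (fun i _ hi => by
        rw [if_neg (by simpa using hi), mul_zero]) (fun h => absurd (Finset.mem_univ t) h),
        if_pos rfl, mul_one] at this
      have e : ∑ i, ∑ j, M i j * B.repr (y i * y j) (Sum.inr (Sum.inl t)) = 0 := by
        refine Finset.sum_eq_zero fun i _ => Finset.sum_eq_zero fun j _ => ?_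
        rw [(hsq i j).2.2 t, mul_zero]
      rw [e, add_zero] at this
      exact this

end Pool.Agent.VCC
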