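import Pool.Agent.VCC.Targets

/-!
# GNC: good structure constants have no cubic
-/

set_option autoImplicit false

namespace Pool.Agent.VCC

namespace GNC_

variable {k : Type*} [Field k] {n r : ℕ}

lemma key {μ : Fin n → Fin n → Fin r → k} {T : Fin n → Fin n → Fin n → k}
    {γ : Fin n → Fin r → k} (hT : TSym T) (h : ∀ i j l, T i j l = ∑ s, γ i s * μ j l s)
    (hG : Good μ) (e : Fin r) : ∃ (v : Fin n → k) (θ : Fin r → Fin n → k),
    (∀ j l t, v j * (if l = t then 1 else 0) + v l * (if j = t then 1 else 0) +
      ∑ s, θ s t * μ j l s = 0) ∧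
    ∀ i j l s, (if s = e then T i j l else 0) = v i * μ j l s + v j * μ i l s + v l * μ i j s := by
  obtain ⟨v, θ, h1, h2⟩ := hG (fun _ _ _ => 0) (fun i s s' => if s = e then γ i s' else 0)
    ⟨fun _ _ _ => rfl, fun i j l s => by
      simp only [zero_mul, Finset.sum_const_zero, zero_add]
      split_ifs with hs
      · rw [← h, ← h]
        exact hT.1 i j l
      · simp⟩
  refine ⟨v, θ, fun j l t => (h1 j l t).symm, ?_⟩
  intro i j l s
  have e1 : (if s = e then T i j l else 0) =
      ∑ s', (if s = e then γ i s' else 0) * μ j l s' := by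
    split_ifs with hs
    · exact h i j l
    · simp
  have e2 : ∀ s', (if s = e then γ i s' else 0) * μ j l s' =
      v i * (if s = s' then 1 else 0) * μ j l s' - (∑ t, θ s' t * μ i t s) * μ j l s' := by
    intro s'
    have h3 := h2 i s s'
    beta_reduce at h3
    rw [h3]
    ring
  rw [e1, Finset.sum_congr rfl (fun s' _ => e2 s'), Finset.sum_sub_distrib]
  have e3 : ∑ s', v i * (if s = s' then (1 : k) else 0) * μ j l s' = v i * μ j l s := by
    simp
  have e4 : ∑ s', (∑ t, θ s' t * μ i t s) * μ j l s' =
      ∑ t, (∑ s', θ s' t * μ j l s') * μ i t s := by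
    simp only [Finset.sum_mul]
    rw [Finset.sum_comm]
    apply Finset.sum_congr rfl
    intro t _
    apply Finset.sum_congr rfl
    intro s' _
    ring
  have e5 : ∀ t, (∑ s', θ s' t * μ j l s') * μ i t s =
      -(v j * (if l = t then 1 else 0) * μ i t s) - v l * (if j = t then 1 else 0) * μ i t s := by
    intro t
    have := h1 j l t
    linear_combination (-μ i t s) * this
  rw [e3, e4, Finset.sum_congr rfl (fun t _ => e5 t), Finset.sum_sub_distrib,
    Finset.sum_neg_distrib]
  have e6 : ∑ t, v j * (if l = t then (1 : k) else 0) * μ i t s = v j * μ i l s := by simp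
  have e7 : ∑ t, v l * (if j = t then (1 : k) else 0) * μ i t s = v l * μ i j s := by simp
  rw [e6, e7]
  ring

end GNC_

theorem p_GNC (k : Type*) [Field k] [CharZero k] : T_GNC k := by
  intro n r hn b μ hsym hnrm hG T γ hT h i j l
  rcases Nat.eq_zero_or_pos r with hr | hr
  · subst hr
    rw [h]
    simp
  · set e : Fin r := ⟨0, hr⟩
    obtain ⟨v, θ, h1, h2⟩ := GNC_.key hT h hG e
    have hv : ∀ i, v i = 0 := by
      intro i
      by_contra hvi
      have a1 : ∀ s, s ≠ e → μ i i s = 0 := by
        intro s hs
        have := h2 i i i s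
        rw [if_neg hs] at this
        have h3 : (3 * v i) * μ i i s = 0 := by linear_combination -this
        exact (mul_eq_zero.1 h3).resolve_left (mul_ne_zero (by norm_num) hvi)
      have a2 : ∀ j s, s ≠ e → μ i j s = 0 := by
        intro j s hs
        have := h2 i i j s
        rw [if_neg hs, a1 s hs] at this
        have h3 : (2 * v i) * μ i j s = 0 := by linear_combination -this
        exact (mul_eq_zero.1 h3).resolve_left (mul_ne_zero (by norm_num) hvi)
      have a3 : ∀ j t, v i * (if j = t then 1 else 0) + v j * (if i = t then 1 else 0) +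
          θ e t * μ i j e = 0 := by
        intro j t
        have := h1 i j t
        rwa [Finset.sum_eq_single e (fun s _ hs => by rw [a2 j s hs, mul_zero])
          (fun hs => absurd (Finset.mem_univ _) hs)] at this
      obtain ⟨j, hj⟩ : ∃ j : Fin n, j ≠ i := by
        have : Nontrivial (Fin n) := Fin.nontrivial_iff_two_le.2 hn
        exact exists_ne i
      have b1 := a3 i i
      have b2 := a3 i j
      have b3 := a3 j j
      rw [if_pos rfl] at b1
      rw [if_neg hj.symm] at b2
      rw [if_pos rfl, if_neg hj.symm] at b3
      have c1 : μ i i e ≠ 0 := by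
        intro h0
        rw [h0] at b1
        have : 2 * v i = 0 := by linear_combination b1
        exact hvi ((mul_eq_zero.1 this).resolve_left (by norm_num))
      have c2 : θ e j = 0 := by
        have : θ e j * μ i i e = 0 := by linear_combination b2
        exact (mul_eq_zero.1 this).resolve_right c1
      rw [c2] at b3
      apply hvi
      linear_combination b3
    have := h2 i j l e
    rw [if_pos rfl, hv i, hv j, hv l] at this
    rw [this]
    ring

end Pool.Agent.VCC
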