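import Pool.Agent.VCC.Targets

/-!
GTA: solution of one step, `c < j` (pure algebra).
-/

set_option autoImplicit false

namespace Pool.Agent.VCC

namespace GTA_

variable {k : Type*} [Field k]

theorem mz {a x : k} (ha : a ≠ 0) (h : a * x = 0) : x = 0 :=
  (mul_eq_zero.1 h).resolve_left ha

theorem ext3 {M : Fin 3 → Fin 3 → k} (h00 : M 0 0 = 0) (h01 : M 0 1 = 0) (h02 : M 0 2 = 0)
    (h10 : M 1 0 = 0) (h11 : M 1 1 = 0) (h12 : M 1 2 = 0) (h20 : M 2 0 = 0) (h21 : M 2 1 = 0)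
    (h22 : M 2 2 = 0) : M = 0 := by
  funext a b
  fin_cases a <;> fin_cases b <;> assumption

end GTA_

open GTA_ in
theorem p_GTA (k : Type*) [Field k] [CharZero k] : T_GTA k := by
  intro β G0 G1 Y X P hβ h3 g01 g02 g12 hA0 hA1 hB0 hB1 hC
  obtain ⟨⟨a1, a2, a3⟩, ⟨a4, a5, a6⟩⟩ := hA0
  obtain ⟨⟨b1, b2, b3⟩, ⟨b4, b5, b6⟩⟩ := hA1
  obtain ⟨⟨c1, c2, c3⟩, ⟨c4, c5, c6⟩⟩ := hB0
  obtain ⟨⟨d1, d2, d3⟩, ⟨d4, d5, d6⟩⟩ := hB1
  obtain ⟨⟨e1, e2, e3⟩, ⟨e4, e5, e6⟩⟩ := hC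
  simp only [XA0, XA1, XB0, XB1, XC, Matrix.cons_val_zero, Matrix.cons_val_one, Matrix.cons_val,
    Fin.isValue, Pi.zero_apply, Fin.reduceEq, if_false, if_true] at a1 a2 a3 a4 a5 a6 b1 b2 b3 b4 b5 b6 c1 c2 c3 c4 c5 c6 d1 d2 d3 d4 d5 d6 e1 e2 e3 e4 e5 e6
  obtain ⟨κ, hκ⟩ : ∃ κ, κ = (1 + β ^ 3)⁻¹ := ⟨_, rfl⟩
  have hκ0 : κ ≠ 0 := by rw [hκ]; exact inv_ne_zero h3
  have hκ1 : κ * (1 + β ^ 3) = 1 := by rw [hκ]; exact inv_mul_cancel₀ h3
  obtain ⟨γ, hγ⟩ : ∃ γ, γ = β⁻¹ := ⟨_, rfl⟩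
  have hγ0 : γ ≠ 0 := by rw [hγ]; exact inv_ne_zero hβ
  have hγ1 : β * γ = 1 := by rw [hγ]; exact mul_inv_cancel₀ hβ
  rw [← hκ] at c1 c2 c3 c4 c5 c6 d1 d2 d3 d4 d5 d6
  rw [← hγ] at e1 e2 e3 e4 e5 e6
  have hκβ : κ * β ^ 3 ≠ 0 := mul_ne_zero hκ0 (pow_ne_zero 3 hβ)
  have P22 : P 2 2 = 0 := by linear_combination g01 - a3
  have X12 : X 1 2 = 0 := mz hβ (by linear_combination a1)
  have Y20 : Y 2 0 = 0 := by linear_combination - a2
  have P00 : P 0 0 = 0 := by linear_combination g12 - b1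
  have X20 : X 2 0 = 0 := mz hβ (by linear_combination b2)
  have Y01 : Y 0 1 = 0 := by linear_combination - b3
  have P10 : P 1 0 = 0 := mz hκ0 (by linear_combination - c1)
  have P21 : P 2 1 = 0 := mz hκ0 (by linear_combination - d2)
  have G00 : G0 0 = 0 := by linear_combination c2 - κ * β * P21
  have Y22 : Y 2 2 = 0 := by linear_combination - d1 - κ * β ^ 2 * P10
  have X10 : X 1 0 = 0 := mz (pow_ne_zero 2 hβ) (by linear_combination - a5 - Y22)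
  have e1' : P 1 1 = - β ^ 2 * P 2 0 := by
    have : κ * (P 1 1 + β ^ 2 * P 2 0) = 0 := by linear_combination - c5 + g02
    linear_combination mz hκ0 this
  have e2' : β * P 1 1 = P 2 0 := by
    have : κ * β * (β * P 1 1 - P 2 0) = 0 := by linear_combination - d5 + β * Y20
    linear_combination mz (mul_ne_zero hκ0 hβ) this
  have P11 : P 1 1 = 0 := mz h3 (by linear_combination e1' + β ^ 2 * e2')
  have P20 : P 2 0 = 0 := by linear_combination - e2' + β * P11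
  have X11 : X 1 1 = 0 := mz hβ (by linear_combination a4 + P20 + β * g02)
  have Y21 : Y 2 1 = 0 := mz hβ (by linear_combination a6 - G00 - β * P21)
  have P12 : P 1 2 = 0 := mz hκβ (by
    linear_combination d4 + Y21 - κ * β * P00 + β * g12)
  have Y12 : Y 1 2 = 0 := mz hβ (by
    linear_combination c4 + κ * β ^ 2 * P00 - κ * β * P12)
  have X02 : X 0 2 = 0 := mz hγ0 (by linear_combination - e1 + g02 - γ * P20)
  have Q01 : P 0 1 = β * G1 0 := by linear_combination β * e2 - P 0 1 * hγ1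
  have G10 : G1 0 = 0 := mz hκ0 (by
    linear_combination d6 + κ * P22 + κ * β ^ 2 * Q01 + G1 0 * hκ1)
  have P01 : P 0 1 = 0 := by rw [Q01, G10, mul_zero]
  have X21 : X 2 1 = 0 := mz hγ0 (by linear_combination e3)
  have X22 : X 2 2 = 0 := mz hβ (by linear_combination b5 + P01 + β * G10)
  have Y00 : Y 0 0 = 0 := by linear_combination - b6 - β ^ 2 * X21
  have X01 : X 0 1 = 0 := mz hγ0 (by
    linear_combination - e4 + g01 - β * γ * X22 + β * γ * P22)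
  have X00 : X 0 0 = 0 := mz (mul_ne_zero hβ hγ0) (by
    linear_combination e5 + g12 + γ * P21 + β * G00 + β * γ * P00)
  have Q02 : P 0 2 = - β ^ 2 * G1 1 := by
    linear_combination β * e6 - P 0 2 * hγ1 - β * γ * X20
  have G11 : G1 1 = 0 := mz hκ0 (by
    linear_combination d3 - κ * β * Q02 + G1 1 * hκ1)
  have P02 : P 0 2 = 0 := by rw [Q02, G11, mul_zero]
  have Y02 : Y 0 2 = 0 := mz hβ (by linear_combination b4 - G11 - β * P02)
  have Y11 : Y 1 1 = 0 := by linear_combination - c3 - κ * β ^ 2 * P02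
  have Y10 : Y 1 0 = 0 := by
    linear_combination - c6 + κ * β * P22 - β * g01 + κ * β ^ 3 * P01
  refine ⟨?_, ?_, ext3 Y00 Y01 Y02 Y10 Y11 Y12 Y20 Y21 Y22,
    ext3 X00 X01 X02 X10 X11 X12 X20 X21 X22, ext3 P00 P01 P02 P10 P11 P12 P20 P21 P22⟩
  · funext b
    fin_cases b <;> assumption
  · funext b
    fin_cases b <;> assumption

end Pool.Agent.VCC
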