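import Pool.Agent.VCC.Targets

/-!
# L1: the component criterion
-/

set_option autoImplicit false

namespace Pool.Agent.VCC

open HilbPts

namespace L1_

/-- The closure of an irreducible set with a nonempty open subset is an irreducible component. -/
theorem closure_mem_comp {X : Type*} [TopologicalSpace X] {S U : Set X} (hS : IsIrreducible S)
    (hU : IsOpen U) (hne : U.Nonempty) (hUS : U ⊆ S) : closure S ∈ irreducibleComponents X := by
  refine ⟨hS.closure, ?_⟩
  intro Z hZ hSZ z hz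
  rw [mem_closure_iff]
  intro V hV hzV
  obtain ⟨u, hu⟩ := hne
  obtain ⟨x, _, hx1, hx2⟩ := hZ.2 V U hV hU ⟨z, hz, hzV⟩ ⟨u, hSZ (subset_closure (hUS hu)), hu⟩
  exact ⟨x, hx1, hUS hx2⟩

end L1_

theorem p_L1 (k : Type*) [Field k] [CharZero k] (h1 : T_IRR k) (h2 : T_OPEN k)
    (h3 : T_STRUCT k) : T_L1 k := by
  intro n r hn hr 𝓕 hs hf hc ht
  obtain ⟨b, μ, hμ, hb, hg⟩ := h3 n r 𝓕 hs hf hc ht
  obtain ⟨U, hU1, hU2, hU3⟩ := h2 n r hn hr b μ hμ hb hg
  exact L1_.closure_mem_comp (h1 n r (by omega)) hU1 hU2 hU3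

end Pool.Agent.VCC
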