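import Pool.Agent.VCC.Targets

/-!
# L2: existence of the good spaces of functionals
-/

set_option autoImplicit false

namespace Pool.Agent.VCC

namespace L2_

theorem exists_between {k V : Type*} [Field k] [AddCommGroup V] [Module k V]
    [FiniteDimensional k V] (C : Submodule k V) (r : ℕ) (hr : r ≤ Module.finrank k C) :
    ∀ (n : ℕ) (A : Submodule k V), A ≤ C → Module.finrank k A + n = r →
      ∃ B : Submodule k V, A ≤ B ∧ B ≤ C ∧ Module.finrank k B = r := by
  intro n
  induction n with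
  | zero =>
    intro A hA h
    exact ⟨A, le_rfl, hA, h⟩
  | succ n ih =>
    intro A hA h
    have hne : ¬ C ≤ A := by
      intro hle
      have := Submodule.finrank_mono hle
      omega
    obtain ⟨x, hxC, hxA⟩ := Set.not_subset.1 hne
    have hx0 : x ≠ 0 := fun h0 => hxA (h0 ▸ A.zero_mem)
    have hdis : Disjoint A (Submodule.span k {x}) := by
      rw [Submodule.disjoint_span_singleton]
      intro h1
      exact absurd h1 hxA
    have hfr : Module.finrank k (A ⊔ Submodule.span k {x} : Submodule k V) =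
        Module.finrank k A + 1 := by
      have h1 := Submodule.finrank_sup_add_finrank_inf_eq A (Submodule.span k {x})
      rw [hdis.eq_bot, finrank_bot, finrank_span_singleton hx0] at h1
      omega
    obtain ⟨B, h1, h2, h3⟩ := ih (A ⊔ Submodule.span k {x})
      (sup_le hA ((Submodule.span_singleton_le_iff_mem _ _).2 hxC)) (by omega)
    exact ⟨B, le_sup_left.trans h1, h2, h3⟩

theorem between {k V : Type*} [Field k] [AddCommGroup V] [Module k V]
    [FiniteDimensional k V] (A C : Submodule k V) (hAC : A ≤ C) (r : ℕ)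
    (h1 : Module.finrank k A ≤ r) (h2 : r ≤ Module.finrank k C) :
    ∃ B : Submodule k V, A ≤ B ∧ B ≤ C ∧ Module.finrank k B = r :=
  exists_between C r h2 (r - Module.finrank k A) A hAC (by omega)

end L2_

open L2_ in
theorem p_L2 (k : Type*) [Field k] [CharZero k] (h1 : T_CHAIN k) (h2 : T_TRANSP k) (h3 : T_NC k)
    (h4 : T_RS k) (h5 : T_D1 k) (h6 : T_D2 k) (h7 : T_RED1 k) (h8 : T_RED2 k) (h9 : T_ZERO1 k)
    (h10 : T_ZERO2 k) : T_L2 k := by
  classical
  intro m t r hm ht hr1 hr2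
  have hD1 := h5 m t ht
  have hD2 := h6 m t ht
  have hle1 : Module.finrank k (Fmin2 m t k) ≤ r := hD2.trans hr1
  have hle2 : r ≤ Module.finrank k (Fmax1 m t k) := by
    have := hr2.trans hD1
    omega
  have hs : ∀ F ∈ Fmax1 m t k, ∀ x y, F x y = F y x := fun F hF => InBas.symm (InMax1.toInBas hF)
  have hNmax : NoCubic (Fmax1 m t k) := h3 m t ht
  have hTmax : T1 (Fmin1 m t k) (Fmax1 m t k) := h7 m t ht (h9 m t hm ht)
  have hTmin : T1 (Fmin2 m t k) (Fmin1 m t k) := h8 m t ht (h10 m t hm ht)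
  have hR2 : RowSpan (Fmin2 m t k) := h4 m t hm
  have hR1 : RowSpan (Fmin1 m t k) := fun G hG => hR2 G fun F hF => hG F (Fmin2_le_Fmin1 hF)
  have hs1 : ∀ F ∈ Fmin1 m t k, ∀ x y, F x y = F y x := fun F hF => hs F (Fmin1_le_Fmax1 hF)
  have hNmin : NoCubic (Fmin1 m t k) := fun T hT hTF => hNmax T hT fun x => Fmin1_le_Fmax1 (hTF x)
  have key : ∃ F : Submodule k (Ix m t → Ix m t → k), (∀ G ∈ F, ∀ x y, G x y = G y x) ∧
      Module.finrank k F = r ∧ NoCubic F ∧ T1 F F := by
    by_cases hc : r ≤ Module.finrank k (Fmin1 m t k)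
    · obtain ⟨F, a1, a2, a3⟩ := between _ _ Fmin2_le_Fmin1 r hle1 hc
      obtain ⟨b1, b2⟩ := h1 (Ix m t) (Fmin2 m t k) F (Fmin1 m t k) a1 a2 hs1 hNmin hTmin hR2
      exact ⟨F, fun G hG => hs1 G (a2 hG), a3, b1, b2⟩
    · obtain ⟨F, a1, a2, a3⟩ := between _ _ Fmin1_le_Fmax1 r (by omega) hle2
      obtain ⟨b1, b2⟩ := h1 (Ix m t) (Fmin1 m t k) F (Fmax1 m t k) a1 a2 hs hNmax hTmax hR1
      exact ⟨F, fun G hG => hs G (a2 hG), a3, b1, b2⟩
  obtain ⟨F, f1, f2, f3, f4⟩ := key
  have hcard : Fintype.card (Ix m t) = 3 * m + 2 * t := by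
    simp only [Fintype.card_sum, Fintype.card_prod, Fintype.card_fin]
    ring
  obtain ⟨G, g1, g2, g3, g4⟩ := h2 (Ix m t) (3 * m + 2 * t) (Fintype.equivFinOfCardEq hcard) F
    f1 f3 f4
  exact ⟨G, g1, g2.trans f2, g3, g4⟩

end Pool.Agent.VCC
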