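import Pool.Agent.VCC.Targets

/-!
# VCC: LTA -- solution of all the steps `j < c`
-/

set_option autoImplicit false

namespace Pool.Agent.VCC

namespace LTA_

variable {k : Type*} [Field k] {m : ℕ}

lemma sLo_zero (j : Fin m) (S : Fin m → Fin 3 → Fin 3 → k) (l b : Fin 3)
    (h : ∀ i, i < j → S i l b = 0) : sLo j S l b = 0 := by
  unfold sLo
  apply Finset.sum_eq_zero
  intro i _
  split_ifs with hi
  · exact h i hi
  · rfl

lemma sHi_zero (j : Fin m) (w : Fin m → k) (S : Fin m → Fin 3 → Fin 3 → k) (l b : Fin 3)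
    (h : ∀ i, j < i → S i l b = 0) : sHi j w S l b = 0 := by
  unfold sHi
  apply Finset.sum_eq_zero
  intro i _
  split_ifs with hi
  · rw [h i hi, mul_zero]
  · rfl

lemma sHi_last (j c : Fin m) (w : Fin m → k) (S : Fin m → Fin 3 → Fin 3 → k) (l b : Fin 3)
    (hjc : (j : ℕ) + 1 = c) (h : ∀ i, c < i → S i = 0) : sHi j w S l b = w c * S c l b := by
  unfold sHi
  rw [Finset.sum_eq_single c]
  · rw [if_pos]
    rw [Fin.lt_def]
    omega
  · intro i _ hic
    split_ifs with hi
    · have : c < i := by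
        rw [Fin.lt_def] at hi ⊢
        have : (i : ℕ) ≠ c := fun h => hic (Fin.ext h)
        omega
      rw [h i this]
      simp
    · rfl
  · intro hc
    exact absurd (Finset.mem_univ c) hc

lemma sHi_step (j j' : Fin m) (w : Fin m → k) (S : Fin m → Fin 3 → Fin 3 → k) (l b : Fin 3)
    (hj : (j : ℕ) + 1 = j') : sHi j w S l b = w j' * S j' l b + sHi j' w S l b := by
  unfold sHi
  have e : ∀ i : Fin m, (if j < i then w i * S i l b else 0) =
      (if i = j' then w i * S i l b else 0) + (if j' < i then w i * S i l b else 0) := by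
    intro i
    by_cases h1 : i = j'
    · subst h1
      have h2 : j < i := by rw [Fin.lt_def]; omega
      rw [if_pos h2, if_pos rfl, if_neg (lt_irrefl _), add_zero]
    · rw [if_neg h1, zero_add]
      have h3 : (i : ℕ) ≠ j' := fun h => h1 (Fin.ext h)
      by_cases h2 : j < i
      · have h4 : j' < i := by
          rw [Fin.lt_def] at h2 ⊢
          omega
        rw [if_pos h2, if_pos h4]
      · have h4 : ¬ j' < i := by
          rw [Fin.lt_def] at h2 ⊢
          omega
        rw [if_neg h2, if_neg h4]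
  rw [Finset.sum_congr rfl fun i _ => e i, Finset.sum_add_distrib, Finset.sum_ite_eq' _ j',
    if_pos (Finset.mem_univ _)]

end LTA_

open LTA_ in
theorem p_LTA (k : Type*) [Field k] [CharZero k] : T_LTA k := by
  intro m w c G0 G1 S P hw hw3 hc0 hG01 hG02 hG12 hSc h
  set β := w c with hβ
  have hβ0 : β ≠ 0 := hw c
  have hβ3 : 1 + β ^ 3 ≠ 0 := hw3 c
  set κ := (1 + β ^ 3)⁻¹ with hκ
  have hκ0 : κ ≠ 0 := inv_ne_zero hβ3
  have A01 : ∀ j, j < c → w j * sLo j S 1 1 - κ * P j 2 0 = 0 := fun j hj => (h j hj).1.1.1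
  have A12 : ∀ j, j < c → - S j 2 2 - κ * (β ^ 2 * P j 0 1) = 0 := fun j hj => (h j hj).1.1.2.1
  have A20 : ∀ j, j < c → G0 0 - κ * (- β * P j 1 2) = 0 := fun j hj => (h j hj).1.1.2.2
  have A02 : ∀ j, j < c → w j * sLo j S 1 2 - κ * (β ^ 2 * P j 0 0) =
      β * (- S j 2 1 - κ * P j 2 1) := fun j hj => (h j hj).1.2.1
  have A10 : ∀ j, j < c → - S j 2 0 - κ * (- β * P j 1 1) = β * (G0 2 - κ * (β ^ 2 * P j 0 2)) :=
    fun j hj => (h j hj).1.2.2.1
  have A21 : ∀ j, j < c → G0 1 - κ * P j 2 2 = β * (w j * sLo j S 1 0 - κ * (- β * P j 1 0)) :=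
    fun j hj => (h j hj).1.2.2.2
  have B01 : ∀ j, j < c → G1 1 - κ * (- β * P j 2 0) = 0 := fun j hj => (h j hj).2.1.1.1
  have B12 : ∀ j, j < c → w j * sLo j S 2 2 - κ * P j 0 1 = 0 := fun j hj => (h j hj).2.1.1.2.1
  have B20 : ∀ j, j < c → - S j 0 0 - κ * (β ^ 2 * P j 1 2) = 0 :=
    fun j hj => (h j hj).2.1.1.2.2
  have B02 : ∀ j, j < c → G1 2 - κ * P j 0 0 = β * (w j * sLo j S 2 1 - κ * (- β * P j 2 1)) :=
    fun j hj => (h j hj).2.1.2.1
  have B10 : ∀ j, j < c → w j * sLo j S 2 0 - κ * (β ^ 2 * P j 1 1) =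
      β * (- S j 0 2 - κ * P j 0 2) := fun j hj => (h j hj).2.1.2.2.1
  have B21 : ∀ j, j < c → - S j 0 1 - κ * (- β * P j 2 2) = β * (G1 0 - κ * (β ^ 2 * P j 1 0)) :=
    fun j hj => (h j hj).2.1.2.2.2
  have C01 : ∀ j, j < c → sHi j w S 2 1 - 0 = 0 := fun j hj => (h j hj).2.2.1.1.1
  have C12 : ∀ j, j < c → G0 2 - P j 1 1 = 0 := fun j hj => (h j hj).2.2.1.1.2.1
  have C20 : ∀ j, j < c → - S j 1 0 - 0 = 0 := fun j hj => (h j hj).2.2.1.1.2.2
  have C02 : ∀ j, j < c → sHi j w S 2 2 - P j 1 0 = β * (G0 1 - 0) :=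
    fun j hj => (h j hj).2.2.1.2.1
  have C10 : ∀ j, j < c → G0 0 - 0 = β * (- S j 1 2 - P j 1 2) :=
    fun j hj => (h j hj).2.2.1.2.2.1
  have C21 : ∀ j, j < c → - S j 1 1 - 0 = β * (sHi j w S 2 0 - 0) :=
    fun j hj => (h j hj).2.2.1.2.2.2
  have D01 : ∀ j, j < c → - S j 2 1 - 0 = 0 := fun j hj => (h j hj).2.2.2.1.1.1
  have D12 : ∀ j, j < c → sHi j w S 0 2 - 0 = 0 := fun j hj => (h j hj).2.2.2.1.1.2.1
  have D20 : ∀ j, j < c → G1 0 - P j 2 2 = 0 := fun j hj => (h j hj).2.2.2.1.1.2.2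
  have D02 : ∀ j, j < c → - S j 2 2 - 0 = β * (sHi j w S 0 1 - 0) :=
    fun j hj => (h j hj).2.2.2.1.2.1
  have D10 : ∀ j, j < c → sHi j w S 0 0 - P j 2 1 = β * (G1 2 - 0) :=
    fun j hj => (h j hj).2.2.2.1.2.2.1
  have D21 : ∀ j, j < c → G1 1 - 0 = β * (- S j 2 0 - P j 2 0) :=
    fun j hj => (h j hj).2.2.2.1.2.2.2
  have E01 : ∀ j, j < c → G0 1 - (w j)⁻¹ * sLo j S 0 1 + β⁻¹ * (- P j 1 0) = 0 :=
    fun j hj => (h j hj).2.2.2.2.1.1
  have E12 : ∀ j, j < c → - G1 2 + sHi j (fun i => (w i)⁻¹) S 1 2 + β⁻¹ * P j 2 1 = 0 :=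
    fun j hj => (h j hj).2.2.2.2.1.2.1
  have E20 : ∀ j, j < c → (w j)⁻¹ * sLo j S 2 0 - sHi j (fun i => (w i)⁻¹) S 2 0 + β⁻¹ * 0 = 0 :=
    fun j hj => (h j hj).2.2.2.2.1.2.2
  have E02 : ∀ j, j < c → G0 2 - (w j)⁻¹ * sLo j S 0 2 + β⁻¹ * P j 2 0 =
      β * (- G1 1 + sHi j (fun i => (w i)⁻¹) S 1 1 + β⁻¹ * (- P j 1 1)) :=
    fun j hj => (h j hj).2.2.2.2.2.1
  have E10 : ∀ j, j < c → - G1 0 + sHi j (fun i => (w i)⁻¹) S 1 0 + β⁻¹ * 0 =
      β * ((w j)⁻¹ * sLo j S 2 2 - sHi j (fun i => (w i)⁻¹) S 2 2 + β⁻¹ * P j 2 2) :=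
    fun j hj => (h j hj).2.2.2.2.2.2.1
  have E21 : ∀ j, j < c → (w j)⁻¹ * sLo j S 2 1 - sHi j (fun i => (w i)⁻¹) S 2 1 +
      β⁻¹ * (- P j 1 2) = β * (G0 0 - (w j)⁻¹ * sLo j S 0 0 + β⁻¹ * 0) :=
    fun j hj => (h j hj).2.2.2.2.2.2.2
  -- first and last block
  have hm : 0 < m := lt_of_le_of_lt (Nat.zero_le _) c.isLt
  set j0 : Fin m := ⟨0, hm⟩ with hj0
  have hj0c : j0 < c := by rw [Fin.lt_def]; exact hc0
  have hX0 : ∀ l b, sLo j0 S l b = 0 := fun l b => sLo_zero j0 S l b fun i hi => by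
    rw [Fin.lt_def] at hi
    exact absurd hi (Nat.not_lt_zero _)
  set jl : Fin m := ⟨(c : ℕ) - 1, by have := c.isLt; omega⟩ with hjl
  have hjlv : (jl : ℕ) + 1 = c := by simp only [hjl]; omega
  have hjlc : jl < c := by rw [Fin.lt_def]; omega
  have hlast : ∀ (w' : Fin m → k) l b, sHi jl w' S l b = w' c * S c l b :=
    fun w' l b => sHi_last jl c w' S l b hjlv hSc
  have hwi : (w c)⁻¹ ≠ 0 := inv_ne_zero (hw c)
  have hmul : ∀ {a b : k}, a ≠ 0 → a * b = 0 → b = 0 := fun ha hab =>
    (mul_eq_zero.1 hab).resolve_left ha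
  -- all the blocks, from the values before `c` and at `c`
  have hall : ∀ l b, (∀ i, i < c → S i l b = 0) → S c l b = 0 → ∀ i, S i l b = 0 := by
    intro l b h1 h2 i
    rcases lt_trichotomy i c with h3 | h3 | h3
    · exact h1 i h3
    · rw [h3]; exact h2
    · rw [hSc i h3]; rfl
  -- step 1
  have p20 : P j0 2 0 = 0 := by
    have := A01 j0 hj0c
    rw [hX0] at this
    exact hmul hκ0 (by linear_combination -this)
  have hG11 : G1 1 = 0 := by
    have := B01 j0 hj0c
    rw [p20] at this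
    linear_combination this
  have p10 : P j0 1 0 = 0 := by
    have := E01 j0 hj0c
    rw [hX0, hG01] at this
    exact hmul (inv_ne_zero hβ0) (by linear_combination -this)
  have p22 : P j0 2 2 = 0 := by
    have := A21 j0 hj0c
    rw [hX0, p10, hG01] at this
    exact hmul hκ0 (by linear_combination -this)
  have hG10 : G1 0 = 0 := by
    have := D20 j0 hj0c
    rw [p22] at this
    linear_combination this
  -- step 2
  have s21 : ∀ i, S i 2 1 = 0 := by
    apply hall
    · intro i hi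
      have := D01 i hi
      linear_combination -this
    · have := C01 jl hjlc
      rw [hlast] at this
      exact hmul (hw c) (by linear_combination this)
  have hG00 : G0 0 = 0 := by
    have h1 := E21 j0 hj0c
    rw [hX0, hX0, sHi_zero _ _ _ _ _ fun i _ => s21 i] at h1
    have h2 := A20 j0 hj0c
    have h3 : P j0 1 2 = - β ^ 2 * G0 0 := by
      have h4 : β * (β⁻¹ * P j0 1 2) = P j0 1 2 := by
        rw [← mul_assoc, mul_inv_cancel₀ hβ0, one_mul]
      linear_combination -β * h1 - h4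
    rw [h3] at h2
    have h5 : κ * (1 + β ^ 3) = 1 := inv_mul_cancel₀ hβ3
    have h6 : κ * G0 0 = 0 := by linear_combination h2 - (G0 0) * (1 - h5)
    exact hmul hκ0 h6
  -- step 3
  have P12 : ∀ j, j < c → P j 1 2 = 0 := by
    intro j hj
    have := A20 j hj
    rw [hG00] at this
    exact hmul hβ0 (hmul hκ0 (by linear_combination this))
  have S00 : ∀ j, j < c → S j 0 0 = 0 := by
    intro j hj
    have := B20 j hj
    rw [P12 j hj] at this
    linear_combination -this
  have S12 : ∀ j, j < c → S j 1 2 = 0 := by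
    intro j hj
    have := C10 j hj
    rw [P12 j hj, hG00] at this
    exact hmul hβ0 (by linear_combination this)
  have S10 : ∀ j, j < c → S j 1 0 = 0 := by
    intro j hj
    have := C20 j hj
    linear_combination -this
  have P11 : ∀ j, j < c → P j 1 1 = 0 := by
    intro j hj
    have := C12 j hj
    rw [hG02] at this
    linear_combination -this
  have P22 : ∀ j, j < c → P j 2 2 = 0 := by
    intro j hj
    have := D20 j hj
    rw [hG10] at this
    linear_combination -this
  have X10 : ∀ j, j < c → sLo j S 1 0 = 0 := fun j hj =>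
    sLo_zero j S 1 0 fun i hi => S10 i (hi.trans hj)
  have P10 : ∀ j, j < c → P j 1 0 = 0 := by
    intro j hj
    have := A21 j hj
    rw [hG01, P22 j hj, X10 j hj] at this
    exact hmul hβ0 (hmul hβ0 (hmul hκ0 (by linear_combination -this)))
  have U22 : ∀ j, j < c → sHi j w S 2 2 = 0 := by
    intro j hj
    have := C02 j hj
    rw [P10 j hj, hG01] at this
    linear_combination this
  have s22 : ∀ i, S i 2 2 = 0 := by
    apply hall
    · intro i hi
      rcases Nat.eq_zero_or_pos (i : ℕ) with h0 | h0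
      · have hi0 : i = j0 := Fin.ext h0
        rw [hi0]
        have h1 := B12 j0 hj0c
        rw [hX0] at h1
        have h2 : P j0 0 1 = 0 := hmul hκ0 (by linear_combination -h1)
        have h3 := A12 j0 hj0c
        rw [h2] at h3
        linear_combination -h3
      · set i' : Fin m := ⟨(i : ℕ) - 1, by have := i.isLt; omega⟩ with hi'
        have hi'v : (i' : ℕ) + 1 = i := by simp only [hi']; omega
        have hi'c : i' < c := by
          rw [Fin.lt_def] at hi ⊢
          omega
        have h1 := sHi_step i' i w S 2 2 hi'v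
        rw [U22 i' hi'c, U22 i hi] at h1
        exact hmul (hw i) (by linear_combination -h1)
    · have := U22 jl hjlc
      rw [hlast] at this
      exact hmul (hw c) this
  have P01 : ∀ j, j < c → P j 0 1 = 0 := by
    intro j hj
    have := B12 j hj
    rw [sLo_zero j S 2 2 fun i _ => s22 i] at this
    exact hmul hκ0 (by linear_combination -this)
  have P20 : ∀ j, j < c → P j 2 0 = 0 := by
    intro j hj
    have := B01 j hj
    rw [hG11] at this
    exact hmul hβ0 (hmul hκ0 (by linear_combination this))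
  have S20 : ∀ j, j < c → S j 2 0 = 0 := by
    intro j hj
    have := D21 j hj
    rw [hG11, P20 j hj] at this
    exact hmul hβ0 (by linear_combination this)
  have P02 : ∀ j, j < c → P j 0 2 = 0 := by
    intro j hj
    have := A10 j hj
    rw [hG02, P11 j hj, S20 j hj] at this
    exact hmul hβ0 (hmul hβ0 (hmul hβ0 (hmul hκ0 (by linear_combination this))))
  have X20 : ∀ j, j < c → sLo j S 2 0 = 0 := fun j hj =>
    sLo_zero j S 2 0 fun i hi => S20 i (hi.trans hj)
  have S02 : ∀ j, j < c → S j 0 2 = 0 := by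
    intro j hj
    have := B10 j hj
    rw [X20 j hj, P11 j hj, P02 j hj] at this
    exact hmul hβ0 (by linear_combination this)
  have S01 : ∀ j, j < c → S j 0 1 = 0 := by
    intro j hj
    have := B21 j hj
    rw [hG10, P22 j hj, P10 j hj] at this
    linear_combination -this
  have X12 : ∀ j, j < c → sLo j S 1 2 = 0 := fun j hj =>
    sLo_zero j S 1 2 fun i hi => S12 i (hi.trans hj)
  have P00 : ∀ j, j < c → P j 0 0 = 0 ∧ P j 2 1 = 0 := by
    intro j hj
    have h1 := A02 j hj
    rw [X12 j hj, s21] at h1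
    have h2 := B02 j hj
    rw [hG12, sLo_zero j S 2 1 fun i _ => s21 i] at h2
    have h3 : β * P j 0 0 - P j 2 1 = 0 :=
      hmul hβ0 (hmul hκ0 (by linear_combination -h1))
    have h4 : P j 0 0 + β ^ 2 * P j 2 1 = 0 := hmul hκ0 (by linear_combination -h2)
    have h5 : P j 0 0 = 0 := hmul hβ3 (by linear_combination h4 + β ^ 2 * h3)
    refine ⟨h5, ?_⟩
    rw [h5] at h3
    linear_combination -h3
  have P21 : ∀ j, j < c → P j 2 1 = 0 := fun j hj => (P00 j hj).2
  -- the block `c`
  have s00 : ∀ i, S i 0 0 = 0 := by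
    apply hall 0 0 S00
    have := D10 jl hjlc
    rw [hlast, P21 jl hjlc, hG12] at this
    exact hmul (hw c) (by linear_combination this)
  have s12 : ∀ i, S i 1 2 = 0 := by
    apply hall 1 2 S12
    have := E12 jl hjlc
    rw [hlast, P21 jl hjlc, hG12] at this
    exact hmul hwi (by linear_combination this)
  have s20 : ∀ i, S i 2 0 = 0 := by
    apply hall 2 0 S20
    have := E20 jl hjlc
    rw [hlast, X20 jl hjlc] at this
    exact hmul hwi (by linear_combination -this)
  have S11 : ∀ j, j < c → S j 1 1 = 0 := by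
    intro j hj
    have := C21 j hj
    rw [sHi_zero _ _ _ _ _ fun i _ => s20 i] at this
    linear_combination -this
  have s02 : ∀ i, S i 0 2 = 0 := by
    apply hall 0 2 S02
    have := D12 jl hjlc
    rw [hlast] at this
    exact hmul (hw c) (by linear_combination this)
  have s01 : ∀ i, S i 0 1 = 0 := by
    apply hall 0 1 S01
    have := D02 jl hjlc
    rw [hlast, s22] at this
    exact hmul (hw c) (hmul hβ0 (by linear_combination -this))
  have s11 : ∀ i, S i 1 1 = 0 := by
    apply hall 1 1 S11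
    have := E02 jl hjlc
    rw [hlast, hG02, hG11, P20 jl hjlc, P11 jl hjlc,
      sLo_zero jl S 0 2 fun i _ => s02 i] at this
    exact hmul hwi (hmul hβ0 (by linear_combination -this))
  have s10 : ∀ i, S i 1 0 = 0 := by
    apply hall 1 0 S10
    have := E10 jl hjlc
    rw [hlast, hG10, P22 jl hjlc, sLo_zero jl S 2 2 fun i _ => s22 i,
      sHi_zero _ _ _ _ _ fun i _ => s22 i] at this
    exact hmul hwi (by linear_combination this)
  refine ⟨?_, ?_, fun i => ?_, fun j hj => ?_⟩
  · funext b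
    fin_cases b
    · exact hG00
    · exact hG01
    · exact hG02
  · funext b
    fin_cases b
    · exact hG10
    · exact hG11
    · exact hG12
  · funext l b
    fin_cases l <;> fin_cases b
    · exact s00 i
    · exact s01 i
    · exact s02 i
    · exact s10 i
    · exact s11 i
    · exact s12 i
    · exact s20 i
    · exact s21 i
    · exact s22 i
  · funext l b
    fin_cases l <;> fin_cases b
    · exact (P00 j hj).1
    · exact P01 j hj
    · exact P02 j hj
    · exact P10 j hj
    · exact P11 j hj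
    · exact P12 j hj
    · exact P20 j hj
    · exact P21 j hj
    · exact P22 j hj

end Pool.Agent.VCC
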