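import Pool.Agent.VCC.Targets

/-!
# The result: arithmetic `n = 3 m + 2 t`
-/

set_option autoImplicit false

namespace Pool.Agent.VCC

open MvPolynomial HilbPts

namespace MAIN_

theorem two_choose (m : ℕ) : 2 * (m + 1).choose 2 = (m + 1) * m := by
  induction m with
  | zero => rfl
  | succ m ih =>
    rw [Nat.choose_succ_succ (m + 1) 1, Nat.choose_one_right, mul_add, ih]
    ring

end MAIN_

open MAIN_

theorem p_MAIN (k : Type*) [Field k] [CharZero k] (h1 : T_L1 k) (h2 : T_L2 k) : T_MAIN k := by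
  intro n r hn hlo hup
  -- the common conclusion
  have key : ∀ m t : ℕ, n = 3 * m + 2 * t → 2 ≤ m → t ≤ 2 →
      3 * m.choose 2 + 2 * t * m + (if t = 2 then 2 else 0) ≤ r →
      r + ((3 * m + 2 * t) + 3 * m.choose 2 + 2 * t * m + (if t = 2 then 2 else 0) + 2) ≤
        (3 * m + 2 * t + 1).choose 2 →
      closure (VC n (1 + n + r) k) ∈ irreducibleComponents (Hilb n (1 + n + r) k) := by
    intro m t hmt hm ht hr1 hr2
    obtain ⟨𝓕, hs, hf, hc, hT⟩ := h2 m t r hm ht hr1 hr2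
    subst hmt
    exact h1 _ r (by omega) (by omega) 𝓕 hs hf hc hT
  have h3 : n % 3 = 0 ∨ n % 3 = 1 ∨ n % 3 = 2 := by omega
  rcases h3 with h3 | h3 | h3
  · -- `n = 3 m`
    obtain ⟨m, rfl⟩ : ∃ m, n = 3 * m := ⟨n / 3, by omega⟩
    obtain ⟨p, rfl⟩ : ∃ p, m = p + 1 := ⟨m - 1, by omega⟩
    rw [if_pos h3] at hup
    have e1 := two_choose p
    have e2 := two_choose (3 * (p + 1))
    have e3 : (3 * (p + 1) - 1) * (3 * (p + 1) - 2) = (3 * p + 2) * (3 * p + 1) := by
      congr 1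
    rw [e3] at hlo
    refine key (p + 1) 0 (by ring) (by omega) (by omega) ?_ ?_
    · simp only [mul_zero, zero_mul, add_zero]
      rw [if_neg (by omega)]
      nlinarith
    · simp only [mul_zero, zero_mul, add_zero]
      rw [if_neg (by omega)]
      nlinarith
  · -- `n = 3 m + 4`
    obtain ⟨m, rfl⟩ : ∃ m, n = 3 * m + 4 := ⟨(n - 4) / 3, by omega⟩
    obtain ⟨p, rfl⟩ : ∃ p, m = p + 1 := ⟨m - 1, by omega⟩
    rw [if_neg (by omega), if_neg (by omega)] at hup
    have e1 := two_choose p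
    have e2 := two_choose (3 * (p + 1) + 4)
    have e3 : (3 * (p + 1) + 4 - 1) * (3 * (p + 1) + 4 - 2) = (3 * p + 6) * (3 * p + 5) := by
      congr 1
    rw [e3] at hlo
    refine key (p + 1) 2 (by ring) (by omega) (by omega) ?_ ?_
    · rw [if_pos rfl]
      nlinarith
    · rw [if_pos rfl]
      norm_num at e2 ⊢
      nlinarith
  · -- `n = 3 m + 2`
    obtain ⟨m, rfl⟩ : ∃ m, n = 3 * m + 2 := ⟨(n - 2) / 3, by omega⟩
    obtain ⟨p, rfl⟩ : ∃ p, m = p + 1 := ⟨m - 1, by omega⟩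
    rw [if_neg (by omega), if_pos h3] at hup
    have e1 := two_choose p
    have e2 := two_choose (3 * (p + 1) + 2)
    have e3 : (3 * (p + 1) + 2 - 1) * (3 * (p + 1) + 2 - 2) = (3 * p + 4) * (3 * p + 3) := by
      congr 1
    rw [e3] at hlo
    refine key (p + 1) 1 (by ring) (by omega) (by omega) ?_ ?_
    · rw [if_neg (by omega)]
      nlinarith
    · rw [if_neg (by omega)]
      norm_num at e2 ⊢
      nlinarith

end Pool.Agent.VCC
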