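import Pool.Agent.VCC.Targets

/-!
# `V W_min1 = S³V`
-/

set_option autoImplicit false

namespace Pool.Agent.VCC

namespace NC_

variable {m t : ℕ} {k : Type*} [Field k]

/-- zero data -/
def z0 (m t : ℕ) (k : Type*) [Field k] : Dat m t k where
  s _ _ := 0
  p _ _ _ _ := 0
  q _ _ _ _ := 0
  e _ _ _ _ := 0
  g0 _ := 0
  g1 _ := 0

theorem ff0 (x u : _) : ff (0 : Ix m t → Ix m t → k) x u = 0 := by simp [ff]

theorem sol {T : Ix m t → Ix m t → Ix m t → k} (hT : TSym T) (h : ∀ x, T x ∈ Fmax1 m t k) :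
    Sol1 (z0 m t k) 0 T where
  sym := hT
  sq x y := by rw [ff0]; exact (mem_Fmax1.1 (h x)).sq y
  p x i j hij c := by rw [ff0]; exact (mem_Fmax1.1 (h x)).w i j hij c
  q0 x i s := by rw [ff0]; exact (mem_Fmax1.1 (h x)).q0 i s
  q1 x i s := by rw [ff0]; exact (mem_Fmax1.1 (h x)).q1 i s
  e x s s' hs b := by rw [ff0]; exact (mem_Fmax1.1 (h x)).e s s' hs b
  h0 x := by rw [ff0]; exact (mem_Fmax1.1 (h x)).h0
  h1 x := by rw [ff0]; exact (mem_Fmax1.1 (h x)).h1

section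

variable {T : Ix m t → Ix m t → Ix m t → k} (S : Sol1 (z0 m t k) 0 T)

include S

theorem sqA (x y : Ix m t) : T x y y = 0 := by rw [S.sq, ff0]
theorem sqB (x y : Ix m t) : T y y x = 0 := by rw [S.sq1, ff0]
theorem sqC (x y : Ix m t) : T y x y = 0 := by rw [S.sq2, ff0]

omit S in
theorem f3cases' (a b c : Fin 3) (h : b ≠ c) :
    (b = a + 1 ∧ c = a + 2) ∨ (b = a + 2 ∧ c = a + 1) ∨ (b = a + 2 ∧ c = a) ∨
    (b = a ∧ c = a + 2) ∨ (b = a ∧ c = a + 1) ∨ (b = a + 1 ∧ c = a) := by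
  revert a b c; decide

theorem XX2 [CharZero k] (i j : Fin m) (hij : i ≠ j) (a b c : Fin 3) :
    T (xx j a) (xx i b) (xx i c) = 0 := by
  by_cases hbc : b = c
  · rw [hbc]; exact sqA S _ _
  have key : T (xx j a) (xx i (a + 1)) (xx i (a + 2)) = 0 ∧
      T (xx j a) (xx i (a + 2)) (xx i a) = 0 ∧ T (xx j a) (xx i a) (xx i (a + 1)) = 0 := by
    rcases lt_or_gt_of_ne hij with h | h
    · have h1 := S.ltD h a
      have h2 := S.ltP h a
      have h3 := S.ltM h a
      simp only [ff0, mul_zero, add_zero, sub_self] at h1 h2 h3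
      exact ⟨(mul_eq_zero.1 h1).resolve_left (be_ne j), h2,
        (mul_eq_zero.1 h3).resolve_left (be_cube_ne j)⟩
    · have h1 := S.gtD h a
      have h2 := S.gtP h a
      have h3 := S.gtM h a
      simp only [ff0, mul_zero, add_zero, sub_self] at h1 h2 h3
      exact ⟨(mul_eq_zero.1 h1).resolve_left (be_ne i),
        (mul_eq_zero.1 h2).resolve_left (be_cube_ne i), h3⟩
  rcases f3cases' a b c hbc with ⟨rfl, rfl⟩ | ⟨rfl, rfl⟩ | ⟨rfl, rfl⟩ | ⟨rfl, rfl⟩ | ⟨rfl, rfl⟩ |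
    ⟨rfl, rfl⟩
  · exact key.1
  · rw [S.sym.p132]; exact key.1
  · exact key.2.1
  · rw [S.sym.p132]; exact key.2.1
  · exact key.2.2
  · rw [S.sym.p132]; exact key.2.2

theorem XX0 [CharZero k] (j : Fin m) : T (xx j 0) (xx j 1) (xx j 2) = 0 := by
  have h := S.h0 (xx j 0)
  rw [ff0, ← Finset.add_sum_erase _ _ (Finset.mem_univ j), Finset.sum_eq_zero, add_zero] at h
  · exact h
  · intro i hi
    exact XX2 S i j (Finset.ne_of_mem_erase hi) 0 1 2

theorem XX1 [CharZero k] (i : Fin m) (a b c : Fin 3) :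
    T (xx i a) (xx i b) (xx i c) = 0 := by
  have h := XX0 S i
  by_cases h1 : a = b
  · rw [h1]; exact sqB S _ _
  by_cases h2 : b = c
  · rw [h2]; exact sqA S _ _
  by_cases h3 : a = c
  · rw [h3]; exact sqC S _ _
  have : (a = 0 ∧ b = 1 ∧ c = 2) ∨ (a = 0 ∧ b = 2 ∧ c = 1) ∨ (a = 1 ∧ b = 0 ∧ c = 2) ∨
      (a = 1 ∧ b = 2 ∧ c = 0) ∨ (a = 2 ∧ b = 0 ∧ c = 1) ∨ (a = 2 ∧ b = 1 ∧ c = 0) := by
    revert a b c; decide
  rcases this with ⟨rfl, rfl, rfl⟩ | ⟨rfl, rfl, rfl⟩ | ⟨rfl, rfl, rfl⟩ | ⟨rfl, rfl, rfl⟩ |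
    ⟨rfl, rfl, rfl⟩ | ⟨rfl, rfl, rfl⟩
  · exact h
  · rw [S.sym.p132]; exact h
  · rw [S.sym.p213]; exact h
  · rw [S.sym.p312]; exact h
  · rw [S.sym.p231]; exact h
  · rw [S.sym.p321]; exact h

omit S in
theorem be_eq' (j : Fin m) : be k j = (((j : ℕ) + 2 : ℕ) : k) := by
  unfold be; push_cast; ring

theorem XXX [CharZero k] (h3 : T_NC3 k) {i j l : Fin m} (hij : i < j) (hjl : j < l)
    (a b c : Fin 3) : T (xx i a) (xx j b) (xx l c) = 0 := by
  refine h3 (be k j) (be k l) (be_ne j) (be_ne l) ?_ ?_ ?_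
    (fun a b c => T (xx i a) (xx j b) (xx l c)) ?_ ?_ ?_ a b c
  · rw [be_eq', be_eq']
    have h : ((j : ℕ) + 2) ^ 3 < ((l : ℕ) + 2) ^ 3 :=
      Nat.pow_lt_pow_left (by have : (j : ℕ) < l := hjl; omega) (by norm_num)
    exact_mod_cast h.ne
  · rw [be_eq']
    have h : 1 < ((l : ℕ) + 2) ^ 6 := Nat.one_lt_pow (by norm_num) (by omega)
    exact_mod_cast h.ne'
  · rw [be_eq', be_eq']
    have h1 : 1 < ((l : ℕ) + 2) ^ 3 := Nat.one_lt_pow (by norm_num) (by omega)
    have h2 : 1 < ((j : ℕ) + 2) ^ 3 := Nat.one_lt_pow (by norm_num) (by omega)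
    have h : 1 < ((j : ℕ) + 2) ^ 3 * ((l : ℕ) + 2) ^ 3 := by nlinarith
    exact_mod_cast h.ne'
  · intro e c
    have h := S.p (xx l c) i j hij e
    rw [ff0, S.sym.p231 (xx l c), S.sym.p231 (xx l c)] at h
    exact h
  · intro e b
    have h := S.p (xx j b) i l (hij.trans hjl) e
    rw [ff0, S.sym.p213 (xx j b), S.sym.p213 (xx j b)] at h
    exact h
  · intro e a
    have h := S.p (xx i a) j l hjl e
    rw [ff0] at h
    exact h

theorem three_x [CharZero k] (h3 : T_NC3 k) (i j l : Fin m) (a b c : Fin 3) :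
    T (xx i a) (xx j b) (xx l c) = 0 := by
  rcases lt_trichotomy i j with h1 | h1 | h1
  · rcases lt_trichotomy j l with h2 | h2 | h2
    · exact XXX S h3 h1 h2 a b c
    · rw [h2]
      refine XX2 S l i ?_ a b c
      rw [← h2]; exact h1.ne'
    · rcases lt_trichotomy i l with h4 | h4 | h4
      · rw [S.sym.p132]; exact XXX S h3 h4 h2 a c b
      · rw [h4, S.sym.p213]
        refine XX2 S l j ?_ b a c
        rw [← h4]; exact h1.ne
      · rw [S.sym.p312]; exact XXX S h3 h4 h1 c a b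
  · rw [h1]
    by_cases h2 : j = l
    · rw [h2]; exact XX1 S l a b c
    · rw [S.sym.p312]; exact XX2 S j l h2 c a b
  · rcases lt_trichotomy j l with h2 | h2 | h2
    · rcases lt_trichotomy i l with h4 | h4 | h4
      · rw [S.sym.p213]; exact XXX S h3 h1 h4 b a c
      · rw [h4, S.sym.p213]
        refine XX2 S l j ?_ b a c
        exact h2.ne'
      · rw [S.sym.p231]; exact XXX S h3 h2 h4 b c a
    · rw [h2]
      refine XX2 S l i ?_ a b c
      rw [← h2]; exact h1.ne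
    · rw [S.sym.p321]; exact XXX S h3 h2 h1 c b a

theorem zxx (i : Fin m) (s : Fin t) (d : Fin 2) (b c : Fin 3) :
    T (zz s d) (xx i b) (xx i c) = 0 := by
  have h1 := S.z1_01 i s
  have h2 := S.z0_01 i s
  have h3 := S.z1_20 i s
  have h4 := S.z1_12 i s
  have h5 := S.z0_12 i s
  have h6 := S.z0_20 i s
  simp only [ff0, sub_zero, add_zero] at h1 h2 h3 h4 h5 h6
  by_cases hbc : b = c
  · rw [hbc]; exact sqA S _ _
  have hd : d = 0 ∨ d = 1 := by revert d; decide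
  have : (b = 0 ∧ c = 1) ∨ (b = 1 ∧ c = 0) ∨ (b = 0 ∧ c = 2) ∨ (b = 2 ∧ c = 0) ∨
      (b = 1 ∧ c = 2) ∨ (b = 2 ∧ c = 1) := by
    revert b c; decide
  rcases hd with rfl | rfl <;> rcases this with ⟨rfl, rfl⟩ | ⟨rfl, rfl⟩ | ⟨rfl, rfl⟩ |
    ⟨rfl, rfl⟩ | ⟨rfl, rfl⟩ | ⟨rfl, rfl⟩ <;> first | assumption | (rw [S.sym.p132]; assumption)

theorem two_x [CharZero k] (h2 : T_NC2 k) (i j : Fin m) (s : Fin t) (a b : Fin 3) (c : Fin 2) :
    T (xx i a) (xx j b) (zz s c) = 0 := by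
  have key : ∀ (i j : Fin m), i < j → ∀ (a b : Fin 3) (c : Fin 2),
      T (xx i a) (xx j b) (zz s c) = 0 := by
    intro i j hij a b c
    refine h2 (be k j) (be_ne j) ?_ ?_ (fun a b c => T (xx i a) (xx j b) (zz s c)) ?_ ?_ ?_ a b c
    · rw [be_eq']
      exact_mod_cast (by omega : (j : ℕ) + 2 ≠ 1)
    · intro h
      have := be_cube_ne (k := k) j
      rw [h] at this
      exact this (by ring)
    · intro e c
      have h := S.p (zz s c) i j hij e
      rw [ff0, S.sym.p231 (zz s c), S.sym.p231 (zz s c)] at h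
      exact h
    · intro b
      have h := S.q0 (xx j b) i s
      have h' := S.q1 (xx j b) i s
      rw [ff0, S.sym.p213 (xx j b), S.sym.p213 (xx j b)] at h h'
      exact ⟨h, h'⟩
    · intro a
      have h := S.q0 (xx i a) j s
      have h' := S.q1 (xx i a) j s
      rw [ff0] at h h'
      exact ⟨h, h'⟩
  rcases lt_trichotomy i j with h | h | h
  · exact key i j h a b c
  · rw [h, S.sym.p312]; exact zxx S j s c a b
  · rw [S.sym.p213]; exact key j i h b a c

theorem one_x (i : Fin m) (s s' : Fin t) (a : Fin 3) (b c : Fin 2) :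
    T (xx i a) (zz s b) (zz s' c) = 0 := by
  by_cases hs : s = s'
  · subst hs
    have h1 := S.x1_z i s
    have h2 := S.x0_z i s
    have h3 := S.x2_z i s
    simp only [ff0, sub_zero] at h1 h2 h3
    have h0 : T (xx i a) (zz s 0) (zz s 1) = 0 := by
      have : a = 0 ∨ a = 1 ∨ a = 2 := by revert a; decide
      rcases this with rfl | rfl | rfl
      exacts [h2, h1, h3]
    have : (b = c) ∨ (b = 0 ∧ c = 1) ∨ (b = 1 ∧ c = 0) := by revert b c; decide
    rcases this with rfl | ⟨rfl, rfl⟩ | ⟨rfl, rfl⟩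
    · exact sqA S _ _
    · exact h0
    · rw [S.sym.p132]; exact h0
  · have he : ∀ (s s' : Fin t), s ≠ s' → ∀ a b, T (xx i a) (zz s b) (zz s' b) = 0 := by
      intro s s' h a b
      rw [S.e _ s s' h, ff0]
    have h01 : ∀ (s s' : Fin t), s ≠ s' → T (xx i 0) (zz s 0) (zz s' 1) = 0 := by
      intro s s' h
      have h1 := S.q0 (zz s' 1) i s
      rw [ff0, S.sym.p231 (zz s' 1), S.sym.p231 (zz s' 1), he s s' h, add_zero] at h1
      exact h1
    have h11 : ∀ (s s' : Fin t), s ≠ s' → T (xx i 1) (zz s 0) (zz s' 1) = 0 := by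
      intro s s' h
      have h1 := S.q1 (zz s' 1) i s
      rw [ff0, S.sym.p231 (zz s' 1), S.sym.p231 (zz s' 1), he s s' h, add_zero] at h1
      exact h1
    have h20 : ∀ (s s' : Fin t), s ≠ s' → T (xx i 2) (zz s 1) (zz s' 0) = 0 := by
      intro s s' h
      have h1 := S.q1 (zz s' 0) i s
      rw [ff0, S.sym.p231 (zz s' 0), S.sym.p231 (zz s' 0), he s s' h, zero_add] at h1
      exact h1
    have h0 : ∀ (s s' : Fin t), s ≠ s' → ∀ a, T (xx i a) (zz s 0) (zz s' 1) = 0 := by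
      intro s s' h a
      have : a = 0 ∨ a = 1 ∨ a = 2 := by revert a; decide
      rcases this with rfl | rfl | rfl
      · exact h01 s s' h
      · exact h11 s s' h
      · rw [S.sym.p132]; exact h20 s' s h.symm
    have : (b = c) ∨ (b = 0 ∧ c = 1) ∨ (b = 1 ∧ c = 0) := by revert b c; decide
    rcases this with rfl | ⟨rfl, rfl⟩ | ⟨rfl, rfl⟩
    · exact he s s' hs a b
    · exact h0 s s' hs a
    · rw [S.sym.p132]; exact h0 s' s (Ne.symm hs) a

theorem zzz (s s' : Fin t) (a b c : Fin 2) : T (zz s a) (zz s' b) (zz s' c) = 0 := by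
  by_cases hs : s = s'
  · subst hs
    have : a = b ∨ b = c ∨ a = c := by revert a b c; decide
    rcases this with rfl | rfl | rfl
    · exact sqB S _ _
    · exact sqA S _ _
    · exact sqC S _ _
  · have h1 := S.zz_z0 hs
    have h2 := S.zz_z1 hs
    simp only [ff0] at h1 h2
    have h0 : T (zz s a) (zz s' 0) (zz s' 1) = 0 := by
      have : a = 0 ∨ a = 1 := by revert a; decide
      rcases this with rfl | rfl
      exacts [h1, h2]
    have : (b = c) ∨ (b = 0 ∧ c = 1) ∨ (b = 1 ∧ c = 0) := by revert b c; decide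
    rcases this with rfl | ⟨rfl, rfl⟩ | ⟨rfl, rfl⟩
    · exact sqA S _ _
    · exact h0
    · rw [S.sym.p132]; exact h0

theorem zero_x (ht : t ≤ 2) (s s' s'' : Fin t) (a b c : Fin 2) :
    T (zz s a) (zz s' b) (zz s'' c) = 0 := by
  have : s = s' ∨ s' = s'' ∨ s = s'' := by
    have h1 := s.2
    have h2 := s'.2
    have h3 := s''.2
    simp only [Fin.ext_iff]
    omega
  rcases this with rfl | rfl | rfl
  · rw [S.sym.p312]; exact zzz S s'' s c a b
  · exact zzz S s s' a b c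
  · rw [S.sym.p213]; exact zzz S s' s b a c

end

end NC_

open NC_ in
theorem p_NC (k : Type*) [Field k] [CharZero k] (h3 : T_NC3 k) (h2 : T_NC2 k) : T_NC k := by
  intro m t ht T hT h
  have S := sol hT h
  rintro (⟨i, a⟩ | ⟨s, a⟩) (⟨j, b⟩ | ⟨s', b⟩) (⟨l, c⟩ | ⟨s'', c⟩)
  · exact three_x S h3 i j l a b c
  · exact two_x S h2 i j s'' a b c
  · rw [S.sym.p132]; exact two_x S h2 i l s' a c b
  · exact one_x S i s' s'' a b c
  · rw [S.sym.p231]; exact two_x S h2 j l s b c a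
  · rw [S.sym.p213]; exact one_x S j s s'' b a c
  · rw [S.sym.p312]; exact one_x S l s s' c a b
  · exact zero_x S ht s s' s'' a b c

end Pool.Agent.VCC
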