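import Pool.Agent.VCC.Targets

/-!
# Cubics of two 3-blocks and a 2-block
-/

set_option autoImplicit false

namespace Pool.Agent.VCC

theorem p_NC2 (k : Type*) [Field k] [CharZero k] : T_NC2 k := by
  intro β hβ0 hβ1 hβm T hA hB hC
  have a00 : T 0 0 0 + β * T 2 1 0 = 0 := hA 0 0
  have a01 : T 0 0 1 + β * T 2 1 1 = 0 := hA 0 1
  have a10 : T 1 1 0 + β * T 0 2 0 = 0 := hA 1 0
  have a11 : T 1 1 1 + β * T 0 2 1 = 0 := hA 1 1
  have a20 : T 2 2 0 + β * T 1 0 0 = 0 := hA 2 0
  have a21 : T 2 2 1 + β * T 1 0 1 = 0 := hA 2 1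
  obtain ⟨b00, b01⟩ := hB 0
  obtain ⟨b10, b11⟩ := hB 1
  obtain ⟨b20, b21⟩ := hB 2
  obtain ⟨c00, c01⟩ := hC 0
  obtain ⟨c10, c11⟩ := hC 1
  obtain ⟨c20, c21⟩ := hC 2
  have hp : 1 + β ≠ 0 := fun h => hβm (by linear_combination h)
  have hm : 1 - β ≠ 0 := fun h => hβ1 (by linear_combination -h)
  have E02 : T 0 2 1 = 0 := by
    have : (1 + β) * T 0 2 1 = 0 := by linear_combination a11 + c01 - b10
    exact (mul_eq_zero.1 this).resolve_left hp
  have E11 : T 1 1 1 = 0 := by linear_combination a11 - β * E02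
  have D01 : T 0 1 0 = 0 := by linear_combination c01 - E02
  have D10 : T 1 0 0 = 0 := by linear_combination c10 - E11
  have E20 : T 2 0 1 = 0 := by linear_combination b01 - D10
  have D22 : T 2 2 0 = 0 := by linear_combination a20 - β * D10
  have D02 : T 0 2 0 = 0 := by
    have : (1 + β) * T 0 2 0 = 0 := by linear_combination a10 - c11 + b20
    exact (mul_eq_zero.1 this).resolve_left hp
  have D11 : T 1 1 0 = 0 := by linear_combination a10 - β * D02
  have E12 : T 1 2 1 = 0 := by linear_combination b20 - D02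
  have E21 : T 2 1 1 = 0 := by linear_combination b11 - D11
  have D20 : T 2 0 0 = 0 := by linear_combination c20 - E21
  have E00 : T 0 0 1 = 0 := by linear_combination a01 - β * E21
  have E10 : T 1 0 1 = 0 := by
    have : (1 + β) * ((1 - β) * T 1 0 1) = 0 := by
      linear_combination b00 - a00 + β * c21 - β * a21
    exact (mul_eq_zero.1 ((mul_eq_zero.1 this).resolve_left hp)).resolve_left hm
  have D00 : T 0 0 0 = 0 := by linear_combination b00 - E10
  have E01 : T 0 1 1 = 0 := by linear_combination c00 - D00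
  have E22 : T 2 2 1 = 0 := by linear_combination a21 - β * E10
  have D12 : T 1 2 0 = 0 := by linear_combination b21 - E22
  have D21 : T 2 1 0 = 0 := by linear_combination c21 - E22
  intro a b c
  fin_cases a <;> fin_cases b <;> fin_cases c <;> assumption

end Pool.Agent.VCC
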