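import Pool.Agent.VCC.Targets

set_option autoImplicit false

namespace Pool.Agent.VCC

namespace NC3_

variable {k : Type*} [Field k]

theorem cyc1 (f : Fin 3 → k) (r : k) (hr : r ^ 3 ≠ 1) (h : ∀ a, f a = r * f (a + 1)) :
    ∀ a, f a = 0 := by
  have key : ∀ x y z : k, x = r * y → y = r * z → z = r * x → x = 0 := by
    intro x y z h1 h2 h3
    have h4 : (r ^ 3 - 1) * x = 0 := by
      linear_combination -h1 - r * h2 - r ^ 2 * h3
    rcases mul_eq_zero.1 h4 with h5 | h5
    · exact absurd (sub_eq_zero.1 h5) hr
    · exact h5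
  have e0 : f 0 = r * f 1 := h 0
  have e1 : f 1 = r * f 2 := h 1
  have e2 : f 2 = r * f 0 := h 2
  intro a
  fin_cases a
  · exact key _ _ _ e0 e1 e2
  · exact key _ _ _ e1 e2 e0
  · exact key _ _ _ e2 e0 e1

theorem cyc2 (f : Fin 3 → k) (r : k) (hr : r ^ 3 ≠ 1) (h : ∀ a, f a = r * f (a + 2)) :
    ∀ a, f a = 0 := by
  have key : ∀ x y z : k, x = r * y → y = r * z → z = r * x → x = 0 := by
    intro x y z h1 h2 h3
    have h4 : (r ^ 3 - 1) * x = 0 := by
      linear_combination -h1 - r * h2 - r ^ 2 * h3
    rcases mul_eq_zero.1 h4 with h5 | h5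
    · exact absurd (sub_eq_zero.1 h5) hr
    · exact h5
  have e0 : f 0 = r * f 2 := h 0
  have e1 : f 1 = r * f 0 := h 1
  have e2 : f 2 = r * f 1 := h 2
  intro a
  fin_cases a
  · exact key _ _ _ e0 e2 e1
  · exact key _ _ _ e1 e0 e2
  · exact key _ _ _ e2 e1 e0

theorem i21 (a : Fin 3) : a + 2 + 1 = a := by revert a; decide
theorem i12 (a : Fin 3) : a + 1 + 2 = a := by revert a; decide
theorem i11 (a : Fin 3) : a + 1 + 1 = a + 2 := by revert a; decide
theorem i22 (a : Fin 3) : a + 2 + 2 = a + 1 := by revert a; decide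

end NC3_

open NC3_ in
theorem p_NC3 (k : Type*) [Field k] [CharZero k] : T_NC3 k := by
  intro β γ hβ hγ h33 h6 hbg T h1 h2 h3
  -- family A, B, C
  have hB : ∀ a, T a (a + 2) (a + 1) = 0 := by
    apply cyc2 (fun a => T a (a + 2) (a + 1)) (β / γ)
    · rw [div_pow, Ne, div_eq_one_iff_eq (pow_ne_zero _ hγ)]
      exact h33
    · intro a
      have e1 := h1 a a
      have e3 := h3 a a
      have i : a + 2 + 2 = a + 1 := i22 a
      simp only [i22, i21]
      rw [div_mul_eq_mul_div, eq_div_iff hγ]
      linear_combination e3 - e1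
  have hA : ∀ a, T a a a = 0 := by
    intro a
    have e3 := h3 a a
    rw [hB a] at e3
    linear_combination e3
  have hC : ∀ a, T a (a + 1) (a + 2) = 0 := by
    intro a
    have e2 := h2 (a + 1) (a + 1)
    rw [hA, i12, i11] at e2
    have : γ * T a (a + 1) (a + 2) = 0 := by linear_combination e2
    exact (mul_eq_zero.1 this).resolve_left hγ
  have hE : ∀ a, T a (a + 2) (a + 2) = 0 := by
    apply cyc2 (fun a => T a (a + 2) (a + 2)) (γ ^ 2)
    · rw [← pow_mul]; exact h6
    · intro a
      have e2 := h2 a (a + 1)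
      have e3 := h3 (a + 2) a
      rw [i22, i21] at e3
      simp only [i22]
      linear_combination e3 - γ * e2
  have hH : ∀ a, T a (a + 1) a = 0 := by
    intro a
    have e2 := h2 a (a + 1)
    have e := hE (a + 2)
    rw [i22] at e
    rw [e] at e2
    linear_combination e2
  have hD : ∀ a, T a a (a + 1) = 0 := by
    intro a
    have e1 := h1 a (a + 1)
    have e := hE (a + 2)
    rw [i22] at e
    rw [e] at e1
    linear_combination e1
  have hF : ∀ a, T a a (a + 2) = 0 := by
    apply cyc1 (fun a => T a a (a + 2)) (β * γ)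
    · rw [mul_pow]; exact hbg
    · intro a
      have e1 := h1 a (a + 2)
      have e2 := h2 (a + 2) (a + 1)
      rw [i22, i21] at e2
      simp only [i12]
      linear_combination e1 - β * e2
  have hG : ∀ a, T a (a + 2) a = 0 := by
    intro a
    have e2 := h2 a (a + 2)
    have e := hF (a + 2)
    rw [i22] at e
    rw [e] at e2
    linear_combination e2
  have hK : ∀ a, T a (a + 1) (a + 1) = 0 := by
    intro a
    have e3 := h3 (a + 1) a
    rw [i12, i11, hF] at e3
    linear_combination e3
  have key : ∀ a u v : Fin 3, T a (a + u) (a + v) = 0 := by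
    intro a u v
    fin_cases u <;> fin_cases v
    · simpa using hA a
    · simpa using hD a
    · simpa using hF a
    · simpa using hH a
    · simpa using hK a
    · simpa using hC a
    · simpa using hG a
    · simpa using hB a
    · simpa using hE a
  intro a b c
  have := key a (b - a) (c - a)
  rwa [add_sub_cancel, add_sub_cancel] at this

end Pool.Agent.VCC
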