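import Pool.Agent.VCC.Targets

/-!
# OPEN: near good structure constants every scheme is very compressed
-/

set_option autoImplicit false

namespace Pool.Agent.VCC

open MvPolynomial HilbPts

universe u

namespace OPEN_

variable {n r : ℕ} {k : Type u} [Field k]

/-- The choices of monomials: `b` and its modifications at one place. -/
def bx (b : Fin r → Fin n × Fin n) : Option (Fin n × Fin n × Fin r) → Fin r → Fin n × Fin n
  | none => b
  | some x => Function.update b x.2.2 (x.1, x.2.1)

theorem eval_H' (H : MvPolynomial (Fin n × Fin n × Fin r) k)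
    (f : Option (Fin n × Fin n × Fin r) → k) :
    eval f (X none * rename some H) = f none * eval (fun x => f (some x)) H := by
  rw [map_mul, eval_X, eval_rename]
  rfl

theorem cube_le {v : Fin n → k} {I : Ideal (MvPolynomial (Fin n) k)}
    (h : ∀ i j l, yv v i * yv v j * yv v l ∈ I) : maxIdealAt v ^ 3 ≤ I := by
  rw [pow_succ, pow_two, maxIdealAt, Ideal.span_mul_span', Ideal.span_mul_span', Ideal.span_le]
  rintro f hf
  obtain ⟨g, hg, c, ⟨l, rfl⟩, rfl⟩ := Set.mem_mul.1 hf
  obtain ⟨a, ⟨i, rfl⟩, b, ⟨j, rfl⟩, rfl⟩ := Set.mem_mul.1 hg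
  exact h i j l

theorem smul_quot (I : Ideal (MvPolynomial (Fin n) k)) (c : k) (y : MvPolynomial (Fin n) k ⧸ I) :
    c • y = Ideal.Quotient.mk I (C c) * y := by
  obtain ⟨f, rfl⟩ := Ideal.Quotient.mk_surjective y
  rw [← mk_smul, ← map_mul, MvPolynomial.smul_eq_C_mul]

end OPEN_

open OPEN_ in
theorem p_OPEN (k : Type u) [Field k] [CharZero k] (h1 : T_CHART k) (h2 : T_VALS k)
    (h3 : T_POLY k) (h4 : T_FIB1 k) (h5 : T_FIB2 k) (h6 : T_FIB3 k) : T_OPEN k := by
  intro n r hn hr b μ hs hN hG
  classical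
  obtain ⟨e⟩ : Nonempty (Fin (1 + n + r) ≃ Unit ⊕ Fin n ⊕ Fin r) :=
    ⟨Fintype.equivOfCardEq (by simp; ring)⟩
  obtain ⟨H, d, hH, hHμ, hHG⟩ := h3 n r b μ hs hN hG
  have hH' : (X none * rename some H :
      MvPolynomial (Option (Fin n × Fin n × Fin r)) k).IsHomogeneous (1 + d) :=
    (isHomogeneous_X k none).mul hH.rename_isHomogeneous
  refine ⟨(RelSet e (bx b) (X none * rename some H))ᶜ, (isClosed_relSet e (bx b) hH').isOpen_compl,
    ?_, ?_⟩
  · obtain ⟨P, hP, hd, hv⟩ := h2 n r e b μ hs hN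
    refine ⟨P.toHilb, fun hmem => ?_⟩
    rw [mem_relSet_iff e (bx b) hH', eval_H'] at hmem
    have e1 : delta e P (bx b none) = 1 := hd
    have e2 : (fun x : Fin n × Fin n × Fin r => delta e P (bx b (some x))) =
        fun x => μ x.1 x.2.1 x.2.2 := by
      funext x
      exact hv x.1 x.2.1 x.2.2
    rw [e1, e2, one_mul] at hmem
    exact hHμ hmem
  · intro x hx
    obtain ⟨P, rfl⟩ := toHilb_surjective x
    have hx' : eval (fun x => delta e P (bx b x)) (X none * rename some H) ≠ 0 := fun h0 =>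
      hx ((mem_relSet_iff e (bx b) hH' P).2 h0)
    rw [eval_H'] at hx'
    have hD : delta e P b ≠ 0 := left_ne_zero_of_mul hx'
    have hE : eval (fun x : Fin n × Fin n × Fin r => delta e P (bx b (some x))) H ≠ 0 :=
      right_ne_zero_of_mul hx'
    obtain ⟨B, hB, hrep⟩ := h1 n r e P b hD
    let A := MvPolynomial (Fin n) k ⧸ P.ideal
    let ν : Fin n → Fin n → Fin r → k := fun i j s =>
      B.repr (Ideal.Quotient.mk P.ideal (X i * X j)) (Sum.inr (Sum.inr s))
    have hνs : Sym2' ν := by
      intro i j s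
      show B.repr (Ideal.Quotient.mk P.ideal (X i * X j)) (Sum.inr (Sum.inr s)) =
        B.repr (Ideal.Quotient.mk P.ideal (X j * X i)) (Sum.inr (Sum.inr s))
      rw [mul_comm]
    have hνN : Nrm b ν := by
      intro s s'
      show B.repr (Ideal.Quotient.mk P.ideal (X (b s).1 * X (b s).2)) (Sum.inr (Sum.inr s')) = _
      have e1 : Ideal.Quotient.mk P.ideal (X (b s).1 * X (b s).2) = B (Sum.inr (Sum.inr s)) :=
        (hB (Sum.inr (Sum.inr s))).symm
      rw [e1, B.repr_self, Finsupp.single_apply]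
      simp only [Sum.inr.injEq]
    have hνE : eval (fun x => ν x.1 x.2.1 x.2.2) H ≠ 0 := by
      have e1 : (fun x : Fin n × Fin n × Fin r => ν x.1 x.2.1 x.2.2) =
          fun x => (delta e P b)⁻¹ * delta e P (bx b (some x)) := by
        funext x
        have := hrep x.1 x.2.1 x.2.2
        show B.repr (Ideal.Quotient.mk P.ideal (X x.1 * X x.2.1)) (Sum.inr (Sum.inr x.2.2)) =
          (delta e P b)⁻¹ * delta e P (Function.update b x.2.2 (x.1, x.2.1))
        rw [← this]
        field_simp
      rw [e1, eval_mul_homog hH]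
      exact mul_ne_zero (pow_ne_zero _ (inv_ne_zero hD)) hE
    have hνG : Good ν := hHG ν hνs hνN hνE
    obtain ⟨v, q', B', ψ, hB1, hBy, hBq, hmul, hrep'⟩ := h4 n r A
      (fun i => Ideal.Quotient.mk P.ideal (X i))
      (fun s => Ideal.Quotient.mk P.ideal (X (b s).1 * X (b s).2)) B ν
      ((hB (Sum.inl ())).trans (map_one _)) (fun i => hB (Sum.inr (Sum.inl i)))
      (fun s => hB (Sum.inr (Sum.inr s))) (fun i j s => by
        show B.repr (Ideal.Quotient.mk P.ideal (X i) * Ideal.Quotient.mk P.ideal (X j))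
          (Sum.inr (Sum.inr s)) = ν i j s
        rw [← map_mul]) hνG
    obtain ⟨hrep1, c, hc⟩ := h5 n r hn hr A
      (fun i => Ideal.Quotient.mk P.ideal (X i) - algebraMap k A (v i)) q' B' b ν ψ hB1 hBy hBq hνN
      hmul hrep' hνG
    obtain ⟨hcube, hindep⟩ := h6 n r hn A
      (fun i => Ideal.Quotient.mk P.ideal (X i) - algebraMap k A (v i)) q' B' b ν ψ c hB1 hBy hBq
      hνN hνs hmul hrep' hrep1 hc hνG
    have hy : ∀ i, Ideal.Quotient.mk P.ideal (yv v i) =
        Ideal.Quotient.mk P.ideal (X i) - algebraMap k A (v i) := by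
      intro i
      rw [yv, map_sub]
      rfl
    have hcube' : maxIdealAt v ^ 3 ≤ P.ideal := by
      apply cube_le
      intro i j l
      rw [← Ideal.Quotient.eq_zero_iff_mem, map_mul, map_mul, hy, hy, hy]
      exact hcube i j l
    refine ⟨v, hcube', fun f hf => ?_⟩
    replace hf : f ∈ P.ideal := hf
    have hT := taylor_mem v f
    have hT2 := Ideal.sub_mem _ hf (hcube' hT)
    rw [sub_sub_cancel, ← Ideal.Quotient.eq_zero_iff_mem] at hT2
    have hsum : algebraMap k A (eval v f) +
        ∑ i, D1 v i f • (Ideal.Quotient.mk P.ideal (X i) - algebraMap k A (v i)) +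
        ∑ i, ∑ j, (2⁻¹ * D2 v i j f) • ((Ideal.Quotient.mk P.ideal (X i) - algebraMap k A (v i)) *
          (Ideal.Quotient.mk P.ideal (X j) - algebraMap k A (v j))) = 0 := by
      refine Eq.trans ?_ hT2
      rw [map_add, map_add, map_sum, map_sum]
      refine congrArg₂ (· + ·) (congrArg₂ (· + ·) rfl (Finset.sum_congr rfl fun i _ => ?_))
        (Finset.sum_congr rfl fun i _ => ?_)
      · rw [map_mul (Ideal.Quotient.mk P.ideal), hy]
        exact smul_quot P.ideal _ _
      · rw [map_sum]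
        refine Finset.sum_congr rfl fun j _ => ?_
        rw [map_mul (Ideal.Quotient.mk P.ideal), map_mul (Ideal.Quotient.mk P.ideal), hy, hy]
        exact smul_quot P.ideal _ _
    obtain ⟨h7, h8⟩ := hindep _ _ _ hsum
    exact mem_sq_of_taylor h7 h8

end Pool.Agent.VCC
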