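import Pool.Agent.VCC.Targets

set_option autoImplicit false

open MvPolynomial

namespace Pool.Agent.VCC

namespace POLY_

variable (k : Type*) [Field k] (n r : ℕ)

/-- Pairs `(lam, N)` with `lam` symmetric in the first two arguments. -/
def XS : Submodule k ((Fin n → Fin n → Fin n → k) × (Fin n → Fin r → Fin r → k)) where
  carrier := {p | ∀ j l t, p.1 j l t = p.1 l j t}
  add_mem' := by
    intro a b ha hb j l t
    simp only [Prod.fst_add, Pi.add_apply]
    rw [ha j l t, hb j l t]
  zero_mem' := by intro j l t; simp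
  smul_mem' := by
    intro c a ha j l t
    simp only [Prod.smul_fst, Pi.smul_apply]
    rw [ha j l t]

variable {k n r}

/-- The defect of symmetry. -/
def Lf (ν : Fin n × Fin n × Fin r → k) (x : XS k n r) : Fin n → Fin n → Fin n → Fin r → k :=
  fun i j l s => ((∑ t, x.1.1 j l t * ν (i, t, s)) + (∑ s', x.1.2 i s s' * ν (j, l, s'))) -
    ((∑ t, x.1.1 i l t * ν (j, t, s)) + (∑ s', x.1.2 j s s' * ν (i, l, s')))

variable (k n r) in
/-- As a bilinear map. -/
noncomputable def Lm : (Fin n × Fin n × Fin r → k) →ₗ[k] (XS k n r) →ₗ[k]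
    (Fin n → Fin n → Fin n → Fin r → k) :=
  LinearMap.mk₂ k Lf
    (by
      intro a b x
      funext i j l s
      simp only [Lf, Pi.add_apply, mul_add, Finset.sum_add_distrib]
      ring)
    (by
      intro c a x
      funext i j l s
      simp only [Lf, Pi.smul_apply, smul_eq_mul, mul_left_comm _ c, ← Finset.mul_sum]
      ring)
    (by
      intro a x y
      funext i j l s
      simp only [Lf, Pi.add_apply, Submodule.coe_add, Prod.fst_add, Prod.snd_add, add_mul,
        Finset.sum_add_distrib]
      ring)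
    (by
      intro c a x
      funext i j l s
      simp only [Lf, Pi.smul_apply, smul_eq_mul, Submodule.coe_smul, Prod.smul_fst, Prod.smul_snd,
        mul_assoc, ← Finset.mul_sum]
      ring)

theorem Lm_apply (ν : Fin n × Fin n × Fin r → k) (x : XS k n r) : Lm k n r ν x = Lf ν x := rfl

/-- the trivial solution attached to `(v, θ)` -/
def Tf (ν : Fin n → Fin n → Fin r → k) (hν : Sym2' ν) (p : (Fin n → k) × (Fin r → Fin n → k)) :
    XS k n r :=
  ⟨(fun j l t => p.1 j * (if l = t then 1 else 0) + p.1 l * (if j = t then 1 else 0) +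
    ∑ s, p.2 s t * ν j l s,
    fun i s s' => p.1 i * (if s = s' then 1 else 0) - ∑ t, p.2 s' t * ν i t s), by
    intro j l t
    have : (∑ s, p.2 s t * ν j l s) = ∑ s, p.2 s t * ν l j s :=
      Finset.sum_congr rfl fun s _ => by rw [hν j l s]
    simp only [this]
    ring⟩

/-- linear version -/
noncomputable def Tm (ν : Fin n → Fin n → Fin r → k) (hν : Sym2' ν) :
    ((Fin n → k) × (Fin r → Fin n → k)) →ₗ[k] XS k n r where
  toFun := Tf ν hν
  map_add' := by
    intro p q
    apply Subtype.ext
    apply Prod.ext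
    · funext j l t
      simp only [Tf, Submodule.coe_add, Prod.fst_add, Prod.snd_add, Pi.add_apply, add_mul,
        Finset.sum_add_distrib]
      ring
    · funext i s s'
      simp only [Tf, Submodule.coe_add, Prod.fst_add, Prod.snd_add, Pi.add_apply, add_mul,
        Finset.sum_add_distrib]
      ring
  map_smul' := by
    intro c p
    apply Subtype.ext
    apply Prod.ext
    · funext j l t
      simp only [Tf, Submodule.coe_smul, Prod.smul_fst, Prod.smul_snd, Pi.smul_apply, smul_eq_mul,
        mul_assoc, ← Finset.mul_sum, RingHom.id_apply]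
      ring
    · funext i s s'
      simp only [Tf, Submodule.coe_smul, Prod.smul_fst, Prod.smul_snd, Pi.smul_apply, smul_eq_mul,
        mul_assoc, ← Finset.mul_sum, RingHom.id_apply]
      ring

/-- flatten -/
def fl (ν : Fin n → Fin n → Fin r → k) : Fin n × Fin n × Fin r → k := fun x => ν x.1 x.2.1 x.2.2

theorem mem_ker_iff (ν : Fin n → Fin n → Fin r → k) (x : XS k n r) :
    Lm k n r (fl ν) x = 0 ↔ Sol ν x.1.1 x.1.2 := by
  rw [Lm_apply]
  constructor
  · intro h
    refine ⟨x.2, fun i j l s => ?_⟩
    have := congrFun (congrFun (congrFun (congrFun h i) j) l) s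
    simp only [Lf, fl, Pi.zero_apply] at this
    exact sub_eq_zero.1 this
  · intro h
    funext i j l s
    simp only [Lf, fl, Pi.zero_apply]
    exact sub_eq_zero.2 (h.2 i j l s)

theorem Tm_mem_ker (ν : Fin n → Fin n → Fin r → k) (hν : Sym2' ν)
    (p : (Fin n → k) × (Fin r → Fin n → k)) : Lm k n r (fl ν) (Tm ν hν p) = 0 := by
  rw [mem_ker_iff]
  refine ⟨(Tm ν hν p).2, ?_⟩
  have key : ∀ i j l s, (∑ t, (Tm ν hν p).1.1 j l t * ν i t s) +
      (∑ s', (Tm ν hν p).1.2 i s s' * ν j l s') =
      p.1 j * ν i l s + p.1 l * ν i j s + p.1 i * ν j l s := by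
    intro i j l s
    simp only [Tm, Tf, LinearMap.coe_mk, AddHom.coe_mk, add_mul, sub_mul, Finset.sum_add_distrib,
      Finset.sum_sub_distrib, mul_ite, mul_one, mul_zero, ite_mul, zero_mul, Finset.sum_ite_eq,
      Finset.mem_univ, if_true]
    have h2 : (∑ t, (∑ s', p.2 s' t * ν j l s') * ν i t s) =
        ∑ s', (∑ t, p.2 s' t * ν i t s) * ν j l s' := by
      simp only [Finset.sum_mul]
      rw [Finset.sum_comm]
      refine Finset.sum_congr rfl fun a _ => Finset.sum_congr rfl fun b _ => by ring
    rw [h2]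
    ring
  intro i j l s
  rw [key, key, hν i j s]
  ring

theorem Tm_inj [CharZero k] (b : Fin r → Fin n × Fin n) (ν : Fin n → Fin n → Fin r → k)
    (hν : Sym2' ν) (hb : Nrm b ν) : Function.Injective (Tm ν hν) := by
  rw [← LinearMap.ker_eq_bot, LinearMap.ker_eq_bot']
  rintro ⟨v, θ⟩ h
  have hl : ∀ j l t, v j * (if l = t then 1 else 0) + v l * (if j = t then 1 else 0) +
      ∑ s, θ s t * ν j l s = 0 := by
    intro j l t
    have := congrArg (fun x : XS k n r => x.1.1 j l t) h
    simpa [Tm, Tf] using this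
  have hN : ∀ i s s', v i * (if s = s' then 1 else 0) - ∑ t, θ s' t * ν i t s = 0 := by
    intro i s s'
    have := congrArg (fun x : XS k n r => x.1.2 i s s') h
    simpa [Tm, Tf] using this
  have hv : ∀ i, v i = 0 := by
    intro i
    by_contra hvi
    have h1 : ∀ s, 3 * v i * ν i i s = 0 := by
      intro s
      have h2 : ∑ s', (v i * (if s = s' then 1 else 0) - ∑ t, θ s' t * ν i t s) * ν i i s' = 0 :=
        Finset.sum_eq_zero fun s' _ => by rw [hN i s s', zero_mul]
      simp only [sub_mul, Finset.sum_sub_distrib, mul_ite, mul_one, mul_zero, ite_mul, zero_mul,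
        Finset.sum_ite_eq, Finset.mem_univ, if_true] at h2
      have h3 : (∑ s', (∑ t, θ s' t * ν i t s) * ν i i s') =
          ∑ t, (∑ s', θ s' t * ν i i s') * ν i t s := by
        simp only [Finset.sum_mul]
        rw [Finset.sum_comm]
        refine Finset.sum_congr rfl fun a _ => Finset.sum_congr rfl fun b _ => by ring
      rw [h3] at h2
      have h4 : ∀ t, (∑ s', θ s' t * ν i i s') = - (2 * v i * if i = t then 1 else 0) := by
        intro t
        have := hl i i t
        linear_combination this
      simp only [h4, neg_mul, mul_ite, mul_one, mul_zero, ite_mul, zero_mul,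
        Finset.sum_neg_distrib, Finset.sum_ite_eq, Finset.mem_univ, if_true] at h2
      linear_combination h2
    have h5 : ∀ s, ν i i s = 0 := by
      intro s
      have h6 := h1 s
      rcases mul_eq_zero.1 h6 with h7 | h7
      · rcases mul_eq_zero.1 h7 with h8 | h8
        · norm_num at h8
        · exact absurd h8 hvi
      · exact h7
    have h9 := hl i i i
    simp only [h5, mul_zero, Finset.sum_const_zero, if_true, mul_one, add_zero] at h9
    have h10 : 2 * v i = 0 := by linear_combination h9
    rcases mul_eq_zero.1 h10 with h8 | h8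
    · norm_num at h8
    · exact absurd h8 hvi
  have hθ : ∀ s t, θ s t = 0 := by
    intro s t
    have h1 := hl (b s).1 (b s).2 t
    simp only [hv, zero_mul, zero_add, hb s] at h1
    simpa using h1
  apply Prod.ext
  · funext i; simpa using hv i
  · funext s t; simpa using hθ s t

theorem homog_det {σ ι : Type*} [Fintype ι] [DecidableEq ι] (M : Matrix ι ι (MvPolynomial σ k))
    (hM : ∀ p q, (M p q).IsHomogeneous 1) : (M.det).IsHomogeneous (Fintype.card ι) := by
  rw [Matrix.det_apply]
  apply IsHomogeneous.sum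
  intro e _
  have h1 : (∏ i, M (e i) i).IsHomogeneous (∑ _i : ι, 1) :=
    IsHomogeneous.prod _ _ _ fun i _ => hM _ _
  have h2 : (∑ _i : ι, 1) = Fintype.card ι := by simp
  rw [h2] at h1
  rw [Units.smul_def, zsmul_eq_mul]
  have h3 : (((Equiv.Perm.sign e : ℤ)) : MvPolynomial σ k) = C (((Equiv.Perm.sign e : ℤ)) : k) := by
    simp
  rw [h3]
  have := (isHomogeneous_C σ (((Equiv.Perm.sign e : ℤ)) : k)).mul h1
  simpa using this

end POLY_

open POLY_ in
theorem p_POLY (k : Type*) [Field k] [CharZero k] : T_POLY k := by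
  classical
  intro n r b μ hs hb hg
  set Lμ := Lm k n r (fl μ) with hLμ
  -- a and β
  obtain ⟨R, hR, a, ha⟩ : ∃ R, R = Module.finrank k (LinearMap.range Lμ) ∧
      ∃ a : (Fin R → k) →ₗ[k] XS k n r, Function.Injective (Lμ ∘ₗ a) := by
    refine ⟨_, rfl, ?_⟩
    let B := Module.finBasis k (LinearMap.range Lμ)
    have hx : ∀ i, ∃ x, Lμ x = (B i : Fin n → Fin n → Fin n → Fin r → k) := fun i => (B i).2
    choose x hx using hx
    refine ⟨Fintype.linearCombination k x, ?_⟩
    rw [← LinearMap.ker_eq_bot, LinearMap.ker_eq_bot']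
    intro c hc
    have h1 : ∑ i, c i • (B i : Fin n → Fin n → Fin n → Fin r → k) = 0 := by
      rw [LinearMap.comp_apply, Fintype.linearCombination_apply, map_sum] at hc
      simpa [hx] using hc
    have h2 : ∑ i, c i • B i = 0 := by
      apply Subtype.ext
      simpa using h1
    have h3 := Fintype.linearIndependent_iff.1 B.linearIndependent c h2
    funext i; simpa using h3 i
  obtain ⟨β, hβ⟩ := LinearMap.exists_leftInverse_of_injective (Lμ ∘ₗ a)
    (LinearMap.ker_eq_bot.2 ha)
  -- the matrix of linear forms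
  let Mf : (Fin n × Fin n × Fin r → k) → Matrix (Fin R) (Fin R) k :=
    fun ν => LinearMap.toMatrix' (β ∘ₗ (Lm k n r ν) ∘ₗ a)
  let MP : Matrix (Fin R) (Fin R) (MvPolynomial (Fin n × Fin n × Fin r) k) :=
    fun p q => ∑ x, C (Mf (Pi.single x 1) p q) * X x
  have hMP : ∀ ν : Fin n × Fin n × Fin r → k, (eval ν).mapMatrix MP = Mf ν := by
    intro ν
    ext p q
    have h1 : ν = ∑ x, ν x • (Pi.single x 1 : Fin n × Fin n × Fin r → k) := by
      conv_lhs => rw [← Finset.univ_sum_single ν]
      refine Finset.sum_congr rfl fun x _ => ?_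
      rw [← Pi.single_smul]; simp
    have h2 : Mf ν p q = ∑ x, ν x * Mf (Pi.single x 1) p q := by
      conv_lhs => rw [h1]
      simp only [Mf, LinearMap.toMatrix'_apply, LinearMap.comp_apply, map_sum, map_smul,
        LinearMap.sum_apply, LinearMap.smul_apply, Finset.sum_apply, Pi.smul_apply, smul_eq_mul]
    rw [h2]
    have h3 : (eval ν).mapMatrix MP p q = eval ν (MP p q) := rfl
    rw [h3]
    simp only [MP, map_sum, map_mul, eval_C, eval_X]
    exact Finset.sum_congr rfl fun x _ => mul_comm _ _
  have hev : ∀ ν : Fin n × Fin n × Fin r → k, eval ν MP.det = (Mf ν).det := by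
    intro ν
    rw [RingHom.map_det, hMP]
  refine ⟨MP.det, Fintype.card (Fin R), homog_det MP ?_, ?_, ?_⟩
  · intro p q
    apply IsHomogeneous.sum
    intro x _
    have := (isHomogeneous_C (Fin n × Fin n × Fin r) (Mf (Pi.single x 1) p q)).mul
      (isHomogeneous_X k x)
    simpa using this
  · have h1 : (fun x : Fin n × Fin n × Fin r => μ x.1 x.2.1 x.2.2) = fl μ := rfl
    rw [h1, hev]
    have h2 : Mf (fl μ) = 1 := by
      simp only [Mf]
      have : β ∘ₗ (Lm k n r (fl μ)) ∘ₗ a = LinearMap.id := hβ
      rw [this, LinearMap.toMatrix'_id]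
    rw [h2]
    simp
  · intro ν hs' hb' hne
    have h1 : (fun x : Fin n × Fin n × Fin r => ν x.1 x.2.1 x.2.2) = fl ν := rfl
    rw [h1, hev] at hne
    -- rank bound
    have hinj : Function.Injective ((Lm k n r (fl ν)) ∘ₗ a) := by
      have h3 : Function.Injective (β ∘ₗ (Lm k n r (fl ν)) ∘ₗ a) := by
        have h4 : (LinearMap.det (β ∘ₗ (Lm k n r (fl ν)) ∘ₗ a)) ≠ 0 := by
          rw [← LinearMap.det_toMatrix']
          exact hne
        have h5 := (LinearMap.equivOfDetNeZero _ h4)
        have h6 : LinearMap.ker (β ∘ₗ (Lm k n r (fl ν)) ∘ₗ a) = ⊥ := by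
          by_contra hk
          exact h4 (LinearMap.det_eq_zero_iff_ker_ne_bot.2 hk)
        exact LinearMap.ker_eq_bot.1 h6
      have h7 : Function.Injective (fun x => β (((Lm k n r (fl ν)) ∘ₗ a) x)) := h3
      intro x y hxy
      exact h7 (by simp only [hxy])
    have hrank : R ≤ Module.finrank k (LinearMap.range (Lm k n r (fl ν))) := by
      have h2 : Module.finrank k (LinearMap.range ((Lm k n r (fl ν)) ∘ₗ a)) = R := by
        rw [LinearMap.finrank_range_of_inj hinj]; simp
      rw [← h2]
      exact Submodule.finrank_mono (LinearMap.range_comp_le_range _ _)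
    have e1 := LinearMap.finrank_range_add_finrank_ker (Lm k n r (fl ν))
    have e2 := LinearMap.finrank_range_add_finrank_ker Lμ
    have hker : Module.finrank k (LinearMap.ker (Lm k n r (fl ν))) ≤
        Module.finrank k (LinearMap.ker Lμ) := by omega
    -- trivial solutions
    have t1 : LinearMap.ker Lμ ≤ LinearMap.range (Tm μ hs) := by
      intro x hx
      have h2 := (mem_ker_iff μ x).1 (LinearMap.mem_ker.1 hx)
      obtain ⟨v, θ, hT1, hT2⟩ := hg _ _ h2
      refine ⟨(v, θ), ?_⟩
      apply Subtype.ext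
      apply Prod.ext
      · funext j l t
        exact (hT1 j l t).symm
      · funext i s s'
        exact (hT2 i s s').symm
    have t2 : LinearMap.range (Tm ν hs') ≤ LinearMap.ker (Lm k n r (fl ν)) := by
      rintro _ ⟨p, rfl⟩
      exact LinearMap.mem_ker.2 (Tm_mem_ker ν hs' p)
    have d1 := LinearMap.finrank_range_of_inj (Tm_inj b ν hs' hb')
    have d2 : Module.finrank k (LinearMap.range (Tm μ hs)) ≤
        Module.finrank k ((Fin n → k) × (Fin r → Fin n → k)) := LinearMap.finrank_range_le _
    have d3 := Submodule.finrank_mono t1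
    have heq : LinearMap.range (Tm ν hs') = LinearMap.ker (Lm k n r (fl ν)) :=
      Submodule.eq_of_le_of_finrank_le t2 (by omega)
    intro lam N hsol
    have hx : (⟨(lam, N), hsol.1⟩ : XS k n r) ∈ LinearMap.ker (Lm k n r (fl ν)) :=
      LinearMap.mem_ker.2 ((mem_ker_iff ν ⟨(lam, N), hsol.1⟩).2 hsol)
    rw [← heq] at hx
    obtain ⟨⟨v, θ⟩, hv⟩ := hx
    refine ⟨v, θ, fun j l t => ?_, fun i s s' => ?_⟩
    · have := congrArg (fun x : XS k n r => x.1.1 j l t) hv
      simpa [Tm, Tf] using this.symm
    · have := congrArg (fun x : XS k n r => x.1.2 i s s') hv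
      simpa [Tm, Tf] using this.symm

end Pool.Agent.VCC
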