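import Pool.Agent.VCC.Targets

/-!
# VCC-RED1: reduction of the linear condition of chain 1 to normalised data
-/

set_option autoImplicit false

namespace Pool.Agent.VCC

namespace RED1_

variable {k : Type*} [Field k]

theorem sum_transl {ι : Type*} [Fintype ι] [DecidableEq ι] (v u : ι → k) (y z : ι) :
    ∑ t, u t * transl v t y z = v y * u z + v z * u y := by
  unfold transl
  have h1 : ∀ t, u t * (v y * (if z = t then 1 else 0) + v z * (if y = t then 1 else 0)) =
      (if z = t then v y * u t else 0) + (if y = t then v z * u t else 0) := by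
    intro t
    split_ifs <;> ring
  simp_rw [h1]
  rw [Finset.sum_add_distrib, Finset.sum_ite_eq Finset.univ z, Finset.sum_ite_eq Finset.univ y]
  simp

theorem transl_symm {ι : Type*} [DecidableEq ι] (v : ι → k) (t y z : ι) :
    transl v t y z = transl v t z y := by
  unfold transl; ring

/-- the cubic form after subtracting a translation -/
theorem tsym {ι : Type*} [Fintype ι] [DecidableEq ι] (lam : ι → ι → ι → k) (v : ι → k)
    (F : ι → ι → k) (hF : ∀ x y, F x y = F y x) (G : ι → ι → ι → k)
    (hT : TSym (fun x y z => (∑ t, F x t * lam t y z) + G x y z)) :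
    TSym (fun x y z => (∑ t, F x t * (lam t y z - transl v t y z)) +
      (G x y z - v x * F y z)) := by
  have h1 : ∀ x y z, (∑ t, F x t * (lam t y z - transl v t y z)) + (G x y z - v x * F y z) =
      ((∑ t, F x t * lam t y z) + G x y z) - (v y * F x z + v z * F x y + v x * F y z) := by
    intro x y z
    have h2 : ∑ t, F x t * (lam t y z - transl v t y z) =
        (∑ t, F x t * lam t y z) - ∑ t, F x t * transl v t y z := by
      rw [← Finset.sum_sub_distrib]
      exact Finset.sum_congr rfl fun t _ => by ring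
    rw [h2, sum_transl]
    ring
  constructor
  · intro x y z
    show (∑ t, F x t * (lam t y z - transl v t y z)) + (G x y z - v x * F y z) =
      (∑ t, F y t * (lam t x z - transl v t x z)) + (G y x z - v y * F x z)
    rw [h1, h1]
    have := hT.1 x y z
    simp only at this
    rw [this, hF x y]
    ring
  · intro x y z
    show (∑ t, F x t * (lam t y z - transl v t y z)) + (G x y z - v x * F y z) =
      (∑ t, F x t * (lam t z y - transl v t z y)) + (G x z y - v x * F z y)
    rw [h1, h1]
    have := hT.2 x y z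
    simp only at this
    rw [this, hF y z]
    ring

variable {m t : ℕ}

/-- the data of a symmetric family of forms -/
def dat (L : Ix m t → Ix m t → Ix m t → k) : Dat m t k where
  s y x := L x y y
  p i j c x := L x (xx i c) (xx j c) + be k j * L x (xx i (c + 2)) (xx j (c + 1))
  q i s d x := if d = 0 then L x (xx i 0) (zz s 0) + L x (xx i 1) (zz s 1)
    else L x (xx i 1) (zz s 0) + L x (xx i 2) (zz s 1)
  e s s' b x := L x (zz s b) (zz s' b)
  g0 x := ∑ i, L x (xx i 1) (xx i 2)
  g1 x := ∑ i, L x (xx i 2) (xx i 0) + ∑ s, L x (zz s 0) (zz s 1)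

theorem sol (L : Ix m t → Ix m t → Ix m t → k) (F : Ix m t → Ix m t → k)
    (H : Ix m t → Ix m t → Ix m t → k) (hH : ∀ x, InMax1 (H x))
    (hT : TSym (fun x y z => (∑ t, F x t * L t y z) + H x y z)) :
    Sol1 (dat L) F (fun x y z => (∑ t, F x t * L t y z) + H x y z) where
  sym := hT
  sq x y := by
    show (∑ t, F x t * L t y y) + H x y y = _
    rw [(hH x).sq y, add_zero]; rfl
  p x i j hij c := by
    show ((∑ t, F x t * L t (xx i c) (xx j c)) + H x (xx i c) (xx j c)) +
      be k j * ((∑ t, F x t * L t (xx i (c + 2)) (xx j (c + 1))) +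
        H x (xx i (c + 2)) (xx j (c + 1))) =
      ∑ y, F x y * (L y (xx i c) (xx j c) + be k j * L y (xx i (c + 2)) (xx j (c + 1)))
    have h1 := (hH x).w i j hij c
    have h2 : ∑ y, F x y * (L y (xx i c) (xx j c) + be k j * L y (xx i (c + 2)) (xx j (c + 1))) =
        (∑ t, F x t * L t (xx i c) (xx j c)) +
        be k j * ∑ t, F x t * L t (xx i (c + 2)) (xx j (c + 1)) := by
      rw [Finset.mul_sum, ← Finset.sum_add_distrib]
      exact Finset.sum_congr rfl fun y _ => by ring
    rw [h2]
    linear_combination h1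
  q0 x i s := by
    show ((∑ t, F x t * L t (xx i 0) (zz s 0)) + H x (xx i 0) (zz s 0)) +
      ((∑ t, F x t * L t (xx i 1) (zz s 1)) + H x (xx i 1) (zz s 1)) =
      ∑ y, F x y * (L y (xx i 0) (zz s 0) + L y (xx i 1) (zz s 1))
    have h1 := (hH x).q0 i s
    have h2 : ∑ y, F x y * (L y (xx i 0) (zz s 0) + L y (xx i 1) (zz s 1)) =
        (∑ t, F x t * L t (xx i 0) (zz s 0)) + ∑ t, F x t * L t (xx i 1) (zz s 1) := by
      rw [← Finset.sum_add_distrib]
      exact Finset.sum_congr rfl fun y _ => by ring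
    rw [h2]
    linear_combination h1
  q1 x i s := by
    show ((∑ t, F x t * L t (xx i 1) (zz s 0)) + H x (xx i 1) (zz s 0)) +
      ((∑ t, F x t * L t (xx i 2) (zz s 1)) + H x (xx i 2) (zz s 1)) =
      ∑ y, F x y * (L y (xx i 1) (zz s 0) + L y (xx i 2) (zz s 1))
    have h1 := (hH x).q1 i s
    have h2 : ∑ y, F x y * (L y (xx i 1) (zz s 0) + L y (xx i 2) (zz s 1)) =
        (∑ t, F x t * L t (xx i 1) (zz s 0)) + ∑ t, F x t * L t (xx i 2) (zz s 1) := by
      rw [← Finset.sum_add_distrib]
      exact Finset.sum_congr rfl fun y _ => by ring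
    rw [h2]
    linear_combination h1
  e x s s' hs b := by
    show (∑ t, F x t * L t (zz s b) (zz s' b)) + H x (zz s b) (zz s' b) = _
    rw [(hH x).e s s' hs b, add_zero]; rfl
  h0 x := by
    show ∑ i, ((∑ t, F x t * L t (xx i 1) (xx i 2)) + H x (xx i 1) (xx i 2)) =
      ∑ y, F x y * ∑ i, L y (xx i 1) (xx i 2)
    rw [Finset.sum_add_distrib, (hH x).h0, add_zero, Finset.sum_comm]
    exact Finset.sum_congr rfl fun y _ => by rw [Finset.mul_sum]
  h1 x := by
    show ∑ i, ((∑ t, F x t * L t (xx i 2) (xx i 0)) + H x (xx i 2) (xx i 0)) +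
      ∑ s, ((∑ t, F x t * L t (zz s 0) (zz s 1)) + H x (zz s 0) (zz s 1)) =
      ∑ y, F x y * (∑ i, L y (xx i 2) (xx i 0) + ∑ s, L y (zz s 0) (zz s 1))
    have h1 := (hH x).h1
    have h2 : ∑ y, F x y * (∑ i, L y (xx i 2) (xx i 0) + ∑ s, L y (zz s 0) (zz s 1)) =
        (∑ i, ∑ t, F x t * L t (xx i 2) (xx i 0)) + ∑ s, ∑ t, F x t * L t (zz s 0) (zz s 1) := by
      rw [Finset.sum_comm, Finset.sum_comm (f := fun (s : Fin t) y =>
        F x y * L y (zz s 0) (zz s 1)), ← Finset.sum_add_distrib]
      exact Finset.sum_congr rfl fun y _ => by rw [mul_add, Finset.mul_sum, Finset.mul_sum]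
    rw [h2, Finset.sum_add_distrib, Finset.sum_add_distrib]
    linear_combination h1

end RED1_

open RED1_ in
theorem p_RED1 (k : Type*) [Field k] [CharZero k] : T_RED1 k := by
  intro m t _ h lam hlam hcond
  set g0 : Ix m t → k := fun x => ∑ i, lam x (xx i 1) (xx i 2) with hg0
  set g1 : Ix m t → k := fun x => ∑ i, lam x (xx i 2) (xx i 0) + ∑ s, lam x (zz s 0) (zz s 1)
    with hg1
  set v : Ix m t → k := fun x => Sum.elim (fun p : Fin m × Fin 3 =>
    ![g1 (xx p.1 2), g0 (xx p.1 2), g0 (xx p.1 1)] p.2)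
    (fun p : Fin t × Fin 2 => ![g1 (zz p.1 1), g1 (zz p.1 0)] p.2) x with hv
  have v0 : ∀ i, v (xx i 0) = g1 (xx i 2) := fun i => rfl
  have v1 : ∀ i, v (xx i 1) = g0 (xx i 2) := fun i => rfl
  have v2 : ∀ i, v (xx i 2) = g0 (xx i 1) := fun i => rfl
  have w0 : ∀ s, v (zz s 0) = g1 (zz s 1) := fun i => rfl
  have w1 : ∀ s, v (zz s 1) = g1 (zz s 0) := fun i => rfl
  set L : Ix m t → Ix m t → Ix m t → k := fun x y z => lam x y z - transl v x y z with hL
  have hLs : ∀ x y z, L x y z = L x z y := by
    intro x y z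
    simp only [hL]
    rw [hlam x y z, transl_symm v x y z]
  have hE : HypE (dat L) := by
    refine Hyp1.hypE ?_
    intro F hF
    obtain ⟨G, hG, hT⟩ := hcond F hF
    refine ⟨_, sol L F (fun x y z => G x y z - v x * F y z) ?_ ?_⟩
    · intro x
      have h1 : G x - v x • F ∈ Fmax1 m t k :=
        Submodule.sub_mem _ (hG x) (Submodule.smul_mem _ _ (Fmin1_le_Fmax1 hF))
      exact h1
    · exact tsym lam v F hF.symm G hT
  have hN : Nrm1 (dat L) := by
    refine ⟨?_, ?_, ?_, ?_, ?_⟩
    · intro s s' b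
      funext x
      exact hLs x _ _
    · intro j
      show ∑ i, (lam (xx j 1) (xx i 1) (xx i 2) - transl v (xx j 1) (xx i 1) (xx i 2)) = 0
      rw [Finset.sum_sub_distrib]
      have h1 : ∑ i, transl v (xx j 1) (xx i 1) (xx i 2 : Ix m t) = g0 (xx j 1) := by
        rw [Finset.sum_eq_single j]
        · simp [transl, v2, xx]
        · intro i _ hi
          simp [transl, xx, hi]
        · intro hh; exact absurd (Finset.mem_univ _) hh
      rw [h1]
      exact sub_self _
    · intro j
      show ∑ i, (lam (xx j 2) (xx i 1) (xx i 2) - transl v (xx j 2) (xx i 1) (xx i 2)) = 0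
      rw [Finset.sum_sub_distrib]
      have h1 : ∑ i, transl v (xx j 2) (xx i 1) (xx i 2 : Ix m t) = g0 (xx j 2) := by
        rw [Finset.sum_eq_single j]
        · simp [transl, v1, xx]
        · intro i _ hi
          simp [transl, xx, hi]
        · intro hh; exact absurd (Finset.mem_univ _) hh
      rw [h1]
      exact sub_self _
    · intro j
      show ∑ i, (lam (xx j 2) (xx i 2) (xx i 0) - transl v (xx j 2) (xx i 2) (xx i 0)) +
        ∑ s, (lam (xx j 2) (zz s 0) (zz s 1) - transl v (xx j 2) (zz s 0) (zz s 1)) = 0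
      rw [Finset.sum_sub_distrib, Finset.sum_sub_distrib]
      have h1 : ∑ i, transl v (xx j 2) (xx i 2) (xx i 0 : Ix m t) = g1 (xx j 2) := by
        rw [Finset.sum_eq_single j]
        · simp [transl, v0, xx]
        · intro i _ hi
          simp [transl, xx, hi]
        · intro hh; exact absurd (Finset.mem_univ _) hh
      have h2 : ∑ s, transl v (xx j 2) (zz s 0) (zz s 1 : Ix m t) = 0 :=
        Finset.sum_eq_zero fun s _ => by simp [transl, xx, zz]
      rw [h1, h2, hg1]
      ring
    · intro s b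
      have h1 : ∀ b, ∑ i, transl v (zz s b) (xx i 2) (xx i 0 : Ix m t) = 0 := fun b =>
        Finset.sum_eq_zero fun s _ => by simp [transl, xx, zz]
      have h2 : ∑ s', transl v (zz s b) (zz s' 0) (zz s' 1 : Ix m t) = g1 (zz s b) := by
        rw [Finset.sum_eq_single s]
        · fin_cases b
          · simp [transl, w1, zz]
          · simp [transl, w0, zz]
        · intro i _ hi
          simp [transl, zz, hi]
        · intro hh; exact absurd (Finset.mem_univ _) hh
      show ∑ i, (lam (zz s b) (xx i 2) (xx i 0) - transl v (zz s b) (xx i 2) (xx i 0)) +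
        ∑ s', (lam (zz s b) (zz s' 0) (zz s' 1) - transl v (zz s b) (zz s' 0) (zz s' 1)) = 0
      rw [Finset.sum_sub_distrib, Finset.sum_sub_distrib, h1, h2, hg1]
      ring
  have hZ := h (dat L) hE hN
  refine ⟨v, fun x => ?_⟩
  show InMax1 (L x)
  exact
    { symm := hLs x
      w := fun i j hij c => hZ.p i j hij c x
      q0 := fun i s => hZ.q i s 0 x
      q1 := fun i s => hZ.q i s 1 x
      e := fun s s' hs b => hZ.e s s' hs b x
      sq := fun y => hZ.s y x
      h0 := hZ.g0 x
      h1 := hZ.g1 x }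

end Pool.Agent.VCC
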