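import Pool.Agent.VCC.RED1

/-!
# VCC-RED2: reduction of the linear condition of chain 2 to normalised data
-/

set_option autoImplicit false

namespace Pool.Agent.VCC

namespace RED2_

open RED1_

variable {k : Type*} [Field k] {m t : ℕ}

/-- the data of a symmetric family of forms -/
def dat (L : Ix m t → Ix m t → Ix m t → k) : Dat2 m t k where
  s2 i a b x := L x (xx i a) (xx i b)
  z2 s a b x := L x (zz s a) (zz s b)
  p i j c x := L x (xx i c) (xx j c) + be k j * L x (xx i (c + 2)) (xx j (c + 1))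
  q i s d x := if d = 0 then L x (xx i 0) (zz s 0) + L x (xx i 1) (zz s 1)
    else L x (xx i 1) (zz s 0) + L x (xx i 2) (zz s 1)
  e s s' b x := L x (zz s b) (zz s' b)

theorem sol (L : Ix m t → Ix m t → Ix m t → k) (F : Ix m t → Ix m t → k)
    (H : Ix m t → Ix m t → Ix m t → k) (hH : ∀ x, InMin1 (H x))
    (hT : TSym (fun x y z => (∑ t, F x t * L t y z) + H x y z)) :
    Sol2 (dat L) F (fun x y z => (∑ t, F x t * L t y z) + H x y z) where
  sym := hT
  s2 x i a b := by
    show (∑ t, F x t * L t (xx i a) (xx i b)) + H x (xx i a) (xx i b) = _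
    rw [(hH x).dx i a b, add_zero]; rfl
  z2 x s a b := by
    show (∑ t, F x t * L t (zz s a) (zz s b)) + H x (zz s a) (zz s b) = _
    rw [(hH x).dz s a b, add_zero]; rfl
  p x i j hij c := by
    show ((∑ t, F x t * L t (xx i c) (xx j c)) + H x (xx i c) (xx j c)) +
      be k j * ((∑ t, F x t * L t (xx i (c + 2)) (xx j (c + 1))) +
        H x (xx i (c + 2)) (xx j (c + 1))) =
      ∑ y, F x y * (L y (xx i c) (xx j c) + be k j * L y (xx i (c + 2)) (xx j (c + 1)))
    have h1 := (hH x).w i j hij c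
    have h2 : ∑ y, F x y * (L y (xx i c) (xx j c) + be k j * L y (xx i (c + 2)) (xx j (c + 1))) =
        (∑ t, F x t * L t (xx i c) (xx j c)) +
        be k j * ∑ t, F x t * L t (xx i (c + 2)) (xx j (c + 1)) := by
      rw [Finset.mul_sum, ← Finset.sum_add_distrib]
      exact Finset.sum_congr rfl fun y _ => by ring
    rw [h2]
    linear_combination h1
  q0 x i s := by
    show ((∑ t, F x t * L t (xx i 0) (zz s 0)) + H x (xx i 0) (zz s 0)) +
      ((∑ t, F x t * L t (xx i 1) (zz s 1)) + H x (xx i 1) (zz s 1)) =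
      ∑ y, F x y * (L y (xx i 0) (zz s 0) + L y (xx i 1) (zz s 1))
    have h1 := (hH x).q0 i s
    have h2 : ∑ y, F x y * (L y (xx i 0) (zz s 0) + L y (xx i 1) (zz s 1)) =
        (∑ t, F x t * L t (xx i 0) (zz s 0)) + ∑ t, F x t * L t (xx i 1) (zz s 1) := by
      rw [← Finset.sum_add_distrib]
      exact Finset.sum_congr rfl fun y _ => by ring
    rw [h2]
    linear_combination h1
  q1 x i s := by
    show ((∑ t, F x t * L t (xx i 1) (zz s 0)) + H x (xx i 1) (zz s 0)) +
      ((∑ t, F x t * L t (xx i 2) (zz s 1)) + H x (xx i 2) (zz s 1)) =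
      ∑ y, F x y * (L y (xx i 1) (zz s 0) + L y (xx i 2) (zz s 1))
    have h1 := (hH x).q1 i s
    have h2 : ∑ y, F x y * (L y (xx i 1) (zz s 0) + L y (xx i 2) (zz s 1)) =
        (∑ t, F x t * L t (xx i 1) (zz s 0)) + ∑ t, F x t * L t (xx i 2) (zz s 1) := by
      rw [← Finset.sum_add_distrib]
      exact Finset.sum_congr rfl fun y _ => by ring
    rw [h2]
    linear_combination h1
  e x s s' hs b := by
    show (∑ t, F x t * L t (zz s b) (zz s' b)) + H x (zz s b) (zz s' b) = _
    rw [(hH x).e s s' hs b, add_zero]; rfl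

end RED2_

open RED1_ RED2_ in
theorem p_RED2 (k : Type*) [Field k] [CharZero k] : T_RED2 k := by
  intro m t _ h lam hlam hcond
  set v : Ix m t → k := fun x => Sum.elim (fun p : Fin m × Fin 3 =>
    lam (xx p.1 (p.2 + 1)) (xx p.1 p.2) (xx p.1 (p.2 + 1)))
    (fun p : Fin t × Fin 2 => lam (zz p.1 (p.2 + 1)) (zz p.1 0) (zz p.1 1)) x with hv
  have vx : ∀ i a, v (xx i a) = lam (xx i (a + 1)) (xx i a) (xx i (a + 1)) := fun i a => rfl
  have vz : ∀ s b, v (zz s b) = lam (zz s (b + 1)) (zz s 0) (zz s 1) := fun s b => rfl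
  set L : Ix m t → Ix m t → Ix m t → k := fun x y z => lam x y z - transl v x y z with hL
  have hLs : ∀ x y z, L x y z = L x z y := by
    intro x y z
    simp only [hL]
    rw [hlam x y z, transl_symm v x y z]
  have hE : HypE2 (RED2_.dat L) := by
    refine Hyp2.hypE ?_
    intro F hF
    obtain ⟨G, hG, hT⟩ := hcond F hF
    refine ⟨_, RED2_.sol L F (fun x y z => G x y z - v x * F y z) ?_ ?_⟩
    · intro x
      have h1 : G x - v x • F ∈ Fmin1 m t k :=
        Submodule.sub_mem _ (hG x) (Submodule.smul_mem _ _ (Fmin2_le_Fmin1 hF))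
      exact h1
    · exact tsym lam v F (InMin2.toInMin1 hF).symm G hT
  have hN : Nrm2 (RED2_.dat L) := by
    refine ⟨?_, ?_, ?_, ?_, ?_, ?_⟩
    · intro s s' b
      funext x
      exact hLs x _ _
    · intro i a b
      funext x
      exact hLs x _ _
    · intro s a b
      funext x
      exact hLs x _ _
    · intro i a
      show lam (xx i (a + 1)) (xx i a) (xx i (a + 1)) -
        transl v (xx i (a + 1)) (xx i a) (xx i (a + 1)) = 0
      have hne : ¬ (xx i a : Ix m t) = xx i (a + 1) := by
        intro hh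
        simp [xx] at hh
      rw [transl, if_pos rfl, if_neg hne, vx]
      ring
    · intro s
      show lam (zz s 1) (zz s 0) (zz s 1) - transl v (zz s 1) (zz s 0) (zz s 1) = 0
      have hne : ¬ (zz s 0 : Ix m t) = zz s 1 := by simp [zz]
      rw [transl, if_pos rfl, if_neg hne, vz]
      have h01 : (0 : Fin 2) + 1 = 1 := rfl
      rw [h01]
      ring
    · intro s
      show lam (zz s 0) (zz s 0) (zz s 1) - transl v (zz s 0) (zz s 0) (zz s 1) = 0
      have hne : ¬ (zz s 1 : Ix m t) = zz s 0 := by simp [zz]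
      rw [transl, if_pos rfl, if_neg hne, vz s 1]
      have h01 : (1 : Fin 2) + 1 = 0 := rfl
      rw [h01]
      ring
  have hZ := h (RED2_.dat L) hE hN
  refine ⟨v, fun x => ?_⟩
  show InMin1 (L x)
  exact
    { symm := hLs x
      w := fun i j hij c => hZ.p i j hij c x
      q0 := fun i s => hZ.q i s 0 x
      q1 := fun i s => hZ.q i s 1 x
      e := fun s s' hs b => hZ.e s s' hs b x
      dx := fun i a b => hZ.s2 i a b x
      dz := fun s a b => hZ.z2 s a b x }

end Pool.Agent.VCC
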