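import Pool.Agent.VCC.Targets

/-!
# VCC-STRUCT: from spaces of functionals to structure constants
-/

set_option autoImplicit false

namespace Pool.Agent.VCC

namespace STRUCT_

variable {k : Type*} [Field k] {n r : ℕ}

/-- a normalised basis -/
theorem exists_basis (𝓕 : Submodule k (Fin n → Fin n → k)) (hr : Module.finrank k 𝓕 = r) :
    ∃ (b : Fin r → Fin n × Fin n) (F : Fin r → Fin n → Fin n → k), (∀ s, F s ∈ 𝓕) ∧
      (∀ s s', F s' (b s).1 (b s).2 = if s = s' then 1 else 0) ∧
      ∀ H ∈ 𝓕, ∀ x y, H x y = ∑ s, H (b s).1 (b s).2 * F s x y := by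
  classical
  -- evaluation functionals
  let ev : Fin n × Fin n → Module.Dual k 𝓕 := fun p =>
    { toFun := fun H => (H : Fin n → Fin n → k) p.1 p.2
      map_add' := fun _ _ => rfl
      map_smul' := fun _ _ => rfl }
  obtain ⟨B, hB1, hB2, hB3⟩ := exists_linearIndependent k (Set.range ev)
  have htop : Submodule.span k (Set.range ev) = ⊤ := by
    by_contra hne
    obtain ⟨f, hf, hf2⟩ := Submodule.exists_le_ker_of_lt_top _ (lt_top_iff_ne_top.mpr hne)
    -- `f` is evaluation at a vector
    obtain ⟨H, rfl⟩ := (Module.evalEquiv k 𝓕).surjective f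
    apply hf
    have h0 : H = 0 := by
      apply Subtype.ext
      funext x y
      have h1 : ev (x, y) ∈ Submodule.span k (Set.range ev) :=
        Submodule.subset_span ⟨(x, y), rfl⟩
      have h2 := hf2 h1
      rw [LinearMap.mem_ker] at h2
      simpa [ev] using h2
    rw [h0, map_zero]
  rw [htop] at hB2
  have hBfin : B.Finite := (Set.finite_range ev).subset hB1
  have : Fintype B := hBfin.fintype
  let bas : Module.Basis B k (Module.Dual k 𝓕) :=
    Module.Basis.mk hB3 (by rw [Subtype.range_coe_subtype, Set.ofPred_mem_eq, hB2])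
  have hcard : Fintype.card B = r := by
    rw [← Module.finrank_eq_card_basis bas, Subspace.dual_finrank_eq, hr]
  let e : Fin r ≃ B := (Fintype.equivFinOfCardEq hcard).symm
  have hb : ∀ s : Fin r, ∃ p, ev p = (e s : Module.Dual k 𝓕) := fun s => hB1 (e s).2
  choose b hb using hb
  -- the evaluation map
  let Φ : 𝓕 →ₗ[k] (Fin r → k) :=
    { toFun := fun H s => (H : Fin n → Fin n → k) (b s).1 (b s).2
      map_add' := fun _ _ => rfl
      map_smul' := fun _ _ => rfl }
  have hinj : Function.Injective Φ := by
    rw [← LinearMap.ker_eq_bot, LinearMap.ker_eq_bot']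
    intro H hH
    have h1 : (Module.evalEquiv k 𝓕 H) = 0 := by
      refine bas.ext fun β => ?_
      have h2 : bas β = (β : Module.Dual k 𝓕) := by simp [bas]
      rw [h2]
      obtain ⟨s, rfl⟩ := e.surjective β
      rw [← hb s]
      have h3 := congrFun hH s
      simpa [Φ, ev] using h3
    exact (Module.evalEquiv k 𝓕).map_eq_zero_iff.mp h1
  have hdim : Module.finrank k 𝓕 = Module.finrank k (Fin r → k) := by
    rw [hr, Module.finrank_fin_fun]
  let Ψ : 𝓕 ≃ₗ[k] (Fin r → k) := LinearEquiv.ofInjectiveOfFinrankEq Φ hinj hdim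
  have hΨ : ∀ H, Ψ H = Φ H := fun H => rfl
  refine ⟨b, fun s => (Ψ.symm (Pi.single s 1) : 𝓕), fun s => (Ψ.symm (Pi.single s 1)).2, ?_, ?_⟩
  · intro s s'
    have h1 : Φ (Ψ.symm (Pi.single s' 1)) s = (Pi.single s' (1 : k) : Fin r → k) s := by
      rw [← hΨ, LinearEquiv.apply_symm_apply]
    have h2 : Φ (Ψ.symm (Pi.single s' 1)) s =
      ((Ψ.symm (Pi.single s' 1) : 𝓕) : Fin n → Fin n → k) (b s).1 (b s).2 := rfl
    have h3 : Φ (Ψ.symm (Pi.single s' 1)) s = if s = s' then 1 else 0 := by
      rw [h1, Pi.single_apply]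
    exact h2.symm.trans h3
  · intro H hH x y
    have h1 : (⟨H, hH⟩ : 𝓕) = ∑ s, H (b s).1 (b s).2 • Ψ.symm (Pi.single s 1) := by
      apply Ψ.injective
      rw [map_sum]
      funext s
      rw [Finset.sum_apply]
      simp only [map_smul, LinearEquiv.apply_symm_apply, Pi.smul_apply, smul_eq_mul]
      rw [Finset.sum_eq_single s]
      · rw [Pi.single_eq_same, mul_one]; rfl
      · intro s' _ hs'
        rw [Pi.single_eq_of_ne (Ne.symm hs'), mul_zero]
      · intro h; exact absurd (Finset.mem_univ _) h
    have h2 := congrArg (fun z : 𝓕 => (z : Fin n → Fin n → k) x y) h1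
    simp only at h2
    rw [h2]
    simp [Finset.sum_apply]

end STRUCT_

open STRUCT_ in
theorem p_STRUCT (k : Type*) [Field k] [CharZero k] : T_STRUCT k := by
  classical
  intro n r 𝓕 hsym hr hNC hT1
  obtain ⟨b, F, hF, hbF, hexp⟩ := exists_basis 𝓕 hr
  have hμ : ∀ i j s, F s i j = F s j i := fun i j s => hsym _ (hF s) i j
  refine ⟨b, fun i j s => F s i j, hμ, hbF, ?_⟩
  intro lam N hSol
  obtain ⟨hs1, hs2⟩ := hSol
  -- apply the linear condition
  obtain ⟨v, hv⟩ := hT1 (fun t y z => lam y z t) (fun t y z => hs1 y z t) (by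
    intro H hH
    refine ⟨fun x => ∑ s, H (b s).1 (b s).2 • ∑ s', N x s s' • F s', ?_, ?_, ?_⟩
    · intro x
      exact Submodule.sum_mem _ fun s _ => Submodule.smul_mem _ _
        (Submodule.sum_mem _ fun s' _ => Submodule.smul_mem _ _ (hF s'))
    · intro x y z
      have key : ∀ x y z, (∑ t, H x t * lam y z t) +
          (∑ s, H (b s).1 (b s).2 • ∑ s', N x s s' • F s') y z =
          ∑ s, H (b s).1 (b s).2 * ((∑ t, lam y z t * F s x t) + ∑ s', N x s s' * F s' y z) := by
        intro x y z
        have h1 : ∑ t, H x t * lam y z t =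
            ∑ s, H (b s).1 (b s).2 * ∑ t, lam y z t * F s x t := by
          simp_rw [Finset.mul_sum]
          rw [Finset.sum_comm]
          refine Finset.sum_congr rfl fun t _ => ?_
          rw [hexp H hH x t, Finset.sum_mul]
          exact Finset.sum_congr rfl fun s _ => by ring
        have h2 : (∑ s, H (b s).1 (b s).2 • ∑ s', N x s s' • F s') y z =
            ∑ s, H (b s).1 (b s).2 * ∑ s', N x s s' * F s' y z := by
          simp [Finset.sum_apply]
        rw [h1, h2, ← Finset.sum_add_distrib]
        exact Finset.sum_congr rfl fun s _ => by ring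
      show (∑ t, H x t * lam y z t) +
          (∑ s, H (b s).1 (b s).2 • ∑ s', N x s s' • F s') y z = (∑ t, H y t * lam x z t) +
          (∑ s, H (b s).1 (b s).2 • ∑ s', N y s s' • F s') x z
      rw [key, key]
      exact Finset.sum_congr rfl fun s _ => by rw [hs2 x y z s]
    · intro x y z
      show (∑ t, H x t * lam y z t) +
          (∑ s, H (b s).1 (b s).2 • ∑ s', N x s s' • F s') y z = (∑ t, H x t * lam z y t) +
          (∑ s, H (b s).1 (b s).2 • ∑ s', N x s s' • F s') z y
      have h1 : ∀ t, lam y z t = lam z y t := fun t => hs1 y z t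
      simp only [h1, Finset.sum_apply, Pi.smul_apply, smul_eq_mul]
      congr 1
      refine Finset.sum_congr rfl fun s _ => ?_
      congr 1
      exact Finset.sum_congr rfl fun s' _ => by rw [hμ y z s'])
  set θ : Fin r → Fin n → k := fun s t => lam (b s).1 (b s).2 t - transl v t (b s).1 (b s).2
    with hθ
  have hlam : ∀ j l t, lam j l t = v j * (if l = t then 1 else 0) +
      v l * (if j = t then 1 else 0) + ∑ s, θ s t * F s j l := by
    intro j l t
    have h1 := hexp _ (hv t) j l
    simp only [transl] at h1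
    have h2 : ∑ s, θ s t * F s j l = lam j l t - (v j * (if l = t then 1 else 0) +
      v l * (if j = t then 1 else 0)) := by
      rw [h1]
      rfl
    rw [h2]; ring
  refine ⟨v, θ, hlam, ?_⟩
  intro i s s'
  set N' : Fin n → Fin r → k := fun x s'' => N x s s'' -
    (v x * (if s = s'' then 1 else 0) - ∑ t, θ s'' t * F s x t) with hN'
  have hT : ∀ x y z, ∑ s'', N' x s'' * F s'' y z = ∑ s'', N' y s'' * F s'' x z := by
    intro x y z
    have hx : ∀ x y, ∑ s'', N' x s'' * F s'' y z = (∑ s'', N x s s'' * F s'' y z) -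
        v x * F s y z + ∑ t, F s x t * ∑ s'', θ s'' t * F s'' y z := by
      intro x y
      have h1 : ∑ t, F s x t * ∑ s'', θ s'' t * F s'' y z =
          ∑ s'', (∑ t, θ s'' t * F s x t) * F s'' y z := by
        simp_rw [Finset.mul_sum, Finset.sum_mul]
        rw [Finset.sum_comm]
        exact Finset.sum_congr rfl fun s'' _ => Finset.sum_congr rfl fun t _ => by ring
      have h2 : v x * F s y z = ∑ s'', (v x * (if s = s'' then 1 else 0)) * F s'' y z := by
        rw [Finset.sum_eq_single s]
        · simp
        · intro s'' _ hs''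
          rw [if_neg (Ne.symm hs'')]; ring
        · intro h; exact absurd (Finset.mem_univ _) h
      rw [h1, h2, ← Finset.sum_sub_distrib, ← Finset.sum_add_distrib]
      refine Finset.sum_congr rfl fun s'' _ => ?_
      simp only [hN']
      ring
    have hl : ∀ x y, ∑ t, lam y z t * F s x t = v y * F s x z + v z * F s x y +
        ∑ t, F s x t * ∑ s'', θ s'' t * F s'' y z := by
      intro x y
      have h1 : v y * F s x z = ∑ t, v y * (if z = t then 1 else 0) * F s x t := by
        rw [Finset.sum_eq_single z]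
        · simp
        · intro t _ ht
          rw [if_neg (Ne.symm ht)]; ring
        · intro h; exact absurd (Finset.mem_univ _) h
      have h2 : v z * F s x y = ∑ t, v z * (if y = t then 1 else 0) * F s x t := by
        rw [Finset.sum_eq_single y]
        · simp
        · intro t _ ht
          rw [if_neg (Ne.symm ht)]; ring
        · intro h; exact absurd (Finset.mem_univ _) h
      rw [h1, h2, ← Finset.sum_add_distrib, ← Finset.sum_add_distrib]
      refine Finset.sum_congr rfl fun t _ => ?_
      rw [hlam y z t]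
      ring
    have h3 := hs2 x y z s
    rw [hl x y, hl y x] at h3
    rw [hx x y, hx y x]
    have h4 := hμ x y s
    linear_combination h3 - v z * h4
  have hzero : ∀ x y z, ∑ s'', N' x s'' * F s'' y z = 0 := by
    refine hNC (fun x y z => ∑ s'', N' x s'' * F s'' y z) ⟨hT, ?_⟩ ?_
    · intro x y z
      exact Finset.sum_congr rfl fun s'' _ => by rw [hμ y z s'']
    · intro x
      have h1 : (fun y z => ∑ s'', N' x s'' * F s'' y z) = ∑ s'', N' x s'' • F s'' := by
        funext y z
        simp [Finset.sum_apply]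
      rw [h1]
      exact Submodule.sum_mem _ fun s'' _ => Submodule.smul_mem _ _ (hF s'')
  have h1 := hzero i (b s').1 (b s').2
  rw [Finset.sum_eq_single s'] at h1
  · rw [hbF, if_pos rfl, mul_one] at h1
    simp only [hN'] at h1
    linear_combination h1
  · intro s'' _ hs''
    rw [hbF, if_neg (Ne.symm hs''), mul_zero]
  · intro h; exact absurd (Finset.mem_univ _) h

end Pool.Agent.VCC
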