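import Pool.Agent.VCC.Targets

/-!
# Job TABC: three different 3-blocks
-/

set_option autoImplicit false

namespace Pool.Agent.VCC

namespace TABC_

variable {m t : ℕ} {k : Type*} [Field k]

/-- The matrix with row `e` equal to `Q` and column `e` equal to `R`. -/
def cr (e : Fin 3) (Q R : Fin 3 → k) (x y : Fin 3) : k :=
  (if x = e then Q y else 0) + (if y = e then R x else 0)

theorem pr_cr (M : Fin 3 → Fin 3 → k) (e : Fin 3) (Q R : Fin 3 → k) :
    pr M (cr e Q R) = ∑ y, M e y * Q y + ∑ x, M x e * R x := by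
  rw [sum_row, sum_col, ← pr_add]
  rfl

/-- The cross lemma. -/
theorem cross {β : k} (hβ : β ≠ 0) {e : Fin 3} {Q R : Fin 3 → k} (h : WL β (cr e Q R)) :
    (∀ x, x ≠ e → Q x = 0 ∧ R x = 0) ∧ Q e + R e = 0 := by
  obtain ⟨⟨h1, h2, h3⟩, ⟨h4, h5, h6⟩⟩ := h
  fin_cases e
  all_goals
    simp [cr, hβ] at h1 h2 h3 h4 h5 h6
    refine ⟨fun x hx => ?_, ?_⟩
    · fin_cases x
      all_goals simp_all
    · simp_all

theorem single {β : k} (hβ : β ≠ 0) {e : Fin 3} {Q : Fin 3 → k} (h : WL β (cr e Q 0)) :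
    ∀ x, Q x = 0 := by
  obtain ⟨h1, h2⟩ := cross hβ h
  intro x
  by_cases hx : x = e
  · subst hx
    simpa using h2
  · exact (h1 x hx).1

variable {φ : Dat m t k}

/-- Sums of contributions which vanish outside the two blocks. -/
theorem sum2 {a b : Fin m} (hab : a ≠ b) {f : Fin m → k} (h : ∀ i, i ≠ a → i ≠ b → f i = 0) :
    ∑ i, f i = f a + f b :=
  Fintype.sum_eq_add a b hab fun x hx => h x hx.1 hx.2

theorem tauP_out {a b j i : Fin m} (hja : j ≠ a) (hjb : j ≠ b) (hia : i ≠ a) (hib : i ≠ b)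
    (M : Fin 3 → Fin 3 → k) (l : Fin 3) : tauP φ (pf a b M) j l i = 0 := by
  unfold tauP
  simp only [ff_pf_other hja hjb, ff_pf_other hia hib]
  simp

theorem tauM_out {a b j i : Fin m} (hja : j ≠ a) (hjb : j ≠ b) (hia : i ≠ a) (hib : i ≠ b)
    (M : Fin 3 → Fin 3 → k) (l : Fin 3) : tauM φ (pf a b M) j l i = 0 := by
  unfold tauM
  simp only [ff_pf_other hja hjb, ff_pf_other hia hib]
  simp

theorem tauD_out {a b j i : Fin m} (hja : j ≠ a) (hjb : j ≠ b) (hia : i ≠ a) (hib : i ≠ b)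
    (M : Fin 3 → Fin 3 → k) (l : Fin 3) : tauD φ (pf a b M) j l i = 0 := by
  unfold tauD
  simp only [ff_pf_other hja hjb, ff_pf_other hia hib]
  simp

/-- The equations at a third block `j`. -/
theorem eqs3 (hE : HypE φ) {a b j : Fin m} (hab : a < b) (hja : j ≠ a) (hjb : j ≠ b)
    {M : Fin 3 → Fin 3 → k} (hM : AdL (be k b) M) :
    (tauP φ (pf a b M) j 2 a + tauP φ (pf a b M) j 2 b = 0) ∧
    (tauP φ (pf a b M) j 0 a + tauP φ (pf a b M) j 0 b = 0) ∧
    (tauM φ (pf a b M) j 1 a + tauM φ (pf a b M) j 1 b = 0) ∧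
    ((tauD φ (pf a b M) j 0 a - tauD φ (pf a b M) j 1 a) +
      (tauD φ (pf a b M) j 0 b - tauD φ (pf a b M) j 1 b) = 0) := by
  have h := hE _ (pf_min1_lt hab hM)
  have h0 := h.A0 j
  have h1 := h.A1 j
  have h2 := h.B0 j
  have h3 := h.C j
  simp only [ff_pf_other hja hjb, ff_pf_z, sub_zero, Finset.sum_const_zero, add_zero,
    zero_add] at h0 h1 h2 h3
  refine ⟨?_, ?_, ?_, ?_⟩
  · rw [← sum2 hab.ne (fun i hi hi' => tauP_out hja hjb hi hi' M 2)]
    exact h0.symm
  · rw [← sum2 hab.ne (fun i hi hi' => tauP_out hja hjb hi hi' M 0)]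
    exact h1.symm
  · rw [← sum2 hab.ne (fun i hi hi' => tauM_out hja hjb hi hi' M 1)]
    exact h2.symm
  · rw [← sum2 (f := fun i => tauD φ (pf a b M) j 0 i - tauD φ (pf a b M) j 1 i) hab.ne
      (fun i hi hi' => by
        rw [tauD_out hja hjb hi hi', tauD_out hja hjb hi hi', sub_zero])]
    exact h3.symm

end TABC_

open TABC_ in
theorem p_TABC (k : Type*) [Field k] [CharZero k] : T_TABC k := by
  intro m t φ hE a b c hab hbc
  have hac : a < c := hab.trans hbc
  have hbb : be k b ≠ 0 := be_ne b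
  have hbc0 : be k c ≠ 0 := be_ne c
  have hkc : (1 + be k c ^ 3) ≠ 0 := be_cube_ne c
  have hkb : (1 + be k b ^ 3) ≠ 0 := be_cube_ne b
  set Q : Fin 3 → Fin 3 → k := fun l e => φ.p a c l (xx b e) with hQ
  set R : Fin 3 → Fin 3 → k := fun l e => φ.p b c l (xx a e) with hR
  set N : Fin 3 → Fin 3 → k := fun l e => φ.p a b l (xx c e) with hN
  -- block `c`, functionals on the pair `a`, `b`
  have ea : ∀ (M : Fin 3 → Fin 3 → k) (x l : Fin 3),
      ff (pf a b M) (xx a x) (φ.p a c l) = ∑ y, M x y * Q l y := fun M x l =>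
    ff_pf_row hab.ne M x _
  have eb : ∀ (M : Fin 3 → Fin 3 → k) (y l : Fin 3),
      ff (pf a b M) (xx b y) (φ.p b c l) = ∑ x, M x y * R l x := fun M y l =>
    ff_pf_col hab.ne M y _
  have ec : ∀ (M : Fin 3 → Fin 3 → k) (y : Fin 3) (u : Ix m t → k),
      ff (pf a b M) (xx c y) u = 0 := fun M y u => ff_pf_other hac.ne' hbc.ne' M y u
  have f21 : (2 + 2 : Fin 3) = 1 := rfl
  have f02 : (0 + 2 : Fin 3) = 2 := rfl
  have f11 : (1 + 1 : Fin 3) = 2 := rfl
  have f12 : (1 + 2 : Fin 3) = 0 := rfl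
  have f20 : (2 + 1 : Fin 3) = 0 := rfl
  have f01 : (0 + 1 : Fin 3) = 1 := rfl
  have w1 : WL (be k b) (cr 1 (Q 2) (R 2)) := by
    apply WL_of
    intro M hM
    have h := (eqs3 hE hab hac.ne' hbc.ne' hM).1
    unfold tauP at h
    rw [if_pos hac, if_pos hbc, f21, ea, eb, ec, ec, mul_zero, sub_zero, sub_zero] at h
    rw [pr_cr]
    exact h
  have w2 : WL (be k b) (cr 2 (Q 0) (R 0)) := by
    apply WL_of
    intro M hM
    have h := (eqs3 hE hab hac.ne' hbc.ne' hM).2.1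
    unfold tauP at h
    rw [if_pos hac, if_pos hbc, f02, ea, eb, ec, ec, mul_zero, sub_zero, sub_zero] at h
    rw [pr_cr]
    exact h
  obtain ⟨c1, c1'⟩ := cross hbb w1
  obtain ⟨c2, c2'⟩ := cross hbb w2
  have w3 : WL (be k b) (cr 2 (Q 2) (R 2) - cr 0 (Q 0) (R 0)) := by
    apply WL_of
    intro M hM
    have h := (eqs3 hE hab hac.ne' hbc.ne' hM).2.2.2
    unfold tauD at h
    rw [if_pos hac, if_pos hac, if_pos hbc, if_pos hbc, f02, f12, ea, ea, eb, eb, ec, ec, ec, ec] at h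
    rw [pr_sub, pr_cr, pr_cr]
    have h' : (be k c)⁻¹ * ((∑ y, M 2 y * Q 2 y + ∑ x, M x 2 * R 2 x) -
        (∑ y, M 0 y * Q 0 y + ∑ x, M x 0 * R 0 x)) = 0 := by
      rw [← h]
      ring
    rcases mul_eq_zero.1 h' with h'' | h''
    · exact absurd h'' (inv_ne_zero hbc0)
    · exact h''
  have z1 : R 2 1 = 0 := by
    have h := w3.1.2.1
    simp [cr] at h
    exact h
  have z2 : R 0 2 = 0 := by
    have h := w3.1.2.2
    have h' := (c1 0 (by decide)).1
    simp [cr, h'] at h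
    exact h
  have hQ2 : ∀ x, Q 2 x = 0 ∧ R 2 x = 0 := by
    intro x
    by_cases hx : x = 1
    · subst hx
      refine ⟨?_, z1⟩
      rw [z1, add_zero] at c1'
      exact c1'
    · exact c1 x hx
  have hQ0 : ∀ x, Q 0 x = 0 ∧ R 0 x = 0 := by
    intro x
    by_cases hx : x = 2
    · subst hx
      refine ⟨?_, z2⟩
      rw [z2, add_zero] at c2'
      exact c2'
    · exact c2 x hx
  have w4 : WL (be k b) (cr 2 (Q 1) (R 1)) := by
    apply WL_of
    intro M hM
    have h := (eqs3 hE hab hac.ne' hbc.ne' hM).2.2.1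
    unfold tauM at h
    rw [if_pos hac, if_pos hbc, f11, f12, ea, ea, ea, eb, eb, eb] at h
    simp only [(hQ2 _).1, (hQ2 _).2, (hQ0 _).1, (hQ0 _).2, mul_zero, Finset.sum_const_zero,
      sub_zero, add_zero] at h
    rw [← mul_add] at h
    rw [pr_cr]
    rcases mul_eq_zero.1 h with h'' | h''
    · exact absurd h'' (inv_ne_zero hkc)
    · exact h''
  obtain ⟨c4, c4'⟩ := cross hbb w4
  -- block `b`, functionals on the pair `a`, `c`
  have ga : ∀ (M : Fin 3 → Fin 3 → k) (x l : Fin 3),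
      ff (pf a c M) (xx a x) (φ.p a b l) = ∑ y, M x y * N l y := fun M x l =>
    ff_pf_row hac.ne M x _
  have gc : ∀ (M : Fin 3 → Fin 3 → k) (y l : Fin 3),
      ff (pf a c M) (xx c y) (φ.p b c l) = ∑ x, M x y * R l x := fun M y l =>
    ff_pf_col hac.ne M y _
  have gb : ∀ (M : Fin 3 → Fin 3 → k) (y : Fin 3) (u : Ix m t → k),
      ff (pf a c M) (xx b y) u = 0 := fun M y u => ff_pf_other hab.ne' hbc.ne M y u
  have hcb : ¬ c < b := not_lt.2 hbc.le
  have w5 : WL (be k c) (cr 1 (N 2) 0 + ((1 + be k c ^ 3)⁻¹ * (- be k c)) • cr 0 0 (R 1)) := by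
    apply WL_of
    intro M hM
    have h := (eqs3 hE hac hab.ne' hbc.ne hM).1
    unfold tauP at h
    rw [if_pos hab, if_neg hcb, if_pos hbc, f21, f20, ga, gb, gc, gc, gc] at h
    simp only [(hQ2 _).2, (hQ0 _).2, mul_zero, Finset.sum_const_zero, sub_zero, add_zero,
      zero_sub] at h
    rw [pr_add, pr_smul, pr_cr, pr_cr]
    simp only [Pi.zero_apply, mul_zero, Finset.sum_const_zero, zero_add, add_zero]
    rw [← h]
    ring
  have z3 : R 1 2 = 0 := by
    have h := w5.1.2.2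
    simp [cr, hkc, hbc0] at h
    exact h
  have hR1 : ∀ x, R 1 x = 0 := by
    intro x
    by_cases hx : x = 2
    · rw [hx]; exact z3
    · exact (c4 x hx).2
  have hQ1 : ∀ x, Q 1 x = 0 := by
    intro x
    by_cases hx : x = 2
    · rw [hx]
      rw [z3, add_zero] at c4'
      exact c4'
    · exact (c4 x hx).1
  have hN2 : ∀ x, N 2 x = 0 := by
    have h : WL (be k c) (cr 1 (N 2) 0) := by
      have e : cr 1 (N 2) 0 + ((1 + be k c ^ 3)⁻¹ * (- be k c)) • cr 0 0 (R 1) =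
          cr 1 (N 2) 0 := by
        funext x y
        simp [cr, hR1]
      rw [← e]
      exact w5
    exact single hbc0 h
  have hN0 : ∀ x, N 0 x = 0 := by
    apply single hbc0 (e := 2)
    apply WL_of
    intro M hM
    have h := (eqs3 hE hac hab.ne' hbc.ne hM).2.1
    unfold tauP at h
    rw [if_pos hab, if_neg hcb, if_pos hbc, f02, f01, ga, gb, gc, gc, gc] at h
    simp only [(hQ2 _).2, (hQ0 _).2, hR1, mul_zero, Finset.sum_const_zero, sub_zero, add_zero] at h
    rw [pr_cr]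
    simp only [Pi.zero_apply, mul_zero, Finset.sum_const_zero, add_zero]
    exact h
  have hN1 : ∀ x, N 1 x = 0 := by
    apply single hbc0 (e := 2)
    apply WL_of
    intro M hM
    have h := (eqs3 hE hac hab.ne' hbc.ne hM).2.2.1
    unfold tauM at h
    rw [if_pos hab, if_neg hcb, if_pos hbc, f11, f12, ga, ga, ga, gb, gc] at h
    simp only [hR1, hN0, hN2, mul_zero, Finset.sum_const_zero, sub_zero, add_zero] at h
    rw [pr_cr]
    simp only [Pi.zero_apply, mul_zero, Finset.sum_const_zero, add_zero]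
    rcases mul_eq_zero.1 h with h'' | h''
    · exact absurd h'' (inv_ne_zero hkb)
    · exact h''
  intro l e
  fin_cases l
  · exact ⟨(hQ0 e).1, (hQ0 e).2, hN0 e⟩
  · exact ⟨hQ1 e, hR1 e, hN1 e⟩
  · exact ⟨(hQ2 e).1, (hQ2 e).2, hN2 e⟩

end Pool.Agent.VCC
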