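import Pool.Agent.VCC.Targets

/-!
# TABZ : the components of type `abZ`
-/

set_option autoImplicit false

namespace Pool.Agent.VCC

namespace TABZ_

variable {m t : ℕ} {k : Type*} [Field k]

/-- cross lemma, `e = 2` -/
theorem cross2 {β : k} (Q R : Fin 3 → k) (hβ : β ≠ 0)
    (h : ∀ M : Fin 3 → Fin 3 → k, AdL β M → (∑ b, M 2 b * Q b) + ∑ a, M a 2 * R a = 0) :
    Q 0 = 0 ∧ Q 1 = 0 ∧ R 0 = 0 ∧ R 1 = 0 := by
  have h1 : WL β ((fun (x y : Fin 3) => if x = 2 then Q y else 0) +
      (fun (x y : Fin 3) => if y = 2 then R x else 0)) := by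
    apply WL_of
    intro M hM
    rw [pr_add, ← sum_row, ← sum_col]
    exact h M hM
  obtain ⟨⟨h2, h3, h4⟩, ⟨h5, h6, h7⟩⟩ := h1
  simp only [Pi.add_apply] at h2 h3 h4 h5 h6 h7
  refine ⟨by simpa using h4, by simpa using h7, by simpa using h5, by simpa using h3⟩

/-- cross lemma, `e = 1` -/
theorem cross1 {β : k} (Q R : Fin 3 → k) (hβ : β ≠ 0)
    (h : ∀ M : Fin 3 → Fin 3 → k, AdL β M → (∑ b, M 1 b * Q b) + ∑ a, M a 1 * R a = 0) :
    Q 2 = 0 ∧ R 2 = 0 := by
  have h1 : WL β ((fun (x y : Fin 3) => if x = 1 then Q y else 0) +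
      (fun (x y : Fin 3) => if y = 1 then R x else 0)) := by
    apply WL_of
    intro M hM
    rw [pr_add, ← sum_row, ← sum_col]
    exact h M hM
  obtain ⟨⟨h2, h3, h4⟩, ⟨h5, h6, h7⟩⟩ := h1
  simp only [Pi.add_apply] at h2 h3 h4 h5 h6 h7
  refine ⟨by simpa using h3, by simpa using h7⟩

/-- both -/
theorem cross {β : k} (Q R : Fin 3 → k) (hβ : β ≠ 0)
    (h : ∀ M : Fin 3 → Fin 3 → k, AdL β M → (∑ b, M 2 b * Q b) + ∑ a, M a 2 * R a = 0)
    (h' : ∀ M : Fin 3 → Fin 3 → k, AdL β M → (∑ b, M 1 b * Q b) + ∑ a, M a 1 * R a = 0) :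
    (∀ e, Q e = 0) ∧ ∀ e, R e = 0 := by
  obtain ⟨a1, a2, a3, a4⟩ := cross2 Q R hβ h
  obtain ⟨b1, b2⟩ := cross1 Q R hβ h'
  constructor
  · intro e
    fin_cases e
    · exact a1
    · exact a2
    · exact b1
  · intro e
    fin_cases e
    · exact a3
    · exact a4
    · exact b2

/-- a single row in the space is zero -/
theorem row2 {u : Fin 2 → k} (h : ∀ M : Fin 3 → Fin 2 → k, AdZ M → ∑ b, M 2 b * u b = 0) :
    ∀ b, u b = 0 := by
  have h1 : WZ (fun (x : Fin 3) (y : Fin 2) => if x = 2 then u y else 0) := by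
    apply WZ_of
    intro M hM
    rw [← sum_row]
    exact h M hM
  obtain ⟨⟨h2, h3⟩, ⟨h4, h5⟩⟩ := h1
  have e0 : u 0 = 0 := by simpa using h2
  have e1 : u 1 = 0 := by
    have h6 : (0 : k) = u 1 := by simpa using h5
    exact h6.symm
  intro b
  fin_cases b
  · exact e0
  · exact e1

/-- a single row in the space is zero -/
theorem row1 {u : Fin 2 → k} (h : ∀ M : Fin 3 → Fin 2 → k, AdZ M → ∑ b, M 1 b * u b = 0) :
    ∀ b, u b = 0 := by
  have h1 : WZ (fun (x : Fin 3) (y : Fin 2) => if x = 1 then u y else 0) := by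
    apply WZ_of
    intro M hM
    rw [← sum_row]
    exact h M hM
  obtain ⟨⟨h2, h3⟩, ⟨h4, h5⟩⟩ := h1
  have e0 : u 0 = 0 := by simpa using h5
  have e1 : u 1 = 0 := by
    have h6 : (0 : k) = u 1 := by simpa using h4
    exact h6.symm
  intro b
  fin_cases b
  · exact e0
  · exact e1

end TABZ_

open TABZ_ in
theorem p_TABZ (k : Type*) [Field k] [CharZero k] : T_TABZ k := by
  intro m t φ hE a b s hab
  have hq1 : (∀ e, φ.q a s 1 (xx b e) = 0) ∧ ∀ e, φ.q b s 1 (xx a e) = 0 := by
    apply cross (fun e => φ.q a s 1 (xx b e)) (fun e => φ.q b s 1 (xx a e)) (be_ne b)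
    · intro M hM
      have e := (hE _ (pf_min1_lt hab hM)).Z1 s
      rw [ff_pf_z, Fintype.sum_eq_add a b hab.ne] at e
      · rw [ff_pf_z, ff_pf_z, ff_pf_row hab.ne, ff_pf_col hab.ne] at e
        linear_combination -e
      · rintro i ⟨h1, h2⟩
        rw [ff_pf_z, ff_pf_other h1 h2, sub_zero]
    · intro M hM
      have e := (hE _ (pf_min1_lt hab hM)).Z2 s
      rw [ff_pf_z, Fintype.sum_eq_add a b hab.ne] at e
      · rw [ff_pf_z, ff_pf_z, ff_pf_row hab.ne, ff_pf_col hab.ne] at e
        linear_combination -e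
      · rintro i ⟨h1, h2⟩
        rw [ff_pf_z, ff_pf_other h1 h2, sub_zero]
  obtain ⟨hq1a, hq1b⟩ := hq1
  have hq0 : (∀ e, φ.q a s 0 (xx b e) = 0) ∧ ∀ e, φ.q b s 0 (xx a e) = 0 := by
    apply cross (fun e => φ.q a s 0 (xx b e)) (fun e => φ.q b s 0 (xx a e)) (be_ne b)
    · intro M hM
      have e := (hE _ (pf_min1_lt hab hM)).Z3 s
      have e2 : (∑ s', if s = s' then (0 : k) else
          ff (pf a b M : Ix m t → Ix m t → k) (zz s' 1) (φ.e s s' 0)) = 0 := by
        apply Finset.sum_eq_zero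
        intro s' _
        rw [ff_pf_z, ite_self]
      rw [e2, ff_pf_z, ff_pf_z, Fintype.sum_eq_add a b hab.ne] at e
      · rw [ff_pf_z, ff_pf_z, ff_pf_row hab.ne, ff_pf_col hab.ne, ff_pf_row hab.ne,
          ff_pf_col hab.ne] at e
        simp only [hq1a, hq1b, mul_zero, Finset.sum_const_zero, sub_zero, add_zero] at e
        exact e.symm
      · rintro i ⟨h1, h2⟩
        rw [ff_pf_z, ff_pf_other h1 h2, ff_pf_other h1 h2, sub_zero, add_zero]
    · intro M hM
      have e := (hE _ (pf_min1_lt hab hM)).Z4 s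
      have e2 : (∑ s', if s = s' then (0 : k) else
          ff (pf a b M : Ix m t → Ix m t → k) (zz s' 0) (φ.e s s' 1)) = 0 := by
        apply Finset.sum_eq_zero
        intro s' _
        rw [ff_pf_z, ite_self]
      rw [e2, ff_pf_z, ff_pf_z, Fintype.sum_eq_add a b hab.ne] at e
      · rw [ff_pf_z, ff_pf_z, ff_pf_row hab.ne, ff_pf_col hab.ne, ff_pf_row hab.ne,
          ff_pf_col hab.ne] at e
        simp only [hq1a, hq1b, mul_zero, Finset.sum_const_zero, sub_zero, add_zero, zero_sub] at e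
        linear_combination e
      · rintro i ⟨h1, h2⟩
        rw [ff_pf_z, ff_pf_other h1 h2, ff_pf_other h1 h2, sub_zero, add_zero]
  obtain ⟨hq0a, hq0b⟩ := hq0
  have hp2 : ∀ d, φ.p a b 2 (zz s d) = 0 := by
    apply row1
    intro M hM
    have e := (hE _ (pz_min1 a s hM)).A0 b
    rw [ff_pz_other hab.ne', ff_pz_other hab.ne', Finset.sum_eq_single a] at e
    · unfold tauP at e
      rw [if_pos hab, ff_pz_other hab.ne'] at e
      have h3 : (2 : Fin 3) + 2 = 1 := rfl
      rw [h3, ff_pz_row] at e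
      linear_combination -e
    · intro i _ hi
      unfold tauP
      rw [ff_pz_other hi, ff_pz_other hi, ff_pz_other hi, ff_pz_other hi, ff_pz_other hab.ne']
      simp
    · intro h
      exact absurd (Finset.mem_univ a) h
  have hp0 : ∀ d, φ.p a b 0 (zz s d) = 0 := by
    apply row2
    intro M hM
    have e := (hE _ (pz_min1 a s hM)).A1 b
    have e2 : (∑ s', (ff (pz a s M : Ix m t → Ix m t → k) (zz s' 1) (φ.q b s' 0) -
        ff (pz a s M : Ix m t → Ix m t → k) (xx b 1) (φ.s (zz s' 1)))) = 0 := by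
      apply Finset.sum_eq_zero
      intro s' _
      rw [ff_pz_other hab.ne', sub_zero]
      by_cases h : s' = s
      · subst h
        rw [ff_pz_col]
        simp only [hq0b, mul_zero, Finset.sum_const_zero]
      · rw [ff_pz_other' a h]
    rw [e2, ff_pz_other hab.ne', ff_pz_other hab.ne', Finset.sum_eq_single a] at e
    · unfold tauP at e
      rw [if_pos hab, ff_pz_other hab.ne'] at e
      have h3 : (0 : Fin 3) + 2 = 2 := rfl
      rw [h3, ff_pz_row] at e
      linear_combination -e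
    · intro i _ hi
      unfold tauP
      rw [ff_pz_other hi, ff_pz_other hi, ff_pz_other hi, ff_pz_other hi, ff_pz_other hab.ne']
      simp
    · intro h
      exact absurd (Finset.mem_univ a) h
  have hp1 : ∀ d, φ.p a b 1 (zz s d) = 0 := by
    apply row2
    intro M hM
    have e := (hE _ (pz_min1 a s hM)).B0 b
    rw [ff_pz_other hab.ne', ff_pz_other hab.ne', Finset.sum_eq_single a] at e
    · unfold tauM at e
      rw [if_pos hab] at e
      have h3 : (1 : Fin 3) + 1 = 2 := rfl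
      have h4 : (1 : Fin 3) + 2 = 0 := rfl
      rw [h3, h4, ff_pz_row, ff_pz_row, ff_pz_row] at e
      simp only [hp2, hp0, mul_zero, Finset.sum_const_zero, sub_zero, add_zero, zero_add] at e
      have h5 := be_cube_ne (k := k) b
      have h6 := e.symm
      rw [mul_eq_zero] at h6
      rcases h6 with h6 | h6
      · exact absurd h6 (inv_ne_zero h5)
      · exact h6
    · intro i _ hi
      unfold tauM
      rw [ff_pz_other hi, ff_pz_other hi, ff_pz_other hi, ff_pz_other hi, ff_pz_other hab.ne']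
      simp
    · intro h
      exact absurd (Finset.mem_univ a) h
  refine ⟨?_, ?_, ?_⟩
  · intro l d
    fin_cases l
    · exact hp0 d
    · exact hp1 d
    · exact hp2 d
  · intro d e
    fin_cases d
    · exact hq0a e
    · exact hq1a e
  · intro d e
    fin_cases d
    · exact hq0b e
    · exact hq1b e

end Pool.Agent.VCC
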