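import Pool.Agent.VCC.Targets

/-!
# Type `aZZ'`
-/

set_option autoImplicit false

namespace Pool.Agent.VCC

namespace TAZZ_

variable {m t : ℕ} {k : Type*} [Field k] {φ : Dat m t k}

/-- the values on the products of variables of two 2-blocks -/
theorem e_pair (hE : HypE φ) (a : Fin m) {s s' : Fin t} (hs : s ≠ s') (b : Fin 2)
    {M : Fin 3 → Fin 2 → k} (hM : AdZ M) : ∑ x, M x b * φ.e s s' b (xx a x) = 0 := by
  have h := (hE _ (pz_min1 a s hM)).u s s' hs b
  rw [ff_pz_col, ff_pz_other' a hs.symm] at h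
  exact h

theorem e_zero (hE : HypE φ) (a : Fin m) {s s' : Fin t} (hs : s ≠ s') (b : Fin 2) (x : Fin 3) :
    φ.e s s' b (xx a x) = 0 := by
  have h := WZ_of (X := fun x y => if y = b then φ.e s s' b (xx a x) else 0) (fun M hM => by
    rw [← sum_col]; exact e_pair hE a hs b hM)
  obtain ⟨⟨h1, h2⟩, h3, h4⟩ := h
  fin_cases b <;> fin_cases x <;> simp_all

theorem row_zero {u : Fin 2 → k}
    (h : ∀ M : Fin 3 → Fin 2 → k, AdZ M → ∑ y, M 2 y * u y = 0) (y : Fin 2) : u y = 0 := by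
  have h := WZ_of (X := fun x y => if x = 2 then u y else 0) (fun M hM => by
    rw [← sum_row]; exact h M hM)
  obtain ⟨⟨h1, h2⟩, h3, h4⟩ := h
  fin_cases y <;> simp_all

theorem q1_zero (hE : HypE φ) (a : Fin m) {s s' : Fin t} (hs : s ≠ s') (y : Fin 2) :
    φ.q a s 1 (zz s' y) = 0 := by
  refine row_zero (u := fun y => φ.q a s 1 (zz s' y)) (fun M hM => ?_) y
  have h := (hE _ (pz_min1 a s' hM)).Z1 s
  rw [ff_pz_other' a hs, Finset.sum_eq_single a] at h
  · rw [ff_pz_row, ff_pz_other' a hs] at h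
    linear_combination -h
  · intro i _ hi
    rw [ff_pz_other hi, ff_pz_other' a hs, sub_zero]
  · simp

theorem q0_zero (hE : HypE φ) (a : Fin m) {s s' : Fin t} (hs : s ≠ s') (y : Fin 2) :
    φ.q a s 0 (zz s' y) = 0 := by
  refine row_zero (u := fun y => φ.q a s 0 (zz s' y)) (fun M hM => ?_) y
  have h := (hE _ (pz_min1 a s' hM)).Z3 s
  have h2 : ∀ s'', (if s = s'' then 0 else ff (pz a s' M) (zz s'' 1) (φ.e s s'' 0)) = 0 := by
    intro s''
    split_ifs with h3
    · rfl
    · by_cases h4 : s'' = s'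
      · subst h4
        rw [ff_pz_col]
        exact Finset.sum_eq_zero fun x _ => by rw [e_zero hE a h3, mul_zero]
      · exact ff_pz_other' a h4 _ _ _
  rw [Finset.sum_eq_zero (fun s'' _ => h2 s''), ff_pz_other' a hs, ff_pz_other' a hs,
    Finset.sum_eq_single a] at h
  · rw [ff_pz_row, ff_pz_row, ff_pz_other' a hs] at h
    have h5 : ∑ b, M 1 b * φ.q a s 1 (zz s' b) = 0 :=
      Finset.sum_eq_zero fun x _ => by rw [q1_zero hE a hs, mul_zero]
    rw [h5] at h
    linear_combination -h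
  · intro i _ hi
    rw [ff_pz_other hi, ff_pz_other hi, ff_pz_other' a hs]
    ring
  · simp

end TAZZ_

theorem p_TAZZ (k : Type*) [Field k] [CharZero k] : T_TAZZ k := by
  intro m t φ hE a s s' hs
  refine ⟨fun d b => ?_, fun b e => TAZZ_.e_zero hE a hs b e⟩
  fin_cases d
  · exact TAZZ_.q0_zero hE a hs b
  · exact TAZZ_.q1_zero hE a hs b

end Pool.Agent.VCC
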