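import Pool.Agent.VCC.Targets

/-!
# TC: chain 1, the type `T_c`
-/

set_option autoImplicit false

namespace Pool.Agent.VCC

namespace TC_

variable {m t : ℕ} {k : Type*} [Field k]

theorem sHi_zero (j : Fin m) (w : Fin m → k) (S : Fin m → Fin 3 → Fin 3 → k)
    (h : ∀ i, j < i → S i = 0) : sHi j w S = 0 := by
  funext l b
  unfold sHi
  refine Finset.sum_eq_zero fun i _ => ?_
  split
  · rename_i hi
    rw [h i hi]
    simp
  · rfl

/-- The values at the blocks after `c`. -/
theorem up [CharZero k] (h2 : T_EQG k) (h4 : T_GTA k) (φ : Dat m t k) (hE : HypE φ)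
    (hN : Nrm1 φ) (c : Fin m) (hz : ∀ s b a, φ.s (zz s b) (xx c a) = 0) :
    ∀ n : ℕ, ∀ j : Fin m, c < j → m - (j : ℕ) ≤ n →
      (fun b => φ.g0 (xx c b)) = 0 ∧ (fun b => φ.g1 (xx c b)) = 0 ∧ Sc φ c j = 0 ∧
      sLo j (Sc φ c) = 0 ∧ (fun l a => φ.p c j l (xx j a)) = 0 := by
  intro n
  induction n with
  | zero =>
    intro j _ hn
    have := j.2
    omega
  | succ n ih =>
    intro j hj hn
    obtain ⟨e1, e2, e3, e4, e5⟩ := h2 m t φ hE c hz j hj
    have hs : ∀ i, j < i → Sc φ c i = 0 := by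
      intro i hi
      have hi' : (j : ℕ) < i := hi
      exact (ih i (hj.trans hi) (by omega)).2.2.1
    rw [sHi_zero j _ _ hs] at e3 e4 e5
    exact h4 (be k j) _ _ _ _ _ (be_ne j) (be_cube_ne j) (hN.n1 c) (hN.n2 c) (hN.n3 c)
      e1 e2 e3 e4 e5

end TC_

theorem p_TC (k : Type*) [Field k] [CharZero k] (h1 : T_ZET k) (h2 : T_EQG k) (h3 : T_EQL k)
    (h4 : T_GTA k) (h5 : T_LTA k) : T_TC k := by
  intro m t φ hm hE hN c
  have hz := h1 m t φ hm hE c
  have hup := fun (j : Fin m) (hj : c < j) => TC_.up h2 h4 φ hE hN c hz (m - (j : ℕ)) j hj le_rfl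
  by_cases hc : (c : ℕ) = 0
  · -- the first block
    have hj : c < (⟨1, by omega⟩ : Fin m) := by
      rw [Fin.lt_def, hc]
      exact Nat.zero_lt_one
    obtain ⟨a1, a2, a3, a4, a5⟩ := hup _ hj
    have hc0 : Sc φ c c = 0 := by
      rw [← a4]
      funext l b
      unfold sLo
      rw [Finset.sum_eq_single c]
      · rw [if_pos hj]
      · intro i _ hi
        refine if_neg fun h => hi (Fin.ext ?_)
        have h' : (i : ℕ) < 1 := h
        omega
      · intro h
        exact absurd (Finset.mem_univ c) h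
    refine ⟨?_, fun b => congrFun a1 b, fun b => congrFun a2 b, ?_, ?_⟩
    · intro i l b
      have hi : Sc φ c i = 0 := by
        rcases Nat.lt_or_ge (c : ℕ) i with h | h
        · exact (hup i h).2.2.1
        · have : i = c := Fin.ext (by omega)
          rw [this, hc0]
      exact congrFun (congrFun hi l) b
    · intro j hj l a
      exact congrFun (congrFun (hup j hj).2.2.2.2 l) a
    · intro j hj
      have h' : (j : ℕ) < c := hj
      omega
  · have hlo := fun (j : Fin m) (hj : j < c) => h3 m t φ hE c hz j hj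
    obtain ⟨b1, b2, b3, b4⟩ := h5 m (be k) c (fun b => φ.g0 (xx c b)) (fun b => φ.g1 (xx c b))
      (Sc φ c) (fun j l a => φ.p j c l (xx j a)) be_ne be_cube_ne (Nat.pos_of_ne_zero hc)
      (hN.n1 c) (hN.n2 c) (hN.n3 c) (fun i hi => (hup i hi).2.2.1) hlo
    refine ⟨fun i l b => congrFun (congrFun (b3 i) l) b, fun b => congrFun b1 b,
      fun b => congrFun b2 b, ?_, ?_⟩
    · intro j hj l a
      exact congrFun (congrFun (hup j hj).2.2.2.2 l) a
    · intro j hj l a
      exact congrFun (congrFun (b4 j hj) l) a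

end Pool.Agent.VCC
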