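import Pool.Agent.VCC.Targets

/-!
# TCZ : the values on the mixed generators have no component in the 2-block
-/

set_option autoImplicit false

namespace Pool.Agent.VCC

namespace TCZ_

variable {m t : ℕ} {k : Type*} [Field k]

/-- a single row in the space is zero -/
theorem row2 {u : Fin 2 → k} (h : ∀ M : Fin 3 → Fin 2 → k, AdZ M → ∑ b, M 2 b * u b = 0) :
    ∀ b, u b = 0 := by
  have h1 : WZ (fun (x : Fin 3) (y : Fin 2) => if x = 2 then u y else 0) := by
    apply WZ_of
    intro M hM
    rw [← sum_row]
    exact h M hM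
  obtain ⟨⟨h2, h3⟩, ⟨h4, h5⟩⟩ := h1
  have e0 : u 0 = 0 := by simpa using h2
  have e1 : u 1 = 0 := by
    have h6 : (0 : k) = u 1 := by simpa using h5
    exact h6.symm
  intro b
  fin_cases b
  · exact e0
  · exact e1

end TCZ_

theorem p_TCZ (k : Type*) [Field k] [CharZero k] (h1 : T_ZET k) (h2 : T_TC k) : T_TCZ k := by
  intro m t φ hm hE hN c s
  obtain ⟨hs, hg0, hg1, -, -⟩ := h2 m t φ hm hE hN c
  have hz := h1 m t φ hm hE c
  have q1 : ∀ b, φ.q c s 1 (zz s b) = 0 := by
    apply TCZ_.row2
    intro M hM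
    have e := (hE _ (pz_min1 c s hM)).Z1 s
    rw [Finset.sum_eq_single c] at e
    · rw [ff_pz_row, ff_pz_col, ff_pz_col] at e
      simp only [hs, hg0, mul_zero, Finset.sum_const_zero, sub_zero] at e
      exact e.symm
    · intro i _ hi
      rw [ff_pz_other hi, ff_pz_col]
      simp only [hs, mul_zero, Finset.sum_const_zero, sub_zero]
    · intro h
      exact absurd (Finset.mem_univ c) h
  have q0 : ∀ b, φ.q c s 0 (zz s b) = 0 := by
    apply TCZ_.row2
    intro M hM
    have e := (hE _ (pz_min1 c s hM)).Z3 s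
    have e2 : (∑ s', if s = s' then (0 : k) else
        ff (pz c s M : Ix m t → Ix m t → k) (zz s' 1) (φ.e s s' 0)) = 0 := by
      apply Finset.sum_eq_zero
      intro s' _
      by_cases h : s = s'
      · rw [if_pos h]
      · rw [if_neg h, ff_pz_other' c (fun h' => h h'.symm)]
    rw [e2, Finset.sum_eq_single c] at e
    · rw [ff_pz_row, ff_pz_row, ff_pz_col, ff_pz_col, ff_pz_col] at e
      simp only [hs, hg1, hz, q1, mul_zero, Finset.sum_const_zero, sub_zero, add_zero] at e
      exact e.symm
    · intro i _ hi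
      rw [ff_pz_other hi, ff_pz_other hi, ff_pz_col]
      simp only [hs, mul_zero, Finset.sum_const_zero, sub_zero, add_zero]
    · intro h
      exact absurd (Finset.mem_univ c) h
  intro d b
  fin_cases d
  · exact q0 b
  · exact q1 b

end Pool.Agent.VCC
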