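import Pool.Agent.VCC.Targets

/-!
# Transport of a space of functionals along an equivalence (TRANSP)
-/

set_option autoImplicit false

namespace Pool.Agent.VCC

namespace TRANSP_

variable (k : Type*) [Field k] {ι : Type} {n : ℕ}

/-- The linear equivalence induced by `e` on square arrays. -/
def E (e : ι ≃ Fin n) : (Fin n → Fin n → k) ≃ₗ[k] (ι → ι → k) where
  toFun G x y := G (e x) (e y)
  invFun F x y := F (e.symm x) (e.symm y)
  map_add' _ _ := rfl
  map_smul' _ _ := rfl
  left_inv G := by
    funext x y
    simp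
  right_inv F := by
    funext x y
    simp

theorem E_apply (e : ι ≃ Fin n) (G : Fin n → Fin n → k) (x y : ι) :
    E k e G x y = G (e x) (e y) := rfl

theorem E_symm_apply (e : ι ≃ Fin n) (F : ι → ι → k) (x y : Fin n) :
    (E k e).symm F x y = F (e.symm x) (e.symm y) := rfl

theorem transl_e [DecidableEq ι] (e : ι ≃ Fin n) (v : ι → k) (t : Fin n) (y z : ι) :
    transl (fun i => v (e.symm i)) t (e y) (e z) = transl v (e.symm t) y z := by
  have h : ∀ a : ι, (e a = t) ↔ (a = e.symm t) := fun a => by
    rw [Equiv.eq_symm_apply]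
  simp only [transl, Equiv.symm_apply_apply, h]

end TRANSP_

open TRANSP_ in
/-- Transport to `Fin n`. -/
theorem p_TRANSP (k : Type*) [Field k] [CharZero k] : T_TRANSP k := by
  intro ι _ _ n e 𝓕 hs hc h1
  refine ⟨𝓕.comap (E k e).toLinearMap, ?_, ?_, ?_, ?_⟩
  · intro F hF x y
    have h := hs _ (Submodule.mem_comap.1 hF) (e.symm x) (e.symm y)
    simpa only [LinearEquiv.coe_coe, E_apply, Equiv.apply_symm_apply] using h
  · have h := LinearEquiv.finrank_map_eq (E k e).symm 𝓕
    have h2 : 𝓕.comap (E k e).toLinearMap = 𝓕.map (E k e).symm.toLinearMap := by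
      rw [Submodule.map_equiv_eq_comap_symm]
      rfl
    rw [h2]
    exact h
  · intro T hT hm x y z
    have h := hc (fun x y z => T (e x) (e y) (e z))
      ⟨fun x y z => hT.1 _ _ _, fun x y z => hT.2 _ _ _⟩
      (fun x => Submodule.mem_comap.1 (hm (e x))) (e.symm x) (e.symm y) (e.symm z)
    simpa only [Equiv.apply_symm_apply] using h
  · intro lam hl hF
    obtain ⟨v, hv⟩ := h1 (fun x y z => lam (e x) (e y) (e z)) (fun t y z => hl _ _ _) (by
      intro F hF0
      obtain ⟨G, hG1, hG2⟩ := hF ((E k e).symm F) (by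
        rw [Submodule.mem_comap, LinearEquiv.coe_coe, LinearEquiv.apply_symm_apply]
        exact hF0)
      refine ⟨fun x => E k e (G (e x)), fun x => Submodule.mem_comap.1 (hG1 (e x)), ?_⟩
      have key : ∀ x y z : ι, (∑ t, F x t * lam (e t) (e y) (e z)) + E k e (G (e x)) y z =
          (∑ t, (E k e).symm F (e x) t * lam t (e y) (e z)) + G (e x) (e y) (e z) := by
        intro x y z
        congr 1
        rw [← Equiv.sum_comp e]
        refine Finset.sum_congr rfl fun t _ => ?_
        rw [E_symm_apply, Equiv.symm_apply_apply, Equiv.symm_apply_apply]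
      refine ⟨fun x y z => ?_, fun x y z => ?_⟩
      · simp only [key]
        exact hG2.1 _ _ _
      · simp only [key]
        exact hG2.2 _ _ _)
    refine ⟨fun i => v (e.symm i), fun t => ?_⟩
    have h := hv (e.symm t)
    rw [Submodule.mem_comap]
    convert h using 1
    funext y z
    show lam t (e y) (e z) - transl (fun i => v (e.symm i)) t (e y) (e z) = _
    rw [transl_e, Equiv.apply_symm_apply]

end Pool.Agent.VCC
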