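import Pool.Agent.VCC.Targets

/-!
# The very compressed algebra with given normalised structure constants
-/

set_option autoImplicit false

namespace Pool.Agent.VCC

open MvPolynomial HilbPts Matrix

theorem p_VALS (k : Type*) [Field k] [CharZero k] : T_VALS k := by
  intro n r e b μ hsym hnrm
  classical
  let g : Fin r → Fin n → Fin n → k := fun s i j => μ i j s
  have hg : ∀ s i j, g s i j = g s j i := fun s i j => hsym i j s
  have hgb : ∀ s s', g s (b s').1 (b s').2 = if s' = s then 1 else 0 := fun s s' => hnrm s' s
  obtain ⟨P, h1, h2, -⟩ := exists_vc e 0 g hg (by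
    intro x
    refine ⟨fun u w => ∑ s, if ((b s).1 = u ∧ (b s).2 = w) then x s else 0, fun s => ?_⟩
    simp only [Finset.sum_mul]
    have : ∀ u w : Fin n, ∑ i, (if (b i).1 = u ∧ (b i).2 = w then x i else 0) * g s u w =
        ∑ i, if (b i).1 = u then (if (b i).2 = w then x i * g s u w else 0) else 0 := by
      intro u w
      refine Finset.sum_congr rfl fun i _ => ?_
      split_ifs <;> simp_all
    simp only [this]
    have h3 : ∀ u : Fin n, ∑ w, ∑ i, (if (b i).1 = u then
        (if (b i).2 = w then x i * g s u w else 0) else 0) =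
        ∑ i, if (b i).1 = u then x i * g s u (b i).2 else 0 := by
      intro u
      rw [Finset.sum_comm]
      refine Finset.sum_congr rfl fun i _ => ?_
      by_cases h : (b i).1 = u <;> simp [h]
    simp only [h3]
    rw [Finset.sum_comm]
    simp [hgb])
  refine ⟨P, h1, ?_⟩
  have hth : ∀ (b : Fin r → Fin n × Fin n) (a c' : Unit ⊕ Fin n ⊕ Fin r),
      P.basis (Ideal.Quotient.mk _ (mon b c')) (e.symm a) = vcTheta 0 g (mon b c') a := by
    intro b a c'
    rw [h2, Equiv.apply_symm_apply]
  have hq : ∀ (i j : Fin n) (a : Unit ⊕ Fin n ⊕ Fin r),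
      vcTheta (0 : Fin n → k) g (X i * X j) a =
        (Sum.elim (fun _ => 0) (Sum.elim (fun _ => 0) fun s => g s i j) :
          Unit ⊕ Fin n ⊕ Fin r → k) a := by
    intro i j a
    rcases a with a | l | s
    · simp [vcTheta]
    · simp [vcTheta, D1_mul]
    · simp only [vcTheta, LinearMap.coe_mk, AddHom.coe_mk, D2_mul, D1_X, D2_X, eval_X,
        Pi.zero_apply, Sum.elim_inr]
      have e1 : ∀ a b : Fin n, 2⁻¹ * (0 * 0 + (if i = a then 1 else 0) * (if j = b then 1 else 0) +
          (if i = b then 1 else 0) * (if j = a then 1 else 0) + 0 * 0) * g s a b =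
          (if i = a then (if j = b then 2⁻¹ * g s a b else 0) else 0) +
          (if j = a then (if i = b then 2⁻¹ * g s a b else 0) else 0) := by
        intro a b
        split_ifs <;> ring
      simp only [e1, Finset.sum_add_distrib]
      have e2 : ∀ (i j : Fin n), ∑ a, ∑ b, (if i = a then (if j = b then 2⁻¹ * g s a b else 0)
          else 0) = 2⁻¹ * g s i j := by
        intro i j
        rw [Finset.sum_eq_single i]
        · simp
        · intro x _ hx
          simp [hx.symm]
        · simp
      rw [e2, e2, hg s j i, ← two_mul, ← mul_assoc, mul_inv_cancel₀ two_ne_zero, one_mul]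
  have hlow : ∀ (b : Fin r → Fin n × Fin n) (a : Unit ⊕ Fin n ⊕ Fin r),
      (vcTheta (0 : Fin n → k) g (mon b (Sum.inl ())) a =
        (1 : Matrix (Unit ⊕ Fin n ⊕ Fin r) (Unit ⊕ Fin n ⊕ Fin r) k) a (Sum.inl ())) ∧
      ∀ i, vcTheta (0 : Fin n → k) g (mon b (Sum.inr (Sum.inl i))) a =
        (1 : Matrix (Unit ⊕ Fin n ⊕ Fin r) (Unit ⊕ Fin n ⊕ Fin r) k) a (Sum.inr (Sum.inl i)) := by
    intro b a
    constructor
    · rw [mon, vcTheta_one, Matrix.one_apply, Pi.single_apply]
    · intro i
      rw [mon]
      rcases a with a | j | s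
      · simp [vcTheta]
      · simp [vcTheta, D1_X, Matrix.one_apply, eq_comm]
      · simp [vcTheta, D2_X]
  constructor
  · rw [delta]
    convert Matrix.det_one (R := k) (n := Unit ⊕ Fin n ⊕ Fin r) using 2
    ext a c'
    rw [Matrix.of_apply, hth]
    rcases c' with ⟨⟩ | i | s
    · exact (hlow _ a).1
    · exact (hlow _ a).2 i
    · rw [mon, hq]
      rcases a with a | j | s'
      · simp
      · simp
      · simp only [Sum.elim_inr, hgb, Matrix.one_apply, Sum.inr.injEq]
        simp only [eq_comm]
  · intro i j s
    rw [delta]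
    have hcr : (Matrix.of fun a c' : Unit ⊕ Fin n ⊕ Fin r =>
        P.basis (Ideal.Quotient.mk _ (mon (Function.update b s (i, j)) c')) (e.symm a)) =
        (1 : Matrix (Unit ⊕ Fin n ⊕ Fin r) (Unit ⊕ Fin n ⊕ Fin r) k).updateCol
          (Sum.inr (Sum.inr s)) (Sum.elim (fun _ => 0) (Sum.elim (fun _ => 0)
            fun s' => μ i j s')) := by
      ext a c'
      rw [Matrix.of_apply, hth, Matrix.updateCol_apply]
      rcases c' with ⟨⟩ | i' | s'
      · rw [if_neg (by simp)]
        exact (hlow _ a).1
      · rw [if_neg (by simp)]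
        exact (hlow _ a).2 i'
      · rw [mon, hq]
        by_cases hss : s' = s
        · subst hss
          rw [if_pos rfl]
          rcases a with a | j' | s''
          · simp
          · simp
          · simp only [Sum.elim_inr, Function.update_self]
            rfl
        · rw [if_neg (by simpa using hss)]
          rcases a with a | j' | s''
          · simp
          · simp
          · simp only [Sum.elim_inr, Function.update_of_ne hss, hgb, Matrix.one_apply,
              Sum.inr.injEq]
            simp only [eq_comm]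
    rw [hcr, ← Matrix.cramer_apply, Matrix.cramer_one]
    rfl

end Pool.Agent.VCC
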