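import Pool.Agent.VCC.Targets

/-!
# Chain 1: all the data vanish
-/

set_option autoImplicit false

namespace Pool.Agent.VCC

theorem p_ZERO1 (k : Type*) [Field k] [CharZero k] (h1 : T_ZET k) (h2 : T_TC k) (h3 : T_TCZ k)
    (h4 : T_TABC k) (h5 : T_TABZ k) (h6 : T_TAZZ k) (h7 : T_TZ k) : T_ZERO1 k := by
  intro m t hm ht φ hE hN
  refine { s := ?_, p := ?_, q := ?_, e := ?_, g0 := ?_, g1 := ?_ }
  · rintro x (⟨c, b⟩ | ⟨s, b⟩)
    · rcases x with ⟨i, l⟩ | ⟨s, d⟩
      · exact (h2 m t φ hm hE hN c).1 i l b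
      · exact h1 m t φ hm hE c s d b
    · exact (h7 m t φ hm hE hN s).1 x b
  · rintro i j hij c (⟨l, a⟩ | ⟨s, d⟩)
    · rcases lt_trichotomy l i with h | rfl | h
      · exact (h4 m t φ hE l i j h hij c a).2.1
      · exact (h2 m t φ hm hE hN j).2.2.2.2 l hij c a
      · rcases lt_trichotomy l j with h' | rfl | h'
        · exact (h4 m t φ hE i l j h h' c a).1
        · exact (h2 m t φ hm hE hN i).2.2.2.1 l hij c a
        · exact (h4 m t φ hE i j l hij h' c a).2.2
    · exact (h5 m t φ hE i j s hij).1 c d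
  · rintro i s d (⟨j, a⟩ | ⟨s', b⟩)
    · rcases lt_trichotomy i j with h | rfl | h
      · exact (h5 m t φ hE i j s h).2.1 d a
      · exact (h7 m t φ hm hE hN s).2.2.1 i d a
      · exact (h5 m t φ hE j i s h).2.2 d a
    · by_cases h : s = s'
      · subst h
        exact h3 m t φ hm hE hN i s d b
      · exact (h6 m t φ hE i s s' h).1 d b
  · rintro s s' hs b (⟨a, e⟩ | ⟨s'', a⟩)
    · exact (h6 m t φ hE a s s' hs).2 b e
    · by_cases h : s'' = s'
      · subst h
        exact (h7 m t φ hm hE hN s).2.2.2 s'' hs b a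
      · by_cases h' : s'' = s
        · subst h'
          rw [hN.es]
          exact (h7 m t φ hm hE hN s').2.2.2 s'' (Ne.symm hs) b a
        · exfalso
          have e1 : (s : ℕ) ≠ s' := fun h => hs (Fin.ext h)
          have e2 : (s'' : ℕ) ≠ s' := fun h2 => h (Fin.ext h2)
          have e3 : (s'' : ℕ) ≠ s := fun h2 => h' (Fin.ext h2)
          have := s.isLt
          have := s'.isLt
          have := s''.isLt
          omega
  · rintro (⟨c, b⟩ | ⟨s, b⟩)
    · exact (h2 m t φ hm hE hN c).2.1 b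
    · exact (h7 m t φ hm hE hN s).2.1 b
  · rintro (⟨c, b⟩ | ⟨s, b⟩)
    · exact (h2 m t φ hm hE hN c).2.2.1 b
    · exact hN.n4 s b

end Pool.Agent.VCC
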