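import Pool.Agent.VCC.Targets

/-!
# Chain 2: all the data vanish
-/

set_option autoImplicit false

namespace Pool.Agent.VCC

variable {m t : ℕ} {k : Type*} [Field k]

namespace ZERO2_

/-- the remaining component of `q` -/
theorem qss {φ : Dat2 m t k} (hE : HypE2 φ) (hB : ∀ i a b c, φ.s2 i a b (xx i c) = 0)
    (i : Fin m) (s : Fin t) (d b : Fin 2) : φ.q i s d (zz s b) = 0 := by
  have key : ∀ M : Fin 3 → Fin 2 → k, InMin2 (pz i s M : Ix m t → Ix m t → k) → ∀ (c : Fin 3)
      (d : Fin 2), ∑ b, M c b * φ.q i s d (zz s b) = 0 := by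
    intro M hM c d
    have h := hE _ hM
    have h3 := h.E3 i s c
    have h4 := h.E4 i s c
    rw [ff_pz_col, ff_pz_col, ff_pz_row] at h3 h4
    simp only [hB, mul_zero, Finset.sum_const_zero, add_zero] at h3 h4
    fin_cases d
    · exact h3.symm
    · exact h4.symm
  by_cases hi : (i : ℕ) = 0
  · have h0 := key _ (pzA_min2 i hi s).1 0 d
    have h1 := key _ (pzA_min2 i hi s).1 1 d
    simp [mA1, two, Fin.sum_univ_two] at h0 h1
    fin_cases b
    · exact h0
    · exact h1
  · have h0 := key _ (pzB_min2 i hi s).1 0 d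
    have h1 := key _ (pzB_min2 i hi s).1 1 d
    simp [mB1, mA1, two, Fin.sum_univ_two] at h0 h1
    fin_cases b
    · exact h0
    · exact h1

end ZERO2_

theorem p_ZERO2 (k : Type*) [Field k] [CharZero k] (h1 : T_C2A k) (h2 : T_C2B k) (h3 : T_C2C k)
    (h4 : T_C2D k) (h5 : T_C2E k) : T_ZERO2 k := by
  intro m t hm ht φ hE hN
  obtain ⟨hB1, hB2⟩ := h2 m t φ hm hE hN
  obtain ⟨hC1, hC2, hC3, hC4, hC5⟩ := h3 m t φ hE
  obtain ⟨hD1, hD2, hD3⟩ := h4 m t φ hm hE hN
  obtain ⟨hE1, hE2, hE3⟩ := h5 m t φ hm hE hN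
  refine ⟨?_, ?_, ?_, ?_, ?_⟩
  · rintro i a b (⟨j, c⟩ | ⟨s, d⟩)
    · by_cases hij : i = j
      · subst hij; exact hB1 i a b c
      · exact h1 m t φ hE hN i j hij a b c
    · exact hD1 i s a b d
  · rintro s a b (⟨i, c⟩ | ⟨s', d⟩)
    · exact hD2 i s a b c
    · by_cases hs : s = s'
      · subst hs; exact hE1 s a b d
      · exact hD3 s s' hs a b d
  · rintro i j hij c (⟨l, a⟩ | ⟨s, b⟩)
    · by_cases hli : l = i
      · subst hli; exact (hB2 l j hij c a).1
      · by_cases hlj : l = j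
        · subst hlj; exact (hB2 i l hij c a).2
        · exact hC1 i j l hij hli hlj c a
    · exact hC2 i j s hij c b
  · rintro i s d (⟨j, a⟩ | ⟨s', b⟩)
    · by_cases hij : i = j
      · subst hij; exact hE2 i s d a
      · exact hC3 i j s hij d a
    · by_cases hs : s = s'
      · subst hs; exact ZERO2_.qss hE hB1 i s d b
      · exact hC4 i s s' hs d b
  · rintro s s' hs b (⟨a, c⟩ | ⟨s'', a⟩)
    · exact hC5 a s s' hs b c
    · by_cases h : s'' = s'
      · subst h; exact (hE3 s s'' hs b a).1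
      · by_cases h' : s'' = s
        · subst h'; exact (hE3 s'' s' hs b a).2
        · exfalso
          have e1 : (s : ℕ) ≠ s' := fun e => hs (Fin.ext e)
          have e2 : (s'' : ℕ) ≠ s' := fun e => h (Fin.ext e)
          have e3 : (s'' : ℕ) ≠ s := fun e => h' (Fin.ext e)
          have := s.2
          have := s'.2
          have := s''.2
          omega

end Pool.Agent.VCC
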