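import Pool.Agent.VCC.Targets

/-!
# The values on the squares of the variables of the 2-blocks
-/

set_option autoImplicit false

namespace Pool.Agent.VCC

namespace ZET_

variable {m t : ℕ} {k : Type*} [Field k]

/-- the matrix of the equation `sg` -/
def XX (ζ₀ ζ₁ : Fin 3 → k) (a b : Fin 3) : k := ![ζ₀ b, 0, - ζ₁ b] a

theorem pr_XX {φ : Dat m t k} (s : Fin t) {j c : Fin m} (hjc : j ≠ c) (M : Fin 3 → Fin 3 → k)
    (h : Eqs φ (pf j c M)) :
    pr M (XX (fun b => φ.s (zz s 0) (xx c b)) (fun b => φ.s (zz s 1) (xx c b))) = 0 := by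
  have h1 := h.sg j s
  rw [ff_pf_z, ff_pf_z, ff_pf_row hjc, ff_pf_row hjc] at h1
  simp only [pr, XX, Fin.sum_univ_three] at h1 ⊢
  simp only [Matrix.cons_val_zero, Matrix.cons_val_one, Matrix.cons_val_two, Matrix.head_cons,
    Matrix.tail_cons] at h1 ⊢
  linear_combination -h1

theorem z3 {φ : Dat m t k} (hE : HypE φ) (c : Fin m) (s : Fin t) :
    φ.s (zz s 0) (xx c 0) = 0 := by
  have hA : AdZ (two 0 1 1 0 1 0 : Fin 3 → Fin 2 → k) := by constructor <;> simp [two]
  have h1 := (hE _ (pz_min1 c s hA)).Z3 s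
  have e1 : ∀ i : Fin m, (ff (pz c s (two 0 1 1 0 1 0 : Fin 3 → Fin 2 → k)) (xx i 2) (φ.q i s 0) -
      ff (pz c s (two 0 1 1 0 1 0 : Fin 3 → Fin 2 → k)) (xx i 1) (φ.q i s 1) +
      ff (pz c s (two 0 1 1 0 1 0 : Fin 3 → Fin 2 → k)) (zz s 0) (φ.s (xx i 1))) = 0 := by
    intro i
    rw [ff_pz_col]
    by_cases hi : i = c
    · subst hi
      rw [ff_pz_row, ff_pz_row]
      simp [two]
    · rw [ff_pz_other hi, ff_pz_other hi]
      simp [two]
  have e2 : (∑ s', if s = s' then (0 : k) else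
      ff (pz c s (two 0 1 1 0 1 0 : Fin 3 → Fin 2 → k)) (zz s' 1) (φ.e s s' 0)) = 0 := by
    refine Finset.sum_eq_zero fun s' _ => ?_
    by_cases hs : s = s'
    · rw [if_pos hs]
    · rw [if_neg hs, ff_pz_other' c (Ne.symm hs)]
  rw [e2, Finset.sum_eq_zero fun i _ => e1 i, ff_pz_col, ff_pz_col] at h1
  simp [two] at h1
  exact h1.symm

theorem z4 {φ : Dat m t k} (hE : HypE φ) (c : Fin m) (s : Fin t) :
    φ.s (zz s 1) (xx c 2) = 0 := by
  have hA : AdZ (two 2 0 1 2 0 0 : Fin 3 → Fin 2 → k) := by constructor <;> simp [two]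
  have h1 := (hE _ (pz_min1 c s hA)).Z4 s
  have e1 : ∀ i : Fin m, (ff (pz c s (two 2 0 1 2 0 0 : Fin 3 → Fin 2 → k)) (xx i 0) (φ.q i s 1) -
      ff (pz c s (two 2 0 1 2 0 0 : Fin 3 → Fin 2 → k)) (xx i 1) (φ.q i s 0) +
      ff (pz c s (two 2 0 1 2 0 0 : Fin 3 → Fin 2 → k)) (zz s 1) (φ.s (xx i 1))) = 0 := by
    intro i
    rw [ff_pz_col]
    by_cases hi : i = c
    · subst hi
      rw [ff_pz_row, ff_pz_row]
      simp [two]
    · rw [ff_pz_other hi, ff_pz_other hi]
      simp [two]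
  have e2 : (∑ s', if s = s' then (0 : k) else
      ff (pz c s (two 2 0 1 2 0 0 : Fin 3 → Fin 2 → k)) (zz s' 0) (φ.e s s' 1)) = 0 := by
    refine Finset.sum_eq_zero fun s' _ => ?_
    by_cases hs : s = s'
    · rw [if_pos hs]
    · rw [if_neg hs, ff_pz_other' c (Ne.symm hs)]
  rw [e2, Finset.sum_eq_zero fun i _ => e1 i, ff_pz_col, ff_pz_col] at h1
  simp [two] at h1
  exact h1.symm

end ZET_

open ZET_ in
theorem p_ZET (k : Type*) [Field k] [CharZero k] : T_ZET k := by
  intro m t φ hm hE c s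
  have h3 := z3 hE c s
  have h4 := z4 hE c s
  obtain ⟨j, hj⟩ : ∃ j : Fin m, j ≠ c := by
    by_cases h0 : (c : ℕ) = 0
    · exact ⟨⟨1, by omega⟩, fun h => by
        have := congrArg Fin.val h
        simp only [h0] at this
        omega⟩
    · exact ⟨⟨0, by omega⟩, fun h => by
        have := congrArg Fin.val h
        simp only at this
        omega⟩
  have key : ∀ a : Fin 3, φ.s (zz s 0) (xx c a) = 0 ∧ φ.s (zz s 1) (xx c a) = 0 := by
    rcases lt_or_gt_of_ne hj with hlt | hgt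
    · -- j < c
      have hW := WL_of (β := be k c) fun M hM => pr_XX s hj M (hE _ (pf_min1_lt hlt hM))
      obtain ⟨⟨a1, a2, a3⟩, a4, a5, a6⟩ := hW
      simp only [XX, Matrix.cons_val_zero, Matrix.cons_val_one, Matrix.cons_val_two,
        Matrix.head_cons, Matrix.tail_cons] at a1 a2 a3 a4 a5 a6
      have hβ := be_ne (k := k) c
      intro a
      fin_cases a
      · refine ⟨h3, ?_⟩
        show φ.s (zz s 1) (xx c 0) = 0
        linear_combination -a3
      · refine ⟨a1, ?_⟩
        show φ.s (zz s 1) (xx c 1) = 0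
        linear_combination -a6 - be k c * h3
      · refine ⟨?_, h4⟩
        show φ.s (zz s 0) (xx c 2) = 0
        linear_combination a4
    · -- c < j
      have hW := WG_of (β := be k j) fun M hM => pr_XX s hj M (hE _ (pf_min1_gt hgt hM))
      obtain ⟨⟨a1, a2, a3⟩, a4, a5, a6⟩ := hW
      simp only [XX, Matrix.cons_val_zero, Matrix.cons_val_one, Matrix.cons_val_two,
        Matrix.head_cons, Matrix.tail_cons] at a1 a2 a3 a4 a5 a6
      intro a
      fin_cases a
      · refine ⟨h3, ?_⟩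
        show φ.s (zz s 1) (xx c 0) = 0
        linear_combination -a6
      · refine ⟨?_, ?_⟩
        · show φ.s (zz s 0) (xx c 1) = 0
          linear_combination a4 - be k j * h4
        · show φ.s (zz s 1) (xx c 1) = 0
          linear_combination -a3
      · refine ⟨?_, h4⟩
        show φ.s (zz s 0) (xx c 2) = 0
        linear_combination a1
  intro b a
  fin_cases b
  · exact (key a).1
  · exact (key a).2

end Pool.Agent.VCC
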