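import Pool.Agent.VCC.Targets

/-!
# ZTA: solution of the equations for a 2-block (pure algebra)
-/

set_option autoImplicit false

namespace Pool.Agent.VCC

namespace ZTA_

variable {k : Type*} [Field k] {m : ℕ}

theorem tLo_zero (j : Fin m) (S : Fin m → Fin 3 → Fin 2 → k) (l : Fin 3) (b : Fin 2)
    (h : ∀ i, S i l b = 0) : tLo j S l b = 0 := by
  unfold tLo
  refine Finset.sum_eq_zero fun i _ => ?_
  rw [h i]; exact ite_self _

theorem tHi_zero (j : Fin m) (w : Fin m → k) (S : Fin m → Fin 3 → Fin 2 → k) (l : Fin 3)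
    (b : Fin 2) (h : ∀ i, S i l b = 0) : tHi j w S l b = 0 := by
  unfold tHi
  refine Finset.sum_eq_zero fun i _ => ?_
  rw [h i, mul_zero]; exact ite_self _

theorem tHi_last (j : Fin m) (w : Fin m → k) (S : Fin m → Fin 3 → Fin 2 → k) (l : Fin 3)
    (b : Fin 2) (h : ∀ i, ¬ j < i) : tHi j w S l b = 0 := by
  unfold tHi
  refine Finset.sum_eq_zero fun i _ => ?_
  rw [if_neg (h i)]

end ZTA_

open ZTA_ in
theorem p_ZTA (k : Type*) [Field k] [CharZero k] : T_ZTA k := by
  intro m w G0 S ζ Q hm hw h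
  simp only [WZ, ZA0, ZB0, ZA1, ZB1, ZC, ZS, Matrix.cons_val_zero, Matrix.cons_val_one,
    Matrix.cons_val, Pi.zero_apply] at h
  have j0 : Fin m := ⟨0, hm⟩
  have hG00 : G0 0 = 0 := (h j0).1.1.1
  have hS10 : ∀ j, S j 1 0 = 0 := fun j => by
    have := (h j).2.1.1.1
    linear_combination -this
  have hS11 : ∀ j, S j 1 1 = 0 := fun j => by
    have := (h j).2.1.2.2
    linear_combination this - hG00
  have hS21 : ∀ j, S j 2 1 = 0 := fun j => by
    have h1 := (h j).1.2.1
    rw [tLo_zero j S 1 0 hS10] at h1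
    linear_combination h1
  have hG01 : G0 1 = 0 := by
    have h1 := (h ⟨m - 1, by omega⟩).2.1.2.1
    rw [tHi_last _ _ _ _ _ (fun i => by
      rw [Fin.lt_def]
      have := i.2
      simp only
      omega)] at h1
    exact h1.symm
  have hS20 : ∀ j, S j 2 0 = 0 := fun j => by
    have h1 := (h j).1.2.2
    linear_combination -h1 - hG01
  have hS00 : ∀ j, S j 0 0 = 0 := fun j => by
    have h1 := (h j).2.2.1.1.1
    linear_combination -h1
  have hQ00 : ∀ j, Q j 0 0 = 0 := fun j => by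
    have h1 := (h j).2.2.1.1.2
    linear_combination -h1
  have hZ00 : ζ 0 0 = 0 := by
    have h1 := (h j0).2.2.2.2.1.2.1
    rw [tLo_zero j0 S 0 0 hS00, tHi_zero j0 _ S 1 1 hS11] at h1
    linear_combination -h1 + hG00 + hQ00 j0
  have hQ01 : ∀ j, Q j 0 1 = 0 := fun j => by
    have h1 := (h j).2.2.2.2.1.2.2
    rw [tLo_zero j S 2 1 hS21, tHi_zero j _ S 1 0 hS10, tHi_zero j _ S 2 1 hS21] at h1
    linear_combination h1
  have hQ02 : ∀ j, Q j 0 2 = 0 := fun j => by
    have h1 := (h j).2.2.2.2.1.1.1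
    rw [tLo_zero j S 2 0 hS20, tHi_zero j _ S 2 0 hS20] at h1
    linear_combination h1
  have hZ11 : ζ 1 1 = 0 := by
    have h1 := (h j0).2.2.1.2.1
    rw [tLo_zero j0 S 2 1 hS21] at h1
    linear_combination hQ01 j0 - h1
  have hZ10 : ζ 1 0 = 0 := by
    have h1 := (h j0).2.2.2.2.2.1.1
    linear_combination h1 - hQ02 j0
  have hS01 : ∀ j, S j 0 1 = 0 := fun j => by
    have h1 := (h j).2.2.1.2.2
    rw [tLo_zero j S 2 0 hS20] at h1
    linear_combination h1 - hZ10 - hQ02 j
  have hZ01 : ζ 0 1 = 0 := by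
    have h1 := (h j0).2.2.2.2.1.1.2
    rw [tLo_zero j0 S 0 1 hS01] at h1
    linear_combination hG01 - h1
  have hQ12 : ∀ j, Q j 1 2 = 0 := fun j => by
    have h1 := (h j).2.2.2.1.1.1
    linear_combination -h1
  have hQ10 : ∀ j, Q j 1 0 = 0 := fun j => by
    have h1 := (h j).2.2.2.2.2.1.2
    linear_combination -h1 - hZ01
  have hQ11 : ∀ j, Q j 1 1 = 0 := fun j => by
    have h1 := (h j).2.2.2.2.2.2.1
    linear_combination h1 + hZ00 - hQ00 j
  refine ⟨?_, ?_, ?_, ?_⟩
  · funext b; fin_cases b <;> assumption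
  · intro i; funext l b
    fin_cases l <;> fin_cases b
    · exact hS00 i
    · exact hS01 i
    · exact hS10 i
    · exact hS11 i
    · exact hS20 i
    · exact hS21 i
  · funext a b
    fin_cases a <;> fin_cases b <;> assumption
  · intro i; funext l b
    fin_cases l <;> fin_cases b
    · exact hQ00 i
    · exact hQ01 i
    · exact hQ02 i
    · exact hQ10 i
    · exact hQ11 i
    · exact hQ12 i

end Pool.Agent.VCC
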