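import Pool.Agent.VCC.Targets

/-!
# ZZ0 : the squares of the variables of the other 2-blocks
-/

set_option autoImplicit false

namespace Pool.Agent.VCC

theorem p_ZZ0 (k : Type*) [Field k] [CharZero k] : T_ZZ0 k := by
  intro m t φ hm hE s s' hs
  have hj : 0 < m := by omega
  have key : ∀ M : Fin 3 → Fin 2 → k, AdZ M →
      (∑ b, M 0 b * φ.s (zz s' 0) (zz s b)) = ∑ b, M 2 b * φ.s (zz s' 1) (zz s b) := by
    intro M hM
    have e := (hE _ (pz_min1 (⟨0, hj⟩ : Fin m) s hM)).sg ⟨0, hj⟩ s'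
    rw [ff_pz_other' _ hs, ff_pz_other' _ hs, ff_pz_row, ff_pz_row] at e
    linear_combination -e
  have h1 : WZ (fun (x : Fin 3) (y : Fin 2) => (if x = 0 then φ.s (zz s' 0) (zz s y) else 0) -
      (if x = 2 then φ.s (zz s' 1) (zz s y) else 0)) := by
    apply WZ_of
    intro M hM
    have h2 : (fun (x : Fin 3) (y : Fin 2) => (if x = 0 then φ.s (zz s' 0) (zz s y) else 0) -
        (if x = 2 then φ.s (zz s' 1) (zz s y) else 0)) =
        (fun (x : Fin 3) (y : Fin 2) => if x = 0 then φ.s (zz s' 0) (zz s y) else 0) -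
        (fun (x : Fin 3) (y : Fin 2) => if x = 2 then φ.s (zz s' 1) (zz s y) else 0) := rfl
    rw [h2, pr_sub, ← sum_row M 0 (fun y => φ.s (zz s' 0) (zz s y)),
      ← sum_row M 2 (fun y => φ.s (zz s' 1) (zz s y)), key M hM, sub_self]
  obtain ⟨⟨h2, h3⟩, ⟨h4, h5⟩⟩ := h1
  have e1 : φ.s (zz s' 1) (zz s 0) = 0 := by simpa using h2
  have e2 : φ.s (zz s' 0) (zz s 1) = 0 := by simpa using h3
  have e3 : φ.s (zz s' 0) (zz s 0) = 0 := by simpa using h4
  have e4 : φ.s (zz s' 1) (zz s 1) = 0 := by simpa using h5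
  intro d b
  fin_cases d <;> fin_cases b
  · exact e3
  · exact e2
  · exact e1
  · exact e4

end Pool.Agent.VCC
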