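import Pool.Agent.VCC.IRR
import Pool.Agent.VCC.OPEN
import Pool.Agent.VCC.CHART
import Pool.Agent.VCC.VALS
import Pool.Agent.VCC.POLY
import Pool.Agent.VCC.GNC
import Pool.Agent.VCC.FIB1
import Pool.Agent.VCC.FIB2
import Pool.Agent.VCC.FIB3
import Pool.Agent.VCC.STRUCT
import Pool.Agent.VCC.L1
import Pool.Agent.VCC.CHAIN
import Pool.Agent.VCC.TRANSP
import Pool.Agent.VCC.NC3
import Pool.Agent.VCC.NC2
import Pool.Agent.VCC.NC
import Pool.Agent.VCC.RS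
import Pool.Agent.VCC.D1
import Pool.Agent.VCC.D2
import Pool.Agent.VCC.RED1
import Pool.Agent.VCC.RED2
import Pool.Agent.VCC.ZET
import Pool.Agent.VCC.EQG
import Pool.Agent.VCC.EQL
import Pool.Agent.VCC.GTA
import Pool.Agent.VCC.LTA
import Pool.Agent.VCC.TC
import Pool.Agent.VCC.TCZ
import Pool.Agent.VCC.TABC
import Pool.Agent.VCC.TABZ
import Pool.Agent.VCC.TAZZ
import Pool.Agent.VCC.ZZ0
import Pool.Agent.VCC.EQZ
import Pool.Agent.VCC.ZTA
import Pool.Agent.VCC.TZ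
import Pool.Agent.VCC.ZERO1
import Pool.Agent.VCC.C2A
import Pool.Agent.VCC.C2B
import Pool.Agent.VCC.C2C
import Pool.Agent.VCC.C2D
import Pool.Agent.VCC.C2E
import Pool.Agent.VCC.ZERO2
import Pool.Agent.VCC.L2
import Pool.Agent.VCC.MAIN

set_option autoImplicit false

namespace Pool.Agent.VCC

/-- All the parts together. -/
theorem main_l1 (k : Type*) [Field k] [CharZero k] : T_L1 k :=
  p_L1 k (p_IRR k) (p_OPEN k (p_CHART k) (p_VALS k) (p_POLY k) (p_FIB1 k) (p_FIB2 k)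
    (p_FIB3 k (p_GNC k))) (p_STRUCT k)

theorem main_zero1 (k : Type*) [Field k] [CharZero k] : T_ZERO1 k := by
  have hzet := p_ZET k
  have htc := p_TC k hzet (p_EQG k) (p_EQL k) (p_GTA k) (p_LTA k)
  exact p_ZERO1 k hzet htc (p_TCZ k hzet htc) (p_TABC k) (p_TABZ k) (p_TAZZ k)
    (p_TZ k hzet (p_ZZ0 k) (p_EQZ k) (p_ZTA k))

theorem main_zero2 (k : Type*) [Field k] [CharZero k] : T_ZERO2 k :=
  p_ZERO2 k (p_C2A k) (p_C2B k) (p_C2C k) (p_C2D k) (p_C2E k (p_C2B k))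

theorem main_l2 (k : Type*) [Field k] [CharZero k] : T_L2 k :=
  p_L2 k (p_CHAIN k) (p_TRANSP k) (p_NC k (p_NC3 k) (p_NC2 k)) (p_RS k) (p_D1 k) (p_D2 k)
    (p_RED1 k) (p_RED2 k) (main_zero1 k) (main_zero2 k)

theorem main (k : Type*) [Field k] [CharZero k] : T_MAIN k :=
  p_MAIN k (main_l1 k) (main_l2 k)

end Pool.Agent.VCC
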