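import Pool.Agent.VCC.Defs

/-!
# Base lemmas: the cubic relations and the scalar equations (A0) ... (upsilon)
-/

set_option autoImplicit false

namespace Pool.Agent.VCC

variable {m t : ℕ} {k : Type*} [Field k]

/-! ### arithmetic in `Fin 3` -/

theorem f3a (l : Fin 3) : l + 2 + 2 = l + 1 := by revert l; decide
theorem f3b (l : Fin 3) : l + 2 + 1 = l := by revert l; decide
theorem f3c (l : Fin 3) : l + 1 + 2 = l := by revert l; decide
theorem f3d (l : Fin 3) : l + 1 + 1 = l + 2 := by revert l; decide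

/-! ### permutations of the arguments -/

theorem TSym.p213 {ι : Type*} {T : ι → ι → ι → k} (h : TSym T) (x y z : ι) :
    T x y z = T y x z := h.1 x y z
theorem TSym.p132 {ι : Type*} {T : ι → ι → ι → k} (h : TSym T) (x y z : ι) :
    T x y z = T x z y := h.2 x y z
theorem TSym.p231 {ι : Type*} {T : ι → ι → ι → k} (h : TSym T) (x y z : ι) :
    T x y z = T y z x := by rw [h.1 x y z, h.2 y x z]
theorem TSym.p312 {ι : Type*} {T : ι → ι → ι → k} (h : TSym T) (x y z : ι) :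
    T x y z = T z x y := by rw [h.2 x y z, h.1 x z y]
theorem TSym.p321 {ι : Type*} {T : ι → ι → ι → k} (h : TSym T) (x y z : ι) :
    T x y z = T z y x := by rw [h.1 x y z, h.2 y x z, h.1 y z x]

namespace Sol1

variable {φ : Dat m t k} {F : Ix m t → Ix m t → k} {T : Ix m t → Ix m t → Ix m t → k}

theorem sq1 (h : Sol1 φ F T) (x y : Ix m t) : T y y x = ff F x (φ.s y) := by
  rw [h.sym.p312, h.sq]

theorem sq2 (h : Sol1 φ F T) (x y : Ix m t) : T y x y = ff F x (φ.s y) := by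
  rw [h.sym.p213, h.sq]

/-! the cubics `x_{j,l} x_{i,a} x_{i,b}`, `i < j` -/

theorem ltD (h : Sol1 φ F T) {i j : Fin m} (hij : i < j) (l : Fin 3) :
    be k j * T (xx j l) (xx i (l + 1)) (xx i (l + 2)) =
      ff F (xx i (l + 2)) (φ.p i j (l + 2)) - ff F (xx j (l + 2)) (φ.s (xx i (l + 2))) := by
  have h1 := h.p (xx i (l + 2)) i j hij (l + 2)
  rw [f3a, f3b, h.sq1, h.sym.p321 (xx i (l + 2)) (xx i (l + 1)) (xx j l)] at h1
  linear_combination h1

theorem ltP (h : Sol1 φ F T) {i j : Fin m} (hij : i < j) (l : Fin 3) :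
    T (xx j l) (xx i (l + 2)) (xx i l) =
      ff F (xx i (l + 2)) (φ.p i j l) - be k j * ff F (xx j (l + 1)) (φ.s (xx i (l + 2))) := by
  have h1 := h.p (xx i (l + 2)) i j hij l
  rw [h.sq1, h.sym.p312 (xx i (l + 2)) (xx i l) (xx j l)] at h1
  linear_combination h1

theorem ltM0 (h : Sol1 φ F T) {i j : Fin m} (hij : i < j) (l : Fin 3) :
    T (xx j l) (xx i l) (xx i (l + 1)) + be k j * T (xx j (l + 1)) (xx i (l + 1)) (xx i (l + 2)) =
      ff F (xx i (l + 1)) (φ.p i j l) := by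
  have h1 := h.p (xx i (l + 1)) i j hij l
  rw [h.sym.p321 (xx i (l + 1)) (xx i l) (xx j l),
    h.sym.p312 (xx i (l + 1)) (xx i (l + 2)) (xx j (l + 1))] at h1
  exact h1

theorem ltM (h : Sol1 φ F T) {i j : Fin m} (hij : i < j) (l : Fin 3) :
    (1 + be k j ^ 3) * T (xx j l) (xx i l) (xx i (l + 1)) =
      ff F (xx i (l + 1)) (φ.p i j l) - be k j * ff F (xx i (l + 2)) (φ.p i j (l + 1)) +
        be k j ^ 2 * ff F (xx i l) (φ.p i j (l + 2)) := by
  have h1 := h.ltM0 hij l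
  have h2 := h.ltM0 hij (l + 1)
  have h3 := h.ltM0 hij (l + 2)
  rw [f3d, f3c] at h2
  rw [f3b, f3a] at h3
  linear_combination h1 - be k j * h2 + be k j ^ 2 * h3

/-! the cubics `x_{j,l} x_{i,a} x_{i,b}`, `j < i` -/

theorem gtD (h : Sol1 φ F T) {i j : Fin m} (hij : j < i) (l : Fin 3) :
    be k i * T (xx j l) (xx i (l + 1)) (xx i (l + 2)) =
      ff F (xx i (l + 1)) (φ.p j i (l + 1)) - ff F (xx j (l + 1)) (φ.s (xx i (l + 1))) := by
  have h1 := h.p (xx i (l + 1)) j i hij (l + 1)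
  rw [f3c, f3d, h.sq2, h.sym.p213 (xx i (l + 1)) (xx j l) (xx i (l + 2))] at h1
  linear_combination h1

theorem gtM (h : Sol1 φ F T) {i j : Fin m} (hij : j < i) (l : Fin 3) :
    T (xx j l) (xx i l) (xx i (l + 1)) =
      ff F (xx i (l + 1)) (φ.p j i l) - be k i * ff F (xx j (l + 2)) (φ.s (xx i (l + 1))) := by
  have h1 := h.p (xx i (l + 1)) j i hij l
  rw [h.sq2, h.sym.p231 (xx i (l + 1)) (xx j l) (xx i l)] at h1
  linear_combination h1

theorem gtP0 (h : Sol1 φ F T) {i j : Fin m} (hij : j < i) (l : Fin 3) :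
    T (xx j l) (xx i (l + 2)) (xx i l) + be k i * T (xx j (l + 2)) (xx i (l + 1)) (xx i (l + 2)) =
      ff F (xx i (l + 2)) (φ.p j i l) := by
  have h1 := h.p (xx i (l + 2)) j i hij l
  rw [h.sym.p213 (xx i (l + 2)) (xx j l) (xx i l),
    h.sym.p231 (xx i (l + 2)) (xx j (l + 2)) (xx i (l + 1))] at h1
  exact h1

theorem gtP (h : Sol1 φ F T) {i j : Fin m} (hij : j < i) (l : Fin 3) :
    (1 + be k i ^ 3) * T (xx j l) (xx i (l + 2)) (xx i l) =
      ff F (xx i (l + 2)) (φ.p j i l) - be k i * ff F (xx i (l + 1)) (φ.p j i (l + 2)) +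
        be k i ^ 2 * ff F (xx i l) (φ.p j i (l + 1)) := by
  have h1 := h.gtP0 hij l
  have h2 := h.gtP0 hij (l + 2)
  have h3 := h.gtP0 hij (l + 1)
  rw [f3a, f3b] at h2
  rw [f3c, f3d] at h3
  linear_combination h1 - be k i * h2 + be k i ^ 2 * h3

/-! the cubics with the variables of a 2-block -/

theorem z1_01 (h : Sol1 φ F T) (i : Fin m) (s : Fin t) :
    T (zz s 1) (xx i 0) (xx i 1) = ff F (xx i 0) (φ.q i s 0) - ff F (zz s 0) (φ.s (xx i 0)) := by
  have h1 := h.q0 (xx i 0) i s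
  rw [h.sq1, h.sym.p312 (xx i 0) (xx i 1) (zz s 1)] at h1
  linear_combination h1

theorem z0_01 (h : Sol1 φ F T) (i : Fin m) (s : Fin t) :
    T (zz s 0) (xx i 0) (xx i 1) = ff F (xx i 1) (φ.q i s 0) - ff F (zz s 1) (φ.s (xx i 1)) := by
  have h1 := h.q0 (xx i 1) i s
  rw [h.sq1, h.sym.p321 (xx i 1) (xx i 0) (zz s 0)] at h1
  linear_combination h1

theorem z1_20 (h : Sol1 φ F T) (i : Fin m) (s : Fin t) :
    T (zz s 1) (xx i 2) (xx i 0) = ff F (xx i 0) (φ.q i s 1) - ff F (xx i 1) (φ.q i s 0) +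
      ff F (zz s 1) (φ.s (xx i 1)) := by
  have h1 := h.q1 (xx i 0) i s
  rw [h.sym.p312 (xx i 0) (xx i 1) (zz s 0), h.z0_01,
    h.sym.p321 (xx i 0) (xx i 2) (zz s 1)] at h1
  linear_combination h1

theorem z1_12 (h : Sol1 φ F T) (i : Fin m) (s : Fin t) :
    T (zz s 1) (xx i 1) (xx i 2) = ff F (xx i 1) (φ.q i s 1) - ff F (zz s 0) (φ.s (xx i 1)) := by
  have h1 := h.q1 (xx i 1) i s
  rw [h.sq1, h.sym.p312 (xx i 1) (xx i 2) (zz s 1)] at h1
  linear_combination h1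

theorem z0_12 (h : Sol1 φ F T) (i : Fin m) (s : Fin t) :
    T (zz s 0) (xx i 1) (xx i 2) = ff F (xx i 2) (φ.q i s 1) - ff F (zz s 1) (φ.s (xx i 2)) := by
  have h1 := h.q1 (xx i 2) i s
  rw [h.sq1, h.sym.p321 (xx i 2) (xx i 1) (zz s 0)] at h1
  linear_combination h1

theorem z0_20 (h : Sol1 φ F T) (i : Fin m) (s : Fin t) :
    T (zz s 0) (xx i 2) (xx i 0) = ff F (xx i 2) (φ.q i s 0) - ff F (xx i 1) (φ.q i s 1) +
      ff F (zz s 0) (φ.s (xx i 1)) := by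
  have h1 := h.q0 (xx i 2) i s
  rw [h.sym.p312 (xx i 2) (xx i 0) (zz s 0), h.sym.p321 (xx i 2) (xx i 1) (zz s 1), h.z1_12] at h1
  linear_combination h1

theorem x1_z (h : Sol1 φ F T) (i : Fin m) (s : Fin t) :
    T (xx i 1) (zz s 0) (zz s 1) = ff F (zz s 0) (φ.q i s 0) - ff F (xx i 0) (φ.s (zz s 0)) := by
  have h1 := h.q0 (zz s 0) i s
  rw [h.sq2, h.sym.p213 (zz s 0) (xx i 1) (zz s 1)] at h1
  linear_combination h1

theorem x0_z (h : Sol1 φ F T) (i : Fin m) (s : Fin t) :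
    T (xx i 0) (zz s 0) (zz s 1) = ff F (zz s 1) (φ.q i s 0) - ff F (xx i 1) (φ.s (zz s 1)) := by
  have h1 := h.q0 (zz s 1) i s
  rw [h.sq2, h.sym.p231 (zz s 1) (xx i 0) (zz s 0)] at h1
  linear_combination h1

theorem x2_z (h : Sol1 φ F T) (i : Fin m) (s : Fin t) :
    T (xx i 2) (zz s 0) (zz s 1) = ff F (zz s 0) (φ.q i s 1) - ff F (xx i 1) (φ.s (zz s 0)) := by
  have h1 := h.q1 (zz s 0) i s
  rw [h.sq2, h.sym.p213 (zz s 0) (xx i 2) (zz s 1)] at h1
  linear_combination h1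

theorem x1_z' (h : Sol1 φ F T) (i : Fin m) (s : Fin t) :
    T (xx i 1) (zz s 0) (zz s 1) = ff F (zz s 1) (φ.q i s 1) - ff F (xx i 2) (φ.s (zz s 1)) := by
  have h1 := h.q1 (zz s 1) i s
  rw [h.sq2, h.sym.p231 (zz s 1) (xx i 1) (zz s 0)] at h1
  linear_combination h1

theorem zz_z0 (h : Sol1 φ F T) {s s' : Fin t} (hs : s ≠ s') :
    T (zz s 0) (zz s' 0) (zz s' 1) = ff F (zz s' 1) (φ.e s s' 0) := by
  rw [← h.e (zz s' 1) s s' hs 0, h.sym.p312]

theorem zz_z1 (h : Sol1 φ F T) {s s' : Fin t} (hs : s ≠ s') :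
    T (zz s 1) (zz s' 0) (zz s' 1) = ff F (zz s' 0) (φ.e s s' 1) := by
  rw [← h.e (zz s' 0) s s' hs 1, h.sym.p213]

end Sol1

/-! ### The scalar equations -/

/-- `T(x_{j,l} x_{i,l+1} x_{i,l+2})` for `i ≠ j` -/
noncomputable def tauD (φ : Dat m t k) (F : Ix m t → Ix m t → k) (j : Fin m) (l : Fin 3)
    (i : Fin m) : k :=
  if i < j then (be k j)⁻¹ *
    (ff F (xx i (l + 2)) (φ.p i j (l + 2)) - ff F (xx j (l + 2)) (φ.s (xx i (l + 2))))
  else if j < i then (be k i)⁻¹ *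
    (ff F (xx i (l + 1)) (φ.p j i (l + 1)) - ff F (xx j (l + 1)) (φ.s (xx i (l + 1))))
  else 0

/-- `T(x_{j,l} x_{i,l+2} x_{i,l})` for `i ≠ j` -/
noncomputable def tauP (φ : Dat m t k) (F : Ix m t → Ix m t → k) (j : Fin m) (l : Fin 3)
    (i : Fin m) : k :=
  if i < j then
    ff F (xx i (l + 2)) (φ.p i j l) - be k j * ff F (xx j (l + 1)) (φ.s (xx i (l + 2)))
  else if j < i then (1 + be k i ^ 3)⁻¹ *
    (ff F (xx i (l + 2)) (φ.p j i l) - be k i * ff F (xx i (l + 1)) (φ.p j i (l + 2)) +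
        be k i ^ 2 * ff F (xx i l) (φ.p j i (l + 1)))
  else 0

/-- `T(x_{j,l} x_{i,l} x_{i,l+1})` for `i ≠ j` -/
noncomputable def tauM (φ : Dat m t k) (F : Ix m t → Ix m t → k) (j : Fin m) (l : Fin 3)
    (i : Fin m) : k :=
  if i < j then (1 + be k j ^ 3)⁻¹ *
    (ff F (xx i (l + 1)) (φ.p i j l) - be k j * ff F (xx i (l + 2)) (φ.p i j (l + 1)) +
        be k j ^ 2 * ff F (xx i l) (φ.p i j (l + 2)))
  else if j < i then
    ff F (xx i (l + 1)) (φ.p j i l) - be k i * ff F (xx j (l + 2)) (φ.s (xx i (l + 1)))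
  else 0

theorem be_ne [CharZero k] (j : Fin m) : be k j ≠ 0 := by
  unfold be
  have : ((j : ℕ) : k) + 2 = (((j : ℕ) + 2 : ℕ) : k) := by push_cast; ring
  rw [this]
  exact_mod_cast (by omega : (j : ℕ) + 2 ≠ 0)

theorem be_cube_ne [CharZero k] (j : Fin m) : 1 + be k j ^ 3 ≠ 0 := by
  unfold be
  have : 1 + (((j : ℕ) : k) + 2) ^ 3 = ((1 + ((j : ℕ) + 2) ^ 3 : ℕ) : k) := by push_cast; ring
  rw [this]
  exact_mod_cast (by positivity : 1 + ((j : ℕ) + 2) ^ 3 ≠ 0)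

/-- The scalar equations. -/
structure Eqs (φ : Dat m t k) (F : Ix m t → Ix m t → k) : Prop where
  A0 : ∀ j, ff F (xx j 2) φ.g0 = ff F (xx j 1) (φ.s (xx j 2)) + ∑ i, tauP φ F j 2 i
  B0 : ∀ j, ff F (xx j 1) φ.g0 = ff F (xx j 2) (φ.s (xx j 1)) + ∑ i, tauM φ F j 1 i
  A1 : ∀ j, ff F (xx j 0) φ.g1 = ff F (xx j 2) (φ.s (xx j 0)) + ∑ i, tauP φ F j 0 i +
    ∑ s, (ff F (zz s 1) (φ.q j s 0) - ff F (xx j 1) (φ.s (zz s 1)))
  B1 : ∀ j, ff F (xx j 2) φ.g1 = ff F (xx j 0) (φ.s (xx j 2)) + ∑ i, tauM φ F j 2 i +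
    ∑ s, (ff F (zz s 0) (φ.q j s 1) - ff F (xx j 1) (φ.s (zz s 0)))
  C : ∀ j, ff F (xx j 0) φ.g0 - ff F (xx j 1) φ.g1 = ∑ i, (tauD φ F j 0 i - tauD φ F j 1 i) -
    ∑ s, (ff F (zz s 0) (φ.q j s 0) - ff F (xx j 0) (φ.s (zz s 0)))
  sg : ∀ j s, ff F (zz s 0) (φ.q j s 0) - ff F (xx j 0) (φ.s (zz s 0)) =
    ff F (zz s 1) (φ.q j s 1) - ff F (xx j 2) (φ.s (zz s 1))
  Z1 : ∀ s, ff F (zz s 0) φ.g0 =
    ∑ i, (ff F (xx i 2) (φ.q i s 1) - ff F (zz s 1) (φ.s (xx i 2)))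
  Z2 : ∀ s, ff F (zz s 1) φ.g0 =
    ∑ i, (ff F (xx i 1) (φ.q i s 1) - ff F (zz s 0) (φ.s (xx i 1)))
  Z3 : ∀ s, ff F (zz s 0) φ.g1 =
    ∑ i, (ff F (xx i 2) (φ.q i s 0) - ff F (xx i 1) (φ.q i s 1) + ff F (zz s 0) (φ.s (xx i 1))) +
    ff F (zz s 1) (φ.s (zz s 0)) + ∑ s', if s = s' then 0 else ff F (zz s' 1) (φ.e s s' 0)
  Z4 : ∀ s, ff F (zz s 1) φ.g1 =
    ∑ i, (ff F (xx i 0) (φ.q i s 1) - ff F (xx i 1) (φ.q i s 0) + ff F (zz s 1) (φ.s (xx i 1))) +
    ff F (zz s 0) (φ.s (zz s 1)) + ∑ s', if s = s' then 0 else ff F (zz s' 0) (φ.e s s' 1)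
  u : ∀ s s', s ≠ s' → ∀ b, ff F (zz s b) (φ.e s s' b) = ff F (zz s' b) (φ.s (zz s b))

section

variable [CharZero k] {φ : Dat m t k} {F : Ix m t → Ix m t → k}
  {T : Ix m t → Ix m t → Ix m t → k}

theorem Sol1.tauD_eq (h : Sol1 φ F T) {i j : Fin m} (hij : i ≠ j) (l : Fin 3) :
    tauD φ F j l i = T (xx j l) (xx i (l + 1)) (xx i (l + 2)) := by
  unfold tauD
  rcases lt_or_gt_of_ne hij with h1 | h1
  · rw [if_pos h1, ← h.ltD h1, inv_mul_cancel_left₀ (be_ne j)]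
  · rw [if_neg (not_lt.2 h1.le), if_pos h1, ← h.gtD h1, inv_mul_cancel_left₀ (be_ne i)]

theorem Sol1.tauP_eq (h : Sol1 φ F T) {i j : Fin m} (hij : i ≠ j) (l : Fin 3) :
    tauP φ F j l i = T (xx j l) (xx i (l + 2)) (xx i l) := by
  unfold tauP
  rcases lt_or_gt_of_ne hij with h1 | h1
  · rw [if_pos h1, h.ltP h1]
  · rw [if_neg (not_lt.2 h1.le), if_pos h1, ← h.gtP h1, inv_mul_cancel_left₀ (be_cube_ne i)]

theorem Sol1.tauM_eq (h : Sol1 φ F T) {i j : Fin m} (hij : i ≠ j) (l : Fin 3) :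
    tauM φ F j l i = T (xx j l) (xx i l) (xx i (l + 1)) := by
  unfold tauM
  rcases lt_or_gt_of_ne hij with h1 | h1
  · rw [if_pos h1, ← h.ltM h1, inv_mul_cancel_left₀ (be_cube_ne j)]
  · rw [if_neg (not_lt.2 h1.le), if_pos h1, h.gtM h1]

omit [CharZero k] in
theorem tauD_self (j : Fin m) (l : Fin 3) : tauD φ F j l j = 0 := by simp [tauD]
omit [CharZero k] in
theorem tauP_self (j : Fin m) (l : Fin 3) : tauP φ F j l j = 0 := by simp [tauP]
omit [CharZero k] in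
theorem tauM_self (j : Fin m) (l : Fin 3) : tauM φ F j l j = 0 := by simp [tauM]

/-- The scalar equations hold. -/
theorem Sol1.eqs (h : Sol1 φ F T) : Eqs φ F where
  A0 j := by
    rw [← h.h0, ← Finset.add_sum_erase _ _ (Finset.mem_univ j), ← Finset.add_sum_erase _
      (fun i => tauP φ F j 2 i) (Finset.mem_univ j), tauP_self, zero_add, h.sq2]
    congr 1
    refine Finset.sum_congr rfl fun i hi => ?_
    rw [h.tauP_eq (Finset.ne_of_mem_erase hi)]; rfl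
  B0 j := by
    rw [← h.h0, ← Finset.add_sum_erase _ _ (Finset.mem_univ j), ← Finset.add_sum_erase _
      (fun i => tauM φ F j 1 i) (Finset.mem_univ j), tauM_self, zero_add, h.sq1]
    congr 1
    refine Finset.sum_congr rfl fun i hi => ?_
    rw [h.tauM_eq (Finset.ne_of_mem_erase hi)]; rfl
  A1 j := by
    rw [← h.h1, ← Finset.add_sum_erase _ _ (Finset.mem_univ j), ← Finset.add_sum_erase _
      (fun i => tauP φ F j 0 i) (Finset.mem_univ j), tauP_self, zero_add, h.sq2]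
    congr 1
    · congr 1
      refine Finset.sum_congr rfl fun i hi => ?_
      rw [h.tauP_eq (Finset.ne_of_mem_erase hi)]; rfl
    · exact Finset.sum_congr rfl fun s _ => h.x0_z j s
  B1 j := by
    rw [← h.h1, ← Finset.add_sum_erase _ _ (Finset.mem_univ j), ← Finset.add_sum_erase _
      (fun i => tauM φ F j 2 i) (Finset.mem_univ j), tauM_self, zero_add, h.sq1]
    congr 1
    · congr 1
      refine Finset.sum_congr rfl fun i hi => ?_
      rw [h.tauM_eq (Finset.ne_of_mem_erase hi)]; rfl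
    · exact Finset.sum_congr rfl fun s _ => h.x2_z j s
  C j := by
    rw [← h.h0, ← h.h1, ← Finset.add_sum_erase _ _ (Finset.mem_univ j),
      ← Finset.add_sum_erase _ (fun i => T (xx j 1) (xx i 2) (xx i 0)) (Finset.mem_univ j),
      ← Finset.add_sum_erase _ (fun i => tauD φ F j 0 i - tauD φ F j 1 i) (Finset.mem_univ j),
      tauD_self, tauD_self, Finset.sum_sub_distrib]
    have e1 : ∑ i ∈ Finset.univ.erase j, tauD φ F j 0 i =
        ∑ i ∈ Finset.univ.erase j, T (xx j 0) (xx i 1) (xx i 2) :=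
      Finset.sum_congr rfl fun i hi => by rw [h.tauD_eq (Finset.ne_of_mem_erase hi)]; rfl
    have e2 : ∑ i ∈ Finset.univ.erase j, tauD φ F j 1 i =
        ∑ i ∈ Finset.univ.erase j, T (xx j 1) (xx i 2) (xx i 0) :=
      Finset.sum_congr rfl fun i hi => by rw [h.tauD_eq (Finset.ne_of_mem_erase hi)]; rfl
    have e3 : ∑ s, (ff F (zz s 0) (φ.q j s 0) - ff F (xx j 0) (φ.s (zz s 0))) =
        ∑ s, T (xx j 1) (zz s 0) (zz s 1) := Finset.sum_congr rfl fun s _ => (h.x1_z j s).symm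
    rw [e1, e2, e3, h.sym.p231 (xx j 0) (xx j 1) (xx j 2)]
    ring
  sg j s := by rw [← h.x1_z, h.x1_z']
  Z1 s := by
    rw [← h.h0]
    exact Finset.sum_congr rfl fun i _ => h.z0_12 i s
  Z2 s := by
    rw [← h.h0]
    exact Finset.sum_congr rfl fun i _ => h.z1_12 i s
  Z3 s := by
    rw [← h.h1, add_assoc]
    congr 1
    · exact Finset.sum_congr rfl fun i _ => h.z0_20 i s
    · rw [← Finset.add_sum_erase _ _ (Finset.mem_univ s), ← Finset.add_sum_erase _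
        (fun s' => if s = s' then (0 : k) else ff F (zz s' 1) (φ.e s s' 0)) (Finset.mem_univ s),
        h.sq1, if_pos rfl, zero_add]
      congr 1
      refine Finset.sum_congr rfl fun s' hs' => ?_
      have hne := (Finset.ne_of_mem_erase hs').symm
      rw [if_neg hne, h.zz_z0 hne]
  Z4 s := by
    rw [← h.h1, add_assoc]
    congr 1
    · exact Finset.sum_congr rfl fun i _ => h.z1_20 i s
    · rw [← Finset.add_sum_erase _ _ (Finset.mem_univ s), ← Finset.add_sum_erase _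
        (fun s' => if s = s' then (0 : k) else ff F (zz s' 0) (φ.e s s' 1)) (Finset.mem_univ s),
        h.sq2, if_pos rfl, zero_add]
      congr 1
      refine Finset.sum_congr rfl fun s' hs' => ?_
      have hne := (Finset.ne_of_mem_erase hs').symm
      rw [if_neg hne, h.zz_z1 hne]
  u s s' hs b := by rw [← h.e _ s s' hs b, ← h.sq (zz s' b) (zz s b), h.sym.p312]

end

end Pool.Agent.VCC
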