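import Pool.Agent.VCC.Base

/-!
# Functionals supported on a pair of blocks, and the dual conditions
-/

set_option autoImplicit false

namespace Pool.Agent.VCC

variable {m t : ℕ} {k : Type*} [Field k]

/-! ### two 3-blocks -/

/-- The functional with matrix `M` (rows: block `j`, columns: block `c`), `j ≠ c`. -/
def pf (j c : Fin m) (M : Fin 3 → Fin 3 → k) : Ix m t → Ix m t → k
  | Sum.inl (i, a), Sum.inl (i', b) =>
      if i = j ∧ i' = c then M a b else if i = c ∧ i' = j then M b a else 0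
  | _, _ => 0

/-- `M` is orthogonal to `W_{cj}`, `c < j` (`β = β_j`). -/
def AdG (β : k) (M : Fin 3 → Fin 3 → k) : Prop := ∀ l, M l l + β * M (l + 1) (l + 2) = 0

/-- `M` is orthogonal to `W_{jc}`, `j < c` (`β = β_c`). -/
def AdL (β : k) (M : Fin 3 → Fin 3 → k) : Prop := ∀ l, M l l + β * M (l + 2) (l + 1) = 0

/-- `X` is in `W_{cj}`, `c < j` (`β = β_j`). -/
def WG (β : k) (X : Fin 3 → Fin 3 → k) : Prop :=
  (X 0 2 = 0 ∧ X 1 0 = 0 ∧ X 2 1 = 0) ∧
  (X 0 1 = β * X 2 2 ∧ X 1 2 = β * X 0 0 ∧ X 2 0 = β * X 1 1)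

/-- `X` is in `W_{jc}`, `j < c` (`β = β_c`). -/
def WL (β : k) (X : Fin 3 → Fin 3 → k) : Prop :=
  (X 0 1 = 0 ∧ X 1 2 = 0 ∧ X 2 0 = 0) ∧
  (X 0 2 = β * X 1 1 ∧ X 1 0 = β * X 2 2 ∧ X 2 1 = β * X 0 0)

/-- pairing -/
def pr {p q : ℕ} (M X : Fin p → Fin q → k) : k := ∑ a, ∑ b, M a b * X a b

/-- matrix with two prescribed entries -/
def two {p q : ℕ} (a : Fin p) (b : Fin q) (u : k) (a' : Fin p) (b' : Fin q) (u' : k) :
    Fin p → Fin q → k :=
  fun x y => (if x = a ∧ y = b then u else 0) + (if x = a' ∧ y = b' then u' else 0)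

theorem pr_two {p q : ℕ} (a : Fin p) (b : Fin q) (u : k) (a' : Fin p) (b' : Fin q) (u' : k)
    (X : Fin p → Fin q → k) : pr (two a b u a' b' u') X = u * X a b + u' * X a' b' := by
  have h : ∀ (a : Fin p) (b : Fin q) (u : k),
      ∑ x, ∑ y, (if x = a ∧ y = b then u else 0) * X x y = u * X a b := by
    intro a b u
    rw [Finset.sum_eq_single a, Finset.sum_eq_single b]
    · simp
    · intro y _ hy; simp [hy]
    · simp
    · intro x _ hx
      exact Finset.sum_eq_zero fun y _ => by simp [hx]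
    · simp
  simp only [pr, two, add_mul, Finset.sum_add_distrib, h]

theorem WG_of {β : k} {X : Fin 3 → Fin 3 → k} (h : ∀ M, AdG β M → pr M X = 0) : WG β X := by
  have h1 : ∀ s : Fin 3, X s (s + 2) = 0 := by
    intro s
    have := h (two s (s + 2) 1 s (s + 2) 0) (by
      intro l; fin_cases s <;> fin_cases l <;> simp [two])
    rw [pr_two] at this
    linear_combination this
  have h2 : ∀ s : Fin 3, X (s + 1) (s + 2) = β * X s s := by
    intro s
    have := h (two (s + 1) (s + 2) 1 s s (-β)) (by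
      intro l; fin_cases s <;> fin_cases l <;> simp [two])
    rw [pr_two] at this
    linear_combination this
  exact ⟨⟨h1 0, h1 1, h1 2⟩, ⟨h2 2, h2 0, h2 1⟩⟩

theorem WL_of {β : k} {X : Fin 3 → Fin 3 → k} (h : ∀ M, AdL β M → pr M X = 0) : WL β X := by
  have h1 : ∀ s : Fin 3, X s (s + 1) = 0 := by
    intro s
    have := h (two s (s + 1) 1 s (s + 1) 0) (by
      intro l; fin_cases s <;> fin_cases l <;> simp [two])
    rw [pr_two] at this
    linear_combination this
  have h2 : ∀ s : Fin 3, X (s + 2) (s + 1) = β * X s s := by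
    intro s
    have := h (two (s + 2) (s + 1) 1 s s (-β)) (by
      intro l; fin_cases s <;> fin_cases l <;> simp [two])
    rw [pr_two] at this
    linear_combination this
  exact ⟨⟨h1 0, h1 1, h1 2⟩, ⟨h2 1, h2 2, h2 0⟩⟩

theorem ff_pf_row {j c : Fin m} (hjc : j ≠ c) (M : Fin 3 → Fin 3 → k) (a : Fin 3)
    (u : Ix m t → k) : ff (pf j c M) (xx j a) u = ∑ b, M a b * u (xx c b) := by
  rw [ff, Fintype.sum_sum_type, Fintype.sum_prod_type]
  have h2 : ∑ x : Fin t × Fin 2, pf j c M (xx j a) (Sum.inr x : Ix m t) * u (Sum.inr x) = 0 :=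
    Finset.sum_eq_zero fun x _ => by simp [pf]
  rw [h2, add_zero, Finset.sum_eq_single c]
  · exact Finset.sum_congr rfl fun b _ => by simp [pf]
  · intro i _ hi
    exact Finset.sum_eq_zero fun b _ => by simp [pf, hi, hjc]
  · simp

theorem ff_pf_col {j c : Fin m} (hjc : j ≠ c) (M : Fin 3 → Fin 3 → k) (b : Fin 3)
    (u : Ix m t → k) : ff (pf j c M) (xx c b) u = ∑ a, M a b * u (xx j a) := by
  rw [ff, Fintype.sum_sum_type, Fintype.sum_prod_type]
  have h2 : ∑ x : Fin t × Fin 2, pf j c M (xx c b) (Sum.inr x : Ix m t) * u (Sum.inr x) = 0 :=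
    Finset.sum_eq_zero fun x _ => by simp [pf]
  rw [h2, add_zero, Finset.sum_eq_single j]
  · exact Finset.sum_congr rfl fun b _ => by simp [pf, hjc.symm]
  · intro i _ hi
    exact Finset.sum_eq_zero fun b _ => by simp [pf, hi, hjc.symm]
  · simp

theorem ff_pf_other {j c i : Fin m} (h1 : i ≠ j) (h2 : i ≠ c) (M : Fin 3 → Fin 3 → k) (b : Fin 3)
    (u : Ix m t → k) : ff (pf j c M) (xx i b) u = 0 := by
  rw [ff, Fintype.sum_sum_type, Fintype.sum_prod_type]
  have h3 : ∑ x : Fin t × Fin 2, pf j c M (xx i b) (Sum.inr x : Ix m t) * u (Sum.inr x) = 0 :=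
    Finset.sum_eq_zero fun x _ => by simp [pf]
  rw [h3, add_zero]
  exact Finset.sum_eq_zero fun i' _ => Finset.sum_eq_zero fun b _ => by simp [pf, h1, h2]

theorem ff_pf_z {j c : Fin m} (M : Fin 3 → Fin 3 → k) (s : Fin t) (b : Fin 2)
    (u : Ix m t → k) : ff (pf j c M) (zz s b) u = 0 :=
  Finset.sum_eq_zero fun y _ => by rcases y with y | y <;> simp [pf]

theorem pf_symm {j c : Fin m} (hjc : j ≠ c) (M : Fin 3 → Fin 3 → k) (x y : Ix m t) :
    pf j c M x y = pf j c M y x := by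
  rcases x with ⟨i, a⟩ | ⟨s, a⟩ <;> rcases y with ⟨i', b⟩ | ⟨s', b⟩
  · simp only [pf]
    by_cases h1 : i = j ∧ i' = c
    · obtain ⟨rfl, rfl⟩ := h1
      simp [hjc, hjc.symm]
    · by_cases h2 : i = c ∧ i' = j
      · obtain ⟨rfl, rfl⟩ := h2
        simp [hjc]
      · rw [if_neg h1, if_neg h2, if_neg (by tauto), if_neg (by tauto)]
  · rfl
  · rfl
  · rfl

theorem pf_min1_gt {j c : Fin m} (hjc : c < j) {M : Fin 3 → Fin 3 → k} (hM : AdG (be k j) M) :
    InMin1 (pf j c M : Ix m t → Ix m t → k) where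
  symm := pf_symm hjc.ne' M
  w i i' hi l := by
    simp only [xx, pf]
    by_cases h1 : i = c ∧ i' = j
    · obtain ⟨rfl, rfl⟩ := h1
      rw [if_neg (by simp [hjc.ne]), if_pos (by simp), if_neg (by simp [hjc.ne]),
        if_pos (by simp)]
      exact hM l
    · have h2 : ¬ (i = j ∧ i' = c) := by
        rintro ⟨rfl, rfl⟩
        exact absurd hi (not_lt.2 hjc.le)
      rw [if_neg h2, if_neg h1, if_neg h2, if_neg h1]
      ring
  q0 i s := by simp [pf]
  q1 i s := by simp [pf]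
  e s s' h b := by simp [pf]
  dx i a b := by
    simp only [xx, pf]
    rw [if_neg (by rintro ⟨rfl, h⟩; exact hjc.ne' h), if_neg (by rintro ⟨rfl, h⟩; exact hjc.ne h)]
  dz s a b := by simp [pf]

theorem pf_min1_lt {j c : Fin m} (hjc : j < c) {M : Fin 3 → Fin 3 → k} (hM : AdL (be k c) M) :
    InMin1 (pf j c M : Ix m t → Ix m t → k) where
  symm := pf_symm hjc.ne M
  w i i' hi l := by
    simp only [xx, pf]
    by_cases h1 : i = j ∧ i' = c
    · obtain ⟨rfl, rfl⟩ := h1
      rw [if_pos (by simp), if_pos (by simp)]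
      exact hM l
    · have h2 : ¬ (i = c ∧ i' = j) := by
        rintro ⟨rfl, rfl⟩
        exact absurd hi (not_lt.2 hjc.le)
      rw [if_neg h1, if_neg h2, if_neg h1, if_neg h2]
      ring
  q0 i s := by simp [pf]
  q1 i s := by simp [pf]
  e s s' h b := by simp [pf]
  dx i a b := by
    simp only [xx, pf]
    rw [if_neg (by rintro ⟨rfl, h⟩; exact hjc.ne h), if_neg (by rintro ⟨rfl, h⟩; exact hjc.ne' h)]
  dz s a b := by simp [pf]

/-! ### a 3-block and a 2-block -/

/-- The functional with matrix `M` (rows: 3-block `j`, columns: 2-block `s`). -/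
def pz (j : Fin m) (s : Fin t) (M : Fin 3 → Fin 2 → k) : Ix m t → Ix m t → k
  | Sum.inl (i, a), Sum.inr (s', b) => if i = j ∧ s' = s then M a b else 0
  | Sum.inr (s', b), Sum.inl (i, a) => if i = j ∧ s' = s then M a b else 0
  | _, _ => 0

/-- `M` is orthogonal to `W_{js}`. -/
def AdZ (M : Fin 3 → Fin 2 → k) : Prop := M 0 0 + M 1 1 = 0 ∧ M 1 0 + M 2 1 = 0

/-- `X` is in `W_{js}`. -/
def WZ (X : Fin 3 → Fin 2 → k) : Prop :=
  (X 2 0 = 0 ∧ X 0 1 = 0) ∧ (X 0 0 = X 1 1 ∧ X 1 0 = X 2 1)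

theorem WZ_of {X : Fin 3 → Fin 2 → k} (h : ∀ M, AdZ M → pr M X = 0) : WZ X := by
  have h1 := h (two 2 0 1 2 0 0) (by constructor <;> simp [two])
  have h2 := h (two 0 1 1 0 1 0) (by constructor <;> simp [two])
  have h3 := h (two 0 0 1 1 1 (-1)) (by constructor <;> simp [two])
  have h4 := h (two 1 0 1 2 1 (-1)) (by constructor <;> simp [two])
  rw [pr_two] at h1 h2 h3 h4
  exact ⟨⟨by linear_combination h1, by linear_combination h2⟩,
    ⟨by linear_combination h3, by linear_combination h4⟩⟩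

theorem ff_pz_row (j : Fin m) (s : Fin t) (M : Fin 3 → Fin 2 → k) (a : Fin 3)
    (u : Ix m t → k) : ff (pz j s M) (xx j a) u = ∑ b, M a b * u (zz s b) := by
  rw [ff, Fintype.sum_sum_type, Fintype.sum_prod_type, Fintype.sum_prod_type]
  have h2 : ∑ x : Fin m, ∑ y : Fin 3, pz j s M (xx j a) (Sum.inl (x, y) : Ix m t) *
      u (Sum.inl (x, y)) = 0 :=
    Finset.sum_eq_zero fun x _ => Finset.sum_eq_zero fun y _ => by simp [pz]
  rw [h2, zero_add, Finset.sum_eq_single s]
  · exact Finset.sum_congr rfl fun b _ => by simp [pz]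
  · intro i _ hi
    exact Finset.sum_eq_zero fun b _ => by simp [pz, hi]
  · simp

theorem ff_pz_col (j : Fin m) (s : Fin t) (M : Fin 3 → Fin 2 → k) (b : Fin 2)
    (u : Ix m t → k) : ff (pz j s M) (zz s b) u = ∑ a, M a b * u (xx j a) := by
  rw [ff, Fintype.sum_sum_type, Fintype.sum_prod_type, Fintype.sum_prod_type]
  have h2 : ∑ x : Fin t, ∑ y : Fin 2, pz j s M (zz s b) (Sum.inr (x, y) : Ix m t) *
      u (Sum.inr (x, y)) = 0 :=
    Finset.sum_eq_zero fun x _ => Finset.sum_eq_zero fun y _ => by simp [pz]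
  rw [h2, add_zero, Finset.sum_eq_single j]
  · exact Finset.sum_congr rfl fun b _ => by simp [pz]
  · intro i _ hi
    exact Finset.sum_eq_zero fun b _ => by simp [pz, hi]
  · simp

theorem ff_pz_other {j i : Fin m} (h : i ≠ j) (s : Fin t) (M : Fin 3 → Fin 2 → k) (a : Fin 3)
    (u : Ix m t → k) : ff (pz j s M) (xx i a) u = 0 :=
  Finset.sum_eq_zero fun y _ => by rcases y with ⟨y, b⟩ | ⟨y, b⟩ <;> simp [pz, h]

theorem ff_pz_other' (j : Fin m) {s s' : Fin t} (h : s' ≠ s) (M : Fin 3 → Fin 2 → k) (b : Fin 2)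
    (u : Ix m t → k) : ff (pz j s M) (zz s' b) u = 0 :=
  Finset.sum_eq_zero fun y _ => by rcases y with ⟨y, b⟩ | ⟨y, b⟩ <;> simp [pz, h]

theorem pz_min1 (j : Fin m) (s : Fin t) {M : Fin 3 → Fin 2 → k} (hM : AdZ M) :
    InMin1 (pz j s M : Ix m t → Ix m t → k) where
  symm x y := by
    rcases x with ⟨i, a⟩ | ⟨s, a⟩ <;> rcases y with ⟨i', b⟩ | ⟨s', b⟩ <;> simp [pz]
  w i i' hi l := by simp [pz]
  q0 i s' := by
    simp only [xx, zz, pz]
    by_cases h : i = j ∧ s' = s
    · rw [if_pos h, if_pos h]; exact hM.1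
    · rw [if_neg h, if_neg h]; ring
  q1 i s' := by
    simp only [xx, zz, pz]
    by_cases h : i = j ∧ s' = s
    · rw [if_pos h, if_pos h]; exact hM.2
    · rw [if_neg h, if_neg h]; ring
  e s s' h b := by simp [pz]
  dx i a b := by simp [pz]
  dz s a b := by simp [pz]

/-! ### two 2-blocks -/

/-- The functional with matrix `M` (rows: 2-block `s`, columns: 2-block `s'`), `s ≠ s'`. -/
def pzz (s s' : Fin t) (M : Fin 2 → Fin 2 → k) : Ix m t → Ix m t → k
  | Sum.inr (i, a), Sum.inr (i', b) =>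
      if i = s ∧ i' = s' then M a b else if i = s' ∧ i' = s then M b a else 0
  | _, _ => 0

/-- `M` is orthogonal to `W_{ZZ'}`. -/
def AdY (M : Fin 2 → Fin 2 → k) : Prop := M 0 0 = 0 ∧ M 1 1 = 0

theorem WY_of {X : Fin 2 → Fin 2 → k} (h : ∀ M, AdY M → pr M X = 0) : X 0 1 = 0 ∧ X 1 0 = 0 := by
  have h1 := h (two 0 1 1 0 1 0) (by constructor <;> simp [two])
  have h2 := h (two 1 0 1 1 0 0) (by constructor <;> simp [two])
  rw [pr_two] at h1 h2
  exact ⟨by linear_combination h1, by linear_combination h2⟩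

theorem ff_pzz_row {s s' : Fin t} (h : s ≠ s') (M : Fin 2 → Fin 2 → k) (a : Fin 2)
    (u : Ix m t → k) : ff (pzz s s' M) (zz s a) u = ∑ b, M a b * u (zz s' b) := by
  rw [ff, Fintype.sum_sum_type, Fintype.sum_prod_type, Fintype.sum_prod_type]
  have h2 : ∑ x : Fin m, ∑ y : Fin 3, pzz s s' M (zz s a) (Sum.inl (x, y) : Ix m t) *
      u (Sum.inl (x, y)) = 0 :=
    Finset.sum_eq_zero fun x _ => Finset.sum_eq_zero fun y _ => by simp [pzz]
  rw [h2, zero_add, Finset.sum_eq_single s']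
  · exact Finset.sum_congr rfl fun b _ => by simp [pzz]
  · intro i _ hi
    exact Finset.sum_eq_zero fun b _ => by simp [pzz, hi, h]
  · simp

theorem ff_pzz_col {s s' : Fin t} (h : s ≠ s') (M : Fin 2 → Fin 2 → k) (b : Fin 2)
    (u : Ix m t → k) : ff (pzz s s' M) (zz s' b) u = ∑ a, M a b * u (zz s a) := by
  rw [ff, Fintype.sum_sum_type, Fintype.sum_prod_type, Fintype.sum_prod_type]
  have h2 : ∑ x : Fin m, ∑ y : Fin 3, pzz s s' M (zz s' b) (Sum.inl (x, y) : Ix m t) *
      u (Sum.inl (x, y)) = 0 :=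
    Finset.sum_eq_zero fun x _ => Finset.sum_eq_zero fun y _ => by simp [pzz]
  rw [h2, zero_add, Finset.sum_eq_single s]
  · exact Finset.sum_congr rfl fun b _ => by simp [pzz, h.symm]
  · intro i _ hi
    exact Finset.sum_eq_zero fun b _ => by simp [pzz, hi, h.symm]
  · simp

theorem ff_pzz_other {s s' i : Fin t} (h1 : i ≠ s) (h2 : i ≠ s') (M : Fin 2 → Fin 2 → k)
    (a : Fin 2) (u : Ix m t → k) : ff (pzz s s' M) (zz i a) u = 0 :=
  Finset.sum_eq_zero fun y _ => by rcases y with ⟨y, b⟩ | ⟨y, b⟩ <;> simp [pzz, h1, h2]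

theorem ff_pzz_x {s s' : Fin t} (M : Fin 2 → Fin 2 → k) (i : Fin m)
    (a : Fin 3) (u : Ix m t → k) : ff (pzz s s' M) (xx i a) u = 0 :=
  Finset.sum_eq_zero fun y _ => by rcases y with ⟨y, b⟩ | ⟨y, b⟩ <;> simp [pzz]

theorem pzz_min1 {s s' : Fin t} (h : s ≠ s') {M : Fin 2 → Fin 2 → k} (hM : AdY M) :
    InMin1 (pzz s s' M : Ix m t → Ix m t → k) where
  symm x y := by
    rcases x with ⟨i, a⟩ | ⟨i, a⟩ <;> rcases y with ⟨i', b⟩ | ⟨i', b⟩
    · rfl
    · rfl
    · rfl
    · simp only [pzz]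
      by_cases h1 : i = s ∧ i' = s'
      · obtain ⟨rfl, rfl⟩ := h1
        simp [h, h.symm]
      · by_cases h2 : i = s' ∧ i' = s
        · obtain ⟨rfl, rfl⟩ := h2
          simp [h]
        · rw [if_neg h1, if_neg h2, if_neg (by tauto), if_neg (by tauto)]
  w i i' hi l := by simp [pzz]
  q0 i s' := by simp [pzz]
  q1 i s' := by simp [pzz]
  e i i' hi b := by
    simp only [zz, pzz]
    have hb : M b b = 0 := by fin_cases b; exacts [hM.1, hM.2]
    split_ifs <;> first | exact hb | rfl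
  dx i a b := by simp [pzz]
  dz i a b := by
    simp only [zz, pzz]
    rw [if_neg (by rintro ⟨rfl, h'⟩; exact h h'), if_neg (by rintro ⟨rfl, h'⟩; exact h.symm h')]

/-! ### transport of the pairing -/

theorem sum_row {p q : ℕ} (M : Fin p → Fin q → k) (a : Fin p) (u : Fin q → k) :
    ∑ b, M a b * u b = pr M (fun x y => if x = a then u y else 0) := by
  unfold pr
  rw [Finset.sum_eq_single a]
  · exact Finset.sum_congr rfl fun b _ => by simp
  · intro i _ hi
    exact Finset.sum_eq_zero fun b _ => by simp [hi]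
  · simp

theorem sum_col {p q : ℕ} (M : Fin p → Fin q → k) (b : Fin q) (u : Fin p → k) :
    ∑ a, M a b * u a = pr M (fun x y => if y = b then u x else 0) := by
  unfold pr
  refine Finset.sum_congr rfl fun a _ => ?_
  rw [Finset.sum_eq_single b]
  · simp
  · intro i _ hi
    simp [hi]
  · simp

theorem pr_add {p q : ℕ} (M X Y : Fin p → Fin q → k) : pr M (X + Y) = pr M X + pr M Y := by
  simp [pr, mul_add, Finset.sum_add_distrib]

theorem pr_sub {p q : ℕ} (M X Y : Fin p → Fin q → k) : pr M (X - Y) = pr M X - pr M Y := by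
  simp [pr, mul_sub, Finset.sum_sub_distrib]

theorem pr_smul {p q : ℕ} (M X : Fin p → Fin q → k) (c : k) : pr M (c • X) = c * pr M X := by
  simp only [pr, Pi.smul_apply, smul_eq_mul, Finset.mul_sum]
  exact Finset.sum_congr rfl fun a _ => Finset.sum_congr rfl fun b _ => by ring

end Pool.Agent.VCC
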