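import Pool.Agent.VCC.Base2

/-!
# Translations, normalisation, and the data of chain 2
-/

set_option autoImplicit false

namespace Pool.Agent.VCC

variable {m t : ℕ} {k : Type*} [Field k]

/-! ### Chain 1: normalised data and the vanishing statement -/

/-- Normalised data (a translation has been subtracted). -/
structure Nrm1 (φ : Dat m t k) : Prop where
  es : ∀ s s' b, φ.e s s' b = φ.e s' s b
  n1 : ∀ i, φ.g0 (xx i 1) = 0
  n2 : ∀ i, φ.g0 (xx i 2) = 0
  n3 : ∀ i, φ.g1 (xx i 2) = 0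
  n4 : ∀ s b, φ.g1 (zz s b) = 0

/-- All the values vanish. -/
structure Zero1 (φ : Dat m t k) : Prop where
  s : ∀ x y, φ.s x y = 0
  p : ∀ i j, i < j → ∀ c x, φ.p i j c x = 0
  q : ∀ i s d x, φ.q i s d x = 0
  e : ∀ s s', s ≠ s' → ∀ b x, φ.e s s' b x = 0
  g0 : ∀ x, φ.g0 x = 0
  g1 : ∀ x, φ.g1 x = 0

/-- The scalar equations hold for all the functionals. -/
def HypE (φ : Dat m t k) : Prop := ∀ F, InMin1 F → Eqs φ F

theorem Hyp1.hypE [CharZero k] {φ : Dat m t k} (h : Hyp1 φ) : HypE φ := fun F hF =>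
  let ⟨_, hT⟩ := h F hF
  hT.eqs

/-! ### Chain 2 -/

/-- The values of a linear map on the generators of `W_min2 = W_max1`. -/
structure Dat2 (m t : ℕ) (k : Type*) where
  /-- value on `x_{i,a} x_{i,b}` -/
  s2 : Fin m → Fin 3 → Fin 3 → Ix m t → k
  /-- value on `z_{s,a} z_{s,b}` -/
  z2 : Fin t → Fin 2 → Fin 2 → Ix m t → k
  /-- value on `w^{ij}_c`, `i < j` -/
  p : Fin m → Fin m → Fin 3 → Ix m t → k
  /-- value on `w^{is}_d` -/
  q : Fin m → Fin t → Fin 2 → Ix m t → k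
  /-- value on `z_{s,b} z_{s',b}`, `s ≠ s'` -/
  e : Fin t → Fin t → Fin 2 → Ix m t → k

/-- `T` is the cubic form witnessing the linear condition of chain 2 for the functional `F`. -/
structure Sol2 (φ : Dat2 m t k) (F : Ix m t → Ix m t → k) (T : Ix m t → Ix m t → Ix m t → k) :
    Prop where
  sym : TSym T
  s2 : ∀ x i a b, T x (xx i a) (xx i b) = ff F x (φ.s2 i a b)
  z2 : ∀ x s a b, T x (zz s a) (zz s b) = ff F x (φ.z2 s a b)
  p : ∀ x i j, i < j → ∀ c, T x (xx i c) (xx j c) + be k j * T x (xx i (c + 2)) (xx j (c + 1)) =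
    ff F x (φ.p i j c)
  q0 : ∀ x i s, T x (xx i 0) (zz s 0) + T x (xx i 1) (zz s 1) = ff F x (φ.q i s 0)
  q1 : ∀ x i s, T x (xx i 1) (zz s 0) + T x (xx i 2) (zz s 1) = ff F x (φ.q i s 1)
  e : ∀ x s s', s ≠ s' → ∀ b, T x (zz s b) (zz s' b) = ff F x (φ.e s s' b)

/-- The linear condition of chain 2 in terms of the generators. -/
def Hyp2 (φ : Dat2 m t k) : Prop := ∀ F, InMin2 F → ∃ T, Sol2 φ F T

/-- The scalar equations of chain 2. -/
structure Eqs2 (φ : Dat2 m t k) (F : Ix m t → Ix m t → k) : Prop where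
  E1 : ∀ i a b c, ff F (xx i a) (φ.s2 i b c) = ff F (xx i b) (φ.s2 i a c)
  E2 : ∀ i j, i < j → ∀ d c, ff F (xx j c) (φ.s2 i d c) +
    be k j * ff F (xx j (c + 1)) (φ.s2 i d (c + 2)) = ff F (xx i d) (φ.p i j c)
  E2' : ∀ i j, i < j → ∀ d c, ff F (xx i c) (φ.s2 j d c) +
    be k j * ff F (xx i (c + 2)) (φ.s2 j d (c + 1)) = ff F (xx j d) (φ.p i j c)
  E3 : ∀ i s c, ff F (zz s 0) (φ.s2 i c 0) + ff F (zz s 1) (φ.s2 i c 1) =
    ff F (xx i c) (φ.q i s 0)
  E4 : ∀ i s c, ff F (zz s 0) (φ.s2 i c 1) + ff F (zz s 1) (φ.s2 i c 2) =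
    ff F (xx i c) (φ.q i s 1)
  E5 : ∀ i s d, ff F (xx i 0) (φ.z2 s d 0) + ff F (xx i 1) (φ.z2 s d 1) =
    ff F (zz s d) (φ.q i s 0)
  E6 : ∀ i s d, ff F (xx i 1) (φ.z2 s d 0) + ff F (xx i 2) (φ.z2 s d 1) =
    ff F (zz s d) (φ.q i s 1)
  E7 : ∀ s s', s ≠ s' → ∀ d b, ff F (zz s d) (φ.e s s' b) = ff F (zz s' b) (φ.z2 s d b)

theorem Sol2.eqs {φ : Dat2 m t k} {F : Ix m t → Ix m t → k} {T : Ix m t → Ix m t → Ix m t → k}
    (h : Sol2 φ F T) : Eqs2 φ F where
  E1 i a b c := by rw [← h.s2, ← h.s2, h.sym.p213]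
  E2 i j hij d c := by
    rw [← h.s2, ← h.s2, ← h.p _ i j hij c, h.sym.p231 (xx j c) (xx i d) (xx i c),
      h.sym.p231 (xx j (c + 1)) (xx i d) (xx i (c + 2))]
  E2' i j hij d c := by
    rw [← h.s2, ← h.s2, ← h.p _ i j hij c, h.sym.p213 (xx i c) (xx j d) (xx j c),
      h.sym.p213 (xx i (c + 2)) (xx j d) (xx j (c + 1))]
  E3 i s c := by
    rw [← h.s2, ← h.s2, ← h.q0, h.sym.p231 (zz s 0) (xx i c) (xx i 0),
      h.sym.p231 (zz s 1) (xx i c) (xx i 1)]
  E4 i s c := by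
    rw [← h.s2, ← h.s2, ← h.q1, h.sym.p231 (zz s 0) (xx i c) (xx i 1),
      h.sym.p231 (zz s 1) (xx i c) (xx i 2)]
  E5 i s d := by
    rw [← h.z2, ← h.z2, ← h.q0, h.sym.p213 (xx i 0) (zz s d) (zz s 0),
      h.sym.p213 (xx i 1) (zz s d) (zz s 1)]
  E6 i s d := by
    rw [← h.z2, ← h.z2, ← h.q1, h.sym.p213 (xx i 1) (zz s d) (zz s 0),
      h.sym.p213 (xx i 2) (zz s d) (zz s 1)]
  E7 s s' hs d b := by
    rw [← h.z2, ← h.e _ s s' hs b, h.sym.p231 (zz s' b) (zz s d) (zz s b)]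

/-- The scalar equations of chain 2 hold for all the functionals. -/
def HypE2 (φ : Dat2 m t k) : Prop := ∀ F, InMin2 F → Eqs2 φ F

theorem Hyp2.hypE {φ : Dat2 m t k} (h : Hyp2 φ) : HypE2 φ := fun F hF =>
  let ⟨_, hT⟩ := h F hF
  hT.eqs

/-- Normalised data of chain 2. -/
structure Nrm2 (φ : Dat2 m t k) : Prop where
  es : ∀ s s' b, φ.e s s' b = φ.e s' s b
  ss : ∀ i a b, φ.s2 i a b = φ.s2 i b a
  zs : ∀ s a b, φ.z2 s a b = φ.z2 s b a
  n1 : ∀ i a, φ.s2 i a (a + 1) (xx i (a + 1)) = 0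
  n2 : ∀ s, φ.z2 s 0 1 (zz s 1) = 0
  n3 : ∀ s, φ.z2 s 0 1 (zz s 0) = 0

/-- All the values vanish. -/
structure Zero2 (φ : Dat2 m t k) : Prop where
  s2 : ∀ i a b x, φ.s2 i a b x = 0
  z2 : ∀ s a b x, φ.z2 s a b x = 0
  p : ∀ i j, i < j → ∀ c x, φ.p i j c x = 0
  q : ∀ i s d x, φ.q i s d x = 0
  e : ∀ s s', s ≠ s' → ∀ b x, φ.e s s' b x = 0

/-! ### The functionals of chain 2 -/

/-- Matrix (rows: block `i`, columns: block `j`, `i < j`) of `N_l`. -/
def mN (β : k) (l : Fin 3) : Fin 3 → Fin 3 → k := two l l β (l + 2) (l + 1) (-1)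

theorem mN_ad (β : k) (l : Fin 3) : AdL β (mN β l) := by
  intro a
  fin_cases l <;> fin_cases a <;> simp [mN, two]

theorem pfN_min2 {i j : Fin m} (hij : i < j) (l : Fin 3) :
    InMin2 (pf i j (mN (be k j) l) : Ix m t → Ix m t → k) where
  toInMin1 := pf_min1_lt hij (mN_ad _ l)
  w' i' j' h c := by
    simp only [pf]
    by_cases h1 : i' = i ∧ j' = j
    · rw [if_pos h1]
      fin_cases l <;> fin_cases c <;> simp [mN, two]
    · have h2 : ¬ (i' = j ∧ j' = i) := by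
        rintro ⟨rfl, rfl⟩
        exact absurd h (not_lt.2 hij.le)
      rw [if_neg h1, if_neg h2]
  qa i' s h := by simp [pf]
  qb i' s h := by simp [pf]

/-- sum of a row of `N_l` -/
theorem mN_row (β : k) (l a : Fin 3) (u : Fin 3 → k) : ∑ b, mN β l a b * u b =
    (if a = l then β * u l else 0) - (if a = l + 2 then u (l + 1) else 0) := by
  fin_cases l <;> fin_cases a <;> simp [mN, two, Fin.sum_univ_three]

/-- sum of a column of `N_l` -/
theorem mN_col (β : k) (l b : Fin 3) (u : Fin 3 → k) : ∑ a, mN β l a b * u a =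
    (if b = l then β * u l else 0) - (if b = l + 1 then u (l + 2) else 0) := by
  fin_cases l <;> fin_cases b <;> simp [mN, two, Fin.sum_univ_three]

/-- pattern A, `F_1` and `F_2` -/
def mA1 : Fin 3 → Fin 2 → k := two 0 0 1 1 1 (-1)
/-- pattern A, `F_2` -/
def mA2 : Fin 3 → Fin 2 → k := two 1 0 1 2 1 (-1)
/-- pattern B, `F_1 - F_3` -/
def mB1 : Fin 3 → Fin 2 → k := mA1 - two 2 0 1 2 0 0
/-- pattern B, `F_2 - F_4` -/
def mB2 : Fin 3 → Fin 2 → k := mA2 - two 0 1 1 0 1 0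

theorem pzA_min2 (i : Fin m) (hi : (i : ℕ) = 0) (s : Fin t) :
    InMin2 (pz i s mA1 : Ix m t → Ix m t → k) ∧ InMin2 (pz i s mA2 : Ix m t → Ix m t → k) := by
  constructor
  · refine { toInMin1 := pz_min1 i s ?_, w' := ?_, qa := ?_, qb := ?_ }
    · constructor <;> simp [mA1, two]
    · intro i' j' h c; simp [pz]
    · intro i' s' h
      simp [pz, mA1, two]
    · intro i' s' h
      have : ¬ (i' = i ∧ s' = s) := by rintro ⟨rfl, -⟩; exact h hi
      simp [pz, this]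
  · refine { toInMin1 := pz_min1 i s ?_, w' := ?_, qa := ?_, qb := ?_ }
    · constructor <;> simp [mA2, two]
    · intro i' j' h c; simp [pz]
    · intro i' s' h
      simp [pz, mA2, two]
    · intro i' s' h
      have : ¬ (i' = i ∧ s' = s) := by rintro ⟨rfl, -⟩; exact h hi
      simp [pz, this]

theorem pzB_min2 (i : Fin m) (hi : (i : ℕ) ≠ 0) (s : Fin t) :
    InMin2 (pz i s mB1 : Ix m t → Ix m t → k) ∧ InMin2 (pz i s mB2 : Ix m t → Ix m t → k) := by
  constructor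
  · refine { toInMin1 := pz_min1 i s ?_, w' := ?_, qa := ?_, qb := ?_ }
    · constructor <;> simp [mB1, mA1, two]
    · intro i' j' h c; simp [pz]
    · intro i' s' h
      have : ¬ (i' = i ∧ s' = s) := by rintro ⟨rfl, -⟩; exact hi h
      simp [pz, this]
    · intro i' s' h
      by_cases h' : i' = i ∧ s' = s
      · obtain ⟨rfl, rfl⟩ := h'
        simp [pz, mB1, mA1, two]
      · simp [pz, h']
  · refine { toInMin1 := pz_min1 i s ?_, w' := ?_, qa := ?_, qb := ?_ }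
    · constructor <;> simp [mB2, mA2, two]
    · intro i' j' h c; simp [pz]
    · intro i' s' h
      have : ¬ (i' = i ∧ s' = s) := by rintro ⟨rfl, -⟩; exact hi h
      simp [pz, this]
    · intro i' s' h
      by_cases h' : i' = i ∧ s' = s
      · obtain ⟨rfl, rfl⟩ := h'
        simp [pz, mB2, mA2, two]
      · simp [pz, h']

theorem pzz_min2 {s s' : Fin t} (h : s ≠ s') {M : Fin 2 → Fin 2 → k} (hM : AdY M) :
    InMin2 (pzz s s' M : Ix m t → Ix m t → k) where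
  toInMin1 := pzz_min1 h hM
  w' i' j' h c := by simp [pzz]
  qa i' s h := by simp [pzz]
  qb i' s h := by simp [pzz]

end Pool.Agent.VCC
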