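import Pool.Agent.HilbPts.NotComp
import Pool.Agent.HilbPts.NonCont
import Pool.Agent.HilbPts.VCPres

/-!
# Very compressed algebras which form a component: definitions

Part L1 : from linear algebra (good structure constants) to components of the Hilbert scheme.
Part L2 : the block spaces of quadrics.
-/

set_option autoImplicit false

namespace Pool.Agent.VCC

/-! ## General linear algebra of trilinear forms -/

section General

variable {k : Type*} [Field k] {ι : Type*}

/-- Totally symmetric in the three arguments. -/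
def TSym (T : ι → ι → ι → k) : Prop :=
  (∀ x y z, T x y z = T y x z) ∧ (∀ x y z, T x y z = T x z y)

/-- No nonzero totally symmetric `T` has all its slices in `𝓕` (that is, `V · W = S³V` for the space
`W` of quadrics annihilated by `𝓕`). -/
def NoCubic (𝓕 : Submodule k (ι → ι → k)) : Prop :=
  ∀ T : ι → ι → ι → k, TSym T → (∀ x, T x ∈ 𝓕) → ∀ x y z, T x y z = 0

/-- The translation by `v`: the coefficient of `x_t` in `∂_v (x_y x_z)`. -/
def transl [DecidableEq ι] (v : ι → k) (t y z : ι) : k :=
  v y * (if z = t then 1 else 0) + v z * (if y = t then 1 else 0)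

/-- The linear condition `T(W_min, W_max) = translations`, with `𝓕min = W_max^⊥` and
`𝓕max = W_min^⊥`.  `lam t y z` is the coefficient of `x_t` in the image of `x_y x_z`. -/
def T1 [DecidableEq ι] [Fintype ι] (𝓕min 𝓕max : Submodule k (ι → ι → k)) : Prop :=
  ∀ lam : ι → ι → ι → k, (∀ t y z, lam t y z = lam t z y) →
    (∀ F ∈ 𝓕min, ∃ G : ι → ι → ι → k, (∀ x, G x ∈ 𝓕max) ∧
      TSym (fun x y z => (∑ t, F x t * lam t y z) + G x y z)) →
    ∃ v : ι → k, ∀ t, (fun y z => lam t y z - transl v t y z) ∈ 𝓕max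

/-- The rows of the members of `𝓕` span (that is, `W` has no linear socle). -/
def RowSpan (𝓕 : Submodule k (ι → ι → k)) : Prop :=
  ∀ 𝓖 : Submodule k (ι → k), (∀ F ∈ 𝓕, ∀ x, F x ∈ 𝓖) → 𝓖 = ⊤

end General

/-! ## Structure constants -/

section Struct

variable {k : Type*} [Field k] {n r : ℕ}

/-- The pairs (linear part, quadratic action) compatible with the multiplication `μ`. -/
def Sol (μ : Fin n → Fin n → Fin r → k) (lam : Fin n → Fin n → Fin n → k)
    (N : Fin n → Fin r → Fin r → k) : Prop :=
  (∀ j l t, lam j l t = lam l j t) ∧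
  ∀ i j l s, (∑ t, lam j l t * μ i t s) + (∑ s', N i s s' * μ j l s') =
    (∑ t, lam i l t * μ j t s) + (∑ s', N j s s' * μ i l s')

/-- The trivial solutions. -/
def Triv (μ : Fin n → Fin n → Fin r → k) (lam : Fin n → Fin n → Fin n → k)
    (N : Fin n → Fin r → Fin r → k) (v : Fin n → k) (θ : Fin r → Fin n → k) : Prop :=
  (∀ j l t, lam j l t = v j * (if l = t then 1 else 0) + v l * (if j = t then 1 else 0) +
    ∑ s, θ s t * μ j l s) ∧
  (∀ i s s', N i s s' = v i * (if s = s' then 1 else 0) - ∑ t, θ s' t * μ i t s)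

/-- All the solutions are trivial. -/
def Good (μ : Fin n → Fin n → Fin r → k) : Prop :=
  ∀ lam N, Sol μ lam N → ∃ v θ, Triv μ lam N v θ

/-- Symmetric. -/
def Sym2' (μ : Fin n → Fin n → Fin r → k) : Prop := ∀ i j s, μ i j s = μ j i s

/-- Normalised: the pairs `b s` are a basis. -/
def Nrm (b : Fin r → Fin n × Fin n) (μ : Fin n → Fin n → Fin r → k) : Prop :=
  ∀ s s', μ (b s).1 (b s).2 s' = if s = s' then 1 else 0

end Struct

/-! ## Block spaces -/

section Blocks

/-- Index type: `m` blocks of three variables, `t` blocks of two variables. -/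
abbrev Ix (m t : ℕ) := (Fin m × Fin 3) ⊕ (Fin t × Fin 2)

variable {m t : ℕ}

/-- variable of a 3-block -/
abbrev xx (i : Fin m) (a : Fin 3) : Ix m t := Sum.inl (i, a)

/-- variable of a 2-block -/
abbrev zz (s : Fin t) (b : Fin 2) : Ix m t := Sum.inr (s, b)

variable (k : Type*) [Field k]

/-- `β_j = j + 2`. -/
def be (j : Fin m) : k := ((j : ℕ) : k) + 2

variable {k}

/-- The conditions common to all the spaces: symmetric, orthogonal to `W_ij`, `W_is`, `W_ZZ'`. -/
structure InBas (F : Ix m t → Ix m t → k) : Prop where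
  symm : ∀ x y, F x y = F y x
  w : ∀ i j, i < j → ∀ c, F (xx i c) (xx j c) + be k j * F (xx i (c + 2)) (xx j (c + 1)) = 0
  q0 : ∀ i s, F (xx i 0) (zz s 0) + F (xx i 1) (zz s 1) = 0
  q1 : ∀ i s, F (xx i 1) (zz s 0) + F (xx i 2) (zz s 1) = 0
  e : ∀ s s', s ≠ s' → ∀ b, F (zz s b) (zz s' b) = 0

/-- `𝓕_max1 = W_min1^⊥`: squares, `h_0`, `h_1`. -/
structure InMax1 (F : Ix m t → Ix m t → k) : Prop extends InBas F where
  sq : ∀ x, F x x = 0
  h0 : ∑ i, F (xx i 1) (xx i 2) = 0
  h1 : ∑ i, F (xx i 2) (xx i 0) + ∑ s, F (zz s 0) (zz s 1) = 0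

/-- `𝓕_min1 = W_max1^⊥ = W_min2^⊥`: zero on the diagonal blocks. -/
structure InMin1 (F : Ix m t → Ix m t → k) : Prop extends InBas F where
  dx : ∀ i a b, F (xx i a) (xx i b) = 0
  dz : ∀ s a b, F (zz s a) (zz s b) = 0

/-- `𝓕_min2 = W_max2^⊥`. -/
structure InMin2 (F : Ix m t → Ix m t → k) : Prop extends InMin1 F where
  w' : ∀ i j, i < j → ∀ c, F (xx i (c + 1)) (xx j (c + 2)) = 0
  qa : ∀ (i : Fin m) (s : Fin t), (i : ℕ) = 0 → F (xx i 2) (zz s 0) = 0 ∧ F (xx i 0) (zz s 1) = 0
  qb : ∀ (i : Fin m) (s : Fin t), (i : ℕ) ≠ 0 → F (xx i 2) (zz s 0) = - F (xx i 0) (zz s 0) ∧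
    F (xx i 0) (zz s 1) = - F (xx i 1) (zz s 0)

theorem InBas.add {F G : Ix m t → Ix m t → k} (hF : InBas F) (hG : InBas G) :
    InBas (F + G) where
  symm x y := by simp only [Pi.add_apply]; rw [hF.symm x y, hG.symm x y]
  w i j h c := by simp only [Pi.add_apply]; linear_combination hF.w i j h c + hG.w i j h c
  q0 i s := by simp only [Pi.add_apply]; linear_combination hF.q0 i s + hG.q0 i s
  q1 i s := by simp only [Pi.add_apply]; linear_combination hF.q1 i s + hG.q1 i s
  e s s' h b := by simp only [Pi.add_apply]; linear_combination hF.e s s' h b + hG.e s s' h b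

theorem InBas.smul {F : Ix m t → Ix m t → k} (c : k) (hF : InBas F) : InBas (c • F) where
  symm x y := by simp only [Pi.smul_apply]; rw [hF.symm x y]
  w i j h a := by simp only [Pi.smul_apply, smul_eq_mul]; linear_combination c * hF.w i j h a
  q0 i s := by simp only [Pi.smul_apply, smul_eq_mul]; linear_combination c * hF.q0 i s
  q1 i s := by simp only [Pi.smul_apply, smul_eq_mul]; linear_combination c * hF.q1 i s
  e s s' h b := by simp only [Pi.smul_apply, smul_eq_mul]; linear_combination c * hF.e s s' h b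

theorem InBas.zero : InBas (0 : Ix m t → Ix m t → k) where
  symm x y := rfl
  w i j h c := by simp
  q0 i s := by simp
  q1 i s := by simp
  e s s' h b := by simp

theorem InMax1.add {F G : Ix m t → Ix m t → k} (hF : InMax1 F) (hG : InMax1 G) :
    InMax1 (F + G) where
  toInBas := hF.toInBas.add hG.toInBas
  sq x := by simp only [Pi.add_apply]; linear_combination hF.sq x + hG.sq x
  h0 := by
    simp only [Pi.add_apply, Finset.sum_add_distrib]; linear_combination hF.h0 + hG.h0
  h1 := by
    simp only [Pi.add_apply, Finset.sum_add_distrib]; linear_combination hF.h1 + hG.h1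

theorem InMax1.smul {F : Ix m t → Ix m t → k} (c : k) (hF : InMax1 F) : InMax1 (c • F) where
  toInBas := hF.toInBas.smul c
  sq x := by simp only [Pi.smul_apply, smul_eq_mul]; linear_combination c * hF.sq x
  h0 := by
    simp only [Pi.smul_apply, smul_eq_mul, ← Finset.mul_sum]; linear_combination c * hF.h0
  h1 := by
    simp only [Pi.smul_apply, smul_eq_mul, ← Finset.mul_sum]; linear_combination c * hF.h1

theorem InMin1.add {F G : Ix m t → Ix m t → k} (hF : InMin1 F) (hG : InMin1 G) :
    InMin1 (F + G) where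
  toInBas := hF.toInBas.add hG.toInBas
  dx i a b := by simp only [Pi.add_apply]; linear_combination hF.dx i a b + hG.dx i a b
  dz i a b := by simp only [Pi.add_apply]; linear_combination hF.dz i a b + hG.dz i a b

theorem InMin1.smul {F : Ix m t → Ix m t → k} (c : k) (hF : InMin1 F) : InMin1 (c • F) where
  toInBas := hF.toInBas.smul c
  dx i a b := by simp only [Pi.smul_apply, smul_eq_mul]; linear_combination c * hF.dx i a b
  dz i a b := by simp only [Pi.smul_apply, smul_eq_mul]; linear_combination c * hF.dz i a b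

theorem InMin2.add {F G : Ix m t → Ix m t → k} (hF : InMin2 F) (hG : InMin2 G) :
    InMin2 (F + G) where
  toInMin1 := hF.toInMin1.add hG.toInMin1
  w' i j h c := by simp only [Pi.add_apply]; linear_combination hF.w' i j h c + hG.w' i j h c
  qa i s h := by
    simp only [Pi.add_apply]
    exact ⟨by linear_combination (hF.qa i s h).1 + (hG.qa i s h).1,
      by linear_combination (hF.qa i s h).2 + (hG.qa i s h).2⟩
  qb i s h := by
    simp only [Pi.add_apply]
    exact ⟨by linear_combination (hF.qb i s h).1 + (hG.qb i s h).1,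
      by linear_combination (hF.qb i s h).2 + (hG.qb i s h).2⟩

theorem InMin2.smul {F : Ix m t → Ix m t → k} (c : k) (hF : InMin2 F) : InMin2 (c • F) where
  toInMin1 := hF.toInMin1.smul c
  w' i j h a := by simp only [Pi.smul_apply, smul_eq_mul]; linear_combination c * hF.w' i j h a
  qa i s h := by
    simp only [Pi.smul_apply, smul_eq_mul]
    exact ⟨by linear_combination c * (hF.qa i s h).1, by linear_combination c * (hF.qa i s h).2⟩
  qb i s h := by
    simp only [Pi.smul_apply, smul_eq_mul]
    exact ⟨by linear_combination c * (hF.qb i s h).1, by linear_combination c * (hF.qb i s h).2⟩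

variable (m t k)

/-- `𝓕_max1` as a submodule. -/
def Fmax1 : Submodule k (Ix m t → Ix m t → k) where
  carrier := {F | InMax1 F}
  add_mem' := fun hF hG => InMax1.add hF hG
  zero_mem' := show InMax1 0 from
    { toInBas := InBas.zero, sq := by simp, h0 := by simp, h1 := by simp }
  smul_mem' := fun c _ hF => InMax1.smul c hF

/-- `𝓕_min1` as a submodule. -/
def Fmin1 : Submodule k (Ix m t → Ix m t → k) where
  carrier := {F | InMin1 F}
  add_mem' := fun hF hG => InMin1.add hF hG
  zero_mem' := show InMin1 0 from { toInBas := InBas.zero, dx := by simp, dz := by simp }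
  smul_mem' := fun c _ hF => InMin1.smul c hF

/-- `𝓕_min2` as a submodule. -/
def Fmin2 : Submodule k (Ix m t → Ix m t → k) where
  carrier := {F | InMin2 F}
  add_mem' := fun hF hG => InMin2.add hF hG
  zero_mem' := show InMin2 0 from
    { toInMin1 := { toInBas := InBas.zero, dx := by simp, dz := by simp }
      w' := by simp, qa := by simp, qb := by simp }
  smul_mem' := fun c _ hF => InMin2.smul c hF

variable {m t k}

theorem mem_Fmax1 {F : Ix m t → Ix m t → k} : F ∈ Fmax1 m t k ↔ InMax1 F := Iff.rfl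
theorem mem_Fmin1 {F : Ix m t → Ix m t → k} : F ∈ Fmin1 m t k ↔ InMin1 F := Iff.rfl
theorem mem_Fmin2 {F : Ix m t → Ix m t → k} : F ∈ Fmin2 m t k ↔ InMin2 F := Iff.rfl

theorem Fmin1_le_Fmax1 : Fmin1 m t k ≤ Fmax1 m t k := by
  intro F hF
  have hF : InMin1 F := hF
  exact
    { toInBas := hF.toInBas
      sq := by
        rintro (⟨i, a⟩ | ⟨s, a⟩)
        · exact hF.dx i a a
        · exact hF.dz s a a
      h0 := Finset.sum_eq_zero fun i _ => hF.dx i 1 2
      h1 := by
        rw [Finset.sum_eq_zero fun i _ => hF.dx i 2 0, Finset.sum_eq_zero fun s _ => hF.dz s 0 1,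
          add_zero] }

theorem Fmin2_le_Fmin1 : Fmin2 m t k ≤ Fmin1 m t k := fun _ hF => InMin2.toInMin1 hF

/-! ### The data of a linear map on the generators -/

/-- The values of a linear map on the generators of `W_min1`, as vectors (coefficients of the
variables). -/
structure Dat (m t : ℕ) (k : Type*) where
  /-- value on the square of a variable -/
  s : Ix m t → Ix m t → k
  /-- value on `w^{ij}_c`, `i < j` -/
  p : Fin m → Fin m → Fin 3 → Ix m t → k
  /-- value on `w^{is}_d` -/
  q : Fin m → Fin t → Fin 2 → Ix m t → k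
  /-- value on `z_{s,b} z_{s',b}`, `s ≠ s'` -/
  e : Fin t → Fin t → Fin 2 → Ix m t → k
  /-- value on `h_0` -/
  g0 : Ix m t → k
  /-- value on `h_1` -/
  g1 : Ix m t → k

/-- `f(x, u)`. -/
def ff (F : Ix m t → Ix m t → k) (x : Ix m t) (u : Ix m t → k) : k := ∑ y, F x y * u y

/-- `T` is the cubic form witnessing the linear condition for the functional `F`. -/
structure Sol1 (φ : Dat m t k) (F : Ix m t → Ix m t → k) (T : Ix m t → Ix m t → Ix m t → k) :
    Prop where
  sym : TSym T
  sq : ∀ x y, T x y y = ff F x (φ.s y)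
  p : ∀ x i j, i < j → ∀ c, T x (xx i c) (xx j c) + be k j * T x (xx i (c + 2)) (xx j (c + 1)) =
    ff F x (φ.p i j c)
  q0 : ∀ x i s, T x (xx i 0) (zz s 0) + T x (xx i 1) (zz s 1) = ff F x (φ.q i s 0)
  q1 : ∀ x i s, T x (xx i 1) (zz s 0) + T x (xx i 2) (zz s 1) = ff F x (φ.q i s 1)
  e : ∀ x s s', s ≠ s' → ∀ b, T x (zz s b) (zz s' b) = ff F x (φ.e s s' b)
  h0 : ∀ x, ∑ i, T x (xx i 1) (xx i 2) = ff F x φ.g0
  h1 : ∀ x, ∑ i, T x (xx i 2) (xx i 0) + ∑ s, T x (zz s 0) (zz s 1) = ff F x φ.g1

/-- The linear condition of chain 1 in terms of the generators. -/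
def Hyp1 (φ : Dat m t k) : Prop := ∀ F, InMin1 F → ∃ T, Sol1 φ F T

end Blocks

end Pool.Agent.VCC
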