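import Pool.Agent.VCC.Targets

set_option autoImplicit false

/-!
# VCC, job IRR: the locus of very compressed algebras is irreducible
-/

namespace Pool.Agent.VCC

open MvPolynomial HilbPts Matrix

namespace IRR_

variable {n r : ℕ} {k : Type*} [Field k]

/-- surjectivity of the quadratic part -/
def Sur (g : Fin r → Fin n → Fin n → k) : Prop :=
  ∀ x : Fin r → k, ∃ M : Fin n → Fin n → k, ∀ s, ∑ a, ∑ b, M a b * g s a b = x s

/-- a presentation with the coordinates of a normal form is the normal form -/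
theorem basis_eq [CharZero k] (e : Fin (1 + n + r) ≃ Unit ⊕ Fin n ⊕ Fin r) {p : Fin n → k}
    {g : Fin r → Fin n → Fin n → k} (hg : ∀ s i j, g s i j = g s j i)
    (Q : Pres n (1 + n + r) k)
    (hQ : Q.coord = fun s => cvec (vcMat p g) (Pi.single (Sum.inl ()) 1) (cIdx e s))
    (f : MvPolynomial (Fin n) k) (a : Fin (1 + n + r)) :
    Q.basis (Ideal.Quotient.mk _ f) a = vcTheta p g f (e a) := by
  have h1 : ∀ a, Q.basis (Ideal.Quotient.mk _ 1) a = vcTheta p g 1 (e a) := by
    intro a
    have := congrFun hQ (Sum.inr a)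
    rw [vcTheta_one]
    exact this
  have hmat : ∀ i a b, Q.mat i a b = vcMat p g i (e a) (e b) := by
    intro i a b
    exact congrFun hQ (Sum.inl (i, a, b))
  induction f using MvPolynomial.induction_on generalizing a with
  | C c =>
    have e1 : (C c : MvPolynomial (Fin n) k) = c • 1 := by
      rw [MvPolynomial.smul_eq_C_mul, mul_one]
    rw [e1, mk_smul, map_smul, map_smul]
    simp only [Pi.smul_apply]
    rw [h1]
  | add u v hu hv =>
    rw [map_add, map_add, map_add]
    simp only [Pi.add_apply]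
    rw [hu, hv]
  | mul_X u i hu =>
    rw [mul_comm u (X i), vcTheta_X_mul p g hg, map_mul, Q.basis_mul]
    simp only [Matrix.mulVec, dotProduct]
    rw [← e.sum_comp]
    refine Finset.sum_congr rfl fun b _ => ?_
    rw [hmat, hu]

theorem sur_of [CharZero k] (e : Fin (1 + n + r) ≃ Unit ⊕ Fin n ⊕ Fin r) {p : Fin n → k}
    {g : Fin r → Fin n → Fin n → k} (hg : ∀ s i j, g s i j = g s j i)
    (Q : Pres n (1 + n + r) k)
    (hQ : Q.coord = fun s => cvec (vcMat p g) (Pi.single (Sum.inl ()) 1) (cIdx e s)) : Sur g := by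
  intro x
  obtain ⟨y, hy⟩ := Q.basis.surjective
    (fun a => (Sum.elim (fun _ => 0) (Sum.elim (fun _ => 0) x) : Unit ⊕ Fin n ⊕ Fin r → k) (e a))
  obtain ⟨f, rfl⟩ := Ideal.Quotient.mk_surjective y
  refine ⟨fun a b => 2⁻¹ * D2 p a b f, fun s => ?_⟩
  have h := congrFun hy (e.symm (Sum.inr (Sum.inr s)))
  rw [basis_eq e hg Q hQ, Equiv.apply_symm_apply] at h
  simpa [vcTheta] using h

theorem nonempty_vc [CharZero k] (e : Fin (1 + n + r) ≃ Unit ⊕ Fin n ⊕ Fin r)
    (hr : r ≤ (n + 1).choose 2) : (VC n (1 + n + r) k).Nonempty := by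
  classical
  obtain ⟨b₀⟩ : Nonempty (Fin r ↪ {x : Fin n × Fin n // x.1 ≤ x.2}) :=
    Function.Embedding.nonempty_of_card_le (by rw [card_pairs, Fintype.card_fin]; exact hr)
  obtain ⟨P, hP, -⟩ := exists_vc_values e b₀ b₀.injective
    (fun x => if x = none then (1 : k) else 0) (by simp)
  exact ⟨_, hP⟩

end IRR_

open IRR_ in
theorem p_IRR (k : Type*) [Field k] [CharZero k] : T_IRR k := by
  classical
  intro n r hr
  obtain ⟨e⟩ : Nonempty (Fin (1 + n + r) ≃ Unit ⊕ Fin n ⊕ Fin r) :=
    ⟨Fintype.equivOfCardEq (by simp; ring)⟩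
  refine ⟨nonempty_vc e hr, ?_⟩
  rintro U U' hU hU' ⟨x, hxV, hxU⟩ ⟨y, hyV, hyU⟩
  obtain ⟨P, rfl⟩ := toHilb_surjective x
  obtain ⟨P', rfl⟩ := toHilb_surjective y
  obtain ⟨p, g, Q, hg, hQP, hQ⟩ := vc_normal_form e P hxV
  obtain ⟨p', g', Q', hg', hQP', hQ'⟩ := vc_normal_form e P' hyV
  have hs := sur_of e hg Q hQ
  -- the equations
  obtain ⟨S, hS⟩ := (isClosed_hilb_iff Uᶜ).1 hU.isClosed_compl
  obtain ⟨S', hS'⟩ := (isClosed_hilb_iff U'ᶜ).1 hU'.isClosed_compl
  obtain ⟨u, huS, hu⟩ : ∃ u ∈ S, eval Q.coord u ≠ 0 := by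
    by_contra hcon
    push Not at hcon
    have := (hS Q).2 hcon
    rw [hQP] at this
    exact this hxU
  obtain ⟨u', huS', hu'⟩ : ∃ u ∈ S', eval Q'.coord u ≠ 0 := by
    by_contra hcon
    push Not at hcon
    have := (hS' Q').2 hcon
    rw [hQP'] at this
    exact this hyU
  -- the line
  set ct : (Fin n × Fin (1 + n + r) × Fin (1 + n + r)) ⊕ Fin (1 + n + r) → Polynomial k :=
    fun s => Polynomial.C (Q.coord s) * (1 - Polynomial.X) +
      Polynomial.C (Q'.coord s) * Polynomial.X with hct
  have hev : ∀ (v : MvPolynomial ((Fin n × Fin (1 + n + r) × Fin (1 + n + r)) ⊕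
      Fin (1 + n + r)) k) (t : k), (MvPolynomial.aeval ct v).eval t =
      eval (fun s => (1 - t) * Q.coord s + t * Q'.coord s) v := by
    intro v t
    have h1 : (MvPolynomial.aeval ct v).eval t =
        (Polynomial.evalRingHom t) (MvPolynomial.aeval ct v) := rfl
    rw [h1, MvPolynomial.aeval_def, MvPolynomial.eval₂_comp_left]
    have h2 : (Polynomial.evalRingHom t).comp (algebraMap k (Polynomial k)) = RingHom.id k := by
      ext c
      simp
    rw [h2]
    have h3 : (⇑(Polynomial.evalRingHom t) ∘ ct) = fun s => (1 - t) * Q.coord s +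
        t * Q'.coord s := by
      funext s
      simp only [Function.comp_apply, hct, Polynomial.coe_evalRingHom, Polynomial.eval_add,
        Polynomial.eval_mul, Polynomial.eval_sub, Polynomial.eval_C, Polynomial.eval_X,
        Polynomial.eval_one]
      ring
    rw [h3]
    rfl
  -- the determinant
  choose M hM using fun s' : Fin r => hs (Pi.single s' 1)
  set dt : Polynomial k := (Matrix.of fun s s' : Fin r => ∑ a, ∑ b, Polynomial.C (M s' a b) *
    (Polynomial.C (g s a b) * (1 - Polynomial.X) + Polynomial.C (g' s a b) * Polynomial.X)).det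
    with hdt
  have hdev : ∀ t : k, dt.eval t = (Matrix.of fun s s' : Fin r => ∑ a, ∑ b, M s' a b *
      ((1 - t) * g s a b + t * g' s a b)).det := by
    intro t
    have h1 : dt.eval t = (Polynomial.evalRingHom t) dt := rfl
    rw [h1, hdt, RingHom.map_det]
    congr 1
    ext s s'
    simp only [RingHom.mapMatrix_apply, Matrix.map_apply, Matrix.of_apply,
      Polynomial.coe_evalRingHom, Polynomial.eval_finsetSum, Polynomial.eval_mul,
      Polynomial.eval_add, Polynomial.eval_sub, Polynomial.eval_C, Polynomial.eval_X,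
      Polynomial.eval_one]
    refine Finset.sum_congr rfl fun a _ => Finset.sum_congr rfl fun b _ => ?_
    ring
  have hne : MvPolynomial.aeval ct u * MvPolynomial.aeval ct u' * dt ≠ 0 := by
    refine mul_ne_zero (mul_ne_zero ?_ ?_) ?_
    · intro h
      apply hu
      have := hev u 0
      rw [h] at this
      simpa using this.symm
    · intro h
      apply hu'
      have := hev u' 1
      rw [h] at this
      simpa using this.symm
    · intro h
      have h1 := hdev 0
      rw [h, Polynomial.eval_zero] at h1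
      have h2 : (Matrix.of fun s s' : Fin r => ∑ a, ∑ b, M s' a b *
          ((1 - 0) * g s a b + 0 * g' s a b)) = (1 : Matrix (Fin r) (Fin r) k) := by
        ext s s'
        rw [Matrix.of_apply]
        simp only [sub_zero, one_mul, zero_mul, add_zero]
        rw [hM s' s, Matrix.one_apply, Pi.single_apply]
      rw [h2, Matrix.det_one] at h1
      exact zero_ne_one h1
  obtain ⟨t, ht⟩ : ∃ t : k, (MvPolynomial.aeval ct u * MvPolynomial.aeval ct u' * dt).eval t ≠ 0 := by
    by_contra hcon
    push Not at hcon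
    exact hne (Polynomial.funext fun t => by rw [hcon, Polynomial.eval_zero])
  rw [Polynomial.eval_mul, Polynomial.eval_mul] at ht
  have ht1 := left_ne_zero_of_mul (left_ne_zero_of_mul ht)
  have ht2 := right_ne_zero_of_mul (left_ne_zero_of_mul ht)
  have ht3 := right_ne_zero_of_mul ht
  rw [hev] at ht1 ht2
  rw [hdev] at ht3
  -- the member of the line
  obtain ⟨R, hRV, -, hR⟩ := exists_vc e (fun i => (1 - t) * p i + t * p' i)
    (fun s a b => (1 - t) * g s a b + t * g' s a b)
    (fun s i j => by rw [hg, hg']) (by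
      intro x
      obtain ⟨c, hc⟩ : ∃ c : Fin r → k, (Matrix.of fun s s' : Fin r => ∑ a, ∑ b, M s' a b *
          ((1 - t) * g s a b + t * g' s a b)) *ᵥ c = x := by
        have hunit := (Matrix.isUnit_iff_isUnit_det _).2 (isUnit_iff_ne_zero.2 ht3)
        exact (Matrix.mulVec_surjective_iff_isUnit.2 hunit) x
      refine ⟨fun a b => ∑ s', c s' * M s' a b, fun s => ?_⟩
      rw [← hc]
      simp only [Matrix.mulVec, dotProduct, Matrix.of_apply, Finset.sum_mul]
      rw [Finset.sum_congr rfl fun a _ => Finset.sum_comm, Finset.sum_comm]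
      refine Finset.sum_congr rfl fun s' _ => Finset.sum_congr rfl fun a _ =>
        Finset.sum_congr rfl fun b _ => ?_
      ring)
  have hRc : R.coord = fun s => (1 - t) * Q.coord s + t * Q'.coord s := by
    rw [hR, hQ, hQ']
    funext s
    rcases s with ⟨i, a, b⟩ | a
    · simp only [cIdx, cvec, vcMat, Matrix.of_apply]
      split_ifs <;> rcases e a with a' | j | s' <;> rcases e b with b' | j' | s'' <;>
        simp <;> first | (split_ifs <;> ring1) | ring1
    · simp only [cIdx, cvec]
      ring
  refine ⟨R.toHilb, hRV, ?_, ?_⟩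
  · by_contra hcon
    have := (hS R).1 hcon u huS
    rw [hRc] at this
    exact ht1 this
  · by_contra hcon
    have := (hS' R).1 hcon u' huS'
    rw [hRc] at this
    exact ht2 this

end Pool.Agent.VCC
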