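import Pool.Agent.VCC.Targets

/-!
# RS: the rows of the functionals of chain 2 span
-/

set_option autoImplicit false

namespace Pool.Agent.VCC

namespace RS_

variable {m t : ℕ} {k : Type*} [Field k]

theorem row_i {i j : Fin m} (hij : i < j) (β : k) (l : Fin 3) :
    (pf i j (mN β l) : Ix m t → Ix m t → k) (xx i (l + 2)) = - Pi.single (xx j (l + 1)) 1 := by
  funext y
  rcases y with ⟨i', b⟩ | ⟨s, b⟩
  · have hne : i ≠ j := hij.ne
    by_cases hi : i' = j
    · subst hi
      simp only [xx, pf, true_and, if_true, Pi.neg_apply, Pi.single_apply, Sum.inl.injEq,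
        Prod.mk.injEq]
      fin_cases l <;> fin_cases b <;> simp [mN, two]
    · simp [pf, hi, hne]
  · simp [pf]

theorem row_j {i j : Fin m} (hij : i < j) (β : k) (l : Fin 3) :
    (pf i j (mN β l) : Ix m t → Ix m t → k) (xx j (l + 1)) = - Pi.single (xx i (l + 2)) 1 := by
  funext y
  rcases y with ⟨i', b⟩ | ⟨s, b⟩
  · have hne : j ≠ i := hij.ne'
    by_cases hi : i' = i
    · subst hi
      simp only [xx, pf, hne, false_and, if_false, true_and, if_true, Pi.neg_apply,
        Pi.single_apply, Sum.inl.injEq, Prod.mk.injEq]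
      fin_cases l <;> fin_cases b <;> simp [mN, two]
    · simp [pf, hi, hne]
  · simp [pf]

theorem row_z0 (i : Fin m) (s : Fin t) :
    (pz i s mA1 : Ix m t → Ix m t → k) (xx i 0) = Pi.single (zz s 0) 1 := by
  funext y
  rcases y with ⟨i', b⟩ | ⟨s', b⟩
  · simp [pz]
  · by_cases hs : s' = s
    · subst hs
      simp only [zz, pz, true_and, if_true, Pi.single_apply, Sum.inr.injEq, Prod.mk.injEq]
      fin_cases b <;> simp [mA1, two]
    · simp [pz, hs]

theorem row_z1 (i : Fin m) (s : Fin t) :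
    (pz i s mA1 : Ix m t → Ix m t → k) (xx i 1) = - Pi.single (zz s 1) 1 := by
  funext y
  rcases y with ⟨i', b⟩ | ⟨s', b⟩
  · simp [pz]
  · by_cases hs : s' = s
    · subst hs
      simp only [zz, pz, true_and, if_true, Pi.neg_apply, Pi.single_apply, Sum.inr.injEq,
        Prod.mk.injEq]
      fin_cases b <;> simp [mA1, two]
    · simp [pz, hs]

end RS_

open RS_

/-- No linear socle. -/
theorem p_RS (k : Type*) [Field k] [CharZero k] : T_RS k := by
  intro m t hm 𝓖 h𝓖
  have hx : ∀ (i : Fin m) (a : Fin 3), (Pi.single (xx i a) 1 : Ix m t → k) ∈ 𝓖 := by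
    intro i a
    obtain ⟨j, hj⟩ : ∃ j : Fin m, j ≠ i := by
      have : Nontrivial (Fin m) := Fin.nontrivial_iff_two_le.2 hm
      exact exists_ne i
    rcases lt_or_gt_of_ne hj with h | h
    · have h2 := h𝓖 _ (pfN_min2 (t := t) (k := k) h (a + 2)) (xx j (a + 2 + 2))
      rw [row_i h] at h2
      have e2 : a + 2 + 1 = a := by fin_cases a <;> rfl
      rw [e2] at h2
      simpa using 𝓖.neg_mem h2
    · have h2 := h𝓖 _ (pfN_min2 (t := t) (k := k) h (a + 1)) (xx j (a + 1 + 1))
      rw [row_j h] at h2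
      have e2 : a + 1 + 2 = a := by fin_cases a <;> rfl
      rw [e2] at h2
      simpa using 𝓖.neg_mem h2
  have hz : ∀ (s : Fin t) (b : Fin 2), (Pi.single (zz s b) 1 : Ix m t → k) ∈ 𝓖 := by
    intro s b
    have h0 := (pzA_min2 (m := m) (t := t) (k := k) ⟨0, by omega⟩ rfl s).1
    fin_cases b
    · have h1 := h𝓖 _ h0 (xx ⟨0, by omega⟩ 0)
      rw [row_z0] at h1
      exact h1
    · have h1 := h𝓖 _ h0 (xx ⟨0, by omega⟩ 1)
      rw [row_z1] at h1
      simpa using 𝓖.neg_mem h1
  rw [eq_top_iff]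
  intro u _
  rw [← Finset.univ_sum_single u]
  refine 𝓖.sum_mem fun y _ => ?_
  have e : (Pi.single y (u y) : Ix m t → k) = u y • Pi.single y 1 := by
    rw [← Pi.single_smul, smul_eq_mul, mul_one]
  rw [e]
  refine 𝓖.smul_mem _ ?_
  rcases y with ⟨i, a⟩ | ⟨s, b⟩
  · exact hx i a
  · exact hz s b

end Pool.Agent.VCC
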