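import Pool.Agent.VCC.Targets

/-!
# Type `Z`
-/

set_option autoImplicit false

namespace Pool.Agent.VCC

namespace TZ_

variable {m t : ℕ} {k : Type*} [Field k] {φ : Dat m t k}

/-- everything except the values of `e` -/
private theorem main [CharZero k] (h2 : T_ZZ0 k) (h3 : T_EQZ k) (h4 : T_ZTA k)
    (hm : 2 ≤ m) (hE : HypE φ) (hN : Nrm1 φ) (s : Fin t) :
    (∀ x b, φ.s x (zz s b) = 0) ∧ (∀ b, φ.g0 (zz s b) = 0) ∧
    (∀ (j : Fin m) d a, φ.q j s d (xx j a) = 0) := by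
  have hg1 : (fun b => φ.g1 (zz s b)) = 0 := by
    funext b
    exact hN.n4 s b
  have hz := h2 m t φ hm hE s
  have heq := h3 m t φ hE s (fun s' hs' d b => h2 m t φ hm hE s s' hs' d b)
  obtain ⟨hG, hS, hζ, hQ⟩ := h4 m (be k) (fun b => φ.g0 (zz s b)) (Sz φ s)
    (fun d b => φ.s (zz s d) (zz s b)) (fun j d a => φ.q j s d (xx j a)) (by omega)
    (fun i => be_ne i) (fun j => by
      have h := heq j
      rw [hg1] at h
      exact h)
  refine ⟨fun x b => ?_, fun b => congrFun hG b, fun j d a => congrFun (congrFun (hQ j) d) a⟩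
  rcases x with ⟨i, l⟩ | ⟨s', d⟩
  · exact congrFun (congrFun (hS i) l) b
  · by_cases hs : s' = s
    · subst hs
      exact congrFun (congrFun hζ d) b
    · exact hz s' hs d b

private theorem e_off (hE : HypE φ) {s s' : Fin t} (hs : s ≠ s')
    (h : ∀ x b, φ.s x (zz s b) = 0) :
    φ.e s s' 0 (zz s' 1) = 0 ∧ φ.e s s' 1 (zz s' 0) = 0 := by
  have key : ∀ (M : Fin 2 → Fin 2 → k), AdY M → ∀ b,
      ∑ b', M b b' * φ.e s s' b (zz s' b') = 0 := by
    intro M hM b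
    have hu := (hE _ (pzz_min1 hs hM)).u s s' hs b
    rw [ff_pzz_row hs, ff_pzz_col hs] at hu
    rw [hu]
    exact Finset.sum_eq_zero fun a _ => by rw [h, mul_zero]
  constructor
  · have := key (two 0 1 1 0 1 0) (by constructor <;> simp [two]) 0
    simpa [two, Fin.sum_univ_two] using this
  · have := key (two 1 0 1 1 0 0) (by constructor <;> simp [two]) 1
    simpa [two, Fin.sum_univ_two] using this

private theorem e_diag0 (hE : HypE φ) (hN : Nrm1 φ) {s s' : Fin t} (hs : s ≠ s')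
    (h : ∀ x b, φ.s x (zz s b) = 0) : φ.e s' s 0 (zz s' 0) = 0 := by
  have hM : AdY (two 1 0 1 1 0 0 : Fin 2 → Fin 2 → k) := by constructor <;> simp [two]
  have hz := (hE _ (pzz_min1 hs hM)).Z3 s'
  have z1 : ∀ (u : Ix m t → k), (∀ b, u (zz s b) = 0) → ∀ b,
      ff (pzz s s' (two 1 0 1 1 0 0 : Fin 2 → Fin 2 → k)) (zz s' b) u = 0 := by
    intro u hu b
    rw [ff_pzz_col hs]
    exact Finset.sum_eq_zero fun a _ => by rw [hu, mul_zero]
  rw [z1 _ (fun b => hN.n4 s b), z1 _ (fun b => h _ b)] at hz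
  have z2 : ∑ i : Fin m, (ff (pzz s s' (two 1 0 1 1 0 0 : Fin 2 → Fin 2 → k)) (xx i 2)
      (φ.q i s' 0) - ff (pzz s s' (two 1 0 1 1 0 0 : Fin 2 → Fin 2 → k)) (xx i 1) (φ.q i s' 1) +
      ff (pzz s s' (two 1 0 1 1 0 0 : Fin 2 → Fin 2 → k)) (zz s' 0) (φ.s (xx i 1))) = 0 := by
    refine Finset.sum_eq_zero fun i _ => ?_
    rw [ff_pzz_x, ff_pzz_x, z1 _ (fun b => h _ b)]
    ring
  rw [z2, Finset.sum_eq_single s] at hz
  · rw [if_neg hs.symm, ff_pzz_row hs] at hz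
    simpa [two, Fin.sum_univ_two] using hz.symm
  · intro s'' _ hs''
    split_ifs with h'
    · rfl
    · exact ff_pzz_other hs'' (Ne.symm h') _ _ _
  · simp

private theorem e_diag1 (hE : HypE φ) (hN : Nrm1 φ) {s s' : Fin t} (hs : s ≠ s')
    (h : ∀ x b, φ.s x (zz s b) = 0) : φ.e s' s 1 (zz s' 1) = 0 := by
  have hM : AdY (two 0 1 1 0 1 0 : Fin 2 → Fin 2 → k) := by constructor <;> simp [two]
  have hz := (hE _ (pzz_min1 hs hM)).Z4 s'
  have z1 : ∀ (u : Ix m t → k), (∀ b, u (zz s b) = 0) → ∀ b,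
      ff (pzz s s' (two 0 1 1 0 1 0 : Fin 2 → Fin 2 → k)) (zz s' b) u = 0 := by
    intro u hu b
    rw [ff_pzz_col hs]
    exact Finset.sum_eq_zero fun a _ => by rw [hu, mul_zero]
  rw [z1 _ (fun b => hN.n4 s b), z1 _ (fun b => h _ b)] at hz
  have z2 : ∑ i : Fin m, (ff (pzz s s' (two 0 1 1 0 1 0 : Fin 2 → Fin 2 → k)) (xx i 0)
      (φ.q i s' 1) - ff (pzz s s' (two 0 1 1 0 1 0 : Fin 2 → Fin 2 → k)) (xx i 1) (φ.q i s' 0) +
      ff (pzz s s' (two 0 1 1 0 1 0 : Fin 2 → Fin 2 → k)) (zz s' 1) (φ.s (xx i 1))) = 0 := by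
    refine Finset.sum_eq_zero fun i _ => ?_
    rw [ff_pzz_x, ff_pzz_x, z1 _ (fun b => h _ b)]
    ring
  rw [z2, Finset.sum_eq_single s] at hz
  · rw [if_neg hs.symm, ff_pzz_row hs] at hz
    simpa [two, Fin.sum_univ_two] using hz.symm
  · intro s'' _ hs''
    split_ifs with h'
    · rfl
    · exact ff_pzz_other hs'' (Ne.symm h') _ _ _
  · simp

end TZ_

theorem p_TZ (k : Type*) [Field k] [CharZero k] (h1 : T_ZET k) (h2 : T_ZZ0 k) (h3 : T_EQZ k)
    (h4 : T_ZTA k) : T_TZ k := by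
  intro m t φ hm hE hN s
  have _ := h1
  obtain ⟨hs, hg, hq⟩ := TZ_.main h2 h3 h4 hm hE hN s
  refine ⟨hs, hg, hq, fun s' hss b a => ?_⟩
  obtain ⟨e1, e2⟩ := TZ_.e_off hE hss hs
  have e3 := TZ_.e_diag0 hE hN hss hs
  have e4 := TZ_.e_diag1 hE hN hss hs
  rw [hN.es s' s] at e3 e4
  fin_cases b <;> fin_cases a
  · exact e3
  · exact e1
  · exact e2
  · exact e4

end Pool.Agent.VCC
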