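import Pool.Agent.VCC.Base3

/-!
# Targets.  Every target `T_X k` is proved in its own file `Pool/Agent/VCC/X.lean` as
`theorem p_X (k : Type*) [Field k] [CharZero k] (h1 : T_A k) ... : T_X k`.
See `Blueprint.lean.txt`.
-/

set_option autoImplicit false

namespace Pool.Agent.VCC

open MvPolynomial HilbPts

variable (k : Type*) [Field k]

/-! ## L1 -/

/-- `VC` is irreducible. -/
def T_IRR : Prop := ∀ n r : ℕ, r ≤ (n + 1).choose 2 → IsIrreducible (VC n (1 + n + r) k)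

/-- Where the determinant is nonzero, the monomials are a basis, and the structure constants are
quotients of determinants. -/
def T_CHART : Prop := ∀ (n r : ℕ) (e : Fin (1 + n + r) ≃ Unit ⊕ Fin n ⊕ Fin r)
  (P : Pres n (1 + n + r) k) (b : Fin r → Fin n × Fin n), delta e P b ≠ 0 →
  ∃ B : Module.Basis (Unit ⊕ Fin n ⊕ Fin r) k (MvPolynomial (Fin n) k ⧸ P.ideal),
    (∀ c, B c = Ideal.Quotient.mk P.ideal (mon b c)) ∧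
    ∀ i j s, B.repr (Ideal.Quotient.mk P.ideal (X i * X j)) (Sum.inr (Sum.inr s)) * delta e P b =
      delta e P (Function.update b s (i, j))

/-- The very compressed algebra with given normalised structure constants. -/
def T_VALS : Prop := ∀ (n r : ℕ) (e : Fin (1 + n + r) ≃ Unit ⊕ Fin n ⊕ Fin r)
  (b : Fin r → Fin n × Fin n) (μ : Fin n → Fin n → Fin r → k), Sym2' μ → Nrm b μ →
  ∃ P : Pres n (1 + n + r) k, P.toHilb ∈ VC n (1 + n + r) k ∧ delta e P b = 1 ∧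
    ∀ i j s, delta e P (Function.update b s (i, j)) = μ i j s

/-- Goodness is an open condition, given by a homogeneous polynomial. -/
def T_POLY : Prop := ∀ (n r : ℕ) (b : Fin r → Fin n × Fin n) (μ : Fin n → Fin n → Fin r → k),
  Sym2' μ → Nrm b μ → Good μ →
  ∃ (H : MvPolynomial (Fin n × Fin n × Fin r) k) (d : ℕ), H.IsHomogeneous d ∧
    eval (fun x => μ x.1 x.2.1 x.2.2) H ≠ 0 ∧
    ∀ ν : Fin n → Fin n → Fin r → k, Sym2' ν → Nrm b ν →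
      eval (fun x => ν x.1 x.2.1 x.2.2) H ≠ 0 → Good ν

/-- Good structure constants have `V W = S³V`. -/
def T_GNC : Prop := ∀ (n r : ℕ), 2 ≤ n → ∀ (b : Fin r → Fin n × Fin n)
  (μ : Fin n → Fin n → Fin r → k), Sym2' μ → Nrm b μ → Good μ →
  ∀ (T : Fin n → Fin n → Fin n → k) (γ : Fin n → Fin r → k), TSym T →
    (∀ i j l, T i j l = ∑ s, γ i s * μ j l s) → ∀ i j l, T i j l = 0

universe u v

/-- First step: coordinates in which the multiplication has no linear part. -/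
def T_FIB1 (k : Type u) [Field k] : Prop := ∀ (n r : ℕ) (A : Type u) [CommRing A] [Algebra k A]
  (x : Fin n → A) (q : Fin r → A) (B : Module.Basis (Unit ⊕ Fin n ⊕ Fin r) k A)
  (μ : Fin n → Fin n → Fin r → k),
  B (Sum.inl ()) = 1 → (∀ i, B (Sum.inr (Sum.inl i)) = x i) →
  (∀ s, B (Sum.inr (Sum.inr s)) = q s) →
  (∀ i j s, B.repr (x i * x j) (Sum.inr (Sum.inr s)) = μ i j s) → Good μ →
  ∃ (v : Fin n → k) (q' : Fin r → A) (B' : Module.Basis (Unit ⊕ Fin n ⊕ Fin r) k A)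
    (ψ : Fin n → Fin n → k),
    B' (Sum.inl ()) = 1 ∧ (∀ i, B' (Sum.inr (Sum.inl i)) = x i - algebraMap k A (v i)) ∧
    (∀ s, B' (Sum.inr (Sum.inr s)) = q' s) ∧
    (∀ i j, (x i - algebraMap k A (v i)) * (x j - algebraMap k A (v j)) =
      ∑ s, μ i j s • q' s + algebraMap k A (ψ i j)) ∧
    ∀ i s s', B'.repr ((x i - algebraMap k A (v i)) * q' s) (Sum.inr (Sum.inr s')) = 0

/-- Second step: the constants can be absorbed. -/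
def T_FIB2 (k : Type u) [Field k] : Prop := ∀ (n r : ℕ), 2 ≤ n → r + 2 ≤ (n + 1).choose 2 →
  ∀ (A : Type u) [CommRing A] [Algebra k A]
  (y : Fin n → A) (q : Fin r → A) (B : Module.Basis (Unit ⊕ Fin n ⊕ Fin r) k A)
  (b : Fin r → Fin n × Fin n) (μ : Fin n → Fin n → Fin r → k) (ψ : Fin n → Fin n → k),
  B (Sum.inl ()) = 1 → (∀ i, B (Sum.inr (Sum.inl i)) = y i) →
  (∀ s, B (Sum.inr (Sum.inr s)) = q s) → Nrm b μ →
  (∀ i j, y i * y j = ∑ s, μ i j s • q s + algebraMap k A (ψ i j)) →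
  (∀ i s s', B.repr (y i * q s) (Sum.inr (Sum.inr s')) = 0) → Good μ →
  (∀ i s, B.repr (y i * q s) (Sum.inl ()) = 0) ∧ ∃ c : Fin r → k, ∀ i j, ψ i j = ∑ s, μ i j s * c s

/-- Third step: the cubes vanish. -/
def T_FIB3 (k : Type u) [Field k] : Prop := ∀ (n r : ℕ), 2 ≤ n →
  ∀ (A : Type u) [CommRing A] [Algebra k A]
  (y : Fin n → A) (q : Fin r → A) (B : Module.Basis (Unit ⊕ Fin n ⊕ Fin r) k A)
  (b : Fin r → Fin n × Fin n) (μ : Fin n → Fin n → Fin r → k) (ψ : Fin n → Fin n → k)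
  (c : Fin r → k),
  B (Sum.inl ()) = 1 → (∀ i, B (Sum.inr (Sum.inl i)) = y i) →
  (∀ s, B (Sum.inr (Sum.inr s)) = q s) → Nrm b μ → Sym2' μ →
  (∀ i j, y i * y j = ∑ s, μ i j s • q s + algebraMap k A (ψ i j)) →
  (∀ i s s', B.repr (y i * q s) (Sum.inr (Sum.inr s')) = 0) →
  (∀ i s, B.repr (y i * q s) (Sum.inl ()) = 0) → (∀ i j, ψ i j = ∑ s, μ i j s * c s) → Good μ →
  (∀ i j l, y i * y j * y l = 0) ∧
  ∀ (c₀ : k) (a : Fin n → k) (M : Fin n → Fin n → k),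
    algebraMap k A c₀ + ∑ i, a i • y i + ∑ i, ∑ j, M i j • (y i * y j) = 0 → c₀ = 0 ∧ ∀ i, a i = 0

/-- Near good structure constants every scheme is very compressed. -/
def T_OPEN : Prop := ∀ (n r : ℕ), 2 ≤ n → r + 2 ≤ (n + 1).choose 2 →
  ∀ (b : Fin r → Fin n × Fin n) (μ : Fin n → Fin n → Fin r → k), Sym2' μ → Nrm b μ → Good μ →
  ∃ U : Set (Hilb n (1 + n + r) k), IsOpen U ∧ U.Nonempty ∧ U ⊆ VC n (1 + n + r) k

/-- From spaces of functionals to structure constants. -/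
def T_STRUCT : Prop := ∀ (n r : ℕ) (𝓕 : Submodule k (Fin n → Fin n → k)),
  (∀ F ∈ 𝓕, ∀ x y, F x y = F y x) → Module.finrank k 𝓕 = r → NoCubic 𝓕 → T1 𝓕 𝓕 →
  ∃ (b : Fin r → Fin n × Fin n) (μ : Fin n → Fin n → Fin r → k), Sym2' μ ∧ Nrm b μ ∧ Good μ

/-- The component criterion. -/
def T_L1 : Prop := ∀ (n r : ℕ), 2 ≤ n → r + 2 ≤ (n + 1).choose 2 →
  ∀ 𝓕 : Submodule k (Fin n → Fin n → k),
  (∀ F ∈ 𝓕, ∀ x y, F x y = F y x) → Module.finrank k 𝓕 = r → NoCubic 𝓕 → T1 𝓕 𝓕 →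
  closure (VC n (1 + n + r) k) ∈ irreducibleComponents (Hilb n (1 + n + r) k)

/-! ## L2, general part -/

/-- The chain lemma. -/
def T_CHAIN : Prop := ∀ (ι : Type) [Fintype ι] [DecidableEq ι]
  (𝓕min 𝓕 𝓕max : Submodule k (ι → ι → k)), 𝓕min ≤ 𝓕 → 𝓕 ≤ 𝓕max →
  (∀ F ∈ 𝓕max, ∀ x y, F x y = F y x) → NoCubic 𝓕max → T1 𝓕min 𝓕max → RowSpan 𝓕min →
  NoCubic 𝓕 ∧ T1 𝓕 𝓕

/-- Transport to `Fin n`. -/
def T_TRANSP : Prop := ∀ (ι : Type) [Fintype ι] [DecidableEq ι] (n : ℕ) (_ : ι ≃ Fin n)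
  (𝓕 : Submodule k (ι → ι → k)), (∀ F ∈ 𝓕, ∀ x y, F x y = F y x) → NoCubic 𝓕 → T1 𝓕 𝓕 →
  ∃ 𝓖 : Submodule k (Fin n → Fin n → k), (∀ F ∈ 𝓖, ∀ x y, F x y = F y x) ∧
    Module.finrank k 𝓖 = Module.finrank k 𝓕 ∧ NoCubic 𝓖 ∧ T1 𝓖 𝓖

/-! ## L2, block spaces -/

/-- cubics of three different 3-blocks -/
def T_NC3 : Prop := ∀ β γ : k, β ≠ 0 → γ ≠ 0 → β ^ 3 ≠ γ ^ 3 → γ ^ 6 ≠ 1 → β ^ 3 * γ ^ 3 ≠ 1 →
  ∀ T : Fin 3 → Fin 3 → Fin 3 → k, (∀ l c, T l l c + β * T (l + 2) (l + 1) c = 0) →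
    (∀ l b, T l b l + γ * T (l + 2) b (l + 1) = 0) →
    (∀ l a, T a l l + γ * T a (l + 2) (l + 1) = 0) → ∀ a b c, T a b c = 0

/-- cubics of two different 3-blocks and a 2-block -/
def T_NC2 : Prop := ∀ β : k, β ≠ 0 → β ≠ 1 → β ≠ -1 →
  ∀ T : Fin 3 → Fin 3 → Fin 2 → k, (∀ l c, T l l c + β * T (l + 2) (l + 1) c = 0) →
    (∀ b, T 0 b 0 + T 1 b 1 = 0 ∧ T 1 b 0 + T 2 b 1 = 0) →
    (∀ a, T a 0 0 + T a 1 1 = 0 ∧ T a 1 0 + T a 2 1 = 0) → ∀ a b c, T a b c = 0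

/-- `V W_min1 = S³V`. -/
def T_NC : Prop := ∀ m t : ℕ, t ≤ 2 → NoCubic (Fmax1 m t k)

/-- No linear socle. -/
def T_RS : Prop := ∀ m t : ℕ, 2 ≤ m → RowSpan (Fmin2 m t k)

/-- Lower bound for the dimension of `𝓕_max1`. -/
def T_D1 : Prop := ∀ m t : ℕ, t ≤ 2 →
  (3 * m + 2 * t + 1).choose 2 ≤ Module.finrank k (Fmax1 m t k) +
    ((3 * m + 2 * t) + 3 * m.choose 2 + 2 * t * m + (if t = 2 then 2 else 0) + 2)

/-- Upper bound for the dimension of `𝓕_min2`. -/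
def T_D2 : Prop := ∀ m t : ℕ, t ≤ 2 →
  Module.finrank k (Fmin2 m t k) ≤ 3 * m.choose 2 + 2 * t * m + (if t = 2 then 2 else 0)

/-- Reduction of the linear condition of chain 1 to normalised data. -/
def T_RED1 : Prop := ∀ m t : ℕ, t ≤ 2 → (∀ φ : Dat m t k, HypE φ → Nrm1 φ → Zero1 φ) →
  T1 (Fmin1 m t k) (Fmax1 m t k)

/-- Reduction of the linear condition of chain 2 to normalised data. -/
def T_RED2 : Prop := ∀ m t : ℕ, t ≤ 2 → (∀ φ : Dat2 m t k, HypE2 φ → Nrm2 φ → Zero2 φ) →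
  T1 (Fmin2 m t k) (Fmin1 m t k)

/-! ### Chain 1 -/

section Mats

variable {k}

/-- (A0), `c < j` -/
def XA0 (β : k) (G0 : Fin 3 → k) (Y X P : Fin 3 → Fin 3 → k) (a b : Fin 3) : k :=
  ![β * X 1 b, - Y 2 b, G0 b] a - (if b = 1 then P 2 a else 0)
/-- (A1), `c < j` -/
def XA1 (β : k) (G1 : Fin 3 → k) (Y X P : Fin 3 → Fin 3 → k) (a b : Fin 3) : k :=
  ![G1 b, β * X 2 b, - Y 0 b] a - (if b = 2 then P 0 a else 0)
/-- (B0), `c < j` -/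
noncomputable def XB0 (β : k) (G0 : Fin 3 → k) (Y U P : Fin 3 → Fin 3 → k) (a b : Fin 3) : k :=
  ![U 2 b, G0 b, - Y 1 b] a - (1 + β ^ 3)⁻¹ * ![- β * P 2 a, β ^ 2 * P 0 a, P 1 a] b
/-- (B1), `c < j` -/
noncomputable def XB1 (β : k) (G1 : Fin 3 → k) (Y U P : Fin 3 → Fin 3 → k) (a b : Fin 3) : k :=
  ![- Y 2 b, U 0 b, G1 b] a - (1 + β ^ 3)⁻¹ * ![P 2 a, - β * P 0 a, β ^ 2 * P 1 a] b
/-- (C), `c < j` -/
noncomputable def XC (β : k) (G0 G1 : Fin 3 → k) (X V P : Fin 3 → Fin 3 → k) (a b : Fin 3) : k :=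
  ![G0 b - β⁻¹ * X 0 b, - G1 b + V 1 b, β⁻¹ * X 2 b - V 2 b] a +
    β⁻¹ * ![P 0 a, 0, - P 2 a] b

/-- (A0), `j < c`; `β = β_c`, `δ = β_j` -/
noncomputable def YA0 (β δ : k) (G0 : Fin 3 → k) (Y X P : Fin 3 → Fin 3 → k) (a b : Fin 3) : k :=
  ![δ * X 1 b, - Y 2 b, G0 b] a - (1 + β ^ 3)⁻¹ * ![- β * P 1 a, P 2 a, β ^ 2 * P 0 a] b
/-- (B0), `j < c` -/
def YB0 (G0 : Fin 3 → k) (Y U P : Fin 3 → Fin 3 → k) (a b : Fin 3) : k :=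
  ![U 2 b, G0 b, - Y 1 b] a - (if b = 2 then P 1 a else 0)
/-- (A1), `j < c` -/
noncomputable def YA1 (β δ : k) (G1 : Fin 3 → k) (Y X P : Fin 3 → Fin 3 → k) (a b : Fin 3) : k :=
  ![G1 b, δ * X 2 b, - Y 0 b] a - (1 + β ^ 3)⁻¹ * ![β ^ 2 * P 1 a, - β * P 2 a, P 0 a] b
/-- (B1), `j < c` -/
def YB1 (G1 : Fin 3 → k) (Y U P : Fin 3 → Fin 3 → k) (a b : Fin 3) : k :=
  ![- Y 2 b, U 0 b, G1 b] a - (if b = 0 then P 2 a else 0)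
/-- (C), `j < c` -/
noncomputable def YC (β δ : k) (G0 G1 : Fin 3 → k) (X V P : Fin 3 → Fin 3 → k)
    (a b : Fin 3) : k :=
  ![G0 b - δ⁻¹ * X 0 b, - G1 b + V 1 b, δ⁻¹ * X 2 b - V 2 b] a +
    β⁻¹ * ![0, - P 1 a, P 2 a] b

variable {m t : ℕ}

/-- sum over the blocks before `j` -/
def sLo (j : Fin m) (S : Fin m → Fin 3 → Fin 3 → k) (l b : Fin 3) : k :=
  ∑ i, if i < j then S i l b else 0
/-- weighted sum over the blocks after `j` -/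
def sHi (j : Fin m) (w : Fin m → k) (S : Fin m → Fin 3 → Fin 3 → k) (l b : Fin 3) : k :=
  ∑ i, if j < i then w i * S i l b else 0

/-- the component in the block `c` of the values on the squares -/
def Sc (φ : Dat m t k) (c i : Fin m) (l b : Fin 3) : k := φ.s (xx i l) (xx c b)

end Mats

/-- the values on the squares of the variables of the 2-blocks have no component in 3-blocks -/
def T_ZET : Prop := ∀ (m t : ℕ) (φ : Dat m t k), 2 ≤ m → HypE φ →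
  ∀ c s b a, φ.s (zz s b) (xx c a) = 0

/-- equations for `c < j` -/
def T_EQG : Prop := ∀ (m t : ℕ) (φ : Dat m t k), HypE φ →
  ∀ c : Fin m, (∀ s b a, φ.s (zz s b) (xx c a) = 0) → ∀ j, c < j →
  WG (be k j) (XA0 (be k j) (fun b => φ.g0 (xx c b)) (Sc φ c j) (sLo j (Sc φ c))
    fun l a => φ.p c j l (xx j a)) ∧
  WG (be k j) (XA1 (be k j) (fun b => φ.g1 (xx c b)) (Sc φ c j) (sLo j (Sc φ c))
    fun l a => φ.p c j l (xx j a)) ∧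
  WG (be k j) (XB0 (be k j) (fun b => φ.g0 (xx c b)) (Sc φ c j) (sHi j (be k) (Sc φ c))
    fun l a => φ.p c j l (xx j a)) ∧
  WG (be k j) (XB1 (be k j) (fun b => φ.g1 (xx c b)) (Sc φ c j) (sHi j (be k) (Sc φ c))
    fun l a => φ.p c j l (xx j a)) ∧
  WG (be k j) (XC (be k j) (fun b => φ.g0 (xx c b)) (fun b => φ.g1 (xx c b)) (sLo j (Sc φ c))
    (sHi j (fun i => (be k i)⁻¹) (Sc φ c)) fun l a => φ.p c j l (xx j a))

/-- equations for `j < c` -/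
def T_EQL : Prop := ∀ (m t : ℕ) (φ : Dat m t k), HypE φ →
  ∀ c : Fin m, (∀ s b a, φ.s (zz s b) (xx c a) = 0) → ∀ j, j < c →
  WL (be k c) (YA0 (be k c) (be k j) (fun b => φ.g0 (xx c b)) (Sc φ c j) (sLo j (Sc φ c))
    fun l a => φ.p j c l (xx j a)) ∧
  WL (be k c) (YA1 (be k c) (be k j) (fun b => φ.g1 (xx c b)) (Sc φ c j) (sLo j (Sc φ c))
    fun l a => φ.p j c l (xx j a)) ∧
  WL (be k c) (YB0 (fun b => φ.g0 (xx c b)) (Sc φ c j) (sHi j (be k) (Sc φ c))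
    fun l a => φ.p j c l (xx j a)) ∧
  WL (be k c) (YB1 (fun b => φ.g1 (xx c b)) (Sc φ c j) (sHi j (be k) (Sc φ c))
    fun l a => φ.p j c l (xx j a)) ∧
  WL (be k c) (YC (be k c) (be k j) (fun b => φ.g0 (xx c b)) (fun b => φ.g1 (xx c b))
    (sLo j (Sc φ c)) (sHi j (fun i => (be k i)⁻¹) (Sc φ c)) fun l a => φ.p j c l (xx j a))

/-- solution of one step, `c < j` (pure algebra) -/
def T_GTA : Prop := ∀ (β : k) (G0 G1 : Fin 3 → k) (Y X P : Fin 3 → Fin 3 → k),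
  β ≠ 0 → 1 + β ^ 3 ≠ 0 → G0 1 = 0 → G0 2 = 0 → G1 2 = 0 →
  WG β (XA0 β G0 Y X P) → WG β (XA1 β G1 Y X P) → WG β (XB0 β G0 Y 0 P) →
  WG β (XB1 β G1 Y 0 P) → WG β (XC β G0 G1 X 0 P) →
  G0 = 0 ∧ G1 = 0 ∧ Y = 0 ∧ X = 0 ∧ P = 0

/-- solution of all the steps `j < c` (pure algebra; `m` blocks, the values for `i > c` vanish) -/
def T_LTA : Prop := ∀ (m : ℕ) (w : Fin m → k) (c : Fin m) (G0 G1 : Fin 3 → k)
  (S : Fin m → Fin 3 → Fin 3 → k) (P : Fin m → Fin 3 → Fin 3 → k),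
  (∀ i, w i ≠ 0) → (∀ i, 1 + w i ^ 3 ≠ 0) → (0 : ℕ) < (c : ℕ) →
  G0 1 = 0 → G0 2 = 0 → G1 2 = 0 → (∀ i, c < i → S i = 0) →
  (∀ j, j < c →
    WL (w c) (YA0 (w c) (w j) G0 (S j) (sLo j S) (P j)) ∧
    WL (w c) (YA1 (w c) (w j) G1 (S j) (sLo j S) (P j)) ∧
    WL (w c) (YB0 G0 (S j) (sHi j w S) (P j)) ∧
    WL (w c) (YB1 G1 (S j) (sHi j w S) (P j)) ∧
    WL (w c) (YC (w c) (w j) G0 G1 (sLo j S) (sHi j (fun i => (w i)⁻¹) S) (P j))) →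
  G0 = 0 ∧ G1 = 0 ∧ (∀ i, S i = 0) ∧ ∀ j, j < c → P j = 0

/-- type `T_c` -/
def T_TC : Prop := ∀ (m t : ℕ) (φ : Dat m t k), 2 ≤ m → HypE φ → Nrm1 φ → ∀ c : Fin m,
  (∀ i l b, φ.s (xx i l) (xx c b) = 0) ∧ (∀ b, φ.g0 (xx c b) = 0) ∧ (∀ b, φ.g1 (xx c b) = 0) ∧
  (∀ j, c < j → ∀ l a, φ.p c j l (xx j a) = 0) ∧ (∀ j, j < c → ∀ l a, φ.p j c l (xx j a) = 0)

/-- type `T_c`, the 2-blocks -/
def T_TCZ : Prop := ∀ (m t : ℕ) (φ : Dat m t k), 2 ≤ m → HypE φ → Nrm1 φ →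
  ∀ (c : Fin m) (s : Fin t) d b, φ.q c s d (zz s b) = 0

/-- type `T_abc` -/
def T_TABC : Prop := ∀ (m t : ℕ) (φ : Dat m t k), HypE φ → ∀ a b c : Fin m, a < b → b < c →
  ∀ l e, φ.p a c l (xx b e) = 0 ∧ φ.p b c l (xx a e) = 0 ∧ φ.p a b l (xx c e) = 0

/-- type `T_abZ` -/
def T_TABZ : Prop := ∀ (m t : ℕ) (φ : Dat m t k), HypE φ → ∀ (a b : Fin m) (s : Fin t), a < b →
  (∀ l d, φ.p a b l (zz s d) = 0) ∧ (∀ d e, φ.q a s d (xx b e) = 0) ∧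
  (∀ d e, φ.q b s d (xx a e) = 0)

/-- type `T_aZZ'` -/
def T_TAZZ : Prop := ∀ (m t : ℕ) (φ : Dat m t k), HypE φ → ∀ (a : Fin m) (s s' : Fin t),
  s ≠ s' → (∀ d b, φ.q a s d (zz s' b) = 0) ∧ (∀ b e, φ.e s s' b (xx a e) = 0)

section MatsZ

variable {k}

/-- (A0), 2-block; `δ = β_j` -/
def ZA0 (δ : k) (G0 : Fin 2 → k) (Y X : Fin 3 → Fin 2 → k) (a : Fin 3) (b : Fin 2) : k :=
  ![δ * X 1 b, - Y 2 b, G0 b] a
/-- (B0), 2-block -/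
def ZB0 (G0 : Fin 2 → k) (Y U : Fin 3 → Fin 2 → k) (a : Fin 3) (b : Fin 2) : k :=
  ![U 2 b, G0 b, - Y 1 b] a
/-- (A1), 2-block -/
def ZA1 (δ : k) (G1 : Fin 2 → k) (Y X : Fin 3 → Fin 2 → k) (ζ : Fin 2 → Fin 2 → k)
    (Q : Fin 2 → Fin 3 → k) (a : Fin 3) (b : Fin 2) : k :=
  ![G1 b, δ * X 2 b + ζ 1 b, - Y 0 b] a - ![0, Q 0 a] b
/-- (B1), 2-block -/
def ZB1 (G1 : Fin 2 → k) (Y U : Fin 3 → Fin 2 → k) (ζ : Fin 2 → Fin 2 → k)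
    (Q : Fin 2 → Fin 3 → k) (a : Fin 3) (b : Fin 2) : k :=
  ![- Y 2 b, U 0 b + ζ 0 b, G1 b] a - ![Q 1 a, 0] b
/-- (C), 2-block -/
noncomputable def ZC (δ : k) (G0 G1 : Fin 2 → k) (X V : Fin 3 → Fin 2 → k)
    (ζ : Fin 2 → Fin 2 → k) (Q : Fin 2 → Fin 3 → k) (a : Fin 3) (b : Fin 2) : k :=
  ![G0 b - δ⁻¹ * X 0 b - ζ 0 b, - G1 b + V 1 b, δ⁻¹ * X 2 b - V 2 b] a + ![Q 0 a, 0] b
/-- (sigma), 2-block -/
def ZS (ζ : Fin 2 → Fin 2 → k) (Q : Fin 2 → Fin 3 → k) (a : Fin 3) (b : Fin 2) : k :=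
  ![- ζ 0 b, 0, ζ 1 b] a + ![Q 0 a, - Q 1 a] b

variable {m t : ℕ}

/-- sum over the blocks before `j` -/
def tLo (j : Fin m) (S : Fin m → Fin 3 → Fin 2 → k) (l : Fin 3) (b : Fin 2) : k :=
  ∑ i, if i < j then S i l b else 0
/-- weighted sum over the blocks after `j` -/
def tHi (j : Fin m) (w : Fin m → k) (S : Fin m → Fin 3 → Fin 2 → k) (l : Fin 3) (b : Fin 2) : k :=
  ∑ i, if j < i then w i * S i l b else 0

/-- the component in the 2-block `s` of the values on the squares -/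
def Sz (φ : Dat m t k) (s : Fin t) (i : Fin m) (l : Fin 3) (b : Fin 2) : k :=
  φ.s (xx i l) (zz s b)

end MatsZ

/-- the squares of the other 2-blocks -/
def T_ZZ0 : Prop := ∀ (m t : ℕ) (φ : Dat m t k), 2 ≤ m → HypE φ →
  ∀ s s' : Fin t, s' ≠ s → ∀ d b, φ.s (zz s' d) (zz s b) = 0

/-- equations for a 2-block -/
def T_EQZ : Prop := ∀ (m t : ℕ) (φ : Dat m t k), HypE φ →
  ∀ s : Fin t, (∀ s', s' ≠ s → ∀ d b, φ.s (zz s' d) (zz s b) = 0) → ∀ j : Fin m,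
  WZ (ZA0 (be k j) (fun b => φ.g0 (zz s b)) (Sz φ s j) (tLo j (Sz φ s))) ∧
  WZ (ZB0 (fun b => φ.g0 (zz s b)) (Sz φ s j) (tHi j (be k) (Sz φ s))) ∧
  WZ (ZA1 (be k j) (fun b => φ.g1 (zz s b)) (Sz φ s j) (tLo j (Sz φ s))
    (fun d b => φ.s (zz s d) (zz s b)) fun d a => φ.q j s d (xx j a)) ∧
  WZ (ZB1 (fun b => φ.g1 (zz s b)) (Sz φ s j) (tHi j (be k) (Sz φ s))
    (fun d b => φ.s (zz s d) (zz s b)) fun d a => φ.q j s d (xx j a)) ∧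
  WZ (ZC (be k j) (fun b => φ.g0 (zz s b)) (fun b => φ.g1 (zz s b)) (tLo j (Sz φ s))
    (tHi j (fun i => (be k i)⁻¹) (Sz φ s)) (fun d b => φ.s (zz s d) (zz s b))
    fun d a => φ.q j s d (xx j a)) ∧
  WZ (ZS (fun d b => φ.s (zz s d) (zz s b)) fun d a => φ.q j s d (xx j a))

/-- solution of the equations for a 2-block (pure algebra) -/
def T_ZTA : Prop := ∀ (m : ℕ) (w : Fin m → k) (G0 : Fin 2 → k)
  (S : Fin m → Fin 3 → Fin 2 → k) (ζ : Fin 2 → Fin 2 → k) (Q : Fin m → Fin 2 → Fin 3 → k),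
  0 < m → (∀ i, w i ≠ 0) →
  (∀ j,
    WZ (ZA0 (w j) G0 (S j) (tLo j S)) ∧ WZ (ZB0 G0 (S j) (tHi j w S)) ∧
    WZ (ZA1 (w j) 0 (S j) (tLo j S) ζ (Q j)) ∧ WZ (ZB1 0 (S j) (tHi j w S) ζ (Q j)) ∧
    WZ (ZC (w j) G0 0 (tLo j S) (tHi j (fun i => (w i)⁻¹) S) ζ (Q j)) ∧ WZ (ZS ζ (Q j))) →
  G0 = 0 ∧ (∀ i, S i = 0) ∧ ζ = 0 ∧ ∀ i, Q i = 0

/-- type `T_Z` -/
def T_TZ : Prop := ∀ (m t : ℕ) (φ : Dat m t k), 2 ≤ m → HypE φ → Nrm1 φ → ∀ s : Fin t,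
  (∀ x b, φ.s x (zz s b) = 0) ∧ (∀ b, φ.g0 (zz s b) = 0) ∧
  (∀ (j : Fin m) d a, φ.q j s d (xx j a) = 0) ∧
  (∀ s', s ≠ s' → ∀ b a, φ.e s s' b (zz s' a) = 0)

/-- chain 1: all the data vanish -/
def T_ZERO1 : Prop := ∀ (m t : ℕ), 2 ≤ m → t ≤ 2 → ∀ φ : Dat m t k, HypE φ → Nrm1 φ → Zero1 φ

/-! ### Chain 2 -/

/-- shift `e_j - 2 e_i`, 3-blocks -/
def T_C2A : Prop := ∀ (m t : ℕ) (φ : Dat2 m t k), HypE2 φ → Nrm2 φ → ∀ i j : Fin m, i ≠ j →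
  ∀ a b c, φ.s2 i a b (xx j c) = 0

/-- shift `- e_i`, 3-blocks -/
def T_C2B : Prop := ∀ (m t : ℕ) (φ : Dat2 m t k), 2 ≤ m → HypE2 φ → Nrm2 φ →
  (∀ i a b c, φ.s2 i a b (xx i c) = 0) ∧
  (∀ i j : Fin m, i < j → ∀ c a, φ.p i j c (xx i a) = 0 ∧ φ.p i j c (xx j a) = 0)

/-- other components of `p`, `q`, `e` -/
def T_C2C : Prop := ∀ (m t : ℕ) (φ : Dat2 m t k), HypE2 φ →
  (∀ i j l : Fin m, i < j → l ≠ i → l ≠ j → ∀ c a, φ.p i j c (xx l a) = 0) ∧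
  (∀ (i j : Fin m) (s : Fin t), i < j → ∀ c b, φ.p i j c (zz s b) = 0) ∧
  (∀ (i j : Fin m) (s : Fin t), i ≠ j → ∀ d a, φ.q i s d (xx j a) = 0) ∧
  (∀ (i : Fin m) (s s' : Fin t), s ≠ s' → ∀ d b, φ.q i s d (zz s' b) = 0) ∧
  (∀ (a : Fin m) (s s' : Fin t), s ≠ s' → ∀ b c, φ.e s s' b (xx a c) = 0)

/-- shifts `e_Z - 2 e_i`, `e_i - 2 e_Z`, `e_Z' - 2 e_Z` -/
def T_C2D : Prop := ∀ (m t : ℕ) (φ : Dat2 m t k), 2 ≤ m → HypE2 φ → Nrm2 φ →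
  (∀ (i : Fin m) (s : Fin t) a b d, φ.s2 i a b (zz s d) = 0) ∧
  (∀ (i : Fin m) (s : Fin t) d d' a, φ.z2 s d d' (xx i a) = 0) ∧
  (∀ s s' : Fin t, s ≠ s' → ∀ d d' b, φ.z2 s d d' (zz s' b) = 0)

/-- shift `- e_Z` -/
def T_C2E : Prop := ∀ (m t : ℕ) (φ : Dat2 m t k), 2 ≤ m → HypE2 φ → Nrm2 φ →
  (∀ s d d' b, φ.z2 s d d' (zz s b) = 0) ∧
  (∀ (i : Fin m) (s : Fin t) d a, φ.q i s d (xx i a) = 0) ∧
  (∀ s s' : Fin t, s ≠ s' → ∀ b a, φ.e s s' b (zz s' a) = 0 ∧ φ.e s s' b (zz s a) = 0)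

/-- chain 2: all the data vanish -/
def T_ZERO2 : Prop := ∀ (m t : ℕ), 2 ≤ m → t ≤ 2 → ∀ φ : Dat2 m t k, HypE2 φ → Nrm2 φ → Zero2 φ

/-! ## The result -/

/-- Existence of the good spaces of functionals. -/
def T_L2 : Prop := ∀ (m t r : ℕ), 2 ≤ m → t ≤ 2 →
  3 * m.choose 2 + 2 * t * m + (if t = 2 then 2 else 0) ≤ r →
  r + ((3 * m + 2 * t) + 3 * m.choose 2 + 2 * t * m + (if t = 2 then 2 else 0) + 2) ≤
    (3 * m + 2 * t + 1).choose 2 →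
  ∃ 𝓕 : Submodule k (Fin (3 * m + 2 * t) → Fin (3 * m + 2 * t) → k),
    (∀ F ∈ 𝓕, ∀ x y, F x y = F y x) ∧ Module.finrank k 𝓕 = r ∧ NoCubic 𝓕 ∧ T1 𝓕 𝓕

/-- The result. -/
def T_MAIN : Prop := ∀ (n r : ℕ), (n = 6 ∨ 8 ≤ n) → (n - 1) * (n - 2) + 12 < 6 * r →
  3 * r + (if n % 3 = 0 then 6 else if n % 3 = 2 then 7 else 10) ≤ n ^ 2 →
  closure (VC n (1 + n + r) k) ∈ irreducibleComponents (Hilb n (1 + n + r) k)

end Pool.Agent.VCC
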